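import Mathlib

set_option autoImplicit false

namespace Pool.Agent.H27.AC

universe u v w

/-- The relations which make the generators `inl r` of the free `P`-algebra on `R ⊕ ι` into a
copy of the `P`-algebra `R` (compatible with sums, products and scalars, hence with `1`). -/
inductive Rel (P : Type u) [Field P] (R : Type v) [Ring R] [Algebra P R] (ι : Type w) :
    FreeAlgebra P (R ⊕ ι) → FreeAlgebra P (R ⊕ ι) → Prop
  | add (r s : R) : Rel P R ι (FreeAlgebra.ι P (Sum.inl (r + s)))
      (FreeAlgebra.ι P (Sum.inl r) + FreeAlgebra.ι P (Sum.inl s))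
  | mul (r s : R) : Rel P R ι (FreeAlgebra.ι P (Sum.inl (r * s)))
      (FreeAlgebra.ι P (Sum.inl r) * FreeAlgebra.ι P (Sum.inl s))
  | scalar (c : P) : Rel P R ι (FreeAlgebra.ι P (Sum.inl (algebraMap P R c)))
      (algebraMap P (FreeAlgebra P (R ⊕ ι)) c)

/-- The free product (coproduct of associative unital `P`-algebras) `R * P⟨x_i : i ∈ ι⟩` of `R`
and the free associative algebra on the variables `x_i`, `i ∈ ι`, by generators and relations. -/
abbrev FreeExt (P : Type u) [Field P] (R : Type v) [Ring R] [Algebra P R] (ι : Type w) :=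
  RingQuot (Rel P R ι)

/-- The image in `R * P⟨x_i⟩` of an element `r` of `R`. -/
noncomputable def incl (P : Type u) [Field P] (R : Type v) [Ring R] [Algebra P R] (ι : Type w)
    (r : R) : FreeExt P R ι :=
  RingQuot.mkAlgHom P (Rel P R ι) (FreeAlgebra.ι P (Sum.inl r))

theorem lift_rel {P : Type u} [Field P] {R : Type v} [Ring R] [Algebra P R] {ι : Type w}
    {S : Type*} [Semiring S] [Algebra P S] (g : R →ₐ[P] S) (s : ι → S)
    ⦃x y : FreeAlgebra P (R ⊕ ι)⦄ (h : Rel P R ι x y) :
    FreeAlgebra.lift P (Sum.elim g s) x = FreeAlgebra.lift P (Sum.elim g s) y := by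
  cases h with
  | add r s => simp
  | mul r s => simp
  | scalar c => simp

/-- The universal property of `R * P⟨x_i⟩`. -/
noncomputable def lift {P : Type u} [Field P] {R : Type v} [Ring R] [Algebra P R] {ι : Type w}
    {S : Type*} [Semiring S] [Algebra P S] (g : R →ₐ[P] S) (s : ι → S) :
    FreeExt P R ι →ₐ[P] S :=
  RingQuot.liftAlgHom P ⟨FreeAlgebra.lift P (Sum.elim g s), lift_rel g s⟩

/-- `R` is algebraically closed (in the sense of the problem): every equation `f = 0` with
`f ∈ R * P⟨x_0, x_1, …⟩` and `f ∉ R` has a solution `(r_i)` in `R`; `lift (id) r` is the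
homomorphism that is the identity on `R` and sends `x_i` to `r_i`. -/
def AlgebraicallyClosed (P : Type u) [Field P] (R : Type v) [Ring R] [Algebra P R] : Prop :=
  ∀ f : FreeExt P R ℕ, f ∉ Set.range (incl P R ℕ) →
    ∃ r : ℕ → R, lift (AlgHom.id P R) r f = 0

/-- The one-variable version: every equation `f = 0` with `f ∈ R * P⟨x⟩`, `f ∉ R`, has a
solution in `R`. -/
def OneVariableClosed (P : Type u) [Field P] (R : Type v) [Ring R] [Algebra P R] : Prop :=
  ∀ f : FreeExt P R Unit, f ∉ Set.range (incl P R Unit) →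
    ∃ r : R, lift (AlgHom.id P R) (fun _ => r) f = 0

end Pool.Agent.H27.AC
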