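import Pool.Agent.H27.ACDefs

set_option autoImplicit false

namespace Pool.Agent.H27.AC

open scoped TensorProduct

universe u v w

section
variable (P : Type u) [Field P] (R : Type v) [Ring R] [Algebra P R] (ι : Type w)

/-- The canonical homomorphism `R → R * P⟨x_i⟩`. -/
noncomputable def C : R →ₐ[P] FreeExt P R ι :=
  AlgHom.ofLinearMap
    { toFun := fun r => incl P R ι r
      map_add' := fun r s => by
        unfold incl
        rw [RingQuot.mkAlgHom_rel P (Rel.add r s), map_add]
      map_smul' := fun c r => by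
        unfold incl
        rw [Algebra.smul_def, RingQuot.mkAlgHom_rel P (Rel.mul _ r), map_mul,
          RingQuot.mkAlgHom_rel P (Rel.scalar c), AlgHom.commutes]
        simp [Algebra.smul_def] }
    (by
      show RingQuot.mkAlgHom P (Rel P R ι) (FreeAlgebra.ι P (Sum.inl (1 : R))) = 1
      have h := RingQuot.mkAlgHom_rel P (Rel.scalar (P := P) (R := R) (ι := ι) 1)
      simpa using h)
    (fun r s => by
      show RingQuot.mkAlgHom P (Rel P R ι) (FreeAlgebra.ι P (Sum.inl (r * s))) = _
      rw [RingQuot.mkAlgHom_rel P (Rel.mul r s), map_mul]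
      rfl)

lemma C_range : Set.range (incl P R ι) = Set.range (C P R ι) := rfl

/-- The variables of `R * P⟨x_i⟩`. -/
noncomputable def X (i : ι) : FreeExt P R ι :=
  RingQuot.mkAlgHom P (Rel P R ι) (FreeAlgebra.ι P (Sum.inr i))

end

section
variable {P : Type u} [Field P] {R : Type v} [Ring R] [Algebra P R] {ι : Type w}

/-- Evaluation -/
noncomputable def eval (r : ι → R) : FreeExt P R ι →ₐ[P] R := lift (AlgHom.id P R) r

@[simp] lemma lift_C {S : Type*} [Semiring S] [Algebra P S] (g : R →ₐ[P] S) (s : ι → S) (r : R) :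
    lift g s (C P R ι r) = g r := by
  show RingQuot.liftAlgHom P _ (RingQuot.mkAlgHom P (Rel P R ι) (FreeAlgebra.ι P (Sum.inl r))) = _
  rw [RingQuot.liftAlgHom_mkAlgHom_apply]
  simp

@[simp] lemma lift_X {S : Type*} [Semiring S] [Algebra P S] (g : R →ₐ[P] S) (s : ι → S) (i : ι) :
    lift g s (X P R ι i) = s i := by
  show RingQuot.liftAlgHom P _ (RingQuot.mkAlgHom P (Rel P R ι) (FreeAlgebra.ι P (Sum.inr i))) = _
  rw [RingQuot.liftAlgHom_mkAlgHom_apply]
  simp

lemma hom_ext {S : Type*} [Semiring S] [Algebra P S] {f g : FreeExt P R ι →ₐ[P] S}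
    (h1 : ∀ r, f (C P R ι r) = g (C P R ι r)) (h2 : ∀ i, f (X P R ι i) = g (X P R ι i)) :
    f = g := by
  apply RingQuot.ringQuot_ext'
  apply FreeAlgebra.hom_ext
  funext z
  cases z with
  | inl r => exact h1 r
  | inr i => exact h2 i

lemma mem_of_subalgebra (A : Subalgebra P (FreeExt P R ι)) (h1 : ∀ r, C P R ι r ∈ A)
    (h2 : ∀ i, X P R ι i ∈ A) (g : FreeExt P R ι) : g ∈ A := by
  let φ : FreeExt P R ι →ₐ[P] A :=
    lift ((C P R ι).codRestrict A h1) (fun i => ⟨X P R ι i, h2 i⟩)
  have h : A.val.comp φ = AlgHom.id P (FreeExt P R ι) := by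
    apply hom_ext
    · intro r
      simp [φ]
    · intro i
      simp [φ]
  have hg : A.val (φ g) = g := by
    simpa using DFunLike.congr_fun h g
  rw [← hg]
  exact (φ g).2

end

/-- auxiliary form -/
def AC' (P : Type u) [Field P] (R : Type v) [Ring R] [Algebra P R] : Prop :=
  ∀ f : FreeExt P R ℕ, f ∉ Set.range (C P R ℕ) → ∃ r : ℕ → R, eval r f = 0

/-- auxiliary form -/
def OV' (P : Type u) [Field P] (R : Type v) [Ring R] [Algebra P R] : Prop :=
  ∀ f : FreeExt P R Unit, f ∉ Set.range (C P R Unit) → ∃ r : R, eval (fun _ => r) f = 0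

section main
variable {P : Type u} [Field P] {R : Type v} [Ring R] [Algebra P R]

/-- The substitution `x_i ↦ x a x^(i+1)`. -/
noncomputable def theta (a : R) : FreeExt P R ℕ →ₐ[P] FreeExt P R Unit :=
  lift (C P R Unit) (fun i => X P R Unit () * C P R Unit a * X P R Unit () ^ (i + 1))

/-- the module used to separate -/
abbrev W (P : Type u) [Field P] (R : Type v) [Ring R] [Algebra P R] :=
  FreeExt P R ℕ × (R ⊗[P] (ℕ →₀ FreeExt P R ℕ))

/-- action of `R` -/
noncomputable def rho : R →ₐ[P] Module.End P (W P R) :=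
  (LinearMap.prodMapAlgHom P (FreeExt P R ℕ) (R ⊗[P] (ℕ →₀ FreeExt P R ℕ))).comp
    (AlgHom.prod ((Algebra.lmul P (FreeExt P R ℕ)).comp (C P R ℕ))
      ((Module.End.rTensorAlgHom P R (ℕ →₀ FreeExt P R ℕ)).comp (Algebra.lmul P R)))

lemma rho_apply (r : R) (s : FreeExt P R ℕ) (w : R ⊗[P] (ℕ →₀ FreeExt P R ℕ)) :
    rho (P := P) r (s, w) = (C P R ℕ r * s, (LinearMap.rTensor _ (Algebra.lmul P R r)) w) := by
  rfl

/-- the shift of levels -/
noncomputable def shift : (ℕ →₀ FreeExt P R ℕ) →ₗ[P] (ℕ →₀ FreeExt P R ℕ) :=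
  Finsupp.lmapDomain _ P Nat.succ

/-- multiplication by the variables -/
noncomputable def Y : (ℕ →₀ FreeExt P R ℕ) →ₗ[P] FreeExt P R ℕ :=
  Finsupp.lsum P (fun i => LinearMap.mulLeft P (X P R ℕ i))

/-- the action of the variable `x` -/
noncomputable def xW (e1 ea : R →ₗ[P] P) : Module.End P (W P R) :=
  LinearMap.coprod
    ((LinearMap.inr P _ _).comp ((TensorProduct.mk P R (ℕ →₀ FreeExt P R ℕ) 1).comp
      (Finsupp.lsingle 0)))
    (LinearMap.prod
      ((TensorProduct.lid P _).toLinearMap.comp (TensorProduct.map ea Y))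
      ((TensorProduct.mk P R (ℕ →₀ FreeExt P R ℕ) 1).comp
        ((TensorProduct.lid P _).toLinearMap.comp (TensorProduct.map e1 shift))))

lemma xW_fst (e1 ea : R →ₗ[P] P) (s : FreeExt P R ℕ) :
    xW e1 ea (s, 0) = (0, (1 : R) ⊗ₜ[P] (Finsupp.single 0 s)) := by
  simp [xW]

lemma xW_snd (e1 ea : R →ₗ[P] P) (r : R) (v : ℕ →₀ FreeExt P R ℕ) :
    xW e1 ea (0, r ⊗ₜ[P] v) = (ea r • Y v, (1 : R) ⊗ₜ[P] (e1 r • shift v)) := by
  simp [xW]

lemma xW_pow (e1 ea : R →ₗ[P] P) (h1 : e1 1 = 1) (ha : ea 1 = 0) (s : FreeExt P R ℕ) (i : ℕ) :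
    ((xW e1 ea) ^ (i + 1)) (s, 0) = (0, (1 : R) ⊗ₜ[P] (Finsupp.single i s)) := by
  induction i with
  | zero => simp [xW_fst]
  | succ i ih =>
    rw [pow_succ', Module.End.mul_apply, ih, xW_snd, h1, ha]
    simp [shift]

lemma main_act (a : R) (e1 ea : R →ₗ[P] P) (h1 : e1 1 = 1) (ha : ea 1 = 0) (h1a : e1 a = 0)
    (haa : ea a = 1) (g s : FreeExt P R ℕ) :
    lift (S := Module.End P (W P R)) rho
      (fun i => xW e1 ea * rho a * (xW e1 ea) ^ (i + 1)) g (s, 0) = (g * s, 0) := by
  set Φ := lift (S := Module.End P (W P R)) (rho (P := P) (R := R))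
      (fun i => xW e1 ea * rho a * (xW e1 ea) ^ (i + 1)) with hΦ
  let A : Subalgebra P (FreeExt P R ℕ) :=
    { carrier := {g | ∀ s : FreeExt P R ℕ, Φ g (s, 0) = (g * s, 0)}
      mul_mem' := by
        intro g g' hg hg' s
        rw [map_mul, Module.End.mul_apply, hg' s, hg, mul_assoc]
      add_mem' := by
        intro g g' hg hg' s
        rw [map_add, LinearMap.add_apply, hg s, hg' s, add_mul]
        simp
      algebraMap_mem' := by
        intro c s
        rw [AlgHom.commutes]
        simp [Algebra.smul_def] }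
  have h := mem_of_subalgebra A
    (by
      intro r s
      rw [hΦ, lift_C, rho_apply]
      simp)
    (by
      intro i s
      rw [hΦ, lift_X, Module.End.mul_apply, Module.End.mul_apply, xW_pow e1 ea h1 ha,
        rho_apply]
      simp only [mul_zero, LinearMap.rTensor_tmul, Algebra.coe_lmul_eq_mul,
        LinearMap.mul_apply', mul_one]
      rw [xW_snd, haa, h1a]
      simp [Y]) g
  exact h s

lemma exists_functionals [Nontrivial R] (a : R) (ha : a ∉ Set.range (algebraMap P R)) :
    ∃ e1 ea : R →ₗ[P] P, e1 1 = 1 ∧ ea 1 = 0 ∧ e1 a = 0 ∧ ea a = 1 := by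
  have h1 : (1 : R) ∉ (⊥ : Submodule P R) := by simp
  have h2 : a ∉ (P ∙ (1 : R)) := by
    intro h
    obtain ⟨c, hc⟩ := Submodule.mem_span_singleton.1 h
    exact ha ⟨c, by rw [← hc, Algebra.smul_def, mul_one]⟩
  obtain ⟨f, hf, -⟩ := Submodule.exists_le_ker_of_notMem h1
  obtain ⟨g, hg, hg'⟩ := Submodule.exists_le_ker_of_notMem h2
  have hg1 : g 1 = 0 := hg' (Submodule.mem_span_singleton_self 1)
  refine ⟨(f 1)⁻¹ • (f - (f a * (g a)⁻¹) • g), (g a)⁻¹ • g, ?_, ?_, ?_, ?_⟩
  · simp [hg1, hf]
  · simp [hg1]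
  · simp [hg]
  · simp [hg]

lemma theta_reflects [Nontrivial R] (a : R) (ha : a ∉ Set.range (algebraMap P R))
    (f : FreeExt P R ℕ) (hf : theta a f ∈ Set.range (C P R Unit)) :
    f ∈ Set.range (C P R ℕ) := by
  obtain ⟨e1, ea, h1, h2, h3, h4⟩ := exists_functionals a ha
  obtain ⟨r, hr⟩ := hf
  have hcomp : (lift (S := Module.End P (W P R)) (rho (P := P) (R := R))
      (fun _ : Unit => xW e1 ea)).comp (theta a) =
      lift (S := Module.End P (W P R)) (rho (P := P) (R := R))
        (fun i => xW e1 ea * rho a * (xW e1 ea) ^ (i + 1)) := by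
    apply hom_ext
    · intro r
      simp [theta]
    · intro i
      simp [theta]
  have h := main_act a e1 ea h1 h2 h3 h4 f 1
  rw [← hcomp, AlgHom.comp_apply, ← hr, lift_C, rho_apply] at h
  simp only [mul_one, map_zero, Prod.mk.injEq, and_true] at h
  exact ⟨r, h⟩

end main

/-- **Theorem.** An associative unital algebra `R ≠ 0` over a field `P` is algebraically closed
(every equation in finitely many of the countably many variables `x_0, x_1, …` over `R`, not in
`R`, has a solution in `R`) if and only if every equation over `R` in ONE variable has a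
solution in `R` and `R ≠ P`. -/
theorem main_thm' (P : Type u) [Field P] (R : Type v) [Ring R] [Nontrivial R] [Algebra P R] :
    AC' P R ↔
      (OV' P R ∧ ¬ Function.Surjective (algebraMap P R)) := by
  constructor
  · intro hR
    refine ⟨?_, ?_⟩
    · intro f hf
      have hj : (lift (C P R Unit) (fun _ : ℕ => X P R Unit ())).comp
          (lift (C P R ℕ) (fun _ : Unit => X P R ℕ 0)) = AlgHom.id P (FreeExt P R Unit) := by
        apply hom_ext
        · intro r
          simp
        · intro i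
          simp
      obtain ⟨r, hr⟩ := hR (lift (C P R ℕ) (fun _ : Unit => X P R ℕ 0) f) (by
        rintro ⟨r, hr⟩
        apply hf
        refine ⟨r, ?_⟩
        have h := DFunLike.congr_fun hj f
        rw [AlgHom.comp_apply, ← hr] at h
        simpa using h)
      refine ⟨r 0, ?_⟩
      have hc : (eval r).comp (lift (C P R ℕ) (fun _ : Unit => X P R ℕ 0)) =
          eval (P := P) (fun _ : Unit => r 0) := by
        apply hom_ext
        · intro r
          simp [eval]
        · intro i
          simp [eval]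
      rw [← hc, AlgHom.comp_apply, hr]
    · intro hs
      have hinj : Function.Injective (algebraMap P R) := (algebraMap P R).injective
      let e : P ≃ₐ[P] R := AlgEquiv.ofBijective (Algebra.ofId P R) ⟨hinj, hs⟩
      obtain ⟨r, hr⟩ := hR (X P R ℕ 0 * X P R ℕ 1 - X P R ℕ 1 * X P R ℕ 0 - 1) (by
        rintro ⟨r, hr⟩
        have h0 := congrArg (eval (P := P) (fun _ : ℕ => (0 : R))) hr
        simp only [eval, lift_C, map_sub, map_mul, lift_X, map_one, mul_zero, AlgHom.id_apply]
          at h0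
        have h1 := congrArg (lift (S := Matrix (Fin 2) (Fin 2) P)
          ((Algebra.ofId P (Matrix (Fin 2) (Fin 2) P)).comp e.symm.toAlgHom)
          (fun i : ℕ => if i = 0 then !![0, 1; 0, 0] else !![0, 0; 1, 0])) hr
        rw [h0] at h1
        simp only [map_sub, map_mul, lift_X, map_one, sub_zero, zero_sub,
          map_neg] at h1
        have h2 := congrFun (congrFun h1 0) 0
        simp at h2)
      obtain ⟨p, hp⟩ := hs (r 0)
      simp only [eval, map_sub, map_mul, lift_X, map_one] at hr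
      rw [← hp, Algebra.commutes, sub_self, zero_sub] at hr
      exact one_ne_zero (neg_eq_zero.1 hr)
  · rintro ⟨h1, h2⟩ f hf
    have h3 : ∃ a : R, a ∉ Set.range (algebraMap P R) := by
      by_contra hcon
      push Not at hcon
      exact h2 (fun a => hcon a)
    obtain ⟨a, ha⟩ := h3
    obtain ⟨r, hr⟩ := h1 (theta a f) (fun hθ => hf (theta_reflects a ha f hθ))
    refine ⟨fun i => r * a * r ^ (i + 1), ?_⟩
    have hc : (eval (P := P) (fun _ : Unit => r)).comp (theta a) =
        eval (fun i : ℕ => r * a * r ^ (i + 1)) := by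
      apply hom_ext
      · intro s
        simp [eval, theta]
      · intro i
        simp [eval, theta]
    rw [← hc, AlgHom.comp_apply, hr]

theorem main_thm (P : Type u) [Field P] (R : Type v) [Ring R] [Nontrivial R] [Algebra P R] :
    AlgebraicallyClosed P R ↔
      (OneVariableClosed P R ∧ ¬ Function.Surjective (algebraMap P R)) :=
  main_thm' P R

end Pool.Agent.H27.AC
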