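import Mathlib
import Pool.Agent.H27.GrpTop

set_option autoImplicit false

namespace Pool.Agent.H27.CenChain

open Filter Pointwise Topology Pool.Agent.H27.GrpTop
open scoped IsMulCommutative

universe u
variable {G : Type u} [Group G]

lemma nu_bot : nu (⊥ : GroupTopology G) = pure 1 := by
  unfold nu
  rw [GroupTopology.toTopologicalSpace_bot]
  exact congrFun (@nhds_discrete G ⊥ (@DiscreteTopology.mk G ⊥ rfl)) 1

lemma eq_bot_iff' {t : GroupTopology G} : t = ⊥ ↔ ({1} : Set G) ∈ nu t := by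
  rw [eq_iff, nu_bot]
  constructor
  · intro h; rw [h]; simp
  · intro h
    refine le_antisymm ?_ (pure_le t)
    rw [← principal_singleton, le_principal_iff]; exact h

lemma nu_sInf (S : Set (GroupTopology G)) : nu (sInf S) = ⨅ t ∈ S, nu t := by
  unfold nu
  rw [GroupTopology.toTopologicalSpace_sInf, nhds_sInf]
  rw [iInf_image]

lemma t2_iff {t : GroupTopology G} :
    @T2Space G t.toTopologicalSpace ↔ ∀ g : G, g ≠ 1 → ∃ U ∈ nu t, g ∉ U := by
  let _ := t.toTopologicalSpace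
  have _ := t.toIsTopologicalGroup
  constructor
  · intro h g hg
    refine ⟨{g}ᶜ, ?_, by simp⟩
    exact isOpen_compl_singleton.mem_nhds (by simpa using hg.symm)
  · intro h
    exact IsTopologicalGroup.t2Space_of_one_sep h

def Hd (t : GroupTopology G) : Prop := ∀ g : G, g ≠ 1 → ∃ U ∈ nu t, g ∉ U

lemma Hd.mono {t s : GroupTopology G} (h : t ≤ s) (hs : Hd s) : Hd t := fun g hg => by
  obtain ⟨U, hU, hgU⟩ := hs g hg
  exact ⟨U, le_iff.1 h hU, hgU⟩

lemma exists_atom (t0 : GroupTopology G) (h0 : t0 ≠ ⊥) :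
    ∃ t ≤ t0, t ≠ ⊥ ∧ ∀ s ≤ t, s ≠ ⊥ → s = t := by
  obtain ⟨m, hm1, hm2⟩ := zorn_le_nonempty₀ (α := (GroupTopology G)ᵒᵈ)
    {t | OrderDual.ofDual t ≠ ⊥} (by
      intro c hc hch y hy
      let c' : Set (GroupTopology G) := OrderDual.toDual ⁻¹' c
      refine ⟨OrderDual.toDual (sInf c'), ?_, ?_⟩
      · change sInf c' ≠ ⊥
        intro hbot
        rw [eq_bot_iff', nu_sInf] at hbot
        have hdir : DirectedOn (nu ⁻¹'o (· ≥ ·)) c' := by
          intro a ha b hb
          rcases hch.total (show OrderDual.toDual a ∈ c from ha)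
            (show OrderDual.toDual b ∈ c from hb) with h | h
          · have h' : b ≤ a := h
            exact ⟨b, hb, le_iff.1 h', le_rfl⟩
          · have h' : a ≤ b := h
            exact ⟨a, ha, le_rfl, le_iff.1 h'⟩
        rw [Filter.mem_biInf_of_directed hdir ⟨OrderDual.ofDual y, hy⟩] at hbot
        obtain ⟨i, hi, h1⟩ := hbot
        exact hc (show OrderDual.toDual i ∈ c from hi) (eq_bot_iff'.2 h1)
      · intro z hz
        change sInf c' ≤ OrderDual.ofDual z
        exact sInf_le hz) (OrderDual.toDual t0) h0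
  refine ⟨OrderDual.ofDual m, hm1, hm2.prop, fun s hs hsb => ?_⟩
  have : OrderDual.toDual s ≤ m := hm2.le_of_ge (y := OrderDual.toDual s) hsb hs
  exact le_antisymm hs this

/-- independent sequence of central elements -/
def Indep (c : ℕ → Subgroup.center G) : Prop :=
  ∀ (s : Finset ℕ) (e : ℕ → ℤ), ∏ n ∈ s, c n ^ e n = 1 → ∀ n ∈ s, c n ^ e n = 1

/-- the subgroup generated by the `c n`, `n ∈ I` -/
def B (c : ℕ → Subgroup.center G) (I : Set ℕ) : Set G :=
  {g | ∃ s : Finset ℕ, ↑s ⊆ I ∧ ∃ e : ℕ → ℤ,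
    ((∏ n ∈ s, c n ^ e n : Subgroup.center G) : G) = g}

lemma one_mem_B (c : ℕ → Subgroup.center G) (I : Set ℕ) : (1 : G) ∈ B c I :=
  ⟨∅, by simp, fun _ => 0, by simp⟩

lemma B_mono (c : ℕ → Subgroup.center G) {I J : Set ℕ} (h : I ⊆ J) : B c I ⊆ B c J := by
  rintro g ⟨s, hs, e, he⟩
  exact ⟨s, hs.trans h, e, he⟩

lemma prod_union (c : ℕ → Subgroup.center G) (s t : Finset ℕ) (e f : ℕ → ℤ) :
    (∏ n ∈ s, c n ^ e n) * (∏ n ∈ t, c n ^ f n) =
      ∏ n ∈ s ∪ t, c n ^ ((if n ∈ s then e n else 0) + (if n ∈ t then f n else 0)) := by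
  classical
  have h1 : ∀ n, c n ^ ((if n ∈ s then e n else 0) + (if n ∈ t then f n else 0)) =
      (if n ∈ s then c n ^ e n else 1) * (if n ∈ t then c n ^ f n else 1) := by
    intro n
    rw [zpow_add]
    congr 1
    · split_ifs <;> simp
    · split_ifs <;> simp
  simp only [h1]
  rw [Finset.prod_mul_distrib, Finset.prod_ite_mem, Finset.prod_ite_mem,
    Finset.inter_eq_right.2 (Finset.subset_union_left),
    Finset.inter_eq_right.2 (Finset.subset_union_right)]

lemma B_mul (c : ℕ → Subgroup.center G) {I J : Set ℕ} {x y : G} (hx : x ∈ B c I)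
    (hy : y ∈ B c J) : x * y ∈ B c (I ∪ J) := by
  classical
  obtain ⟨s, hs, e, rfl⟩ := hx
  obtain ⟨t, ht, f, rfl⟩ := hy
  refine ⟨s ∪ t, ?_, fun n => (if n ∈ s then e n else 0) + (if n ∈ t then f n else 0), ?_⟩
  · rw [Finset.coe_union]
    exact Set.union_subset_union hs ht
  · rw [← prod_union]
    rfl

lemma B_inv (c : ℕ → Subgroup.center G) {I : Set ℕ} {x : G} (hx : x ∈ B c I) : x⁻¹ ∈ B c I := by
  obtain ⟨s, hs, e, rfl⟩ := hx
  refine ⟨s, hs, fun n => -e n, ?_⟩
  simp only [zpow_neg, Finset.prod_inv_distrib]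
  rfl

lemma B_comm (c : ℕ → Subgroup.center G) {I : Set ℕ} {x : G} (hx : x ∈ B c I) (g : G) :
    g * x = x * g := by
  obtain ⟨s, hs, e, rfl⟩ := hx
  exact Subgroup.mem_center_iff.1 (∏ n ∈ s, c n ^ e n : Subgroup.center G).2 g

lemma B_disj {c : ℕ → Subgroup.center G} (hc : Indep c) {I J : Set ℕ} (hIJ : Disjoint I J) {x : G}
    (hx : x ∈ B c I) (hy : x ∈ B c J) : x = 1 := by
  classical
  obtain ⟨s, hs, e, rfl⟩ := hx
  obtain ⟨t, ht, f, hf⟩ := hy
  have h1 : (∏ n ∈ t, c n ^ f n) = ∏ n ∈ s, c n ^ e n := Subtype.ext hf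
  have h2 : (∏ n ∈ s, c n ^ e n) * (∏ n ∈ t, c n ^ (-f n)) = 1 := by
    simp only [zpow_neg, Finset.prod_inv_distrib]
    rw [h1, mul_inv_cancel]
  rw [prod_union] at h2
  have h3 := hc _ _ h2
  have h4 : ∏ n ∈ s, c n ^ e n = 1 := by
    apply Finset.prod_eq_one
    intro n hn
    have h5 := h3 n (Finset.mem_union_left _ hn)
    have h6 : n ∉ t := fun hnt => Set.disjoint_left.1 hIJ (hs hn) (ht hnt)
    simpa [hn, h6] using h5
  rw [h4]
  rfl

lemma mem_F {c : ℕ → Subgroup.center G} {I : ℕ → Set ℕ} (hI : Antitone I) {U : Set G} :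
    U ∈ (⨅ m, 𝓟 (B c (I m)) : Filter G) ↔ ∃ m, B c (I m) ⊆ U := by
  rw [mem_iInf_of_directed]
  · simp only [mem_principal]
  · intro a b
    refine ⟨max a b, ?_, ?_⟩
    · exact principal_mono.2 (B_mono c (hI (le_max_left a b)))
    · exact principal_mono.2 (B_mono c (hI (le_max_right a b)))

lemma exists_top (c : ℕ → Subgroup.center G) (I : ℕ → Set ℕ) (hI : Antitone I) :
    ∃ w : GroupTopology G, nu w = ⨅ m, 𝓟 (B c (I m)) := by
  apply exists_of_filter
  · refine le_iInf fun m => ?_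
    rw [pure_le_principal]
    exact one_mem_B c _
  · intro U hU
    obtain ⟨m, hm⟩ := (mem_F hI).1 hU
    have hmem : B c (I m) ∈ (⨅ m, 𝓟 (B c (I m)) : Filter G) := (mem_F hI).2 ⟨m, subset_rfl⟩
    refine mem_of_superset (Filter.mul_mem_mul hmem hmem) ?_
    rintro _ ⟨x, hx, y, hy, rfl⟩
    have := B_mul c hx hy
    rw [Set.union_self] at this
    exact hm this
  · intro U hU
    obtain ⟨m, hm⟩ := (mem_F hI).1 hU
    rw [Filter.mem_inv]
    refine (mem_F hI).2 ⟨m, ?_⟩
    intro x hx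
    exact hm (B_inv c hx)
  · intro x U hU
    obtain ⟨m, hm⟩ := (mem_F hI).1 hU
    rw [mem_map]
    refine (mem_F hI).2 ⟨m, ?_⟩
    intro y hy
    change x * y * x⁻¹ ∈ U
    rw [B_comm c hy x, mul_inv_cancel_right]
    exact hm hy

/-- for every `i` an atom `a` below which lives in the `i`-th block -/
lemma exists_block (c : ℕ → Subgroup.center G) (hne : ∀ n, c n ≠ 1) (hc : Indep c) (i : ℕ) :
    ∃ a : GroupTopology G, a ≠ ⊥ ∧ (∀ s ≤ a, s ≠ ⊥ → s = a) ∧ Hd a ∧
      B c {N | N.unpair.1 = i} ∈ nu a := by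
  let I : ℕ → Set ℕ := fun m => {N | N.unpair.1 = i ∧ m ≤ N.unpair.2}
  have hI : Antitone I := fun m m' h N hN => ⟨hN.1, h.trans hN.2⟩
  obtain ⟨w, hw⟩ := exists_top c I hI
  have hd : Hd w := by
    intro g hg
    by_cases h : g ∈ B c (I 0)
    · obtain ⟨s, hs, e, he⟩ := h
      obtain ⟨m, hm⟩ : ∃ m, ∀ N ∈ s, N.unpair.2 < m := by
        refine ⟨(s.sup fun N => N.unpair.2) + 1, fun N hN => ?_⟩
        exact Nat.lt_succ_of_le (Finset.le_sup (f := fun N => N.unpair.2) hN)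
      refine ⟨B c (I m), by rw [hw]; exact (mem_F hI).2 ⟨m, subset_rfl⟩, fun hgm => ?_⟩
      apply hg
      refine B_disj hc (I := (s : Set ℕ)) (J := I m) ?_ ⟨s, subset_rfl, e, he⟩ hgm
      rw [Set.disjoint_left]
      intro N hN hN'
      exact absurd (hm N hN) (not_lt.2 hN'.2)
    · exact ⟨B c (I 0), by rw [hw]; exact (mem_F hI).2 ⟨0, subset_rfl⟩, h⟩
  have hnb : w ≠ ⊥ := by
    intro h
    rw [eq_bot_iff', hw, mem_F hI] at h
    obtain ⟨m, hm⟩ := h
    have h1 : ((c (Nat.pair i m) : Subgroup.center G) : G) ∈ B c (I m) := by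
      refine ⟨{Nat.pair i m}, ?_, fun _ => 1, by simp⟩
      intro N hN
      have : N = Nat.pair i m := by simpa using hN
      subst this
      exact ⟨by simp, by simp⟩
    have h2 := hm h1
    apply hne (Nat.pair i m)
    apply Subtype.ext
    exact h2
  obtain ⟨a, ha, hab, hamin⟩ := exists_atom w hnb
  refine ⟨a, hab, hamin, hd.mono ha, ?_⟩
  apply le_iff.1 ha
  rw [hw]
  refine (mem_F hI).2 ⟨0, B_mono c ?_⟩
  intro N hN
  exact hN.1

lemma perm {a t : GroupTopology G} {C : Set G} (hC : C ∈ nu a) (hcom : ∀ x ∈ C, ∀ g : G, g * x = x * g) :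
    nu a * nu t ≤ nu t * nu a := by
  intro N hN
  rw [Filter.mem_mul] at hN
  obtain ⟨S, hS, A, hA, hSA⟩ := hN
  refine mem_of_superset (Filter.mul_mem_mul (inter_mem hA hC) hS) ?_
  rintro _ ⟨x, hx, y, hy, rfl⟩
  apply hSA
  refine ⟨y, hy, x, hx.1, ?_⟩
  exact hcom x hx.2 y

theorem exists_chain (c : ℕ → Subgroup.center G) (hne : ∀ n, c n ≠ 1) (hc : Indep c) :
    ∃ s : ℕ → GroupTopology G, s 0 = ⊥ ∧ (∀ j, Hd (s j)) ∧
      ∀ j, s j < s (j + 1) ∧ ∀ σ : GroupTopology G, ¬ (s j < σ ∧ σ < s (j + 1)) := by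
  choose a ha1 ha2 ha3 ha4 using exists_block c hne hc
  let s : ℕ → GroupTopology G := fun j => Nat.rec ⊥ (fun i t => t ⊔ a i) j
  have hs0 : s 0 = ⊥ := rfl
  have hs1 : ∀ j, s (j + 1) = s j ⊔ a j := fun j => rfl
  let J : ℕ → Set ℕ := fun j => {N | N.unpair.1 < j}
  let V : ℕ → Set ℕ := fun j => {N | N.unpair.1 = j}
  have hJV : ∀ j, Disjoint (J j) (V j) := by
    intro j
    rw [Set.disjoint_left]
    intro N h1 h2
    have h1' : N.unpair.1 < j := h1
    have h2' : N.unpair.1 = j := h2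
    omega
  have hJ1 : ∀ j, J j ∪ V j ⊆ J (j + 1) := by
    intro j N hN
    rcases hN with h | h
    · have h' : N.unpair.1 < j := h
      change N.unpair.1 < j + 1
      omega
    · have h' : N.unpair.1 = j := h
      change N.unpair.1 < j + 1
      omega
  have hcom : ∀ j, ∀ x ∈ B c (V j), ∀ g : G, g * x = x * g := fun j x hx g => B_comm c hx g
  have hp : ∀ j, nu (a j) * nu (s j) ≤ nu (s j) * nu (a j) := fun j => perm (ha4 j) (hcom j)
  have hnu : ∀ j, nu (s (j + 1)) = nu (s j) * nu (a j) := by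
    intro j
    rw [hs1]
    exact nu_sup_of_perm (hp j)
  have hB : ∀ j, B c (J j) ∈ nu (s j) := by
    intro j
    induction j with
    | zero =>
      rw [hs0, nu_bot]
      exact one_mem_B c _
    | succ j ih =>
      rw [hnu]
      refine mem_of_superset (Filter.mul_mem_mul ih (ha4 j)) ?_
      rintro _ ⟨x, hx, y, hy, rfl⟩
      exact B_mono c (hJ1 j) (B_mul c hx hy)
  have key : ∀ j, ∀ w ∈ B c (J j), ∀ v ∈ B c (V j), ∀ w' ∈ B c (J j), ∀ v' ∈ B c (V j),
      w * v = w' * v' → w = w' ∧ v = v' := by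
    intro j w hw v hv w' hw' v' hv' h
    have h1 : w'⁻¹ * w = v' * v⁻¹ := by
      rw [eq_mul_inv_iff_mul_eq, mul_assoc, h, inv_mul_cancel_left]
    have h2 : w'⁻¹ * w ∈ B c (J j) := by
      have := B_mul c (B_inv c hw') hw
      rwa [Set.union_self] at this
    have h3 : w'⁻¹ * w ∈ B c (V j) := by
      rw [h1]
      have := B_mul c hv' (B_inv c hv)
      rwa [Set.union_self] at this
    have h4 := B_disj hc (hJV j) h2 h3
    refine ⟨(inv_mul_eq_one.1 h4).symm, ?_⟩
    rw [h4] at h1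
    exact (mul_inv_eq_one.1 h1.symm).symm
  have hHd : ∀ j, Hd (s j) := by
    intro j
    induction j with
    | zero =>
      intro g hg
      refine ⟨{1}, ?_, hg⟩
      rw [hs0, nu_bot]
      simp
    | succ j ih =>
      intro g hg
      rw [hnu]
      by_cases h : g ∈ B c (J j) * B c (V j)
      · obtain ⟨w, hw, v, hv, rfl⟩ := h
        by_cases hw1 : w = 1
        · have hv1 : v ≠ 1 := by
            rintro rfl
            apply hg
            change w * 1 = 1
            rw [hw1, mul_one]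
          obtain ⟨U, hU, hvU⟩ := ha3 j v hv1
          refine ⟨_, Filter.mul_mem_mul (hB j) (inter_mem hU (ha4 j)), ?_⟩
          rintro ⟨w', hw', v', hv', h⟩
          have := key j w hw v hv w' hw' v' hv'.2 h.symm
          rw [this.2] at hvU
          exact hvU hv'.1
        · obtain ⟨U, hU, hwU⟩ := ih w hw1
          refine ⟨_, Filter.mul_mem_mul (inter_mem hU (hB j)) (ha4 j), ?_⟩
          rintro ⟨w', hw', v', hv', h⟩
          have := key j w hw v hv w' hw'.2 v' hv' h.symm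
          rw [this.1] at hwU
          exact hwU hw'.1
      · exact ⟨_, Filter.mul_mem_mul (hB j) (ha4 j), h⟩
  refine ⟨s, hs0, hHd, fun j => ⟨?_, ?_⟩⟩
  · rw [hs1]
    refine lt_of_le_of_ne le_sup_left ?_
    intro h
    have h1 : a j ≤ s j := by rw [h]; exact le_sup_right
    apply ha1 j
    rw [eq_bot_iff']
    refine mem_of_superset (inter_mem (le_iff.1 h1 (hB j)) (ha4 j)) ?_
    rintro x ⟨hx1, hx2⟩
    exact B_disj hc (hJV j) hx1 hx2
  · rintro σ ⟨h1, h2⟩
    rw [hs1] at h2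
    have h3 := dedekind (x := s j) (t := a j) (y := σ) (hp j) h1.le
    rw [inf_eq_right.2 h2.le] at h3
    by_cases hb : a j ⊓ σ = ⊥
    · rw [hb, sup_bot_eq] at h3
      exact absurd h1 h3.not_gt
    · have h4 := ha2 j (a j ⊓ σ) inf_le_left hb
      have h5 : a j ≤ σ := by rw [← h4]; exact inf_le_right
      exact absurd h2 (sup_le h1.le h5).not_gt

end Pool.Agent.H27.CenChain
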