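import Mathlib
import Pool.Agent.H27.Chains

set_option autoImplicit false

namespace Pool.Agent.H27.Chains

universe u
variable {L : Type u} [Lattice L]

lemma str_of_le {a b : L} (h : a ≤ b) : ∃ m, Str m a b := by
  rcases h.eq_or_lt with h | h
  · exact ⟨0, by rw [h]; exact Str.zero b⟩
  · exact ⟨1, Str.succ h (Str.zero b)⟩

lemma Str.extend {n : ℕ} {a a' b : L} (h : Str n a' b) (ha : a ≤ a') :
    ∃ m, n ≤ m ∧ Str m a b := by
  rcases ha.eq_or_lt with h' | h'
  · exact ⟨n, le_rfl, by rw [h']; exact h⟩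
  · exact ⟨n + 1, Nat.le_succ n, Str.succ h' h⟩

lemma split_str {w z : L}
    (L1 : ∀ t s : L, w ≤ t → t ≤ s → (t ⊔ z) ⊓ s ≤ t ⊔ (z ⊓ s))
    {n : ℕ} {a b : L} (hw : w ≤ a) (h : Str n a b) :
    ∃ p q, n ≤ p + q ∧ Str p (a ⊓ z) (b ⊓ z) ∧ Str q (a ⊔ z) (b ⊔ z) := by
  induction h with
  | zero a => exact ⟨0, 0, le_rfl, Str.zero _, Str.zero _⟩
  | @succ n a c b hac hcb ih =>
    obtain ⟨p, q, hpq, hp, hq⟩ := ih (hw.trans hac.le)
    by_cases h1 : a ⊓ z = c ⊓ z
    · have h2 : a ⊔ z < c ⊔ z := by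
        refine (sup_le_sup_right hac.le z).lt_of_ne ?_
        intro heq
        have h3 : c ≤ (a ⊔ z) ⊓ c := le_inf (by rw [heq]; exact le_sup_left) le_rfl
        have h4 := h3.trans (L1 a c hw hac.le)
        have h5 : z ⊓ c ≤ a := by rw [inf_comm, ← h1]; exact inf_le_left
        rw [sup_eq_left.2 h5] at h4
        exact absurd hac h4.not_gt
      exact ⟨p, q + 1, by omega, by rw [h1]; exact hp, Str.succ h2 hq⟩
    · have h2 : a ⊓ z < c ⊓ z := (inf_le_inf_right z hac.le).lt_of_ne h1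
      obtain ⟨q', hq', hq''⟩ := hq.extend (sup_le_sup_right hac.le z)
      exact ⟨p + 1, q', by omega, Str.succ h2 hp, hq''⟩

theorem bound_series [OrderTop L] (z : ℕ → L) (hz : Monotone z) (c : ℕ) (hc : z c = ⊤)
    (L1 : ∀ i, ∀ t s : L, z i ≤ t → t ≤ s → (t ⊔ z (i + 1)) ⊓ s ≤ t ⊔ (z (i + 1) ⊓ s))
    (L2 : ∀ i, ∀ q s : L, z i ≤ s → z (i + 1) ≤ q → (z (i + 1) ⊔ s) ⊓ q ≤ z (i + 1) ⊔ (s ⊓ q))
    (L3 : ∀ i, ∀ x t y : L, z i ≤ x → x ≤ z (i + 1) → z i ≤ t → x ≤ y →
      (x ⊔ t) ⊓ y ≤ x ⊔ (t ⊓ y))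
    (j : ℕ) : ∀ i, i + j = c → ∀ (a b : L) (m n : ℕ), z i ≤ a → Cov m a b → Str n a b → n ≤ m := by
  induction j with
  | zero =>
    intro i hi a b m n ha hm hn
    simp only [add_zero] at hi
    subst hi
    rw [hc, top_le_iff] at ha
    subst ha
    have hb : b = ⊤ := top_le_iff.1 hm.le
    subst hb
    rw [hn.eq_zero]
    exact Nat.zero_le m
  | succ j ih =>
    intro i hi a b m n ha hm hn
    have hwz : z i ≤ z (i + 1) := hz (Nat.le_succ i)
    obtain ⟨p, q, hpq, hp, hq⟩ := split hwz (L1 i) (L2 i) (L3 i) ha hm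
    obtain ⟨p', q', hpq', hp', hq'⟩ := split_str (L1 i) ha hn
    have h1 : q' ≤ q := ih (i + 1) (by omega) _ _ _ _ le_sup_right hq hq'
    have h2 : p' ≤ p := by
      refine str_le_cov (u := z i) (v := z (i + 1)) ?_ hp (le_inf ha hwz) inf_le_right hp'
      intro x t y hx ht hxv _ _ hxy
      exact L3 i x t y hx hxv ht hxy
    omega

lemma str_of_finset {b : L} (n : ℕ) : ∀ (s : Finset L) (a : L), s.card = n →
    IsChain (· ≤ ·) (s : Set L) → (∀ x ∈ s, a < x ∧ x ≤ b) → a ≤ b → ∃ m, n ≤ m ∧ Str m a b := by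
  classical
  induction n with
  | zero =>
    intro s a _ _ _ hab
    obtain ⟨m, hm⟩ := str_of_le hab
    exact ⟨m, Nat.zero_le m, hm⟩
  | succ n ih =>
    intro s a hs hch hx _
    have hne : s.Nonempty := by
      rw [← Finset.card_pos]; omega
    obtain ⟨x, hxs, hmin⟩ := s.exists_minimal hne
    have hlt : ∀ y ∈ s.erase x, x < y ∧ y ≤ b := by
      intro y hy
      obtain ⟨hyx, hys⟩ := Finset.mem_erase.1 hy
      refine ⟨?_, (hx y hys).2⟩
      rcases hch hxs hys (Ne.symm hyx) with h | h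
      · exact h.lt_of_ne (Ne.symm hyx)
      · exact absurd (le_antisymm h (hmin hys h)) hyx
    obtain ⟨m, hm, hm'⟩ := ih (s.erase x) x (by rw [Finset.card_erase_of_mem hxs]; omega)
      (hch.mono (by
        intro y hy
        exact Finset.mem_coe.2 (Finset.mem_of_mem_erase (Finset.mem_coe.1 hy)))) hlt (hx x hxs).2
    exact ⟨m + 1, by omega, Str.succ (hx x hxs).1 hm'⟩

theorem chain_bound {a b : L} {k : ℕ} (hb : ∀ n, Str n a b → n ≤ k) (C : Set L)
    (hC : IsChain (· ≤ ·) C) (hab : ∀ x ∈ C, a ≤ x ∧ x ≤ b) : C.Finite ∧ C.ncard ≤ k + 1 := by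
  classical
  have key : ∀ s : Finset L, (s : Set L) ⊆ C → s.card ≤ k + 1 := by
    intro s hs
    by_contra hlt
    push Not at hlt
    have hne : s.Nonempty := by
      rw [← Finset.card_pos]; omega
    obtain ⟨x, hxs, hmin⟩ := s.exists_minimal hne
    have hch : IsChain (· ≤ ·) (s : Set L) := hC.mono hs
    have hlt' : ∀ y ∈ s.erase x, x < y ∧ y ≤ b := by
      intro y hy
      obtain ⟨hyx, hys⟩ := Finset.mem_erase.1 hy
      refine ⟨?_, (hab y (hs hys)).2⟩
      rcases hch hxs hys (Ne.symm hyx) with h | h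
      · exact h.lt_of_ne (Ne.symm hyx)
      · exact absurd (le_antisymm h (hmin hys h)) hyx
    obtain ⟨m, hm, hm'⟩ := str_of_finset (b := b) _ (s.erase x) x rfl
      (hch.mono (by
        intro y hy
        exact Finset.mem_coe.2 (Finset.mem_of_mem_erase (Finset.mem_coe.1 hy)))) hlt'
      (hab x (hs hxs)).2
    obtain ⟨m', hm1, hm2⟩ := hm'.extend (hab x (hs hxs)).1
    have := hb m' hm2
    rw [Finset.card_erase_of_mem hxs] at hm
    omega
  have hfin : C.Finite := by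
    by_contra hinf
    obtain ⟨s, hs, hcard⟩ := Set.Infinite.exists_subset_card_eq hinf (k + 2)
    have := key s hs
    omega
  refine ⟨hfin, ?_⟩
  have := key hfin.toFinset (by simp)
  rwa [Set.ncard_eq_toFinset_card C hfin]

end Pool.Agent.H27.Chains
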