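import Mathlib
import Pool.Agent.H27.NilTop
import Pool.Agent.H27.ChainBound

set_option autoImplicit false

namespace Pool.Agent.H27.NilTop

open Filter Pointwise Topology Pool.Agent.H27.GrpTop Pool.Agent.H27.Chains

open scoped commutatorElement

universe u
variable {G : Type u} [Group G]

lemma perm4 {Y Z : Subgroup G} [hY : Y.Normal] [Z.Normal] (F : Set G) (hF : F.Finite)
    (hYZ : ∀ u : G, ∃ f ∈ F, ∃ c : G, u = f * c ∧ ∀ o ∈ Z, ⁅o, c⁆ ∈ Y)
    {x t : GroupTopology G} (hx : x ≤ zt Z) (ht : zt Y ≤ t) :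
    nu t * nu x ≤ nu x * nu t := by
  rw [le_iff, nu_zt] at hx ht
  intro N hN
  rw [Filter.mem_mul] at hN
  obtain ⟨O, hO, U, hU, hOU⟩ := hN
  obtain ⟨U', hU', hUU⟩ := exists_sq hU
  have hZx : (Z : Set G) ∈ nu x := hx (mem_principal_self _)
  have hYU : (Y : Set G) ⊆ U' := by
    have := ht hU'
    rwa [mem_principal] at this
  have hconj : ⋂ f ∈ F, {o : G | f * o * f⁻¹ ∈ O} ∈ nu x := by
    rw [biInter_mem hF]
    intro f _
    exact conj_le x f hO
  refine mem_of_superset (Filter.mul_mem_mul hU' (inter_mem hconj hZx)) ?_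
  rintro _ ⟨u, hu, o, ho, rfl⟩
  apply hOU
  obtain ⟨f, hf, c, rfl, hc⟩ := hYZ u
  have h1 : f * o * f⁻¹ ∈ O := by
    have := ho.1
    simp only [Set.mem_iInter] at this
    exact this f hf
  have h2 : ⁅o⁻¹, c⁆ ∈ Y := hc o⁻¹ (Z.inv_mem ho.2)
  have h3 : f * ⁅o⁻¹, c⁆ * f⁻¹ ∈ Y := hY.conj_mem _ h2 f
  refine ⟨f * o * f⁻¹, h1, (f * ⁅o⁻¹, c⁆ * f⁻¹) * (f * c), hUU ⟨_, hYU h3, f * c, hu, rfl⟩, ?_⟩
  simp only [commutatorElement_def]
  group

theorem bound_vnil (z : ℕ → Subgroup G) (hn : ∀ i, (z i).Normal) (hmono : Monotone z) (c : ℕ)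
    (h0 : z 0 = ⊥) (hc : z c = ⊤) (F : Set G) (hF : F.Finite)
    (hz : ∀ i, ∀ u : G, ∃ f ∈ F, ∃ c : G, u = f * c ∧ ∀ o ∈ z (i + 1), ⁅o, c⁆ ∈ z i)
    {a b : GroupTopology G} {m n : ℕ}
    (hm : Cov m a b) (hs : Str n a b) : n ≤ m := by
  let w : ℕ → GroupTopology G := fun i => @zt G _ (z i) (hn i)
  have hw : Monotone w := by
    apply monotone_nat_of_le_succ
    intro i
    rw [le_iff, nu_zt, nu_zt, principal_mono]
    exact hmono (Nat.le_succ i)
  have hwc : w c = ⊤ := by
    rw [eq_top_iff, le_iff, nu_zt, hc]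
    simp
  have hw0 : w 0 ≤ a := by
    rw [le_iff, nu_zt]
    have : ((z 0 : Subgroup G) : Set G) = {1} := by rw [h0]; simp
    rw [this, principal_singleton]
    exact pure_le a
  refine bound_series w hw c hwc ?_ ?_ ?_ c 0 (by omega) a b m n hw0 hm hs
  · intro i t s _ hts
    have := hn (i + 1)
    exact dedekind (perm2 _ t) hts
  · intro i q s _ hq
    have := hn (i + 1)
    exact dedekind (perm1 _ s) hq
  · intro i x t y _ hxz ht hxy
    have := hn (i + 1)
    have := hn i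
    exact dedekind (perm4 F hF (hz i) hxz ht) hxy

theorem bound_vnil' (N : Subgroup G) [hNn : N.Normal] [hNf : N.FiniteIndex]
    [hN : Group.IsNilpotent N] {a b : GroupTopology G} {m n : ℕ}
    (hm : Cov m a b) (hs : Str n a b) : n ≤ m := by
  classical
  obtain ⟨c, hc⟩ := hN.nilpotent
  let z : ℕ → Subgroup G := fun i =>
    if i ≤ c then (Subgroup.upperCentralSeries N i).map N.subtype else ⊤
  have hzle : ∀ i, i ≤ c → z i = (Subgroup.upperCentralSeries N i).map N.subtype := by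
    intro i hi
    exact if_pos hi
  have hzgt : ∀ i, ¬ i ≤ c → z i = ⊤ := by
    intro i hi
    exact if_neg hi
  have hzc : z c = N := by
    rw [hzle c le_rfl, hc]
    ext g
    simp
  have hnorm : ∀ i, (z i).Normal := by
    intro i
    by_cases hi : i ≤ c
    · rw [hzle i hi]
      infer_instance
    · rw [hzgt i hi]
      infer_instance
  have hmono : Monotone z := by
    apply monotone_nat_of_le_succ
    intro i
    by_cases hi : i + 1 ≤ c
    · rw [hzle i (by omega), hzle (i + 1) hi]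
      exact Subgroup.map_mono (Subgroup.upperCentralSeries_mono N (Nat.le_succ i))
    · rw [hzgt (i + 1) hi]
      exact le_top
  have h0 : z 0 = ⊥ := by
    rw [hzle 0 (Nat.zero_le c)]
    simp
  -- coset representatives
  let F : Set G := Set.range (fun q : G ⧸ N => q.out)
  have hF : F.Finite := by
    have : Finite (G ⧸ N) := inferInstance
    exact Set.finite_range _
  refine bound_vnil z hnorm hmono (c + 1) h0 (hzgt (c + 1) (by omega)) F hF ?_ hm hs
  intro i u
  refine ⟨((u : G ⧸ N)).out, ⟨_, rfl⟩, ((u : G ⧸ N)).out⁻¹ * u, by group, ?_⟩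
  have hmem : ((u : G ⧸ N)).out⁻¹ * u ∈ N := by
    rw [← QuotientGroup.eq]
    simp
  intro o ho
  by_cases hi : i + 1 ≤ c
  · rw [hzle (i + 1) hi] at ho
    rw [hzle i (by omega)]
    obtain ⟨o', ho', rfl⟩ := Subgroup.mem_map.1 ho
    have h1 := Subgroup.mem_upperCentralSeries_succ_iff.1 ho' ⟨_, hmem⟩
    refine Subgroup.mem_map.2 ⟨_, h1, ?_⟩
    simp [commutatorElement_def]
  · by_cases hi' : i ≤ c
    · have : i = c := by omega
      subst this
      rw [hzc, commutatorElement_def]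
      exact N.mul_mem (hNn.conj_mem _ hmem o) (N.inv_mem hmem)
    · rw [hzgt i hi']
      trivial

end Pool.Agent.H27.NilTop
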