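import Mathlib
import Pool.Agent.H27.ChainBound
import Pool.Agent.H27.VNilTop

set_option autoImplicit false

namespace Pool.Agent.H27.Chains

universe u
variable {L : Type u} [Lattice L]

lemma split_cov' {w z v : L} (hwz : w ≤ z)
    (L1 : ∀ t s : L, w ≤ t → t ≤ s → (t ⊔ z) ⊓ s ≤ t ⊔ (z ⊓ s))
    (L2 : ∀ q s : L, w ≤ s → z ≤ q → (z ⊔ s) ⊓ q ≤ z ⊔ (s ⊓ q))
    (L3 : ∀ x t y : L, w ≤ x → x ≤ z → w ≤ t → t ≤ v → x ≤ y → (x ⊔ t) ⊓ y ≤ x ⊔ (t ⊓ y))
    {t s : L} (hw : w ≤ t) (hsv : s ≤ v) (h : t ⋖ s) :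
    (t ⊓ z ⋖ s ⊓ z ∧ t ⊔ z = s ⊔ z) ∨ (t ⊓ z = s ⊓ z ∧ t ⊔ z ⋖ s ⊔ z) := by
  have hts := h.le
  rcases h.eq_or_eq (c := t ⊔ (z ⊓ s)) le_sup_left (sup_le hts inf_le_right) with hr | hr
  · right
    have hzs : z ⊓ s ≤ t := by rw [← hr]; exact le_sup_right
    refine ⟨le_antisymm (inf_le_inf_right z hts) (le_inf ?_ inf_le_right), ?_, ?_⟩
    · rw [inf_comm]; exact hzs
    · refine (sup_le_sup_right hts z).lt_of_ne ?_
      intro heq
      have h1 : s ≤ (t ⊔ z) ⊓ s := le_inf (by rw [heq]; exact le_sup_left) le_rfl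
      have h2 := h1.trans (L1 t s hw hts)
      rw [hr] at h2
      exact absurd h.lt h2.not_gt
    · intro q hq1 hq2
      rcases h.eq_or_eq (c := s ⊓ q) (le_inf hts (le_sup_left.trans hq1.le)) inf_le_left with h3 | h3
      · have h4 := L2 q s (hw.trans hts) (le_sup_right.trans hq1.le)
        rw [h3] at h4
        have h5 : q ≤ (z ⊔ s) ⊓ q := le_inf (by rw [sup_comm]; exact hq2.le) le_rfl
        have h6 := h5.trans h4
        rw [sup_comm] at h6
        exact absurd hq1 h6.not_gt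
      · have : s ≤ q := by rw [← h3]; exact inf_le_right
        exact absurd hq2 (sup_le this (le_sup_right.trans hq1.le)).not_gt
  · left
    have hst : s ≤ t ⊔ z := by
      conv_lhs => rw [← hr]
      exact sup_le_sup_left inf_le_left t
    refine ⟨⟨?_, ?_⟩, le_antisymm (sup_le_sup_right hts z) (sup_le hst le_sup_right)⟩
    · refine (inf_le_inf_right z hts).lt_of_ne ?_
      intro heq
      have : z ⊓ s ≤ t := by rw [inf_comm, ← heq]; exact inf_le_left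
      rw [sup_eq_left.2 this] at hr
      exact absurd hr h.ne
    · intro x hx1 hx2
      rcases h.eq_or_eq (c := t ⊔ x) le_sup_left
        (sup_le hts (hx2.le.trans inf_le_left)) with h3 | h3
      · have : x ≤ t := by rw [← h3]; exact le_sup_right
        exact absurd hx1 (le_inf this (hx2.le.trans inf_le_right)).not_gt
      · have h4 := L3 x t z ((le_inf hw hwz).trans hx1.le) (hx2.le.trans inf_le_right) hw
          (hts.trans hsv) (hx2.le.trans inf_le_right)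
        rw [sup_comm, h3, sup_eq_left.2 hx1.le] at h4
        exact absurd hx2 h4.not_gt

lemma split' {w z v : L} (hwz : w ≤ z)
    (L1 : ∀ t s : L, w ≤ t → t ≤ s → (t ⊔ z) ⊓ s ≤ t ⊔ (z ⊓ s))
    (L2 : ∀ q s : L, w ≤ s → z ≤ q → (z ⊔ s) ⊓ q ≤ z ⊔ (s ⊓ q))
    (L3 : ∀ x t y : L, w ≤ x → x ≤ z → w ≤ t → t ≤ v → x ≤ y → (x ⊔ t) ⊓ y ≤ x ⊔ (t ⊓ y))
    {m : ℕ} {a b : L} (hw : w ≤ a) (hbv : b ≤ v) (h : Cov m a b) :
    ∃ p q, p + q = m ∧ Cov p (a ⊓ z) (b ⊓ z) ∧ Cov q (a ⊔ z) (b ⊔ z) := by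
  induction h with
  | zero a => exact ⟨0, 0, rfl, Cov.zero _, Cov.zero _⟩
  | @succ m a c b hac hcb ih =>
    obtain ⟨p, q, hpq, hp, hq⟩ := ih (hw.trans hac.le) hbv
    rcases split_cov' hwz L1 L2 L3 hw (hcb.le.trans hbv) hac with ⟨h1, h2⟩ | ⟨h1, h2⟩
    · exact ⟨p + 1, q, by omega, Cov.succ h1 hp, by rw [h2]; exact hq⟩
    · exact ⟨p, q + 1, by omega, by rw [h1]; exact hp, Cov.succ h2 hq⟩

theorem bound_series' (z : ℕ → L) (hz : Monotone z) (c : ℕ) (v : L)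
    (hzv : ∀ i, i ≤ c → z i ≤ v)
    (Hb : ∀ x t y : L, z c ≤ x → z c ≤ t → x ≤ v → t ≤ v → y ≤ v → x ≤ y →
      (x ⊔ t) ⊓ y ≤ x ⊔ (t ⊓ y))
    (L1 : ∀ i, ∀ t s : L, z i ≤ t → t ≤ s → (t ⊔ z (i + 1)) ⊓ s ≤ t ⊔ (z (i + 1) ⊓ s))
    (L2 : ∀ i, ∀ q s : L, z i ≤ s → z (i + 1) ≤ q → (z (i + 1) ⊔ s) ⊓ q ≤ z (i + 1) ⊔ (s ⊓ q))
    (L3 : ∀ i, i < c → ∀ x t y : L, z i ≤ x → x ≤ z (i + 1) → z i ≤ t → t ≤ v → x ≤ y →
      (x ⊔ t) ⊓ y ≤ x ⊔ (t ⊓ y))
    (j : ℕ) : ∀ i, i + j = c → ∀ (a b : L) (m n : ℕ), z i ≤ a → b ≤ v →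
      Cov m a b → Str n a b → n ≤ m := by
  induction j with
  | zero =>
    intro i hi a b m n ha hb hm hn
    simp only [add_zero] at hi
    subst hi
    exact str_le_cov (u := z i) (v := v) Hb hm ha hb hn
  | succ j ih =>
    intro i hi a b m n ha hb hm hn
    have hwz : z i ≤ z (i + 1) := hz (Nat.le_succ i)
    obtain ⟨p, q, hpq, hp, hq⟩ := split' hwz (L1 i) (L2 i) (L3 i (by omega)) ha hb hm
    obtain ⟨p', q', hpq', hp', hq'⟩ := split_str (L1 i) ha hn
    have h1 : q' ≤ q := ih (i + 1) (by omega) _ _ _ _ le_sup_right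
      (sup_le hb (hzv (i + 1) (by omega))) hq hq'
    have h2 : p' ≤ p := by
      refine str_le_cov (u := z i) (v := z (i + 1)) ?_ hp (le_inf ha hwz) inf_le_right hp'
      intro x t y hx ht hxv htv _ hxy
      exact L3 i (by omega) x t y hx hxv ht (htv.trans (hzv (i + 1) (by omega))) hxy
    omega

end Pool.Agent.H27.Chains

namespace Pool.Agent.H27.NilTop

open Filter Pointwise Topology Pool.Agent.H27.GrpTop Pool.Agent.H27.Chains

open scoped commutatorElement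

universe u
variable {G : Type u} [Group G]

/-- permutability, when a neighbourhood `V` of `1` for `t` satisfies `V ⊆ F * C` -/
lemma perm5 {Y Z : Subgroup G} [hY : Y.Normal] (F V : Set G) (hF : F.Finite)
    (hYZ : ∀ u ∈ V, ∃ f ∈ F, ∃ c : G, u = f * c ∧ ∀ o ∈ Z, ⁅o, c⁆ ∈ Y)
    {x t : GroupTopology G} (hx : (Z : Set G) ∈ nu x) (ht : zt Y ≤ t) (hV : V ∈ nu t) :
    nu t * nu x ≤ nu x * nu t := by
  rw [le_iff, nu_zt] at ht
  intro N hN
  rw [Filter.mem_mul] at hN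
  obtain ⟨O, hO, U, hU, hOU⟩ := hN
  obtain ⟨U', hU', hUU⟩ := exists_sq hU
  have hYU : (Y : Set G) ⊆ U' := by
    have := ht hU'
    rwa [mem_principal] at this
  have hconj : ⋂ f ∈ F, {o : G | f * o * f⁻¹ ∈ O} ∈ nu x := by
    rw [biInter_mem hF]
    intro f _
    exact conj_le x f hO
  refine mem_of_superset (Filter.mul_mem_mul (inter_mem hU' hV) (inter_mem hconj hx)) ?_
  rintro _ ⟨u, hu, o, ho, rfl⟩
  apply hOU
  obtain ⟨f, hf, c, rfl, hc⟩ := hYZ u hu.2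
  have h1 : f * o * f⁻¹ ∈ O := by
    have := ho.1
    simp only [Set.mem_iInter] at this
    exact this f hf
  have h2 : ⁅o⁻¹, c⁆ ∈ Y := hc o⁻¹ (Z.inv_mem ho.2)
  have h3 : f * ⁅o⁻¹, c⁆ * f⁻¹ ∈ Y := hY.conj_mem _ h2 f
  refine ⟨f * o * f⁻¹, h1, (f * ⁅o⁻¹, c⁆ * f⁻¹) * (f * c), hUU ⟨_, hYU h3, f * c, hu.1, rfl⟩, ?_⟩
  simp only [commutatorElement_def]
  group

theorem bound_open (N : Subgroup G) [hNn : N.Normal] [hN : Group.IsNilpotent N]
    (F V : Set G) (hF : F.Finite) {a b : GroupTopology G} (hV : V ∈ nu b)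
    (hVF : ∀ u ∈ V, ∃ f ∈ F, f⁻¹ * u ∈ N) {m n : ℕ}
    (hm : Cov m a b) (hs : Str n a b) : n ≤ m := by
  classical
  obtain ⟨c, hc⟩ := hN.nilpotent
  let z : ℕ → Subgroup G := fun i => (Subgroup.upperCentralSeries N i).map N.subtype
  have hzle : ∀ i, z i = (Subgroup.upperCentralSeries N i).map N.subtype := fun i => rfl
  have hzc : z c = N := by
    rw [hzle c, hc]
    ext g
    simp
  have hnorm : ∀ i, (z i).Normal := by
    intro i
    rw [hzle i]
    infer_instance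
  have hmono : Monotone z := by
    apply monotone_nat_of_le_succ
    intro i
    rw [hzle i, hzle (i + 1)]
    exact Subgroup.map_mono (Subgroup.upperCentralSeries_mono N (Nat.le_succ i))
  have hzN : ∀ i, z i ≤ N := by
    intro i
    rw [hzle i]
    exact Subgroup.map_subtype_le _
  have h0 : z 0 = ⊥ := by
    rw [hzle 0]
    simp
  let w : ℕ → GroupTopology G := fun i => @zt G _ (z i) (hnorm i)
  let v : GroupTopology G := b ⊔ zt N
  have hVv : ∀ t ≤ v, V * (N : Set G) ∈ nu t := by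
    intro t ht
    have h1 : nu v = nu b * nu (zt N) := nu_sup_of_perm (perm2 N b)
    have h2 : V * (N : Set G) ∈ nu v := by
      rw [h1, nu_zt]
      exact Filter.mul_mem_mul hV (mem_principal_self _)
    exact (le_iff.1 ht) h2
  have hVF' : ∀ u ∈ V * (N : Set G), ∃ f ∈ F, f⁻¹ * u ∈ N := by
    rintro _ ⟨x, hx, y, hy, rfl⟩
    obtain ⟨f, hf, h⟩ := hVF x hx
    refine ⟨f, hf, ?_⟩
    have := N.mul_mem h hy
    simpa [mul_assoc] using this
  have hw : Monotone w := by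
    apply monotone_nat_of_le_succ
    intro i
    rw [le_iff, nu_zt, nu_zt, principal_mono]
    exact hmono (Nat.le_succ i)
  have hwv : ∀ i, i ≤ c → w i ≤ v := by
    intro i _
    refine le_trans ?_ (le_sup_right (a := b))
    rw [le_iff, nu_zt, nu_zt, principal_mono]
    exact hzN i
  have hw0 : w 0 ≤ a := by
    rw [le_iff, nu_zt]
    have : ((z 0 : Subgroup G) : Set G) = {1} := by rw [h0]; simp
    rw [this, principal_singleton]
    exact pure_le a
  refine bound_series' w hw c v hwv ?_ ?_ ?_ ?_ c 0 (by omega) a b m n hw0 le_sup_left hm hs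
  · intro x t y _ ht _ htv _ hxy
    have := hnorm c
    refine dedekind (perm5 (Y := z c) (Z := ⊤) F (V * (N : Set G)) hF ?_ (by simp) ht
      (hVv t htv)) hxy
    intro u hu
    obtain ⟨f, hf, h⟩ := hVF' u hu
    refine ⟨f, hf, f⁻¹ * u, by group, ?_⟩
    intro o _
    rw [hzc, commutatorElement_def]
    exact N.mul_mem (hNn.conj_mem _ h o) (N.inv_mem h)
  · intro i t s _ hts
    have := hnorm (i + 1)
    exact dedekind (perm2 _ t) hts
  · intro i q s _ hq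
    have := hnorm (i + 1)
    exact dedekind (perm1 _ s) hq
  · intro i hi x t y _ hxz ht htv hxy
    have := hnorm (i + 1)
    have := hnorm i
    have hxZ : ((z (i + 1) : Subgroup G) : Set G) ∈ nu x := by
      have h1 := le_iff.1 hxz
      rw [nu_zt] at h1
      exact h1 (mem_principal_self _)
    refine dedekind (perm5 (Y := z i) (Z := z (i + 1)) F (V * (N : Set G)) hF ?_ hxZ ht
      (hVv t htv)) hxy
    intro u hu
    obtain ⟨f, hf, h⟩ := hVF' u hu
    refine ⟨f, hf, f⁻¹ * u, by group, ?_⟩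
    intro o ho
    rw [hzle (i + 1)] at ho
    rw [hzle i]
    obtain ⟨o', ho', rfl⟩ := Subgroup.mem_map.1 ho
    have h1 := Subgroup.mem_upperCentralSeries_succ_iff.1 ho' ⟨_, h⟩
    refine Subgroup.mem_map.2 ⟨_, h1, ?_⟩
    simp [commutatorElement_def]

end Pool.Agent.H27.NilTop
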