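import Mathlib

set_option autoImplicit false

open LaurentPolynomial Matrix

namespace Pool.Agent.H27.Grp

section
variable {R : Type*} [CommRing R]

/-- upper unitriangular matrices -/
def U (x y z : R) : (Matrix (Fin 3) (Fin 3) R)ˣ where
  val := !![1, x, z; 0, 1, y; 0, 0, 1]
  inv := !![1, -x, x * y - z; 0, 1, -y; 0, 0, 1]
  val_inv := by
    ext i j; fin_cases i <;> fin_cases j <;> simp [Matrix.mul_apply, Fin.sum_univ_three] <;> ring
  inv_val := by
    ext i j; fin_cases i <;> fin_cases j <;> simp [Matrix.mul_apply, Fin.sum_univ_three] <;> ring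

/-- the involution -/
def S : (Matrix (Fin 3) (Fin 3) R)ˣ where
  val := !![1, 0, 0; 0, -1, 0; 0, 0, 1]
  inv := !![1, 0, 0; 0, -1, 0; 0, 0, 1]
  val_inv := by
    ext i j; fin_cases i <;> fin_cases j <;> simp [Matrix.mul_apply, Fin.sum_univ_three]
  inv_val := by
    ext i j; fin_cases i <;> fin_cases j <;> simp [Matrix.mul_apply, Fin.sum_univ_three]

/-- diagonal matrices -/
def D (u v : Rˣ) : (Matrix (Fin 3) (Fin 3) R)ˣ where
  val := !![(u : R), 0, 0; 0, 1, 0; 0, 0, (v : R)]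
  inv := !![((u⁻¹ : Rˣ) : R), 0, 0; 0, 1, 0; 0, 0, ((v⁻¹ : Rˣ) : R)]
  val_inv := by
    ext i j; fin_cases i <;> fin_cases j <;> simp [Matrix.mul_apply, Fin.sum_univ_three]
  inv_val := by
    ext i j; fin_cases i <;> fin_cases j <;> simp [Matrix.mul_apply, Fin.sum_univ_three]

theorem U_zero : U (0 : R) 0 0 = 1 := by
  ext i j; fin_cases i <;> fin_cases j <;> simp [U]

theorem U_mul (x y z x' y' z' : R) :
    U x y z * U x' y' z' = U (x + x') (y + y') (z + z' + x * y') := by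
  ext i j; fin_cases i <;> fin_cases j <;> 
    simp [U, Matrix.mul_apply, Fin.sum_univ_three] <;> ring

theorem U_inv (x y z : R) : (U x y z)⁻¹ = U (-x) (-y) (x * y - z) := by
  rw [inv_eq_iff_mul_eq_one, U_mul, ← U_zero]
  congr 1 <;> ring

theorem S_mul_U (x y z : R) : S * U x y z = U (-x) (-y) z * S := by
  ext i j; fin_cases i <;> fin_cases j <;> 
    simp [U, S, Matrix.mul_apply, Fin.sum_univ_three]

theorem S_mul_S : (S : (Matrix (Fin 3) (Fin 3) R)ˣ) * S = 1 := by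
  ext i j; fin_cases i <;> fin_cases j <;> 
    simp [S, Matrix.mul_apply, Fin.sum_univ_three]

theorem D_mul_U (u v : Rˣ) (x y z : R) :
    D u v * U x y z * (D u v)⁻¹ = U (u * x) ((v⁻¹ : Rˣ) * y) (u * (v⁻¹ : Rˣ) * z) := by
  rw [mul_inv_eq_iff_eq_mul]
  ext i j; fin_cases i <;> fin_cases j <;> 
    simp [U, D, Matrix.mul_apply, Fin.sum_univ_three] <;> ring_nf <;> simp [mul_assoc, mul_comm, mul_left_comm]

theorem U_injective {x y z : R} (h : U x y z = 1) : x = 0 ∧ y = 0 ∧ z = 0 := by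
  have h0 : (U x y z).val = 1 := by rw [h]; rfl
  have h1 := congrFun (congrFun h0 0) 1
  have h2 := congrFun (congrFun h0 1) 2
  have h3 := congrFun (congrFun h0 0) 2
  simp [U] at h1 h2 h3
  exact ⟨h1, h2, h3⟩

theorem U_pow (x y z : R) (n : ℕ) :
    U x y z ^ n = U (n * x) (n * y) (n * z + (n.choose 2 : ℕ) * (x * y)) := by
  induction n with
  | zero => simp [U_zero]
  | succ n ih =>
    rw [pow_succ, ih, U_mul, Nat.choose_succ_succ' n 1, Nat.choose_one_right]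
    congr 1 <;> push_cast <;> ring

end

/-! ### the reductions modulo two and the evaluations -/

/-- reduction modulo two -/
noncomputable def ρ : ℤ[T;T⁻¹] →+* (ZMod 2)[T;T⁻¹] :=
  LaurentPolynomial.eval₂ (LaurentPolynomial.C.comp (Int.castRingHom (ZMod 2)))
    ⟨T 1, T (-1), by rw [← T_add]; simp, by rw [← T_add]; simp⟩

theorem exists_omega : ∃ ω : (AlgebraicClosure (ZMod 2))ˣ, 
    (ω : AlgebraicClosure (ZMod 2)) ^ 2 + ω + 1 = 0 := by
  obtain ⟨x, hx⟩ := IsAlgClosed.exists_root 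
    (Polynomial.X ^ 2 + Polynomial.X + 1 : Polynomial (AlgebraicClosure (ZMod 2))) (by
      have : (Polynomial.X ^ 2 + Polynomial.X + 1 : Polynomial (AlgebraicClosure (ZMod 2))).degree = 2 := by
        compute_degree!
      rw [this]; decide)
  have hx' : x ^ 2 + x + 1 = 0 := by simpa using hx
  refine ⟨⟨x, -(x + 1), by linear_combination -hx', by linear_combination -hx'⟩, hx'⟩

/-- a primitive cube root of unity in characteristic two -/
noncomputable def ω : (AlgebraicClosure (ZMod 2))ˣ := exists_omega.choose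

theorem hω : (ω : AlgebraicClosure (ZMod 2)) ^ 2 + ω + 1 = 0 := exists_omega.choose_spec

theorem ω3 : ω ^ 3 = 1 := by
  ext
  push_cast
  linear_combination ((ω : AlgebraicClosure (ZMod 2)) - 1) * hω

/-- evaluation at one -/
noncomputable def e1 : (ZMod 2)[T;T⁻¹] →+* AlgebraicClosure (ZMod 2) :=
  LaurentPolynomial.eval₂ (algebraMap (ZMod 2) _) 1

/-- evaluation at omega -/
noncomputable def e2 : (ZMod 2)[T;T⁻¹] →+* AlgebraicClosure (ZMod 2) :=
  LaurentPolynomial.eval₂ (algebraMap (ZMod 2) _) ω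

theorem ρT (n : ℤ) : ρ (T n) = T n := by
  rw [ρ, LaurentPolynomial.eval₂_T]
  induction n using Int.induction_on with
  | zero => simp
  | succ n ih => rw [_root_.zpow_add_one, Units.val_mul, ih, T_add]
  | pred n ih => 
    rw [_root_.zpow_sub_one, Units.val_mul, ih, sub_eq_add_neg, T_add]
    rfl

theorem e1T (n : ℤ) : e1 (T n) = 1 := by
  rw [e1, LaurentPolynomial.eval₂_T]; simp

theorem e2T (n : ℤ) : e2 (T (3 * n)) = 1 := by
  rw [e2, LaurentPolynomial.eval₂_T, _root_.zpow_mul]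
  have : ω ^ (3 : ℤ) = 1 := by exact_mod_cast ω3
  rw [this]; simp

theorem e2p : e2 (T 2 + T 1 + 1) = 0 := by
  have h2 := LaurentPolynomial.eval₂_T (algebraMap (ZMod 2) (AlgebraicClosure (ZMod 2))) ω 2
  have h1 := LaurentPolynomial.eval₂_T (algebraMap (ZMod 2) (AlgebraicClosure (ZMod 2))) ω 1
  rw [e2, map_add, map_add, h1, h2]
  simp only [zpow_one, map_one]
  exact_mod_cast hω

theorem two_eq_zero : (2 : (ZMod 2)[T;T⁻¹]) = 0 := by
  have : (2 : (ZMod 2)[T;T⁻¹]) = LaurentPolynomial.C 2 := (map_ofNat _ 2).symm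
  rw [this, show (2 : ZMod 2) = 0 from rfl, map_zero]

theorem two_eq_zero' : (2 : AlgebraicClosure (ZMod 2)) = 0 := by
  have : (2 : AlgebraicClosure (ZMod 2)) = algebraMap (ZMod 2) _ 2 := (map_ofNat _ 2).symm
  rw [this, show (2 : ZMod 2) = 0 from rfl, map_zero]

/-! ### the ambient torsion-free group -/

/-- the shape of the matrices in our group -/
def P (M : Matrix (Fin 3) (Fin 3) ℤ[T;T⁻¹]) : Prop :=
  M 1 0 = 0 ∧ M 2 0 = 0 ∧ M 2 1 = 0 ∧ (∃ i : ℤ, M 0 0 = T i) ∧ (∃ j : ℤ, M 2 2 = T (3 * j)) ∧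
    ((M 1 1 = 1 ∧ e1 (ρ (M 0 1)) = 0 ∧ e2 (ρ (M 1 2)) = 0) ∨
     (M 1 1 = -1 ∧ e1 (ρ (M 0 1)) = 1 ∧ e2 (ρ (M 1 2)) = 1))

theorem P_one : P 1 := by
  refine ⟨by simp, by simp, by simp, ⟨0, by simp⟩, ⟨0, by simp⟩, Or.inl ⟨by simp, by simp, by simp⟩⟩

theorem P_mul {M N : Matrix (Fin 3) (Fin 3) ℤ[T;T⁻¹]} (hM : P M) (hN : P N) : P (M * N) := by
  obtain ⟨a1, a2, a3, ⟨i, a4⟩, ⟨j, a5⟩, a6⟩ := hM
  obtain ⟨b1, b2, b3, ⟨k, b4⟩, ⟨l, b5⟩, b6⟩ := hN
  have h01 : (M * N) 0 1 = M 0 0 * N 0 1 + M 0 1 * N 1 1 := by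
    simp [Matrix.mul_apply, Fin.sum_univ_three, b3]
  have h12 : (M * N) 1 2 = M 1 1 * N 1 2 + M 1 2 * N 2 2 := by
    simp [Matrix.mul_apply, Fin.sum_univ_three, a1]
  have h11 : (M * N) 1 1 = M 1 1 * N 1 1 := by
    simp [Matrix.mul_apply, Fin.sum_univ_three, a1, b3]
  have t2 : (1 : AlgebraicClosure (ZMod 2)) + 1 = 0 := by
    have := two_eq_zero'
    linear_combination this
  have t3 : (-1 : AlgebraicClosure (ZMod 2)) = 1 := by linear_combination -t2
  refine ⟨?_, ?_, ?_, ⟨i + k, ?_⟩, ⟨j + l, ?_⟩, ?_⟩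
  · simp [Matrix.mul_apply, Fin.sum_univ_three, a1, b1, b2]
  · simp [Matrix.mul_apply, Fin.sum_univ_three, a2, a3, b1, b2]
  · simp [Matrix.mul_apply, Fin.sum_univ_three, a2, a3, b3]
  · rw [T_add, ← a4, ← b4, Matrix.mul_apply, Fin.sum_univ_three, b1, b2]; ring
  · rw [mul_add, T_add, ← a5, ← b5, Matrix.mul_apply, Fin.sum_univ_three, a2, a3]; ring
  · rw [h01, h12, h11, a4, b5]
    simp only [map_add, map_mul, ρT, e1T, e2T]
    rcases a6 with ⟨c1, c2, c3⟩ | ⟨c1, c2, c3⟩ <;> rcases b6 with ⟨d1, d2, d3⟩ | ⟨d1, d2, d3⟩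
    · left; simp [c1, c2, c3, d1, d2, d3]
    · right; simp [c1, c2, c3, d1, d2, d3]
    · right; simp [c1, c2, c3, d1, d2, d3]
    · left; simp [c1, c2, c3, d1, d2, d3, t2, t3]

theorem T_eq_one {n : ℤ} (h : (T n : ℤ[T;T⁻¹]) = 1) : n = 0 := by
  by_contra hn
  have h1 := congrArg (fun p : ℤ[T;T⁻¹] => p.coeff 0) h
  rw [← T_zero] at h1
  simp only [T_apply] at h1
  simp [hn] at h1

theorem natCast_ne_zero {k : ℕ} (hk : 0 < k) : (k : ℤ[T;T⁻¹]) ≠ 0 := by
  intro h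
  have h1 : (Polynomial.toLaurent (k : Polynomial ℤ) : ℤ[T;T⁻¹]) = 0 := by
    rw [map_natCast, h]
  rw [Polynomial.toLaurent_eq_zero] at h1
  have : (k : Polynomial ℤ) ≠ 0 := by exact_mod_cast hk.ne'
  exact this h1

/-- torsion-freeness -/
theorem P_torsionfree (M : (Matrix (Fin 3) (Fin 3) ℤ[T;T⁻¹])ˣ) (hM : P M.val)
    (hfin : IsOfFinOrder M) : M = 1 := by
  obtain ⟨n, hn, hMn⟩ := isOfFinOrder_iff_pow_eq_one.1 hfin
  obtain ⟨a1, a2, a3, ⟨i, a4⟩, ⟨j, a5⟩, a6⟩ := hM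
  have hpow : ∀ k : ℕ, (M.val ^ k) 1 0 = 0 ∧ (M.val ^ k) 2 0 = 0 ∧ (M.val ^ k) 2 1 = 0 ∧ 
      (M.val ^ k) 0 0 = T (k * i) ∧ (M.val ^ k) 2 2 = T (k * (3 * j)) := by
    intro k
    induction k with
    | zero => simp
    | succ k ih =>
      obtain ⟨h1, h2, h3, h4, h5⟩ := ih
      rw [pow_succ]
      refine ⟨?_, ?_, ?_, ?_, ?_⟩
      · simp [Matrix.mul_apply, Fin.sum_univ_three, a1, a2, h1]
      · simp [Matrix.mul_apply, Fin.sum_univ_three, a1, a2, h2]
      · simp [Matrix.mul_apply, Fin.sum_univ_three, a3, h2, h3]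
      · rw [Nat.cast_succ, add_mul, one_mul, T_add, ← h4, ← a4, Matrix.mul_apply,
          Fin.sum_univ_three, a1, a2]
        ring
      · rw [Nat.cast_succ, add_mul, one_mul, T_add, ← h5, ← a5, Matrix.mul_apply,
          Fin.sum_univ_three, h2, h3]
        ring
  have hMn' : M.val ^ n = 1 := by
    rw [← Units.val_pow_eq_pow_val, hMn]; rfl
  obtain ⟨-, -, -, h4, h5⟩ := hpow n
  rw [hMn'] at h4 h5
  have hi : i = 0 := by
    have := T_eq_one (n := n * i) (by rw [← h4]; simp)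
    rcases mul_eq_zero.1 this with h | h
    · omega
    · exact h
  have hj : j = 0 := by
    have := T_eq_one (n := n * (3 * j)) (by rw [← h5]; simp)
    rcases mul_eq_zero.1 this with h | h
    · omega
    · omega
  subst hi hj
  have hUtor : ∀ (x y z : ℤ[T;T⁻¹]) (k : ℕ), 0 < k → U x y z ^ k = 1 → U x y z = 1 := by
    intro x y z k hk h
    rw [U_pow] at h
    obtain ⟨h1, h2, h3⟩ := U_injective h
    have hk' : (k : ℤ[T;T⁻¹]) ≠ 0 := natCast_ne_zero hk
    have hx : x = 0 := (mul_eq_zero.1 h1).resolve_left hk'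
    have hy : y = 0 := (mul_eq_zero.1 h2).resolve_left hk'
    subst hx hy
    have hz : z = 0 := by
      rw [mul_zero, mul_zero, add_zero] at h3
      exact (mul_eq_zero.1 h3).resolve_left hk'
    subst hz
    exact U_zero
  rcases a6 with ⟨c1, c2, c3⟩ | ⟨c1, c2, c3⟩
  · have hMU : M = U (M.val 0 1) (M.val 1 2) (M.val 0 2) := by
      refine Units.ext (Matrix.ext fun p q => ?_); fin_cases p <;> fin_cases q <;> simp [U, a1, a2, a3, a4, a5, c1]
    rw [hMU] at hMn ⊢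
    exact hUtor _ _ _ n hn hMn
  · exfalso
    have hM2 : M ^ 2 = U 0 0 (2 * M.val 0 2 + M.val 0 1 * M.val 1 2) := by
      refine Units.ext (Matrix.ext fun p q => ?_)
      rw [pow_two, Units.val_mul]
      fin_cases p <;> fin_cases q <;> simp [U, Matrix.mul_apply, Fin.sum_univ_three, a1, a2, a3, a4, a5, c1] <;> ring
    have h6 : (U 0 0 (2 * M.val 0 2 + M.val 0 1 * M.val 1 2)) ^ n = 1 := by
      rw [← hM2, ← pow_mul, mul_comm, pow_mul, hMn, one_pow]
    have h7 := hUtor _ _ _ n hn h6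
    obtain ⟨-, -, h8⟩ := U_injective h7
    have h9 := congrArg ρ h8
    rw [map_add, map_mul, map_mul, map_ofNat, two_eq_zero, zero_mul, zero_add, map_zero] at h9
    rcases mul_eq_zero.1 h9 with h | h
    · rw [h] at c2; simp at c2
    · rw [h] at c3; simp at c3

end Pool.Agent.H27.Grp
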