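import Mathlib

set_option autoImplicit false

open Polynomial

namespace Pool.Agent.H27.KeyA

section
variable {K E : Type*} [Field K] [IsAlgClosed K] [CommRing E] [Algebra K E] [Module.Finite K E]

/-- some power of an automorphism is the identity modulo the nilradical -/
theorem exists_pow_sub_mem (α : E ≃ₐ[K] E) :
    ∃ k : ℕ, 0 < k ∧ ∀ e : E, (α ^ k) e - e ∈ nilradical E := by
  classical
  have : Finite (E →ₐ[K] K) := inferInstance
  let π : Equiv.Perm (E →ₐ[K] K) :=
    { toFun := fun χ => χ.comp (α : E →ₐ[K] E)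
      invFun := fun χ => χ.comp (α.symm : E →ₐ[K] E)
      left_inv := fun χ => by ext e; simp
      right_inv := fun χ => by ext e; simp }
  obtain ⟨k, hk, hπ⟩ := isOfFinOrder_iff_pow_eq_one.1 (isOfFinOrder_of_finite π)
  refine ⟨k, hk, fun e => ?_⟩
  have hpow : ∀ (j : ℕ) (χ : E →ₐ[K] K) (e : E), (π ^ j) χ e = χ ((α ^ j) e) := by
    intro j
    induction j with
    | zero => intro χ e; simp
    | succ j ih =>
      intro χ e
      rw [pow_succ, Equiv.Perm.mul_apply, ih]
      change χ (α ((α ^ j) e)) = _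
      rw [pow_succ']
      rfl
  have hχ : ∀ χ : E →ₐ[K] K, χ ((α ^ k) e - e) = 0 := by
    intro χ
    rw [map_sub, ← hpow, hπ]
    simp
  rw [nilradical_eq_sInf, Submodule.mem_sInf]
  intro P hP
  change Ideal E at P
  have hP' : Ideal.IsPrime P := hP
  have : IsArtinianRing E := IsArtinianRing.of_finite K E
  have hmax : Ideal.IsMaximal P := IsArtinianRing.isMaximal_of_isPrime P
  let _ := Ideal.Quotient.field P
  have hfin : Module.Finite K (E ⧸ P) := inferInstance
  have hbij : Function.Bijective (algebraMap K (E ⧸ P)) :=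
    IsAlgClosed.algebraMap_bijective_of_isIntegral
  let ψ : (E ⧸ P) ≃ₐ[K] K := (AlgEquiv.ofBijective (Algebra.ofId K (E ⧸ P)) hbij).symm
  have := hχ ((ψ : (E ⧸ P) →ₐ[K] K).comp (Ideal.Quotient.mkₐ K P))
  simp only [AlgHom.comp_apply] at this
  have h2 : ψ (Ideal.Quotient.mk P ((α ^ k) e - e)) = 0 := this
  rw [EmbeddingLike.map_eq_zero_iff] at h2
  exact Ideal.Quotient.eq_zero_iff_mem.1 h2

end

section
variable {K E : Type*} [Field K] [IsAlgClosed K] [CharZero K] [Algebra.IsAlgebraic ℤ K]
  [CommRing E] [Algebra K E] [Module.Finite K E]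

omit [IsAlgClosed K] in
theorem exists_int_poly (α : E ≃ₐ[K] E) :
    ∃ F : ℤ[X], F ≠ 0 ∧ aeval (α.toLinearMap : Module.End K E) F = 0 := by
  have h1 : IsAlgebraic K (α.toLinearMap : Module.End K E) := 
    (Algebra.IsIntegral.isIntegral (R := K) (α.toLinearMap : Module.End K E)).isAlgebraic
  obtain ⟨F, hF, h⟩ := h1.restrictScalars ℤ
  exact ⟨F, hF, h⟩

variable {Z : Type*} [AddCommGroup Z]

omit [IsAlgClosed K] [CharZero K] [Algebra.IsAlgebraic ℤ K] [Module.Finite K E] in
theorem filt (α : E ≃ₐ[K] E) (m : Module.End ℤ Z) (f : Z → E) (h0 : f 0 = 1)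
    (hadd : ∀ z w, f (z + w) = f z * f w) (hm : ∀ z, f (m z) = α (f z)) (k : ℕ) (hk : 1 ≤ k)
    (F : ℤ[X]) (z : Z) (hz : f z - 1 ∈ (nilradical E) ^ k) :
    f (aeval m F z) - 1 - aeval (α.toLinearMap : Module.End K E) F (f z - 1) 
      ∈ (nilradical E) ^ (k + 1) := by
  set I := nilradical E with hI
  have hneg : ∀ z, f (-z) * f z = 1 := fun z => by rw [← hadd]; simp [h0]
  have hαI : ∀ j : ℕ, ∀ e ∈ I ^ j, α e ∈ I ^ j := by
    intro j e he
    have h1 : Ideal.map (α : E →+* E) I ≤ I := by
      rw [Ideal.map_le_iff_le_comap]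
      intro x hx
      rw [hI, mem_nilradical] at hx
      rw [Ideal.mem_comap, hI, mem_nilradical]
      exact hx.map _
    have h2 : Ideal.map (α : E →+* E) (I ^ j) ≤ I ^ j := by
      rw [Ideal.map_pow]
      exact Ideal.pow_right_mono h1 j
    exact h2 (Ideal.mem_map_of_mem _ he)
  -- the subgroup
  let D : AddSubgroup Z :=
    { carrier := {z | f z - 1 ∈ I ^ k}
      zero_mem' := by simp [h0]
      add_mem' := by
        intro a b ha hb
        simp only [Set.mem_ofPred_eq] at *
        have : f (a + b) - 1 = f a * (f b - 1) + (f a - 1) := by rw [hadd]; ring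
        rw [this]
        exact add_mem (Ideal.mul_mem_left _ _ hb) ha
      neg_mem' := by
        intro a ha
        simp only [Set.mem_ofPred_eq] at *
        have : f (-a) - 1 = - f (-a) * (f a - 1) := by
          have := hneg a
          linear_combination this
        rw [this]
        exact Ideal.mul_mem_left _ _ ha }
  let q := Ideal.Quotient.mk (I ^ (k + 1))
  have hq : ∀ a b, a ∈ I ^ k → b ∈ I ^ k → q (a * b) = 0 := by
    intro a b ha hb
    rw [Ideal.Quotient.eq_zero_iff_mem]
    have : a * b ∈ I ^ (k + k) := by rw [pow_add]; exact Ideal.mul_mem_mul ha hb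
    exact Ideal.pow_le_pow_right (by omega) this
  let θ : D →+ E ⧸ I ^ (k + 1) :=
    { toFun := fun z => q (f z.1 - 1)
      map_zero' := by simp [h0]
      map_add' := by
        rintro ⟨a, ha⟩ ⟨b, hb⟩
        change q (f (a + b) - 1) = q (f a - 1) + q (f b - 1)
        have h3 : f (a + b) - 1 = (f a - 1) + (f b - 1) + (f a - 1) * (f b - 1) := by rw [hadd]; ring
        rw [h3, map_add, map_add, hq _ _ ha hb, add_zero] }
  have hmD : ∀ z ∈ D, m z ∈ D := by
    intro z hz
    change f (m z) - 1 ∈ I ^ k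
    have : f (m z) - 1 = α (f z - 1) := by rw [hm]; simp
    rw [this]
    exact hαI k _ hz
  have hmnD : ∀ n : ℕ, ∀ z ∈ D, (m ^ n) z ∈ D := by
    intro n
    induction n with
    | zero => intro z hz; simpa using hz
    | succ n ih =>
      intro z hz
      rw [pow_succ', Module.End.mul_apply]
      exact hmD _ (ih z hz)
  have hmn : ∀ n : ℕ, ∀ z, f ((m ^ n) z) - 1 = ((α.toLinearMap : Module.End K E) ^ n) (f z - 1) := by
    intro n
    induction n with
    | zero => intro z; simp
    | succ n ih =>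
      intro z
      rw [pow_succ', Module.End.mul_apply, pow_succ', Module.End.mul_apply, ← ih, hm]
      simp
  have key : ∀ F : ℤ[X], ∃ h : aeval m F z ∈ D, θ ⟨aeval m F z, h⟩ =
      q (aeval (α.toLinearMap : Module.End K E) F (f z - 1)) := by
    intro F
    induction F using Polynomial.induction_on' with
    | add p r hp hr =>
      obtain ⟨h1, h2⟩ := hp
      obtain ⟨h3, h4⟩ := hr
      have h5 : aeval m (p + r) z = aeval m p z + aeval m r z := by simp
      refine ⟨by rw [h5]; exact add_mem h1 h3, ?_⟩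
      have h6 : (⟨aeval m (p + r) z, by rw [h5]; exact add_mem h1 h3⟩ : D) = ⟨_, h1⟩ + ⟨_, h3⟩ := by
        ext; simp
      rw [h6, map_add, h2, h4]
      simp
    | monomial n c =>
      have h5 : aeval m (monomial n c) z = c • (m ^ n) z := by
        rw [aeval_monomial]; simp
      have h6 : c • (m ^ n) z ∈ D := zsmul_mem (hmnD n z hz) c
      refine ⟨by rw [h5]; exact h6, ?_⟩
      have h7 : (⟨aeval m (monomial n c) z, by rw [h5]; exact h6⟩ : D) = c • ⟨_, hmnD n z hz⟩ := by
        ext; simp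
      rw [h7, map_zsmul]
      change c • q (f ((m ^ n) z) - 1) = _
      rw [hmn, aeval_monomial, ← map_zsmul]
      simp
  obtain ⟨h1, h2⟩ := key F
  rw [← Ideal.Quotient.eq_zero_iff_mem]
  change q _ = 0
  rw [map_sub, ← h2]
  exact sub_self _

/-- the killing polynomial -/
theorem exists_kill (α : E ≃ₐ[K] E) (m : Module.End ℤ Z) (f : Z → E) (h0 : f 0 = 1)
    (hadd : ∀ z w, f (z + w) = f z * f w) (hm : ∀ z, f (m z) = α (f z)) :
    ∃ F : ℤ[X], F ≠ 0 ∧ ∀ z, f (aeval m F z) = 1 := by
  obtain ⟨k, hk, hkα⟩ := exists_pow_sub_mem α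
  obtain ⟨F, hF, hFα⟩ := exists_int_poly α
  have hN : IsNoetherianRing E := IsNoetherianRing.of_finite K E
  obtain ⟨N, hN⟩ := IsNoetherianRing.isNilpotent_nilradical E
  have hmn : ∀ n : ℕ, ∀ z, f ((m ^ n) z) = (α ^ n) (f z) := by
    intro n
    induction n with
    | zero => intro z; simp
    | succ n ih =>
      intro z
      rw [pow_succ', Module.End.mul_apply, pow_succ', hm, ih]
      rfl
  have h1 : ∀ z, f ((m ^ k) z - z) - 1 ∈ nilradical E := by
    intro z
    have hneg : f (-z) * f z = 1 := by rw [← hadd]; simp [h0]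
    have : f ((m ^ k) z - z) - 1 = f (-z) * ((α ^ k) (f z) - f z) := by
      rw [show (m ^ k) z - z = (m ^ k) z + (-z) from sub_eq_add_neg _ _, hadd, hmn]
      linear_combination hneg
    rw [this]
    exact Ideal.mul_mem_left _ _ (hkα _)
  have h2 : ∀ j : ℕ, ∀ z, f z - 1 ∈ nilradical E → f (aeval m (F ^ j) z) - 1 ∈ nilradical E ^ (j + 1) := by
    intro j
    induction j with
    | zero => intro z hz; simpa using hz
    | succ j ih =>
      intro z hz
      have h3 := filt α m f h0 hadd hm (j + 1) (by omega) F _ (ih z hz)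
      rw [hFα] at h3
      rw [show F ^ (j + 1) = F * F ^ j from pow_succ' _ _, map_mul, Module.End.mul_apply]
      simpa using h3
  refine ⟨F ^ N * (X ^ k - 1), ?_, ?_⟩
  · refine mul_ne_zero (pow_ne_zero _ hF) ?_
    exact X_pow_sub_C_ne_zero hk (1 : ℤ)
  · intro z
    have h4 : aeval m (F ^ N * (X ^ k - 1)) z = aeval m (F ^ N) ((m ^ k) z - z) := by
      rw [map_mul, Module.End.mul_apply]
      simp
    rw [h4]
    have h5 := h2 N _ (h1 z)
    rw [pow_succ, hN] at h5
    have h6 : f (aeval m (F ^ N) ((m ^ k) z - z)) - 1 = 0 := by simpa using h5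
    exact sub_eq_zero.1 h6

end

end Pool.Agent.H27.KeyA
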