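import Mathlib
import Pool.Agent.H27.KeyA

set_option autoImplicit false

open Polynomial

namespace Pool.Agent.H27.KeyB

variable {K : Type*} [Field K] [IsAlgClosed K] [CharZero K] [Algebra.IsAlgebraic ℤ K]
variable {n : Type*} [Fintype n] [DecidableEq n]
variable {Z : Type*} [AddCommGroup Z]

/-- conjugation by a unit -/
def conjAlg {K M : Type*} [CommSemiring K] [Semiring M] [Algebra K M] (τ : Mˣ) : M →ₐ[K] M where
  toFun x := τ * x * ((τ⁻¹ : Mˣ) : M)
  map_one' := by simp
  map_mul' x y := by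
    calc (τ : M) * (x * y) * ((τ⁻¹ : Mˣ) : M) = τ * x * ((((τ⁻¹ : Mˣ) : M)) * τ) * y * ((τ⁻¹ : Mˣ) : M) := by
          rw [Units.inv_mul]; simp only [mul_assoc, mul_one]
      _ = _ := by simp only [mul_assoc]
  map_zero' := by simp
  map_add' x y := by simp [mul_add, add_mul]
  commutes' r := by
    rw [← Algebra.commutes, mul_assoc, Units.mul_inv, mul_one]

theorem kill_GL (m : Z ≃+ Z) (ζ : Multiplicative Z →* (Matrix n n K)ˣ) (τ : (Matrix n n K)ˣ)
    (h : ∀ z, τ * ζ (Multiplicative.ofAdd z) * τ⁻¹ = ζ (Multiplicative.ofAdd (m z))) :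
    ∃ F : ℤ[X], F ≠ 0 ∧ ∀ z, ζ (Multiplicative.ofAdd
      (aeval (m.toAddMonoidHom.toIntLinearMap : Module.End ℤ Z) F z)) = 1 := by
  classical
  let s : Set (Matrix n n K) := Set.range (fun z : Z => (ζ (Multiplicative.ofAdd z)).val)
  have hcomm : ∀ a ∈ s, ∀ b ∈ s, a * b = b * a := by
    rintro _ ⟨z, rfl⟩ _ ⟨w, rfl⟩
    simp only
    rw [← Units.val_mul, ← Units.val_mul, ← map_mul ζ, ← map_mul ζ, mul_comm]
  let E := Algebra.adjoin K s
  let iE : CommRing E := Algebra.adjoinCommRingOfComm K hcomm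
  have hst : ∀ x : E, (conjAlg (K := K) τ).comp E.val x ∈ E := by
    intro x
    have h1 : (E.map (conjAlg (K := K) τ)) ≤ E := by
      rw [AlgHom.map_adjoin]
      refine Algebra.adjoin_mono ?_
      rintro _ ⟨_, ⟨z, rfl⟩, rfl⟩
      refine ⟨m z, ?_⟩
      simp only
      rw [← h]
      simp [conjAlg]
    exact h1 ⟨x, x.2, rfl⟩
  let α0 : E →ₐ[K] E := ((conjAlg (K := K) τ).comp E.val).codRestrict E hst
  have hα0 : ∀ x : E, ((α0 x : E) : Matrix n n K) = τ * x * ((τ⁻¹ : (Matrix n n K)ˣ) : Matrix n n K) := fun x => rfl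
  have hinj : Function.Injective α0 := by
    intro x y hxy
    have h2 := congrArg (Subtype.val) hxy
    rw [hα0, hα0] at h2
    ext1
    have h3 := congrArg (fun w => ((τ⁻¹ : (Matrix n n K)ˣ) : Matrix n n K) * w * τ) h2
    simpa [mul_assoc] using h3
  have hfin : Module.Finite K E := inferInstance
  have hsurj : Function.Surjective α0 := by
    have := (LinearMap.injective_iff_surjective (f := α0.toLinearMap)).1 hinj
    exact this
  let α : E ≃ₐ[K] E := AlgEquiv.ofBijective α0 ⟨hinj, hsurj⟩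
  let f : Z → E := fun z => ⟨(ζ (Multiplicative.ofAdd z)).val, Algebra.subset_adjoin ⟨z, rfl⟩⟩
  obtain ⟨F, hF, hF2⟩ := KeyA.exists_kill (K := K) (E := E) α 
    (m.toAddMonoidHom.toIntLinearMap : Module.End ℤ Z) f (by ext1; simp [f]) (by
      intro z w; ext1; simp [f]) (by
      intro z; ext1
      change _ = ((α0 (f z) : E) : Matrix n n K)
      rw [hα0]
      simp only [f]
      have := congrArg Units.val (h z)
      simpa using this.symm)
  refine ⟨F, hF, fun z => ?_⟩
  have := congrArg Subtype.val (hF2 z)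
  ext1
  exact this

end Pool.Agent.H27.KeyB
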