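import Mathlib

set_option autoImplicit false

open Polynomial

namespace Pool.Agent.H27.RingL

theorem ring_lemma (F0 : ℤ[X]) (h : F0.map (Int.castRingHom (ZMod 2)) ≠ 0) :
    ∃ q r z w : ℤ[X], 2 * z - (1 + (X - 1) * q) * (1 + (X ^ 2 + X + 1) * r) = w * F0 := by
  obtain ⟨g, hg, hnd⟩ := exists_eq_pow_rootMultiplicity_mul_and_not_dvd _ h 1
  set k := rootMultiplicity 1 (F0.map (Int.castRingHom (ZMod 2))) with hk
  have hg1 : g.eval 1 = 1 := by
    have h1 : g.eval 1 ≠ 0 := fun h0 => hnd (dvd_iff_isRoot.2 h0)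
    have h2 : ∀ a : ZMod 2, a ≠ 0 → a = 1 := by decide
    exact h2 _ h1
  obtain ⟨g', hg'⟩ := Polynomial.map_surjective (Int.castRingHom (ZMod 2))
    (ZMod.ringHom_surjective _) g
  have h3 : ((g'.eval 1 - 1 : ℤ) : ZMod 2) = 0 := by
    have : ((g'.eval 1 : ℤ) : ZMod 2) = g.eval 1 := by
      rw [← hg', eval_map, eval₂_at_one]
      rfl
    push_cast
    rw [this, hg1, sub_self]
  obtain ⟨b, hb⟩ := (ZMod.intCast_zmod_eq_zero_iff_dvd _ 2).1 h3
  have hb' : g'.eval 1 = 1 + 2 * b := by push_cast at hb; linarith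
  obtain ⟨q, hq⟩ : (X - C 1) ∣ (g' - C (2 * b)) - 1 := by
    rw [dvd_iff_isRoot]
    simp [hb']
  have hX0 : g' - C (2 * b) = 1 + (X - 1) * q := by
    have : (C 1 : ℤ[X]) = 1 := rfl
    rw [this] at hq
    linear_combination hq
  obtain ⟨r, hr⟩ : (X ^ 2 + X + 1 : ℤ[X]) ∣ ((X + 1) ^ 6) ^ k - 1 := by
    have h4 : (X ^ 2 + X + 1 : ℤ[X]) ∣ (X + 1) ^ 6 - 1 :=
      ⟨X ^ 4 + 5 * X ^ 3 + 9 * X ^ 2 + 6 * X, by ring⟩
    have h5 := sub_dvd_pow_sub_pow ((X + 1 : ℤ[X]) ^ 6) 1 k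
    rw [one_pow] at h5
    exact h4.trans h5
  have hY0 : ((X + 1 : ℤ[X]) ^ 6) ^ k = 1 + (X ^ 2 + X + 1) * r := by linear_combination hr
  have hD : (C 2 : ℤ[X]) ∣ (g' - C (2 * b)) * ((X + 1 : ℤ[X]) ^ 6) ^ k - ((X - 1) ^ 5) ^ k * F0 := by
    rw [C_dvd_iff_dvd_coeff]
    intro i
    have h6 : ((g' - C (2 * b)) * ((X + 1 : ℤ[X]) ^ 6) ^ k - ((X - 1) ^ 5) ^ k * F0).map
        (Int.castRingHom (ZMod 2)) = 0 := by
      have h7 : (X + 1 : (ZMod 2)[X]) = X - 1 := by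
        have : (2 : (ZMod 2)[X]) = 0 := by
          have : (2 : (ZMod 2)[X]) = C 2 := rfl
          rw [this, show (2 : ZMod 2) = 0 from rfl, C_0]
        linear_combination this
      have h8 : ((Int.castRingHom (ZMod 2)) (2 * b)) = 0 := by
        simp only [eq_intCast]
        push_cast
        rw [show (2 : ZMod 2) = 0 from rfl, zero_mul]
      simp only [Polynomial.map_sub, Polynomial.map_mul, Polynomial.map_pow, Polynomial.map_add,
        Polynomial.map_one, map_X, map_C, h8, hg', C_0, sub_zero, h7]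
      rw [hg, show (C 1 : (ZMod 2)[X]) = 1 from rfl]
      have h10 : ((X - 1 : (ZMod 2)[X]) ^ 6) ^ k = ((X - 1) ^ 5) ^ k * (X - 1) ^ k := by
        rw [← mul_pow, ← pow_succ]
      rw [h10]
      ring
    have h9 := congrArg (fun p => coeff p i) h6
    simp only [coeff_map, coeff_zero] at h9
    exact (ZMod.intCast_zmod_eq_zero_iff_dvd _ 2).1 h9
  obtain ⟨z, hz⟩ := hD
  refine ⟨q, r, z, -((X - 1) ^ 5) ^ k, ?_⟩
  rw [← hX0, ← hY0]
  have : (C 2 : ℤ[X]) = 2 := rfl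
  rw [this] at hz
  linear_combination -hz

end Pool.Agent.H27.RingL
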