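import Mathlib
import Pool.Agent.H27.Grp
import Pool.Agent.H27.KeyB
import Pool.Agent.H27.RingL

set_option autoImplicit false

open LaurentPolynomial Matrix

namespace Pool.Agent.H27.Gp2

open Pool.Agent.H27.Grp

/-- the unit `T n` -/
noncomputable def Tn (n : ℤ) : (ℤ[T;T⁻¹])ˣ := 
  ⟨T n, T (-n), by rw [← T_add]; simp, by rw [← T_add]; simp⟩

/-- the polynomial `T^2+T+1` -/
noncomputable def p2 : ℤ[T;T⁻¹] := T 2 + T 1 + 1

/-- the generators -/
noncomputable def gens : Set (Matrix (Fin 3) (Fin 3) ℤ[T;T⁻¹])ˣ :=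
  {D (Tn 1) 1, D 1 (Tn (-3)), U 1 1 0 * S, U (T 1 - 1) 0 0, U 0 p2 0, U 0 (T 1 * p2) 0,
    U 0 (T 2 * p2) 0, U 0 0 1}

theorem gens_finite : gens.Finite := by
  unfold gens
  exact Set.toFinite _

/-- the group -/
noncomputable def G : Subgroup (Matrix (Fin 3) (Fin 3) ℤ[T;T⁻¹])ˣ := Subgroup.closure gens

theorem G_fg : G.FG := by
  rw [Subgroup.fg_iff]
  exact ⟨gens, rfl, gens_finite⟩

theorem US_sq (x y z : ℤ[T;T⁻¹]) : (U x y z * S) * (U x y z * S) = U 0 0 (2 * z - x * y) := by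
  calc (U x y z * S) * (U x y z * S) = U x y z * (S * U x y z) * S := by simp only [mul_assoc]
    _ = (U x y z * U (-x) (-y) z) * (S * S) := by rw [S_mul_U]; simp only [mul_assoc]
    _ = U 0 0 (2 * z - x * y) := by
      rw [S_mul_S, mul_one, U_mul]
      congr 1 <;> ring

theorem P_U {x y z : ℤ[T;T⁻¹]} (hx : e1 (ρ x) = 0) (hy : e2 (ρ y) = 0) : P (U x y z).val := by
  refine ⟨by simp [U], by simp [U], by simp [U], ⟨0, by simp [U]⟩, ⟨0, by simp [U]⟩, Or.inl 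
    ⟨by simp [U], by simpa [U] using hx, by simpa [U] using hy⟩⟩

theorem P_U' {x y z : ℤ[T;T⁻¹]} (hx : e1 (ρ x) = 0) (hy : e2 (ρ y) = 0) : P ((U x y z)⁻¹).val := by
  rw [U_inv]
  exact P_U (by simp [hx]) (by simp [hy])

theorem P_US : P (U (1 : ℤ[T;T⁻¹]) 1 0 * S).val := by
  refine ⟨?_, ?_, ?_, ⟨0, ?_⟩, ⟨0, ?_⟩, Or.inr ⟨?_, ?_, ?_⟩⟩ <;>
    simp [U, S, Matrix.mul_apply, Fin.sum_univ_three]
  have := two_eq_zero'
  linear_combination -this

theorem P_US' : P ((U (1 : ℤ[T;T⁻¹]) 1 0 * S)⁻¹).val := by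
  have h : (U (1 : ℤ[T;T⁻¹]) 1 0 * S)⁻¹ = (U 1 1 0 * S) * U 0 0 1 := by
    rw [inv_eq_iff_mul_eq_one, ← mul_assoc, US_sq, U_mul, ← U_zero]
    congr 1 <;> ring
  rw [h, Units.val_mul]
  exact P_mul P_US (P_U (by simp) (by simp))

theorem P_D (i j : ℤ) : P (D (Tn i) (Tn (3 * j))).val := by
  refine ⟨by simp [D], by simp [D], by simp [D], ⟨i, by simp [D, Tn]⟩, ⟨j, by simp [D, Tn]⟩, 
    Or.inl ⟨by simp [D], by simp [D], by simp [D]⟩⟩

theorem P_D' (i j : ℤ) : P ((D (Tn i) (Tn (3 * j)))⁻¹).val := by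
  change P (!![((Tn i)⁻¹).val, 0, 0; 0, 1, 0; 0, 0, ((Tn (3 * j))⁻¹).val])
  refine ⟨by simp, by simp, by simp, ⟨-i, ?_⟩, ⟨-j, ?_⟩, Or.inl ⟨by simp, by simp, by simp⟩⟩
  · rfl
  · rw [mul_neg]; rfl

theorem e2ρp2 : e2 (ρ p2) = 0 := by
  have h : ρ p2 = T 2 + T 1 + 1 := by rw [p2, map_add, map_add, ρT, ρT, map_one]
  rw [h]
  exact e2p

theorem e1ρ : e1 (ρ (T 1 - 1)) = 0 := by
  rw [map_sub, ρT, map_sub, e1T]; simp

theorem P_mem {M : (Matrix (Fin 3) (Fin 3) ℤ[T;T⁻¹])ˣ} (hM : M ∈ G) : P M.val := by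
  have h1 : Tn (3 * 0) = 1 := by ext1; simp [Tn]
  have h2 : Tn 0 = 1 := by ext1; simp [Tn]
  refine Subgroup.closure_induction'' (p := fun M _ => P M.val) ?_ ?_ ?_ ?_ hM
  · intro x hx
    simp only [gens, Set.mem_insert_iff, Set.mem_singleton_iff] at hx
    rcases hx with rfl | rfl | rfl | rfl | rfl | rfl | rfl | rfl
    · have := P_D 1 0; rwa [h1] at this
    · have := P_D 0 (-1); rwa [h2] at this
    · exact P_US
    · exact P_U e1ρ (by simp)
    · exact P_U (by simp) e2ρp2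
    · exact P_U (by simp) (by rw [map_mul, map_mul, e2ρp2, mul_zero])
    · exact P_U (by simp) (by rw [map_mul, map_mul, e2ρp2, mul_zero])
    · exact P_U (by simp) (by simp)
  · intro x hx
    simp only [gens, Set.mem_insert_iff, Set.mem_singleton_iff] at hx
    rcases hx with rfl | rfl | rfl | rfl | rfl | rfl | rfl | rfl
    · have := P_D' 1 0; rwa [h1] at this
    · have := P_D' 0 (-1); rwa [h2] at this
    · exact P_US'
    · exact P_U' e1ρ (by simp)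
    · exact P_U' (by simp) e2ρp2
    · exact P_U' (by simp) (by rw [map_mul, map_mul, e2ρp2, mul_zero])
    · exact P_U' (by simp) (by rw [map_mul, map_mul, e2ρp2, mul_zero])
    · exact P_U' (by simp) (by simp)
  · exact P_one
  · intro x y _ _ hx hy
    exact P_mul hx hy

theorem G_torsionfree {M : (Matrix (Fin 3) (Fin 3) ℤ[T;T⁻¹])ˣ} (hM : M ∈ G) 
    (hfin : IsOfFinOrder M) : M = 1 := P_torsionfree M (P_mem hM) hfin

/-! ### membership -/

theorem laurent_mem (K : AddSubgroup ℤ[T;T⁻¹]) (h3 : ∀ z ∈ K, T 3 * z ∈ K)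
    (h3' : ∀ z ∈ K, T (-3) * z ∈ K) (p : ℤ[T;T⁻¹]) (h0 : p ∈ K) (h1 : T 1 * p ∈ K)
    (h2 : T 2 * p ∈ K) (w : ℤ[T;T⁻¹]) : w * p ∈ K := by
  have hq : ∀ q : ℤ, ∀ x ∈ K, T (3 * q) * x ∈ K := by
    intro q
    induction q using Int.induction_on with
    | zero => intro x hx; simpa using hx
    | succ n ih =>
      intro x hx
      rw [mul_add, mul_one, T_add, mul_assoc]
      exact ih _ (h3 x hx)
    | pred n ih =>
      intro x hx
      rw [mul_sub, mul_one, sub_eq_add_neg, T_add, mul_assoc]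
      exact ih _ (h3' x hx)
  have hT : ∀ n : ℤ, T n * p ∈ K := by
    intro n
    have hn : n = 3 * (n / 3) + n % 3 := (Int.mul_ediv_add_emod n 3).symm
    rw [hn, T_add, mul_assoc]
    apply hq
    have h4 : n % 3 = 0 ∨ n % 3 = 1 ∨ n % 3 = 2 := by omega
    rcases h4 with h4 | h4 | h4 <;> rw [h4]
    · simpa using h0
    · exact h1
    · exact h2
  induction w using LaurentPolynomial.induction_on' with
  | add a b ha hb => rw [add_mul]; exact add_mem ha hb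
  | C_mul_T n a =>
    have : (C a * T n * p : ℤ[T;T⁻¹]) = a • (T n * p) := by
      rw [mul_assoc, zsmul_eq_mul]
      congr 1
    rw [this]
    exact zsmul_mem (hT n) a

theorem memD1 : D (Tn 1) 1 ∈ G := Subgroup.subset_closure (by simp [gens])
theorem memD3 : D 1 (Tn (-3)) ∈ G := Subgroup.subset_closure (by simp [gens])

theorem conj_mem {g x y : (Matrix (Fin 3) (Fin 3) ℤ[T;T⁻¹])ˣ} (hg : g ∈ G) (hx : x ∈ G) 
    (h : g * x * g⁻¹ = y) : y ∈ G := by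
  rw [← h]
  exact mul_mem (mul_mem hg hx) (inv_mem hg)

theorem D_inv (u v : (ℤ[T;T⁻¹])ˣ) : (D u v)⁻¹ = D u⁻¹ v⁻¹ := by
  rfl

theorem Tn_inv (n : ℤ) : (Tn n)⁻¹ = Tn (-n) := Units.ext rfl

/-- the subgroup of admissible first coordinates -/
noncomputable def KX : AddSubgroup ℤ[T;T⁻¹] where
  carrier := {x | U x 0 0 ∈ G}
  zero_mem' := by
    change U 0 0 0 ∈ G
    rw [U_zero]; exact one_mem _
  add_mem' := by
    intro a b ha hb
    change U (a + b) 0 0 ∈ G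
    have : U (a + b) 0 0 = U a 0 0 * U b 0 0 := by rw [U_mul]; congr 1 <;> ring
    rw [this]; exact mul_mem ha hb
  neg_mem' := by
    intro a ha
    change U (-a) 0 0 ∈ G
    have : U (-a) 0 0 = (U a 0 0)⁻¹ := by rw [U_inv]; congr 1 <;> ring
    rw [this]; exact inv_mem ha

/-- the subgroup of admissible second coordinates -/
noncomputable def KY : AddSubgroup ℤ[T;T⁻¹] where
  carrier := {x | U 0 x 0 ∈ G}
  zero_mem' := by
    change U 0 0 0 ∈ G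
    rw [U_zero]; exact one_mem _
  add_mem' := by
    intro a b ha hb
    change U 0 (a + b) 0 ∈ G
    have : U 0 (a + b) 0 = U 0 a 0 * U 0 b 0 := by rw [U_mul]; congr 1 <;> ring
    rw [this]; exact mul_mem ha hb
  neg_mem' := by
    intro a ha
    change U 0 (-a) 0 ∈ G
    have : U 0 (-a) 0 = (U 0 a 0)⁻¹ := by rw [U_inv]; congr 1 <;> ring
    rw [this]; exact inv_mem ha

/-- the subgroup of admissible third coordinates -/
noncomputable def KZ : AddSubgroup ℤ[T;T⁻¹] where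
  carrier := {x | U 0 0 x ∈ G}
  zero_mem' := by
    change U 0 0 0 ∈ G
    rw [U_zero]; exact one_mem _
  add_mem' := by
    intro a b ha hb
    change U 0 0 (a + b) ∈ G
    have : U 0 0 (a + b) = U 0 0 a * U 0 0 b := by rw [U_mul]; congr 1 <;> ring
    rw [this]; exact mul_mem ha hb
  neg_mem' := by
    intro a ha
    change U 0 0 (-a) ∈ G
    have : U 0 0 (-a) = (U 0 0 a)⁻¹ := by rw [U_inv]; congr 1 <;> ring
    rw [this]; exact inv_mem ha

theorem KX_T {x : ℤ[T;T⁻¹]} (hx : x ∈ KX) : T 1 * x ∈ KX := by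
  refine conj_mem (y := U (T 1 * x) 0 0) memD1 hx ?_
  rw [D_mul_U]
  simp [Tn]

theorem KX_T' {x : ℤ[T;T⁻¹]} (hx : x ∈ KX) : T (-1) * x ∈ KX := by
  refine conj_mem (y := U (T (-1) * x) 0 0) (inv_mem memD1) hx ?_
  rw [D_inv, D_mul_U, Tn_inv]
  simp [Tn]

theorem KZ_T {x : ℤ[T;T⁻¹]} (hx : x ∈ KZ) : T 1 * x ∈ KZ := by
  refine conj_mem (y := U 0 0 (T 1 * x)) memD1 hx ?_
  rw [D_mul_U]
  simp [Tn]

theorem KZ_T' {x : ℤ[T;T⁻¹]} (hx : x ∈ KZ) : T (-1) * x ∈ KZ := by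
  refine conj_mem (y := U 0 0 (T (-1) * x)) (inv_mem memD1) hx ?_
  rw [D_inv, D_mul_U, Tn_inv]
  simp [Tn]

theorem KY_T {x : ℤ[T;T⁻¹]} (hx : x ∈ KY) : T 3 * x ∈ KY := by
  refine conj_mem (y := U 0 (T 3 * x) 0) memD3 hx ?_
  rw [D_mul_U, Tn_inv]
  simp [Tn]

theorem KY_T' {x : ℤ[T;T⁻¹]} (hx : x ∈ KY) : T (-3) * x ∈ KY := by
  refine conj_mem (y := U 0 (T (-3) * x) 0) (inv_mem memD3) hx ?_
  rw [D_inv, D_mul_U, Tn_inv, Tn_inv]
  simp [Tn]

theorem T3_eq (x : ℤ[T;T⁻¹]) : T 3 * x = T 1 * (T 1 * (T 1 * x)) := by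
  rw [← mul_assoc, ← mul_assoc, ← T_add, ← T_add]; norm_num

theorem T3_eq' (x : ℤ[T;T⁻¹]) : T (-3) * x = T (-1) * (T (-1) * (T (-1) * x)) := by
  rw [← mul_assoc, ← mul_assoc, ← T_add, ← T_add]; norm_num

theorem memX (w : ℤ[T;T⁻¹]) : U (w * (T 1 - 1)) 0 0 ∈ G := by
  have h0 : (T 1 - 1 : ℤ[T;T⁻¹]) ∈ KX := Subgroup.subset_closure (by simp [gens])
  refine laurent_mem KX ?_ ?_ (T 1 - 1) h0 (KX_T h0) ?_ w
  · intro z hz; rw [T3_eq]; exact KX_T (KX_T (KX_T hz))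
  · intro z hz; rw [T3_eq']; exact KX_T' (KX_T' (KX_T' hz))
  · have := KX_T (KX_T h0)
    rwa [← mul_assoc, ← T_add] at this

theorem memY (w : ℤ[T;T⁻¹]) : U 0 (w * p2) 0 ∈ G := by
  have h0 : p2 ∈ KY := Subgroup.subset_closure (by simp [gens])
  have h1 : T 1 * p2 ∈ KY := Subgroup.subset_closure (by simp [gens])
  have h2 : T 2 * p2 ∈ KY := Subgroup.subset_closure (by simp [gens])
  exact laurent_mem KY (fun _ h => KY_T h) (fun _ h => KY_T' h) p2 h0 h1 h2 w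

theorem memZ (w : ℤ[T;T⁻¹]) : U 0 0 w ∈ G := by
  have h0 : (1 : ℤ[T;T⁻¹]) ∈ KZ := Subgroup.subset_closure (by simp [gens])
  have := laurent_mem KZ ?_ ?_ 1 h0 (KZ_T h0) ?_ w
  · rw [mul_one] at this; exact this
  · intro z hz; rw [T3_eq]; exact KZ_T (KZ_T (KZ_T hz))
  · intro z hz; rw [T3_eq']; exact KZ_T' (KZ_T' (KZ_T' hz))
  · have := KZ_T (KZ_T h0)
    rwa [← mul_assoc, ← T_add] at this

theorem memUS (q r z : ℤ[T;T⁻¹]) : U (1 + (T 1 - 1) * q) (1 + p2 * r) z * S ∈ G := by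
  have h1 : U 1 1 0 * S ∈ G := Subgroup.subset_closure (by simp [gens])
  have h2 : U (1 + (T 1 - 1) * q) (1 + p2 * r) z * S = 
      U 0 0 (z - (T 1 - 1) * q - (T 1 - 1) * q * (p2 * r)) * (U (q * (T 1 - 1)) 0 0 * U 0 (r * p2) 0) * 
        (U 1 1 0 * S) := by
    rw [← mul_assoc, U_mul, U_mul, U_mul]
    congr 2 <;> ring
  rw [h2]
  exact mul_mem (mul_mem (memZ _) (mul_mem (memX _) (memY _))) h1

end Pool.Agent.H27.Gp2
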