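import Mathlib

set_option autoImplicit false

namespace Pool.Agent.H27.HypComb

open Matrix

abbrev Γ := Matrix.SpecialLinearGroup (Fin 2) ℤ

def A : Γ := ⟨!![1, 2; 0, 1], by simp [Matrix.det_fin_two]⟩
def B : Γ := ⟨!![1, 0; 2, 1], by simp [Matrix.det_fin_two]⟩

/-- squared norm -/
def h (g : Γ) : ℤ := (g.1 0 0) ^ 2 + (g.1 0 1) ^ 2 + (g.1 1 0) ^ 2 + (g.1 1 1) ^ 2

def p (g : Γ) : ℤ := (g.1 0 0) ^ 2 + (g.1 0 1) ^ 2
def q (g : Γ) : ℤ := (g.1 1 0) ^ 2 + (g.1 1 1) ^ 2
def s (g : Γ) : ℤ := (g.1 0 0) * (g.1 1 0) + (g.1 0 1) * (g.1 1 1)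

lemma pq (g : Γ) : p g * q g = s g ^ 2 + 1 := by
  have hdet : g.1 0 0 * g.1 1 1 - g.1 0 1 * g.1 1 0 = 1 := by
    have := g.2
    rwa [Matrix.det_fin_two] at this
  have : p g * q g - s g ^ 2 = (g.1 0 0 * g.1 1 1 - g.1 0 1 * g.1 1 0) ^ 2 := by
    unfold p q s; ring
  rw [hdet] at this
  linarith

lemma p_nonneg (g : Γ) : 0 ≤ p g := by unfold p; positivity
lemma q_nonneg (g : Γ) : 0 ≤ q g := by unfold q; positivity

lemma hA (g : Γ) : h (A * g) = h g + 4 * s g + 4 * q g := by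
  simp [h, A, s, q, Matrix.SpecialLinearGroup.coe_mul, Matrix.mul_apply, Fin.sum_univ_two]
  ring

lemma hB (g : Γ) : h (B * g) = h g + 4 * s g + 4 * p g := by
  simp [h, B, s, p, Matrix.SpecialLinearGroup.coe_mul, Matrix.mul_apply, Fin.sum_univ_two]
  ring

lemma hA' (g : Γ) : h (A⁻¹ * g) = h g - 4 * s g + 4 * q g := by
  simp [h, A, s, q, Matrix.SpecialLinearGroup.coe_mul, Matrix.mul_apply, Fin.sum_univ_two,
    Matrix.SpecialLinearGroup.coe_inv, Matrix.adjugate_fin_two]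
  ring

lemma hB' (g : Γ) : h (B⁻¹ * g) = h g - 4 * s g + 4 * p g := by
  simp [h, B, s, p, Matrix.SpecialLinearGroup.coe_mul, Matrix.mul_apply, Fin.sum_univ_two,
    Matrix.SpecialLinearGroup.coe_inv, Matrix.adjugate_fin_two]
  ring

/-- at most one of the four neighbours has height at most `h g`. -/
lemma key1 (g : Γ) : ¬ (h (A * g) ≤ h g ∧ h (A⁻¹ * g) ≤ h g) := by
  rintro ⟨h1, h2⟩
  rw [hA] at h1; rw [hA'] at h2
  have := pq g; have := p_nonneg g; have := q_nonneg g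
  have hq : q g = 0 := by linarith
  rw [hq] at *; nlinarith
lemma key2 (g : Γ) : ¬ (h (B * g) ≤ h g ∧ h (B⁻¹ * g) ≤ h g) := by
  rintro ⟨h1, h2⟩
  rw [hB] at h1; rw [hB'] at h2
  have := pq g; have := p_nonneg g; have := q_nonneg g
  have hq : p g = 0 := by linarith
  rw [hq] at *; nlinarith
lemma key3 (g : Γ) : ¬ (h (A * g) ≤ h g ∧ h (B * g) ≤ h g) := by
  rintro ⟨h1, h2⟩
  rw [hA] at h1; rw [hB] at h2
  have := pq g; have := p_nonneg g; have := q_nonneg g
  nlinarith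
lemma key4 (g : Γ) : ¬ (h (A⁻¹ * g) ≤ h g ∧ h (B⁻¹ * g) ≤ h g) := by
  rintro ⟨h1, h2⟩
  rw [hA'] at h1; rw [hB'] at h2
  have := pq g; have := p_nonneg g; have := q_nonneg g
  nlinarith
lemma key5 (g : Γ) : ¬ (h (A * g) ≤ h g ∧ h (B⁻¹ * g) ≤ h g) := by
  rintro ⟨h1, h2⟩
  rw [hA] at h1; rw [hB'] at h2
  have := pq g; have := p_nonneg g; have := q_nonneg g
  have hq : q g = 0 := by linarith
  rw [hq] at *; nlinarith
lemma key6 (g : Γ) : ¬ (h (A⁻¹ * g) ≤ h g ∧ h (B * g) ≤ h g) := by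
  rintro ⟨h1, h2⟩
  rw [hA'] at h1; rw [hB] at h2
  have := pq g; have := p_nonneg g; have := q_nonneg g
  have hq : q g = 0 := by linarith
  rw [hq] at *; nlinarith

lemma A_ne (g : Γ) : A * g ≠ g := by
  intro hh
  have : A = 1 := by simpa using hh
  have h2 := congrArg (fun m : Γ => m.1 0 1) this
  simp [A] at h2
lemma B_ne (g : Γ) : B * g ≠ g := by
  intro hh
  have : B = 1 := by simpa using hh
  have h2 := congrArg (fun m : Γ => m.1 1 0) this
  simp [B] at h2

open Classical in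
/-- number of edges inside a finite set is at most its cardinality -/
lemma edges_le (S : Finset Γ) :
    ∑ g ∈ S, ((if A * g ∈ S then 1 else 0) + (if B * g ∈ S then 1 else 0)) ≤ S.card := by
  induction hn : S.card generalizing S with
  | zero =>
    have : S = ∅ := Finset.card_eq_zero.mp hn
    subst this; simp
  | succ n ih =>
    have hne : S.Nonempty := by
      rw [← Finset.card_pos]; omega
    obtain ⟨g0, hg0, hmax⟩ := S.exists_max_image h hne
    have hS' : (S.erase g0).card = n := by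
      rw [Finset.card_erase_of_mem hg0]; omega
    have ih' := ih _ hS'
    rw [← Finset.add_sum_erase S _ hg0]
    -- bound each term for g in S.erase g0
    have hterm : ∀ g ∈ S.erase g0, ((if A * g ∈ S then 1 else 0) + (if B * g ∈ S then 1 else 0) : ℕ) =
        ((if A * g ∈ S.erase g0 then 1 else 0) + (if B * g ∈ S.erase g0 then 1 else 0)) +
        ((if A⁻¹ * g0 = g then 1 else 0) + (if B⁻¹ * g0 = g then 1 else 0)) := by
      intro g hg
      have e1 : (if A * g ∈ S then 1 else 0 : ℕ) = (if A * g ∈ S.erase g0 then 1 else 0) +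
          (if A⁻¹ * g0 = g then 1 else 0) := by
        by_cases hc : A⁻¹ * g0 = g
        · have : A * g = g0 := by rw [← hc]; simp
          simp [hc, this, hg0]
        · have : A * g ≠ g0 := by
            intro h'; apply hc; rw [← h']; simp
          simp [hc, this, Finset.mem_erase]
      have e2 : (if B * g ∈ S then 1 else 0 : ℕ) = (if B * g ∈ S.erase g0 then 1 else 0) +
          (if B⁻¹ * g0 = g then 1 else 0) := by
        by_cases hc : B⁻¹ * g0 = g
        · have : B * g = g0 := by rw [← hc]; simp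
          simp [hc, this, hg0]
        · have : B * g ≠ g0 := by
            intro h'; apply hc; rw [← h']; simp
          simp [hc, this, Finset.mem_erase]
      rw [e1, e2]; ring
    rw [Finset.sum_congr rfl hterm, Finset.sum_add_distrib, Finset.sum_add_distrib (s := S.erase g0)
      (f := fun g => if A⁻¹ * g0 = g then 1 else 0), Finset.sum_ite_eq, Finset.sum_ite_eq]
    have a1 : ∀ x : Γ, x ∈ S.erase g0 → h x ≤ h g0 := fun x hx => hmax x (Finset.mem_of_mem_erase hx)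
    have k1 := key1 g0; have k2 := key2 g0; have k3 := key3 g0
    have k4 := key4 g0; have k5 := key5 g0; have k6 := key6 g0
    have extra : ((if A * g0 ∈ S then 1 else 0) + (if B * g0 ∈ S then 1 else 0) : ℕ) +
        ((if A⁻¹ * g0 ∈ S.erase g0 then 1 else 0) + (if B⁻¹ * g0 ∈ S.erase g0 then 1 else 0)) ≤ 1 := by
      split_ifs <;>
        first
        | omega
        | exact absurd ⟨hmax _ ‹A * g0 ∈ S›, hmax _ ‹B * g0 ∈ S›⟩ k3
        | exact absurd ⟨hmax _ ‹A * g0 ∈ S›, a1 _ ‹A⁻¹ * g0 ∈ S.erase g0›⟩ k1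
        | exact absurd ⟨hmax _ ‹A * g0 ∈ S›, a1 _ ‹B⁻¹ * g0 ∈ S.erase g0›⟩ k5
        | exact absurd ⟨a1 _ ‹A⁻¹ * g0 ∈ S.erase g0›, hmax _ ‹B * g0 ∈ S›⟩ k6
        | exact absurd ⟨hmax _ ‹B * g0 ∈ S›, a1 _ ‹B⁻¹ * g0 ∈ S.erase g0›⟩ k2
        | exact absurd ⟨a1 _ ‹A⁻¹ * g0 ∈ S.erase g0›, a1 _ ‹B⁻¹ * g0 ∈ S.erase g0›⟩ k4
    omega

end Pool.Agent.H27.HypComb
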