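import Mathlib
import Pool.Agent.H27.HypComb

set_option autoImplicit false

namespace Pool.Agent.H27.HypMT

open MeasureTheory ENNReal Pool.Agent.H27.HypComb

open Classical in
noncomputable def c {G : Type} [Group G] (ι : Γ →* G) (r : G → G → Prop) (γ : Γ) (x : G) : ℝ≥0∞ :=
  if r x (ι γ * x) then 1 else 0

noncomputable def N {G : Type} [Group G] (ι : Γ →* G) (r : G → G → Prop) (x : G) : ℝ≥0∞ :=
  ∑' γ, c ι r γ x

noncomputable def e {G : Type} [Group G] (ι : Γ →* G) (r : G → G → Prop) (x : G) : ℝ≥0∞ :=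
  c ι r A x + c ι r B x

instance : Countable Γ := by
  have : Countable (Matrix (Fin 2) (Fin 2) ℤ) := inferInstanceAs (Countable (Fin 2 → Fin 2 → ℤ))
  exact Subtype.countable

section
variable {G : Type} [Group G] (ι : Γ →* G) (r : G → G → Prop)

lemma measurable_c [MeasurableSpace G] (hmeas : ∀ γ, MeasurableSet {x | r x (ι γ * x)}) (γ : Γ) :
    Measurable (c ι r γ) := by
  classical
  unfold c
  exact Measurable.ite (hmeas γ) measurable_const measurable_const

lemma measurable_N [MeasurableSpace G] (hmeas : ∀ γ, MeasurableSet {x | r x (ι γ * x)}) :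
    Measurable (N ι r) :=
  Measurable.ennreal_tsum fun γ => measurable_c ι r hmeas γ

lemma measurable_e [MeasurableSpace G] (hmeas : ∀ γ, MeasurableSet {x | r x (ι γ * x)}) :
    Measurable (e ι r) :=
  (measurable_c ι r hmeas A).add (measurable_c ι r hmeas B)

lemma N_eq (hfin : ∀ x, {γ : Γ | r x (ι γ * x)}.Finite) (x : G) :
    N ι r x = ((hfin x).toFinset.card : ℝ≥0∞) := by
  unfold N
  rw [tsum_eq_sum (s := (hfin x).toFinset)]
  · rw [Finset.sum_congr rfl (g := fun _ => (1 : ℝ≥0∞))]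
    · simp
    · intro γ hγ
      have : r x (ι γ * x) := by simpa using hγ
      simp [c, this]
  · intro γ hγ
    have : ¬ r x (ι γ * x) := by simpa using hγ
    simp [c, this]

lemma N_ne_zero (hr : Equivalence r) (hfin : ∀ x, {γ : Γ | r x (ι γ * x)}.Finite) (x : G) :
    N ι r x ≠ 0 := by
  have h1 : c ι r 1 x ≤ N ι r x := ENNReal.le_tsum 1
  have h2 : c ι r 1 x = 1 := by simp [c, hr.refl]
  intro h
  rw [h, h2] at h1
  simp at h1

lemma N_ne_top (hfin : ∀ x, {γ : Γ | r x (ι γ * x)}.Finite) (x : G) :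
    N ι r x ≠ ⊤ := by
  rw [N_eq ι r hfin]; exact ENNReal.natCast_ne_top _

lemma N_const (hr : Equivalence r) (x : G) (g : Γ) (hg : r x (ι g * x)) :
    N ι r (ι g * x) = N ι r x := by
  unfold N
  rw [← (Equiv.mulRight g).tsum_eq (fun γ => c ι r γ x)]
  apply tsum_congr
  intro γ
  have hiff : r (ι g * x) (ι γ * (ι g * x)) ↔ r x (ι (γ * g) * x) := by
    rw [map_mul, mul_assoc]
    exact ⟨fun h => hr.trans hg h, fun h => hr.trans (hr.symm hg) h⟩
  simp only [c, Equiv.coe_mulRight]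
  by_cases h : r x (ι (γ * g) * x)
  · rw [if_pos h, if_pos (hiff.2 h)]
  · rw [if_neg h, if_neg (fun hh => h (hiff.1 hh))]

lemma pointwise (hr : Equivalence r) (hfin : ∀ x, {γ : Γ | r x (ι γ * x)}.Finite) (x : G) :
    ∑' γ : Γ, c ι r γ (ι γ⁻¹ * x) * (e ι r (ι γ⁻¹ * x) / N ι r (ι γ⁻¹ * x)) ≤ 1 := by
  classical
  rw [← (Equiv.inv Γ).tsum_eq]
  simp only [Equiv.inv_apply, inv_inv]
  set S := (hfin x).toFinset with hS
  have memS : ∀ g, g ∈ S ↔ r x (ι g * x) := by intro g; simp [hS]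
  rw [tsum_eq_sum (s := S)]
  · have hterm : ∀ g ∈ S, c ι r g⁻¹ (ι g * x) * (e ι r (ι g * x) / N ι r (ι g * x)) =
        (((if A * g ∈ S then 1 else 0) + (if B * g ∈ S then 1 else 0) : ℕ) : ℝ≥0∞) / N ι r x := by
      intro g hg
      have hg' := (memS g).1 hg
      have h1 : c ι r g⁻¹ (ι g * x) = 1 := by
        have : r (ι g * x) (ι g⁻¹ * (ι g * x)) := by
          rw [← mul_assoc, ← map_mul]; simpa using hr.symm hg'
        simp only [c, if_pos this]
      have h2 : ∀ T : Γ, c ι r T (ι g * x) = ((if T * g ∈ S then 1 else 0 : ℕ) : ℝ≥0∞) := by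
        intro T
        have : r (ι g * x) (ι T * (ι g * x)) ↔ T * g ∈ S := by
          rw [memS, map_mul, mul_assoc]
          exact ⟨fun h => hr.trans hg' h, fun h => hr.trans (hr.symm hg') h⟩
        by_cases h : T * g ∈ S
        · simp [c, h, this.2 h]
        · have h' : ¬ r (ι g * x) (ι T * (ι g * x)) := fun hh => h (this.1 hh)
          simp only [c, if_neg h', if_neg h]; simp
      rw [h1, one_mul, N_const ι r hr x g hg', e, h2, h2]
      push_cast
      rfl
    rw [Finset.sum_congr rfl hterm]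
    simp only [div_eq_mul_inv]
    rw [← Finset.sum_mul, ← Nat.cast_sum]
    have h3 := edges_le S
    rw [N_eq ι r hfin x]
    have h4 : ((∑ g ∈ S, ((if A * g ∈ S then 1 else 0) + (if B * g ∈ S then 1 else 0)) : ℕ) : ℝ≥0∞) ≤
        (S.card : ℝ≥0∞) := by exact_mod_cast h3
    calc _ ≤ (S.card : ℝ≥0∞) * (S.card : ℝ≥0∞)⁻¹ := by gcongr
      _ ≤ 1 := ENNReal.mul_inv_le_one _
  · intro g hg
    have : ¬ r x (ι g * x) := fun h => hg ((memS g).2 h)
    have h' : ¬ r (ι g * x) (ι g⁻¹ * (ι g * x)) := by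
      rw [← mul_assoc, ← map_mul]
      intro h
      apply this
      apply hr.symm
      simpa using h
    simp only [c, if_neg h', zero_mul]

theorem transport [MeasurableSpace G] [MeasurableMul G] (μ : Measure G) [μ.IsMulLeftInvariant]
    (hr : Equivalence r) (hfin : ∀ x, {γ : Γ | r x (ι γ * x)}.Finite)
    (hmeas : ∀ γ, MeasurableSet {x | r x (ι γ * x)}) :
    ∫⁻ x, e ι r x ∂μ ≤ μ Set.univ := by
  have mc := measurable_c ι r hmeas
  have mN := measurable_N ι r hmeas
  have me := measurable_e ι r hmeas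
  calc ∫⁻ x, e ι r x ∂μ = ∫⁻ x, ∑' γ, c ι r γ x * (e ι r x / N ι r x) ∂μ := by
        apply lintegral_congr
        intro x
        rw [ENNReal.tsum_mul_right]
        change _ = N ι r x * _
        rw [ENNReal.mul_div_cancel (N_ne_zero ι r hr hfin x) (N_ne_top ι r hfin x)]
    _ = ∑' γ, ∫⁻ x, c ι r γ x * (e ι r x / N ι r x) ∂μ := by
        rw [lintegral_tsum]
        intro γ
        exact ((mc γ).mul (me.div mN)).aemeasurable
    _ = ∑' γ : Γ, ∫⁻ x, c ι r γ (ι γ⁻¹ * x) * (e ι r (ι γ⁻¹ * x) / N ι r (ι γ⁻¹ * x)) ∂μ := by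
        apply tsum_congr
        intro γ
        exact (lintegral_mul_left_eq_self (fun x => c ι r γ x * (e ι r x / N ι r x)) (ι γ⁻¹)).symm
    _ = ∫⁻ x, ∑' γ : Γ, c ι r γ (ι γ⁻¹ * x) * (e ι r (ι γ⁻¹ * x) / N ι r (ι γ⁻¹ * x)) ∂μ := by
        rw [lintegral_tsum]
        intro γ
        exact (((mc γ).mul (me.div mN)).comp (measurable_const_mul _)).aemeasurable
    _ ≤ ∫⁻ _, 1 ∂μ := lintegral_mono (pointwise ι r hr hfin)
    _ = μ Set.univ := by simp
end

end Pool.Agent.H27.HypMT
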