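import Mathlib

set_option autoImplicit false

namespace Pool.Agent.H27.KCut

open Finset

/-- chain of `N` cliques on `k+3` vertices, consecutive ones joined by `k-1` matching edges -/
def G (N k : ℕ) : SimpleGraph (Fin N × Fin (k + 3)) where
  Adj x y := (x.1 = y.1 ∧ x.2 ≠ y.2) ∨ 
    (x.2 = y.2 ∧ (x.2 : ℕ) < k - 1 ∧ ((x.1 : ℕ) = y.1 + 1 ∨ (y.1 : ℕ) = x.1 + 1))
  symm := ⟨by
    rintro x y (⟨h1, h2⟩ | ⟨h1, h2, h3⟩)
    · exact Or.inl ⟨h1.symm, h2.symm⟩
    · exact Or.inr ⟨h1.symm, h1 ▸ h2, h3.symm⟩⟩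
  loopless := ⟨by
    rintro x (⟨h1, h2⟩ | ⟨h1, h2, h3⟩)
    · exact h2 rfl
    · omega⟩

instance (N k : ℕ) : DecidableRel (G N k).Adj := fun x y => by unfold G; infer_instance

theorem conn (N k : ℕ) (hN : 0 < N) (S : Set (Fin N × Fin (k + 3))) (hS : S.ncard < k - 1) :
    ((G N k).induce Sᶜ).Connected := by
  -- a free row
  obtain ⟨a, ha, hfree⟩ : ∃ a : Fin (k + 3), (a : ℕ) < k - 1 ∧ ∀ i : Fin N, (i, a) ∉ S := by
    by_contra hcon
    push Not at hcon
    have h1 : (Finset.range (k - 1)).card ≤ (S.toFinite.toFinset.image (fun x => (x.2 : ℕ))).card := by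
      apply card_le_card
      intro a ha
      rw [mem_range] at ha
      obtain ⟨i, hi⟩ := hcon ⟨a, by omega⟩ ha
      rw [mem_image]
      exact ⟨(i, ⟨a, by omega⟩), by simpa using hi, rfl⟩
    have h2 := card_image_le (s := S.toFinite.toFinset) (f := fun x => (x.2 : ℕ))
    rw [← Set.ncard_eq_toFinset_card S] at h2
    rw [card_range] at h1
    omega
  let p : Fin N → ↥Sᶜ := fun i => ⟨(i, a), hfree i⟩
  have hrow : ∀ n (hn : n < N), ((G N k).induce Sᶜ).Reachable (p ⟨0, hN⟩) (p ⟨n, hn⟩) := by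
    intro n
    induction n with
    | zero => intro _; exact SimpleGraph.Reachable.refl _
    | succ n ih =>
      intro hn
      refine (ih (by omega)).trans (SimpleGraph.Adj.reachable ?_)
      change (G N k).Adj _ _
      right
      exact ⟨rfl, ha, Or.inr rfl⟩
  have hall : ∀ x : ↥Sᶜ, ((G N k).induce Sᶜ).Reachable (p ⟨0, hN⟩) x := by
    rintro ⟨⟨i, b⟩, hx⟩
    refine (hrow i i.2).trans ?_
    by_cases hb : b = a
    · subst hb; exact SimpleGraph.Reachable.refl _
    · apply SimpleGraph.Adj.reachable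
      change (G N k).Adj _ _
      left
      exact ⟨rfl, fun h => hb h.symm⟩
  have : Nonempty ↥Sᶜ := ⟨p ⟨0, hN⟩⟩
  exact ⟨fun x y => (hall x).symm.trans (hall y)⟩

theorem edges_le (N k : ℕ) (hk : 1 ≤ k) : 2 * (G N k).edgeFinset.card ≤ N * ((k + 3) * (k + 2) + 2 * (k - 1)) := by
  rw [← SimpleGraph.sum_degrees_eq_twice_card_edges]
  have hdeg : ∀ x : Fin N × Fin (k + 3), (G N k).degree x ≤ (k + 2) + (if (x.2 : ℕ) < k - 1 then 2 else 0) := by
    rintro ⟨i, a⟩
    rw [← SimpleGraph.card_neighborFinset_eq_degree]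
    have hsub : (G N k).neighborFinset (i, a) ⊆ 
        ((univ.erase a).image (fun b => (i, b))) ∪ 
        (if (a : ℕ) < k - 1 then (univ.filter (fun y : Fin N × Fin (k + 3) => y.2 = a ∧ (y.1 : ℕ) + 1 = i)) ∪ 
          (univ.filter (fun y : Fin N × Fin (k + 3) => y.2 = a ∧ (y.1 : ℕ) = i + 1)) else ∅) := by
      rintro ⟨j, b⟩ h
      rw [SimpleGraph.mem_neighborFinset] at h
      rw [mem_union]
      rcases h with ⟨h1, h2⟩ | ⟨h1, h2, h3⟩
      · left
        rw [mem_image]
        simp only at h1 h2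
        exact ⟨b, mem_erase.2 ⟨fun h => h2 h.symm, mem_univ _⟩, by rw [h1]⟩
      · right
        simp only at h1 h2 h3
        rw [if_pos h2, mem_union, mem_filter, mem_filter]
        rcases h3 with h3 | h3
        · left; exact ⟨mem_univ _, h1.symm, h3.symm⟩
        · right; exact ⟨mem_univ _, h1.symm, h3⟩
    refine (card_le_card hsub).trans ((card_union_le _ _).trans ?_)
    have h1 : ((univ.erase a).image (fun b => (i, b))).card ≤ k + 2 := by
      refine card_image_le.trans ?_
      rw [card_erase_of_mem (mem_univ _), card_univ, Fintype.card_fin]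
      omega
    have h2 : (if (a : ℕ) < k - 1 then (univ.filter (fun y : Fin N × Fin (k + 3) => y.2 = a ∧ (y.1 : ℕ) + 1 = i)) ∪ 
          (univ.filter (fun y : Fin N × Fin (k + 3) => y.2 = a ∧ (y.1 : ℕ) = i + 1)) else ∅).card ≤ 
          (if (a : ℕ) < k - 1 then 2 else 0) := by
      split_ifs with h
      · refine (card_union_le _ _).trans ?_
        have e1 : (univ.filter (fun y : Fin N × Fin (k + 3) => y.2 = a ∧ (y.1 : ℕ) + 1 = i)).card ≤ 1 := by
          rw [card_le_one]
          rintro ⟨j, b⟩ h1 ⟨j', b'⟩ h2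
          simp only [mem_filter, mem_univ, true_and] at h1 h2
          apply Prod.ext
          · apply Fin.ext; simp only; omega
          · simp only; rw [h1.1, h2.1]
        have e2 : (univ.filter (fun y : Fin N × Fin (k + 3) => y.2 = a ∧ (y.1 : ℕ) = i + 1)).card ≤ 1 := by
          rw [card_le_one]
          rintro ⟨j, b⟩ h1 ⟨j', b'⟩ h2
          simp only [mem_filter, mem_univ, true_and] at h1 h2
          apply Prod.ext
          · apply Fin.ext; simp only; omega
          · simp only; rw [h1.1, h2.1]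
        omega
      · simp
    exact add_le_add h1 h2
  refine (sum_le_sum (fun x _ => hdeg x)).trans ?_
  rw [Fintype.sum_prod_type]
  change ∑ _x : Fin N, ∑ a : Fin (k + 3), ((k + 2) + (if (a : ℕ) < k - 1 then 2 else 0)) ≤ _
  rw [sum_const, card_univ, Fintype.card_fin, smul_eq_mul]
  apply Nat.mul_le_mul_left
  rw [sum_add_distrib, sum_const, card_univ, Fintype.card_fin, smul_eq_mul]
  apply Nat.add_le_add_left
  rw [← sum_filter, sum_const, smul_eq_mul, mul_comm]
  apply Nat.mul_le_mul_left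
  have : (univ.filter (fun a : Fin (k + 3) => (a : ℕ) < k - 1)).card ≤ (range (k - 1)).card := by
    apply card_le_card_of_injOn (fun a : Fin (k + 3) => (a : ℕ))
    · intro a ha
      simpa using ha
    · intro a _ b _ h
      exact Fin.ext h
  rwa [card_range] at this

/-- at least three monochromatic pairs in each clique -/
theorem mono_ge (N k : ℕ) (c : Fin N × Fin (k + 3) → Fin k) : 
    3 * N ≤ {e ∈ (G N k).edgeSet | ∃ u v, e = s(u, v) ∧ c u = c v}.ncard := by
  -- non-first vertices
  let nf : Finset (Fin N × Fin (k + 3)) := univ.filter (fun x => ∃ b, b < x.2 ∧ c (x.1, b) = c x)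
  have h1 : ∀ x ∈ nf, ∃ b, b < x.2 ∧ c (x.1, b) = c x := fun x hx => (mem_filter.1 hx).2
  choose! b hb1 hb2 using h1
  have hcard : 3 * N ≤ nf.card := by
    have hcompl : (univ.filter (fun x : Fin N × Fin (k + 3) => ¬ ∃ b, b < x.2 ∧ c (x.1, b) = c x)).card ≤ 
        (univ : Finset (Fin N × Fin k)).card := by
      apply card_le_card_of_injOn (fun x => (x.1, c x)) (fun _ _ => mem_univ _)
      rintro ⟨i, a⟩ hx ⟨j, a'⟩ hy h
      simp only [coe_filter, mem_univ, true_and, Set.mem_ofPred_eq, not_exists, not_and] at hx hy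
      simp only [Prod.mk.injEq] at h
      obtain ⟨rfl, h⟩ := h
      rcases lt_trichotomy a a' with h' | h' | h'
      · exact absurd h (hy a h')
      · rw [h']
      · exact absurd h.symm (hx a' h')
    have hsum := card_filter_add_card_filter_not (s := (univ : Finset (Fin N × Fin (k + 3)))) 
      (fun x : Fin N × Fin (k + 3) => ∃ b, b < x.2 ∧ c (x.1, b) = c x)
    rw [card_univ, Fintype.card_prod, Fintype.card_fin, Fintype.card_fin] at hsum hcompl
    change 3 * N ≤ (univ.filter (fun x : Fin N × Fin (k + 3) => ∃ b, b < x.2 ∧ c (x.1, b) = c x)).card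
    have : N * (k + 3) = N * k + 3 * N := by ring
    omega
  refine hcard.trans ?_
  rw [← Set.ncard_coe_finset]
  apply Set.ncard_le_ncard_of_injOn (fun x => s((x.1, b x), x))
  · intro x hx
    refine ⟨?_, (x.1, b x), x, rfl, hb2 x hx⟩
    rw [SimpleGraph.mem_edgeSet]
    left
    exact ⟨rfl, (hb1 x hx).ne⟩
  · intro x hx y hy h
    simp only [Sym2.eq_iff] at h
    rcases h with ⟨_, h⟩ | ⟨h1, h2⟩
    · exact h
    · exfalso
      have e1 := hb1 x hx
      have e2 := hb1 y hy
      have e3 : b x = y.2 := congrArg Prod.snd h1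
      have e4 : x.2 = b y := congrArg Prod.snd h2
      rw [e3, e4] at e1
      exact absurd e2 (not_lt.2 e1.le)

end Pool.Agent.H27.KCut
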