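import Mathlib

namespace Pool.Agent.H27.Kozma

open scoped BigOperators

abbrev E := EuclideanSpace ℝ (Fin 2)

/-- locally finite set whose mesh decreases exponentially with the distance to the origin -/
def S : Set E := {s | ∃ n : ℕ, (n : ℝ) ≤ ‖s‖ ∧ ∀ i, ∃ k : ℤ, (2:ℝ) ^ (n + 5) * s i = k}

def G : SimpleGraph S where
  Adj x y := x ≠ y ∧ ‖(x : E) - (y : E)‖ ≤ 1
  symm := ⟨fun x y h => ⟨h.1.symm, by rw [norm_sub_rev]; exact h.2⟩⟩
  loopless := ⟨fun x h => h.1 rfl⟩

lemma normE (v : E) : ‖v‖ ^ 2 = v 0 ^ 2 + v 1 ^ 2 := by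
  rw [EuclideanSpace.norm_sq_eq]
  simp [Fin.sum_univ_two]

lemma mesh (q : E) (i : ℕ) (hq : (i : ℝ) - 1 / 2 ≤ ‖q‖) :
    ∃ s ∈ S, ‖s - q‖ ≤ 1 / 8 * (1 / 2) ^ i := by
  set n : ℕ := i - 2 with hn
  set M : ℝ := (2:ℝ) ^ (n + 5) with hM
  have hMpos : 0 < M := by positivity
  let s : E := WithLp.toLp 2 (fun j => (round (M * q j) : ℝ) / M)
  have hs : ∀ j, s j = (round (M * q j) : ℝ) / M := fun j => rfl
  have hd : ∀ j, (s j - q j) ^ 2 ≤ (1 / (2 * M)) ^ 2 := by
    intro j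
    have h1 : |M * q j - round (M * q j)| ≤ 1 / 2 := abs_sub_round _
    have h2 : s j - q j = -(M * q j - round (M * q j)) / M := by
      rw [hs]; field_simp; ring
    rw [← sq_abs (s j - q j), h2, abs_div, abs_neg, abs_of_pos hMpos]
    apply pow_le_pow_left₀ (by positivity)
    rw [div_le_div_iff₀ hMpos (by positivity)]
    nlinarith
  have hnorm : ‖s - q‖ ≤ 1 / M := by
    apply le_of_sq_le_sq _ (by positivity)
    rw [normE]
    have h0 := hd 0
    have h1 := hd 1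
    have e : (1 / M) ^ 2 = 4 * (1 / (2 * M)) ^ 2 := by field_simp; ring
    rw [e]
    have : (1 / (2 * M)) ^ 2 ≥ 0 := by positivity
    simp only [PiLp.sub_apply]
    nlinarith
  have hM2 : 1 / M ≤ 1 / 8 * (1 / 2) ^ i := by
    have h3 : (2:ℝ) ^ (i + 3) ≤ M := by
      rw [hM]
      apply pow_le_pow_right₀ (by norm_num)
      omega
    have h4 : (1:ℝ) / 8 * (1 / 2) ^ i = 1 / 2 ^ (i + 3) := by
      rw [pow_add, one_div_pow]
      have : (2:ℝ)^i ≠ 0 := by positivity
      field_simp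
      norm_num
    rw [h4]
    exact one_div_le_one_div_of_le (by positivity) h3
  refine ⟨s, ⟨n, ?_, ?_⟩, hnorm.trans hM2⟩
  · rcases Nat.lt_or_ge i 2 with h | h
    · have : n = 0 := by omega
      rw [this]; simp
    · have h5 : (n : ℝ) = i - 2 := by
        rw [hn, Nat.cast_sub h]; norm_num
      have h6 : ‖q‖ - ‖s - q‖ ≤ ‖s‖ := by
        have := norm_sub_norm_le q (q - s)
        rw [norm_sub_rev q s] at this
        simpa using this
      have h7 : (1:ℝ) / 8 * (1 / 2) ^ i ≤ 1 / 8 := by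
        have : ((1:ℝ) / 2) ^ i ≤ 1 := pow_le_one₀ (by norm_num) (by norm_num)
        nlinarith
      linarith
  · intro j
    refine ⟨round (M * q j), ?_⟩
    rw [hs, ← hM]
    field_simp

lemma finite_ball (R : ℝ) : {s : E | s ∈ S ∧ ‖s‖ ≤ R}.Finite := by
  obtain ⟨N, hN⟩ := exists_nat_ge R
  set K : ℤ := 2 ^ (N + 5) * N with hK
  let F : (ℕ × (ℤ × ℤ)) → E := fun t =>
    WithLp.toLp 2 ![(t.2.1 : ℝ) / 2 ^ (t.1 + 5), (t.2.2 : ℝ) / 2 ^ (t.1 + 5)]
  have hfin : (Set.Iic N ×ˢ (Set.Icc (-K) K ×ˢ Set.Icc (-K) K) : Set (ℕ × (ℤ × ℤ))).Finite :=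
    (Set.finite_Iic N).prod ((Set.finite_Icc _ _).prod (Set.finite_Icc _ _))
  refine (hfin.image F).subset ?_
  rintro s ⟨⟨n, hn, hk⟩, hR⟩
  obtain ⟨a, ha⟩ := hk 0
  obtain ⟨b, hb⟩ := hk 1
  have hnN : n ≤ N := by
    have : (n : ℝ) ≤ N := hn.trans (hR.trans hN)
    exact_mod_cast this
  have hbd : ∀ j, |s j| ≤ N := by
    intro j
    have : |s j| ≤ ‖s‖ := by
      have := PiLp.norm_apply_le s j
      simpa using this
    exact this.trans (hR.trans hN)
  have key : ∀ (j : Fin 2) (c : ℤ), (2:ℝ) ^ (n + 5) * s j = c → c ∈ Set.Icc (-K) K := by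
    intro j c hc
    have h1 : |(c : ℝ)| ≤ (K : ℝ) := by
      rw [← hc, abs_mul, abs_of_pos (by positivity : (0:ℝ) < 2 ^ (n + 5))]
      have h2 : (2:ℝ) ^ (n + 5) ≤ 2 ^ (N + 5) := pow_le_pow_right₀ (by norm_num) (by omega)
      have h3 := hbd j
      have h4 : (K : ℝ) = 2 ^ (N + 5) * N := by rw [hK]; push_cast; ring
      rw [h4]
      exact mul_le_mul h2 h3 (abs_nonneg _) (by positivity)
    rw [abs_le] at h1
    constructor
    · have := h1.1
      exact_mod_cast this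
    · have := h1.2
      exact_mod_cast this
  refine ⟨(n, (a, b)), ⟨hnN, key 0 a ha, key 1 b hb⟩, ?_⟩
  ext j
  fin_cases j
  · show (a : ℝ) / 2 ^ (n + 5) = s 0
    rw [← ha]; field_simp
  · show (b : ℝ) / 2 ^ (n + 5) = s 1
    rw [← hb]; field_simp

lemma neighbor_finite (v : S) : (G.neighborSet v).Finite := by
  have h := finite_ball (‖(v : E)‖ + 1)
  have h2 : ((fun w : S => (w : E)) '' (G.neighborSet v)).Finite := by
    refine h.subset ?_
    rintro _ ⟨w, hw, rfl⟩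
    have hw' : v ≠ w ∧ ‖(v : E) - (w : E)‖ ≤ 1 := hw
    refine ⟨w.2, ?_⟩
    have := norm_sub_norm_le (w : E) (v : E)
    rw [norm_sub_rev] at this
    linarith [hw'.2]
  exact Set.Finite.of_finite_image h2 (fun a _ b _ hab => Subtype.ext hab)

lemma walk_of_seq (s : ℕ → S) (h : ∀ i, ‖(s i : E) - (s (i + 1) : E)‖ ≤ 1) (N : ℕ) :
    ∃ w : G.Walk (s 0) (s N), w.length ≤ N := by
  induction N with
  | zero => exact ⟨SimpleGraph.Walk.nil, by simp⟩
  | succ N ih =>
    obtain ⟨w, hw⟩ := ih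
    by_cases he : s N = s (N + 1)
    · rw [← he]; exact ⟨w, by omega⟩
    · have hadj : G.Adj (s N) (s (N + 1)) := ⟨he, h N⟩
      refine ⟨w.concat hadj, ?_⟩
      rw [SimpleGraph.Walk.length_concat]; omega

lemma norm_le_length {x y : S} (w : G.Walk x y) : ‖(x : E) - (y : E)‖ ≤ w.length := by
  induction w with
  | nil => simp
  | @cons u v z h p ih =>
    have h2 : ‖(u : E) - (v : E)‖ ≤ 1 := h.2
    rw [SimpleGraph.Walk.length_cons]
    push_cast
    calc ‖(u : E) - (z : E)‖ = ‖((u : E) - v) + ((v : E) - z)‖ := by congr 1; abel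
      _ ≤ ‖(u : E) - (v : E)‖ + ‖(v : E) - (z : E)‖ := norm_add_le _ _
      _ ≤ _ := by linarith

/-- the schedule -/
noncomputable def tau (i : ℕ) : ℝ := i - 1 / 2 * (1 - (1 / 2) ^ i)

lemma outward (b : E) (sb x : S) (hsb : ‖(sb : E) - b‖ ≤ 1 / 8)
    (hin : 0 ≤ inner ℝ b ((x : E) - b)) :
    ∃ w : G.Walk sb x, (w.length : ℝ) ≤ ‖(x : E) - b‖ + 2 := by
  set T : ℝ := ‖(x : E) - b‖ with hT
  have hT0 : 0 ≤ T := norm_nonneg _
  set σ : ℕ → ℝ := fun i => min (tau i) T with hσ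
  set q : ℕ → E := fun i => b + (σ i / T) • ((x : E) - b) with hq
  have hpow : ∀ i : ℕ, 0 < ((1:ℝ) / 2) ^ i ∧ ((1:ℝ) / 2) ^ i ≤ 1 := fun i =>
    ⟨by positivity, pow_le_one₀ (by norm_num) (by norm_num)⟩
  have htau0 : ∀ i, 0 ≤ tau i := by
    intro i
    rcases Nat.eq_zero_or_pos i with h | h
    · subst h; simp [tau]
    · have h1 : (1:ℝ) ≤ i := by exact_mod_cast h
      have := hpow i
      unfold tau; nlinarith
  have hσ0 : ∀ i, 0 ≤ σ i := fun i => le_min (htau0 i) hT0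
  have hσT : ∀ i, σ i ≤ T := fun i => min_le_right _ _
  -- q norm
  have hqn : ∀ i, σ i ≤ ‖q i‖ := by
    intro i
    apply le_of_sq_le_sq _ (norm_nonneg _)
    have h1 : ‖q i‖ ^ 2 = ‖b‖ ^ 2 + 2 * ((σ i / T) * inner ℝ b ((x : E) - b))
        + ((σ i / T) * T) ^ 2 := by
      rw [hq]
      simp only
      rw [norm_add_sq_real, inner_smul_right, norm_smul, Real.norm_eq_abs, mul_pow, sq_abs, ← hT]
      ring
    have h2 : (σ i / T) * T = σ i := by
      rcases eq_or_lt_of_le hT0 with h | h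
      · have := hσT i
        have := hσ0 i
        rw [← h]
        have : σ i = 0 := by linarith
        rw [this]; simp
      · field_simp
    rw [h1, h2]
    have : 0 ≤ (σ i / T) * inner ℝ b ((x : E) - b) :=
      mul_nonneg (div_nonneg (hσ0 i) hT0) hin
    nlinarith [sq_nonneg ‖b‖]
  have hqd : ∀ i, ‖q i - q (i + 1)‖ ≤ 1 - 1 / 4 * (1 / 2) ^ i := by
    intro i
    have h1 : q i - q (i + 1) = ((σ i - σ (i + 1)) / T) • ((x : E) - b) := by
      rw [hq]; simp only
      rw [sub_div, sub_smul]; abel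
    have h3 : |σ i - σ (i + 1)| ≤ 1 - 1 / 4 * (1 / 2) ^ i := by
      have h4 : tau (i + 1) - tau i = 1 - 1 / 4 * (1 / 2) ^ i := by
        unfold tau; push_cast; ring
      have h5 : 0 ≤ 1 - 1 / 4 * ((1:ℝ) / 2) ^ i := by
        have := hpow i; nlinarith
      have h6 : |min (tau i) T - min (tau (i + 1)) T| ≤ |tau i - tau (i + 1)| := by
        have := abs_min_sub_min_le_max (tau i) T (tau (i + 1)) T
        simpa using this
      calc |σ i - σ (i + 1)| ≤ |tau i - tau (i + 1)| := h6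
        _ = |-(tau (i + 1) - tau i)| := by congr 1; ring
        _ = 1 - 1 / 4 * (1 / 2) ^ i := by rw [abs_neg, h4, abs_of_nonneg h5]
    rw [h1, norm_smul, Real.norm_eq_abs, ← hT, abs_div, abs_of_nonneg hT0]
    rcases eq_or_lt_of_le hT0 with h | h
    · rw [← h, div_zero, zero_mul]
      have := hpow i; nlinarith
    · have : |σ i - σ (i + 1)| / T * T = |σ i - σ (i + 1)| := by field_simp
      rw [this]; exact h3
  -- approximants
  have happ : ∀ i, ∃ s : S, ‖(s : E) - q i‖ ≤ 1 / 8 * (1 / 2) ^ i ∧ (T ≤ tau i → s = x ∨ i = 0)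
      ∧ (i = 0 → s = sb) := by
    intro i
    rcases Nat.eq_zero_or_pos i with h0 | hpos
    · subst h0
      refine ⟨sb, ?_, fun _ => Or.inr rfl, fun _ => rfl⟩
      have : q 0 = b := by
        rw [hq]; simp only
        have : σ 0 = 0 := by
          rw [hσ]; simp only
          have : tau 0 = 0 := by simp [tau]
          rw [this]; exact min_eq_left hT0
        rw [this]; simp
      rw [this]; simpa using hsb
    · by_cases hTi : T ≤ tau i
      · refine ⟨x, ?_, fun _ => Or.inl rfl, fun h => by omega⟩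
        have hs : σ i = T := min_eq_right hTi
        have : q i = x := by
          rw [hq]; simp only
          rw [hs]
          rcases eq_or_lt_of_le hT0 with h | h
          · have h2 : (x : E) - b = 0 := by
              rw [← norm_eq_zero, ← hT]; exact h.symm
            rw [h2]; simp
            exact (sub_eq_zero.mp h2).symm
          · rw [div_self h.ne', one_smul]; abel
        rw [this]; simp
      · have hs : σ i = tau i := min_eq_left (le_of_lt (not_le.mp hTi))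
        have h1 : (i : ℝ) - 1 / 2 ≤ ‖q i‖ := by
          have h2 := hqn i
          rw [hs] at h2
          have h3 := hpow i
          unfold tau at h2
          nlinarith
        obtain ⟨s, hsS, hsn⟩ := mesh (q i) i h1
        exact ⟨⟨s, hsS⟩, hsn, fun h => absurd h hTi, fun h => by omega⟩
  choose s hs1 hs2 hs3 using happ
  have hstep : ∀ i, ‖(s i : E) - (s (i + 1) : E)‖ ≤ 1 := by
    intro i
    have e : (s i : E) - (s (i + 1) : E) =
        ((s i : E) - q i) + (q i - q (i + 1)) + (-((s (i + 1) : E) - q (i + 1))) := by abel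
    rw [e]
    have h1 := hs1 i
    have h2 := hs1 (i + 1)
    have h3 := hqd i
    have h4 := hpow i
    calc _ ≤ ‖((s i : E) - q i) + (q i - q (i + 1))‖ + ‖-((s (i + 1) : E) - q (i + 1))‖ :=
          norm_add_le _ _
      _ ≤ ‖(s i : E) - q i‖ + ‖q i - q (i + 1)‖ + ‖(s (i + 1) : E) - q (i + 1)‖ := by
          rw [norm_neg]; linarith [norm_add_le ((s i : E) - q i) (q i - q (i + 1))]
      _ ≤ _ := by
          rw [pow_succ] at h2
          nlinarith
  obtain ⟨w, hw⟩ := walk_of_seq s hstep (⌈T⌉₊ + 1)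
  have hN : T ≤ tau (⌈T⌉₊ + 1) := by
    have h1 := Nat.le_ceil T
    have h2 := hpow (⌈T⌉₊ + 1)
    unfold tau; push_cast; nlinarith
  have hx : s (⌈T⌉₊ + 1) = x := by
    rcases hs2 _ hN with h | h
    · exact h
    · omega
  have h0 : s 0 = sb := hs3 0 rfl
  refine ⟨(w.copy h0 hx), ?_⟩
  rw [SimpleGraph.Walk.length_copy]
  have h1 := (Nat.ceil_lt_add_one hT0).le
  have h2 : (w.length : ℝ) ≤ (⌈T⌉₊ : ℝ) + 1 := by exact_mod_cast hw
  linarith

lemma base_point (x y : E) : ∃ b : E, 0 ≤ inner ℝ b (x - b) ∧ 0 ≤ inner ℝ b (y - b) ∧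
    ‖x - b‖ + ‖y - b‖ = ‖x - y‖ := by
  by_cases h1 : 0 ≤ inner ℝ x (y - x)
  · exact ⟨x, by simp, h1, by simp [norm_sub_rev]⟩
  by_cases h2 : 0 ≤ inner ℝ y (x - y)
  · exact ⟨y, h2, by simp, by simp⟩
  push Not at h1 h2
  set d : E := y - x with hd
  have hdx : x - y = -d := by rw [hd]; abel
  have hyd : y = x + d := by rw [hd]; abel
  have hdd : inner ℝ d d = ‖d‖ ^ 2 := real_inner_self_eq_norm_sq d
  have h2' : 0 < inner ℝ x d + ‖d‖ ^ 2 := by
    rw [hdx, inner_neg_right, hyd, inner_add_left, hdd] at h2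
    linarith
  have hpos : 0 < ‖d‖ ^ 2 := by linarith
  set t : ℝ := - inner ℝ x d / ‖d‖ ^ 2 with ht
  have ht0 : 0 ≤ t := div_nonneg (by linarith) hpos.le
  have ht1 : t ≤ 1 := by
    rw [ht, div_le_one hpos]; linarith
  have hbd : inner ℝ (x + t • d) d = 0 := by
    rw [inner_add_left, inner_smul_left, hdd, ht]
    simp only [conj_trivial]
    rw [div_mul_cancel₀ _ hpos.ne']
    ring
  refine ⟨x + t • d, ?_, ?_, ?_⟩
  · have : x - (x + t • d) = (-t) • d := by rw [neg_smul]; abel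
    rw [this, inner_smul_right, hbd]; simp
  · have : y - (x + t • d) = (1 - t) • d := by rw [sub_smul, one_smul, hyd]; abel
    rw [this, inner_smul_right, hbd]; simp
  · have e1 : x - (x + t • d) = (-t) • d := by rw [neg_smul]; abel
    have e2 : y - (x + t • d) = (1 - t) • d := by rw [sub_smul, one_smul, hyd]; abel
    rw [e1, e2, hdx, norm_smul, norm_smul, norm_neg, Real.norm_eq_abs, Real.norm_eq_abs,
      abs_of_nonneg ht0, abs_of_nonneg (by linarith : 0 ≤ 1 - t), norm_neg]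
    ring

lemma walk_bound (x y : S) : ∃ w : G.Walk x y, (w.length : ℝ) ≤ ‖(x : E) - y‖ + 4 := by
  obtain ⟨b, hx, hy, hb⟩ := base_point (x : E) (y : E)
  obtain ⟨s, hs, hsn⟩ := mesh b 0 (by have := norm_nonneg b; norm_num; linarith)
  have hsn' : ‖((⟨s, hs⟩ : S) : E) - b‖ ≤ 1 / 8 := by simpa using hsn
  obtain ⟨w1, hw1⟩ := outward b ⟨s, hs⟩ x hsn' hx
  obtain ⟨w2, hw2⟩ := outward b ⟨s, hs⟩ y hsn' hy
  refine ⟨w1.reverse.append w2, ?_⟩
  rw [SimpleGraph.Walk.length_append, SimpleGraph.Walk.length_reverse]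
  push_cast
  linarith

theorem main : ∃ (V : Type) (G : SimpleGraph V), G.Connected ∧ (∀ v, (G.neighborSet v).Finite) ∧
    ∃ (f : V → EuclideanSpace ℝ (Fin 2)) (C : ℝ), 0 < C ∧
      (∀ x y, |‖f x - f y‖ - (G.dist x y : ℝ)| < C) ∧
      ∀ p : EuclideanSpace ℝ (Fin 2), ∃ x, ‖f x - p‖ < C := by
  have hne : Nonempty S := by
    obtain ⟨s, hs, _⟩ := mesh 0 0 (by norm_num)
    exact ⟨⟨s, hs⟩⟩
  have hconn : G.Connected := by
    rw [SimpleGraph.connected_iff]
    refine ⟨fun x y => ?_, hne⟩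
    obtain ⟨w, _⟩ := walk_bound x y
    exact w.reachable
  refine ⟨S, G, hconn, neighbor_finite, fun v => (v : E), 5, by norm_num, ?_, ?_⟩
  · intro x y
    obtain ⟨w, hw⟩ := walk_bound x y
    have h1 : (G.dist x y : ℝ) ≤ ‖(x : E) - y‖ + 4 := by
      have h2 : G.dist x y ≤ w.length := SimpleGraph.dist_le w
      have h3 : (G.dist x y : ℝ) ≤ w.length := by exact_mod_cast h2
      linarith
    obtain ⟨w', hw'⟩ := hconn.exists_walk_length_eq_dist x y
    have h4 := norm_le_length w'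
    rw [hw'] at h4
    rw [abs_lt]
    constructor <;> linarith
  · intro p
    obtain ⟨s, hs, hsn⟩ := mesh p 0 (by have := norm_nonneg p; norm_num; linarith)
    refine ⟨⟨s, hs⟩, ?_⟩
    have : ‖s - p‖ ≤ 1 / 8 := by simpa using hsn
    show ‖s - p‖ < 5
    linarith

end Pool.Agent.H27.Kozma
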