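import Pool.Agent.H27.PO1

/-! PL homeomorphisms of the line with bounded support, for S0307. -/

namespace Pool.Agent.H27.PO

open Filter Topology Set

abbrev HR : Type := ℝ ≃o ℝ

theorem mul_ap (f g : HR) (t : ℝ) : (f * g) t = f (g t) := rfl
theorem one_ap (t : ℝ) : (1 : HR) t = t := rfl
theorem inv_ap (f : HR) (t : ℝ) : f⁻¹ (f t) = t := RelIso.inv_apply_self f t
theorem ap_inv (f : HR) (t : ℝ) : f (f⁻¹ t) = t := RelIso.apply_inv_self f t
theorem ext_ap {f g : HR} (h : ∀ t, f t = g t) : f = g := RelIso.ext h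

theorem lt_inv_iff (f : HR) (s t : ℝ) : s < f⁻¹ t ↔ f s < t := by
  rw [← f.lt_iff_lt, ap_inv]
theorem inv_lt_iff (f : HR) (s t : ℝ) : f⁻¹ s < t ↔ s < f t := by
  rw [← f.lt_iff_lt, ap_inv]
theorem le_inv_iff (f : HR) (s t : ℝ) : s ≤ f⁻¹ t ↔ f s ≤ t := by
  rw [← f.le_iff_le, ap_inv]
theorem inv_le_iff (f : HR) (s t : ℝ) : f⁻¹ s ≤ t ↔ s ≤ f t := by
  rw [← f.le_iff_le, ap_inv]

/-- `f` is the identity outside `(a,b)` -/
def SI (a b : ℝ) (f : HR) : Prop := ∀ t, (t ≤ a ∨ b ≤ t) → f t = t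

theorem SI.mono {a b a' b' : ℝ} {f : HR} (h : SI a b f) (ha : a' ≤ a) (hb : b ≤ b') :
    SI a' b' f := fun t ht => h t (ht.imp (fun h => h.trans ha) (fun h => hb.trans h))

theorem SI.mul {a b : ℝ} {f g : HR} (hf : SI a b f) (hg : SI a b g) : SI a b (f * g) := by
  intro t ht
  rw [mul_ap, hg t ht, hf t ht]

theorem SI.inv {a b : ℝ} {f : HR} (hf : SI a b f) : SI a b f⁻¹ := by
  intro t ht
  have := hf t ht
  calc f⁻¹ t = f⁻¹ (f t) := by rw [this]
    _ = t := inv_ap f t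

theorem SI.one (a b : ℝ) : SI a b (1 : HR) := fun _ _ => rfl

theorem SI.conj {a b : ℝ} {f : HR} (hf : SI a b f) (h : HR) : SI (h a) (h b) (h * f * h⁻¹) := by
  intro t ht
  rw [mul_ap, mul_ap, hf (h⁻¹ t) ?_, ap_inv]
  rcases ht with ht | ht
  · left
    rw [inv_le_iff]
    exact ht
  · right
    rw [le_inv_iff]
    exact ht

def AffR (f : HR) (t : ℝ) : Prop := ∃ m c : ℝ, 0 < m ∧ ∀ᶠ s in 𝓝[≥] t, f s = m * s + c
def AffL (f : HR) (t : ℝ) : Prop := ∃ m c : ℝ, 0 < m ∧ ∀ᶠ s in 𝓝[≤] t, f s = m * s + c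

theorem tR (f : HR) (t : ℝ) : Tendsto f (𝓝[≥] t) (𝓝[≥] (f t)) :=
  (f.continuous.continuousWithinAt (s := Ici t)).tendsto_nhdsWithin (fun _ hs => f.monotone hs)

theorem tL (f : HR) (t : ℝ) : Tendsto f (𝓝[≤] t) (𝓝[≤] (f t)) :=
  (f.continuous.continuousWithinAt (s := Iic t)).tendsto_nhdsWithin (fun _ hs => f.monotone hs)

theorem AffR.mul {f g : HR} {t : ℝ} (hf : AffR f (g t)) (hg : AffR g t) : AffR (f * g) t := by
  obtain ⟨m, c, hm, h⟩ := hf
  obtain ⟨m', c', hm', h'⟩ := hg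
  refine ⟨m * m', m * c' + c, mul_pos hm hm', ?_⟩
  filter_upwards [h', (tR g t).eventually h] with s h1 h2
  rw [mul_ap, h2, h1]
  ring

theorem AffL.mul {f g : HR} {t : ℝ} (hf : AffL f (g t)) (hg : AffL g t) : AffL (f * g) t := by
  obtain ⟨m, c, hm, h⟩ := hf
  obtain ⟨m', c', hm', h'⟩ := hg
  refine ⟨m * m', m * c' + c, mul_pos hm hm', ?_⟩
  filter_upwards [h', (tL g t).eventually h] with s h1 h2
  rw [mul_ap, h2, h1]
  ring

theorem AffR.inv {f : HR} {t : ℝ} (hf : AffR f (f⁻¹ t)) : AffR f⁻¹ t := by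
  obtain ⟨m, c, hm, h⟩ := hf
  refine ⟨m⁻¹, -(m⁻¹ * c), inv_pos.mpr hm, ?_⟩
  filter_upwards [(tR f⁻¹ t).eventually h] with s h1
  rw [ap_inv] at h1
  have : m * f⁻¹ s = s - c := by linarith
  field_simp
  linarith

theorem AffL.inv {f : HR} {t : ℝ} (hf : AffL f (f⁻¹ t)) : AffL f⁻¹ t := by
  obtain ⟨m, c, hm, h⟩ := hf
  refine ⟨m⁻¹, -(m⁻¹ * c), inv_pos.mpr hm, ?_⟩
  filter_upwards [(tL f⁻¹ t).eventually h] with s h1
  rw [ap_inv] at h1
  have : m * f⁻¹ s = s - c := by linarith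
  field_simp
  linarith

/-- all PL homeomorphisms -/
def PL : Subgroup HR where
  carrier := {f | ∀ t, AffR f t ∧ AffL f t}
  one_mem' := fun t => ⟨⟨1, 0, one_pos, by filter_upwards with s; rw [one_ap]; ring⟩,
    ⟨1, 0, one_pos, by filter_upwards with s; rw [one_ap]; ring⟩⟩
  mul_mem' := fun {f g} hf hg t => ⟨(hf (g t)).1.mul (hg t).1, (hf (g t)).2.mul (hg t).2⟩
  inv_mem' := fun {f} hf t => ⟨(hf (f⁻¹ t)).1.inv, (hf (f⁻¹ t)).2.inv⟩

def Bd : Subgroup HR where
  carrier := {f | ∃ a b, SI a b f}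
  one_mem' := ⟨0, 0, SI.one _ _⟩
  mul_mem' := by
    rintro f g ⟨a, b, hf⟩ ⟨a', b', hg⟩
    exact ⟨min a a', max b b', (hf.mono (min_le_left _ _) (le_max_left _ _)).mul
      (hg.mono (min_le_right _ _) (le_max_right _ _))⟩
  inv_mem' := by
    rintro f ⟨a, b, hf⟩
    exact ⟨a, b, hf.inv⟩

/-- the group of PL homeomorphisms with bounded support -/
def Gam : Subgroup HR := PL ⊓ Bd

/-- its commutator subgroup -/
def KK : Subgroup HR := ⁅Gam, Gam⁆

noncomputable def kink (x m : ℝ) (hm : 0 < m) : HR where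
  toFun t := if t ≤ x then t else x + m * (t - x)
  invFun t := if t ≤ x then t else x + m⁻¹ * (t - x)
  left_inv := by
    intro t
    by_cases h : t ≤ x
    · simp [h]
    · have h2 : ¬ (x + m * (t - x) ≤ x) := by
        have : 0 < m * (t - x) := mul_pos hm (by linarith)
        linarith
      simp only [if_neg h, if_neg h2]
      field_simp
      ring
  right_inv := by
    intro t
    by_cases h : t ≤ x
    · simp [h]
    · have h2 : ¬ (x + m⁻¹ * (t - x) ≤ x) := by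
        have : 0 < m⁻¹ * (t - x) := mul_pos (inv_pos.mpr hm) (by linarith)
        linarith
      simp only [if_neg h, if_neg h2]
      field_simp
      ring
  map_rel_iff' := by
    intro a b
    simp only [Equiv.coe_fn_mk]
    by_cases ha : a ≤ x <;> by_cases hb : b ≤ x
    · simp [ha, hb]
    · simp only [if_pos ha, if_neg hb]
      have : 0 < m * (b - x) := mul_pos hm (by linarith)
      constructor
      · intro _; linarith
      · intro _; linarith
    · simp only [if_neg ha, if_pos hb]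
      have : 0 < m * (a - x) := mul_pos hm (by linarith)
      constructor
      · intro _; linarith
      · intro _; linarith
    · simp only [if_neg ha, if_neg hb]
      constructor
      · intro h
        have : m * (a - x) ≤ m * (b - x) := by linarith
        have := le_of_mul_le_mul_left this hm
        linarith
      · intro h
        have : m * (a - x) ≤ m * (b - x) := mul_le_mul_of_nonneg_left (by linarith) hm.le
        linarith

theorem kink_le (x m : ℝ) (hm : 0 < m) {t : ℝ} (h : t ≤ x) : kink x m hm t = t := if_pos h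
theorem kink_ge (x m : ℝ) (hm : 0 < m) {t : ℝ} (h : x ≤ t) :
    kink x m hm t = x + m * (t - x) := by
  rcases eq_or_lt_of_le h with h | h
  · rw [kink_le x m hm h.symm.le, h]
    ring
  · exact if_neg (not_le.mpr h)

theorem kink_PL (x m : ℝ) (hm : 0 < m) : kink x m hm ∈ PL := by
  intro t
  constructor
  · rcases lt_or_ge t x with h | h
    · refine ⟨1, 0, one_pos, ?_⟩
      have : ∀ᶠ s in 𝓝[≥] t, s < x := nhdsWithin_le_nhds (eventually_lt_nhds h)
      filter_upwards [this] with s hs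
      rw [kink_le x m hm hs.le]
      ring
    · refine ⟨m, x - m * x, hm, ?_⟩
      filter_upwards [self_mem_nhdsWithin] with s hs
      rw [kink_ge x m hm (h.trans hs)]
      ring
  · rcases le_or_gt t x with h | h
    · refine ⟨1, 0, one_pos, ?_⟩
      filter_upwards [self_mem_nhdsWithin] with s hs
      rw [kink_le x m hm (le_trans hs h)]
      ring
    · refine ⟨m, x - m * x, hm, ?_⟩
      have : ∀ᶠ s in 𝓝[≤] t, x < s := nhdsWithin_le_nhds (eventually_gt_nhds h)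
      filter_upwards [this] with s hs
      rw [kink_ge x m hm hs.le]
      ring

theorem tau {p x y q : ℝ} (h1 : p < x) (h2 : x < q) (h3 : p < y) (h4 : y < q) :
    ∃ h ∈ Gam, SI p q h ∧ h x = y := by
  have d1 : 0 < x - p := by linarith
  have d2 : 0 < q - x := by linarith
  have d3 : 0 < y - p := by linarith
  have d4 : 0 < q - y := by linarith
  let m1 := (y - p) / (x - p)
  have hm1 : 0 < m1 := div_pos d3 d1
  have e1 : m1 * (x - p) = y - p := by
    simp only [m1]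
    field_simp
  let q1 := p + m1 * (q - p)
  have e2 : q1 - y = m1 * (q - x) := by
    simp only [q1]
    linarith
  have hq1 : 0 < q1 - y := by
    rw [e2]; exact mul_pos hm1 d2
  let m2 := (q - y) / (q1 - y)
  have hm2 : 0 < m2 := div_pos d4 hq1
  have e3 : m2 * (q1 - y) = q - y := by
    simp only [m2]
    field_simp
  let m3 := (m1 * m2)⁻¹
  have hm3 : 0 < m3 := inv_pos.mpr (mul_pos hm1 hm2)
  have e4 : m3 * (m1 * m2) = 1 := by
    simp only [m3]
    field_simp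
  have hSI : SI p q (kink q m3 hm3 * (kink y m2 hm2 * kink p m1 hm1)) := by
    rintro t (ht | ht)
    · rw [mul_ap, mul_ap, kink_le p m1 hm1 ht, kink_le y m2 hm2 (by linarith),
        kink_le q m3 hm3 (by linarith)]
    · rw [mul_ap, mul_ap, kink_ge p m1 hm1 (by linarith)]
      have e5 : p + m1 * (t - p) = q1 + m1 * (t - q) := by
        simp only [q1]; ring
      have h5 : 0 ≤ m1 * (t - q) := mul_nonneg hm1.le (by linarith)
      rw [e5, kink_ge y m2 hm2 (by linarith)]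
      have e6 : y + m2 * (q1 + m1 * (t - q) - y) = q + m2 * (m1 * (t - q)) := by
        have : m2 * (q1 + m1 * (t - q) - y) = m2 * (q1 - y) + m2 * (m1 * (t - q)) := by ring
        rw [this, e3]
        ring
      have h6 : 0 ≤ m2 * (m1 * (t - q)) := mul_nonneg hm2.le h5
      rw [e6, kink_ge q m3 hm3 (by linarith)]
      have : m3 * (q + m2 * (m1 * (t - q)) - q) = (m3 * (m1 * m2)) * (t - q) := by ring
      rw [this, e4]
      ring
  refine ⟨kink q m3 hm3 * (kink y m2 hm2 * kink p m1 hm1), ⟨?_, ⟨p, q, hSI⟩⟩, hSI, ?_⟩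
  · exact PL.mul_mem (kink_PL _ _ _) (PL.mul_mem (kink_PL _ _ _) (kink_PL _ _ _))
  · rw [mul_ap, mul_ap, kink_ge p m1 hm1 h1.le, e1]
    rw [show p + (y - p) = y by ring, kink_le y m2 hm2 le_rfl, kink_le q m3 hm3 h4.le]

theorem push4 {x1 x2 x3 x4 M : ℝ} (h12 : x1 < x2) (h23 : x2 < x3) (h34 : x3 < x4) (hM : x4 < M) :
    ∃ h ∈ Gam, h x1 = M + 1 ∧ h x2 = M + 2 ∧ h x3 = M + 3 ∧ h x4 = M + 4 := by
  obtain ⟨k4, g4, s4, v4⟩ := tau (p := x3) (x := x4) (y := M + 4) (q := M + 5) h34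
    (by linarith) (by linarith) (by linarith)
  obtain ⟨k3, g3, s3, v3⟩ := tau (p := x2) (x := x3) (y := M + 3) (q := M + 4) h23
    (by linarith) (by linarith) (by linarith)
  obtain ⟨k2, g2, s2, v2⟩ := tau (p := x1) (x := x2) (y := M + 2) (q := M + 3) h12
    (by linarith) (by linarith) (by linarith)
  obtain ⟨k1, g1, s1, v1⟩ := tau (p := x1 - 1) (x := x1) (y := M + 1) (q := M + 2) (by linarith)
    (by linarith) (by linarith) (by linarith)
  refine ⟨k1 * (k2 * (k3 * k4)), Gam.mul_mem g1 (Gam.mul_mem g2 (Gam.mul_mem g3 g4)), ?_, ?_, ?_, ?_⟩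
  · rw [mul_ap, mul_ap, mul_ap, s4 x1 (Or.inl (by linarith)), s3 x1 (Or.inl (by linarith)),
      s2 x1 (Or.inl le_rfl), v1]
  · rw [mul_ap, mul_ap, mul_ap, s4 x2 (Or.inl (by linarith)), s3 x2 (Or.inl le_rfl), v2,
      s1 _ (Or.inr le_rfl)]
  · rw [mul_ap, mul_ap, mul_ap, s4 x3 (Or.inl le_rfl), v3, s2 _ (Or.inr le_rfl),
      s1 _ (Or.inr (by linarith))]
  · rw [mul_ap, mul_ap, mul_ap, v4, s3 _ (Or.inr le_rfl), s2 _ (Or.inr (by linarith)),
      s1 _ (Or.inr (by linarith))]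

theorem trans4 {x1 x2 x3 x4 y1 y2 y3 y4 : ℝ} (h12 : x1 < x2) (h23 : x2 < x3) (h34 : x3 < x4)
    (k12 : y1 < y2) (k23 : y2 < y3) (k34 : y3 < y4) :
    ∃ h ∈ Gam, h x1 = y1 ∧ h x2 = y2 ∧ h x3 = y3 ∧ h x4 = y4 := by
  have hM1 : x4 < max x4 y4 + 1 := by linarith [le_max_left x4 y4]
  have hM2 : y4 < max x4 y4 + 1 := by linarith [le_max_right x4 y4]
  obtain ⟨a, ha, a1, a2, a3, a4⟩ := push4 h12 h23 h34 hM1
  obtain ⟨b, hb, b1, b2, b3, b4⟩ := push4 k12 k23 k34 hM2
  refine ⟨b⁻¹ * a, Gam.mul_mem (Gam.inv_mem hb) ha, ?_, ?_, ?_, ?_⟩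
  · rw [mul_ap, a1, ← b1, inv_ap]
  · rw [mul_ap, a2, ← b2, inv_ap]
  · rw [mul_ap, a3, ← b3, inv_ap]
  · rw [mul_ap, a4, ← b4, inv_ap]

theorem trans2 {x1 x2 y1 y2 : ℝ} (h12 : x1 < x2) (k12 : y1 < y2) :
    ∃ h ∈ Gam, h x1 = y1 ∧ h x2 = y2 := by
  obtain ⟨h, hh, h1, h2, _, _⟩ := trans4 (x1 := x1) (x2 := x2) (x3 := x2 + 1) (x4 := x2 + 2)
    (y1 := y1) (y2 := y2) (y3 := y2 + 1) (y4 := y2 + 2) h12 (by linarith) (by linarith) k12
    (by linarith) (by linarith)
  exact ⟨h, hh, h1, h2⟩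

/-- an element fixing `[a,b]` pointwise commutes with everything supported in `[a,b]` -/
theorem comm_of_fix {a b : ℝ} {u x : HR} (hu : ∀ t, a ≤ t → t ≤ b → u t = t) (hab : a ≤ b)
    (hx : SI a b x) : u * x = x * u := by
  apply ext_ap
  intro t
  rw [mul_ap, mul_ap]
  rcases le_or_gt t a with h | h
  · have h1 : u t ≤ a := by
      have := u.monotone h
      rwa [hu a le_rfl hab] at this
    rw [hx t (Or.inl h), hx _ (Or.inl h1)]
  · rcases le_or_gt b t with h' | h'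
    · have h1 : b ≤ u t := by
        have := u.monotone h'
        rwa [hu b hab le_rfl] at this
      rw [hx t (Or.inr h'), hx _ (Or.inr h1)]
    · have h1 : a ≤ x t := by
        have := x.monotone h.le
        rwa [hx a (Or.inl le_rfl)] at this
      have h2 : x t ≤ b := by
        have := x.monotone h'.le
        rwa [hx b (Or.inr le_rfl)] at this
      rw [hu _ h1 h2, hu t h.le h'.le]

theorem KK_le : KK ≤ Gam := by
  show ⁅Gam, Gam⁆ ≤ Gam
  rw [Subgroup.commutator_le]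
  intro a ha b hb
  exact Gam.mul_mem (Gam.mul_mem (Gam.mul_mem ha hb) (Gam.inv_mem ha)) (Gam.inv_mem hb)

theorem comm_mem_KK {a b : HR} (ha : a ∈ Gam) (hb : b ∈ Gam) : a * b * a⁻¹ * b⁻¹ ∈ KK :=
  Subgroup.commutator_mem_commutator ha hb

theorem KK_conj {h x : HR} (hh : h ∈ Gam) (hx : x ∈ KK) : h * x * h⁻¹ ∈ KK := by
  have h1 := comm_mem_KK hh (KK_le hx)
  have e : h * x * h⁻¹ = (h * x * h⁻¹ * x⁻¹) * x := by group
  rw [e]
  exact KK.mul_mem h1 hx

/-- approximation of elements of Γ by elements of Γ' -/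
theorem approx {h : HR} (hh : h ∈ Gam) (M : ℝ) : ∃ h' ∈ KK, ∀ t, t ≤ M → h' t = h t := by
  obtain ⟨hPL, a, b, hab⟩ := hh
  have hh : h ∈ Gam := ⟨hPL, a, b, hab⟩
  obtain ⟨k, hk, _, hka⟩ := tau (p := a - 1) (x := a) (y := max M a) (q := max M a + 1)
    (by linarith) (by linarith [le_max_right M a]) (by linarith [le_max_right M a]) (by linarith)
  refine ⟨h * k * h⁻¹ * k⁻¹, comm_mem_KK hh hk, ?_⟩
  intro t ht
  have h1 : k⁻¹ t ≤ a := by
    rw [inv_le_iff, hka]
    exact ht.trans (le_max_left _ _)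
  have h2 : h⁻¹ (k⁻¹ t) = k⁻¹ t := hab.inv _ (Or.inl h1)
  rw [mul_ap, mul_ap, mul_ap, h2, ap_inv]

theorem conj_eq {h h' x : HR} {a b : ℝ} (hx : SI a b x) (hab : a ≤ b)
    (hh : ∀ t, t ≤ b → h' t = h t) : h' * x * h'⁻¹ = h * x * h⁻¹ := by
  have h1 : (h'⁻¹ * h) * x = x * (h'⁻¹ * h) := by
    apply comm_of_fix ?_ hab hx
    intro t _ ht
    rw [mul_ap, ← hh t ht, inv_ap]
  have e : h * x * h⁻¹ = h' * ((h'⁻¹ * h) * x) * h⁻¹ := by group
  rw [e, h1]
  group

theorem NS_KK {g x : HR} (hg : g ∈ Gam) (h : NS Gam g x) : NS KK g x := by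
  obtain ⟨_, a, b, hab⟩ := hg
  induction h with
  | conj h hh =>
    obtain ⟨h', hh', he⟩ := approx hh (max a b)
    rw [← conj_eq (hab.mono le_rfl (le_max_right a b)) (le_max_left _ _) he]
    exact NS.conj h' hh'
  | mul _ _ ih1 ih2 => exact NS.mul ih1 ih2

theorem NS_Gam {g x : HR} (h : NS KK g x) : NS Gam g x := by
  induction h with
  | conj h hh => exact NS.conj h (KK_le hh)
  | mul _ _ ih1 ih2 => exact NS.mul ih1 ih2

/-- elements of Γ supported in [s,t] -/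
def HJ (s t : ℝ) : Subgroup HR where
  carrier := {f | f ∈ Gam ∧ SI s t f}
  one_mem' := ⟨Gam.one_mem, SI.one _ _⟩
  mul_mem' := fun hf hg => ⟨Gam.mul_mem hf.1 hg.1, hf.2.mul hg.2⟩
  inv_mem' := fun hf => ⟨Gam.inv_mem hf.1, hf.2.inv⟩

theorem bd_all {c : HR} (hc : c ∈ KK) : ∃ M : ℝ, c ∈ ⁅HJ (-M) M, HJ (-M) M⁆ := by
  have hmono : ∀ M N : ℝ, M ≤ N → ⁅HJ (-M) M, HJ (-M) M⁆ ≤ ⁅HJ (-N) N, HJ (-N) N⁆ := by
    intro M N h
    apply Subgroup.commutator_mono <;>
    · intro f hf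
      exact ⟨hf.1, hf.2.mono (by linarith) h⟩
  unfold KK at hc
  rw [Subgroup.commutator_def] at hc
  induction hc using Subgroup.closure_induction with
  | mem x hx =>
    obtain ⟨u, hu, v, hv, rfl⟩ := hx
    obtain ⟨hu1, a, b, hab⟩ := hu
    obtain ⟨hv1, c, d, hcd⟩ := hv
    have hu : u ∈ Gam := ⟨hu1, a, b, hab⟩
    have hv : v ∈ Gam := ⟨hv1, c, d, hcd⟩
    let M := max (max (-a) b) (max (-c) d)
    have m1 : -a ≤ M := (le_max_left _ _).trans (le_max_left _ _)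
    have m2 : b ≤ M := (le_max_right _ _).trans (le_max_left _ _)
    have m3 : -c ≤ M := (le_max_left _ _).trans (le_max_right _ _)
    have m4 : d ≤ M := (le_max_right _ _).trans (le_max_right _ _)
    refine ⟨M, Subgroup.commutator_mem_commutator ⟨hu, hab.mono (by linarith) m2⟩
      ⟨hv, hcd.mono (by linarith) m4⟩⟩
  | one => exact ⟨0, Subgroup.one_mem _⟩
  | mul x y _ _ ihx ihy =>
    obtain ⟨M, hM⟩ := ihx
    obtain ⟨N, hN⟩ := ihy
    exact ⟨max M N, Subgroup.mul_mem _ (hmono _ _ (le_max_left _ _) hM)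
      (hmono _ _ (le_max_right _ _) hN)⟩
  | inv x _ ih =>
    obtain ⟨M, hM⟩ := ih
    exact ⟨M, Subgroup.inv_mem _ hM⟩

/-- compression -/
theorem compress {c : HR} (hc : c ∈ KK) {s a b t : ℝ} (hsa : s < a) (hab : a ≤ b) (hbt : b < t)
    (hcs : SI a b c) : c ∈ ⁅HJ s t, HJ s t⁆ := by
  obtain ⟨M0, hM0⟩ := bd_all hc
  let M := max M0 (max (-s) t + 1)
  have hM1 : M0 ≤ M := le_max_left _ _
  have hM2 : -s < M := by
    have : -s ≤ max (-s) t := le_max_left _ _
    have h2 : max (-s) t + 1 ≤ M := le_max_right _ _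
    linarith
  have hM3 : t < M := by
    have : t ≤ max (-s) t := le_max_right _ _
    have h2 : max (-s) t + 1 ≤ M := le_max_right _ _
    linarith
  obtain ⟨k1, g1, s1, v1⟩ := tau (p := -M - 1) (x := -M) (y := (s + a) / 2) (q := a) (by linarith)
    (by linarith) (by linarith) (by linarith)
  obtain ⟨k2, g2, s2, v2⟩ := tau (p := b) (x := M) (y := (b + t) / 2) (q := M + 1) (by linarith)
    (by linarith) (by linarith) (by linarith)
  let h := k1 * k2
  have hh : h ∈ Gam := Gam.mul_mem g1 g2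
  have hfix : ∀ r, a ≤ r → r ≤ b → h r = r := by
    intro r h1 h2
    show k1 (k2 r) = r
    rw [s2 r (Or.inl h2), s1 r (Or.inr h1)]
  have hM : h M = (b + t) / 2 := by
    show k1 (k2 M) = _
    rw [v2, s1 _ (Or.inr (by linarith))]
  have hM' : h (-M) = (s + a) / 2 := by
    show k1 (k2 (-M)) = _
    rw [s2 _ (Or.inl (by linarith)), v1]
  have hcomm : h * c = c * h := comm_of_fix hfix hab hcs
  have hceq : h * c * h⁻¹ = c := by rw [hcomm]; group
  have himg : ∀ f ∈ HJ (-M) M, h * f * h⁻¹ ∈ HJ s t := by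
    intro f hf
    refine ⟨Gam.mul_mem (Gam.mul_mem hh hf.1) (Gam.inv_mem hh), ?_⟩
    have := hf.2.conj h
    rw [hM, hM'] at this
    exact this.mono (by linarith) (by linarith)
  have hc2 : c ∈ ⁅HJ (-M) M, HJ (-M) M⁆ := by
    refine (Subgroup.commutator_mono ?_ ?_) hM0 <;>
    · intro f hf
      exact ⟨hf.1, hf.2.mono (by linarith) hM1⟩
  have hmap : ⁅HJ (-M) M, HJ (-M) M⁆.map (MulAut.conj h).toMonoidHom ≤ ⁅HJ s t, HJ s t⁆ := by
    rw [Subgroup.map_commutator]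
    apply Subgroup.commutator_mono <;>
    · rintro _ ⟨f, hf, rfl⟩
      exact himg f hf
  rw [← hceq]
  exact hmap ⟨c, hc2, rfl⟩

end Pool.Agent.H27.PO
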