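import Mathlib
import Pool.Agent.H27.PO2

/-! Ultrapower step for MP_31a5b6_al. -/

namespace Pool.Agent.H27.LP

open Filter Set

def BdIn {T : Type*} [LinearOrder T] (t1 t2 : T) (f : T ≃o T) : Prop :=
  ∀ s, (s < t1 ∨ t2 < s) → f s = s

def Bdd {T : Type*} [LinearOrder T] (f : T ≃o T) : Prop := ∃ t1 t2 : T, BdIn t1 t2 f

def TwoTrans (T : Type*) [LinearOrder T] : Prop :=
  ∀ r1 r2 s1 s2 : T, r1 < r2 → s1 < s2 → ∃ f : T ≃o T, Bdd f ∧ f r1 = s1 ∧ f r2 = s2

def Split {T : Type*} [LinearOrder T] (F f1 f2 : T ≃o T) : Prop :=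
  f1 ≠ 1 ∧ f2 ≠ 1 ∧ (∀ t, min (f1 t) (f2 t) = t) ∧ (∀ t, max (f1 t) (f2 t) = F t)

section pw
variable {T : Type*} [LinearOrder T]

open Classical in
theorem piece (F : T ≃o T) (I : Set T) (hI : ∀ x ∈ I, ∀ y ∈ I, ∀ z, x ≤ z → z ≤ y → z ∈ I)
    (hF : ∀ y, F y ∈ I ↔ y ∈ I) :
    ∃ g : T ≃o T, (∀ y ∈ I, g y = F y) ∧ (∀ y, y ∉ I → g y = y) := by
  let f : T → T := fun y => if y ∈ I then F y else y
  have f1 : ∀ y ∈ I, f y = F y := fun y hy => if_pos hy
  have f2 : ∀ y, y ∉ I → f y = y := fun y hy => if_neg hy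
  have hmono : StrictMono f := by
    intro x y hxy
    by_cases hx : x ∈ I <;> by_cases hy : y ∈ I
    · rw [f1 x hx, f1 y hy]; exact F.strictMono hxy
    · rw [f1 x hx, f2 y hy]
      by_contra h
      push Not at h
      exact hy (hI x hx _ ((hF x).mpr hx) y hxy.le h)
    · rw [f2 x hx, f1 y hy]
      by_contra h
      push Not at h
      exact hx (hI _ ((hF y).mpr hy) y hy x h hxy.le)
    · rw [f2 x hx, f2 y hy]; exact hxy
  have hsurj : Function.Surjective f := by
    intro y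
    by_cases hy : y ∈ I
    · refine ⟨F.symm y, ?_⟩
      have : F.symm y ∈ I := by
        rw [← hF]
        simpa using hy
      rw [f1 _ this]
      simp
    · exact ⟨y, f2 y hy⟩
  exact ⟨hmono.orderIsoOfSurjective f hsurj, f1, f2⟩

theorem piece2 (F : T ≃o T) (I : Set T) (hI : ∀ x ∈ I, ∀ y ∈ I, ∀ z, x ≤ z → z ≤ y → z ∈ I)
    (hF : ∀ y, F y ∈ I ↔ y ∈ I) :
    ∃ g : T ≃o T, (∀ y ∈ I, g y = y) ∧ (∀ y, y ∉ I → g y = F y) := by
  obtain ⟨g, h1, h2⟩ := piece F I hI hF
  refine ⟨g⁻¹ * F, ?_, ?_⟩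
  · intro y hy
    show g⁻¹ (F y) = y
    rw [← h1 y hy]
    exact RelIso.inv_apply_self g y
  · intro y hy
    show g⁻¹ (F y) = F y
    have : F y ∉ I := fun h => hy ((hF y).mp h)
    have h3 := h2 _ this
    calc g⁻¹ (F y) = g⁻¹ (g (F y)) := by rw [h3]
      _ = F y := RelIso.inv_apply_self g _
end pw

noncomputable section

abbrev UU : Ultrafilter ℕ := hyperfilter ℕ
abbrev Gm (T : Type) : Type := Germ (UU : Filter ℕ) T

variable {T : Type} [LinearOrder T]

/-- coordinatewise action of a family of automorphisms on the ultrapower -/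
def starFam (f : ℕ → (T ≃o T)) : Gm T ≃o Gm T where
  toFun x := Germ.map₂ (fun (g : T ≃o T) y => g y) (f : Germ (UU : Filter ℕ) (T ≃o T)) x
  invFun x := Germ.map₂ (fun (g : T ≃o T) y => g.symm y) (f : Germ (UU : Filter ℕ) (T ≃o T)) x
  left_inv := by
    intro x
    induction x using Germ.inductionOn with
    | _ x => exact Germ.coe_eq.mpr (Eventually.of_forall fun k => by simp)
  right_inv := by
    intro x
    induction x using Germ.inductionOn with
    | _ x => exact Germ.coe_eq.mpr (Eventually.of_forall fun k => by simp)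
  map_rel_iff' := by
    intro x y
    induction x using Germ.inductionOn with
    | _ x =>
      induction y using Germ.inductionOn with
      | _ y =>
        show ((fun k => f k (x k) : ℕ → T) : Gm T) ≤ ((fun k => f k (y k) : ℕ → T) : Gm T) ↔
          (x : Gm T) ≤ (y : Gm T)
        rw [Germ.coe_le, Germ.coe_le]
        constructor
        · intro h
          exact h.mono fun k hk => (f k).le_iff_le.mp hk
        · intro h
          exact h.mono fun k hk => (f k).le_iff_le.mpr hk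

theorem starFam_coe (f : ℕ → (T ≃o T)) (x : ℕ → T) :
    starFam f (x : Gm T) = ((fun k => f k (x k) : ℕ → T) : Gm T) := rfl

def star (f : T ≃o T) : Gm T ≃o Gm T := starFam (fun _ => f)

theorem star_coe (f : T ≃o T) (x : ℕ → T) :
    star f (x : Gm T) = ((fun k => f (x k) : ℕ → T) : Gm T) := rfl

def cst (x : T) : Gm T := ((fun _ => x : ℕ → T) : Gm T)

theorem cst_le (x y : T) : cst x ≤ cst y ↔ x ≤ y := by
  show ((fun _ => x : ℕ → T) : Gm T) ≤ ((fun _ => y : ℕ → T) : Gm T) ↔ _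
  rw [Germ.coe_le]
  constructor
  · intro h
    obtain ⟨_, h⟩ := h.exists
    exact h
  · intro h
    exact Eventually.of_forall fun _ => h

theorem star_cst (f : T ≃o T) (x : T) : star f (cst x) = cst (f x) := rfl

theorem star_mul (f g : T ≃o T) : star (f * g) = star f * star g := by
  apply RelIso.ext
  intro x
  induction x using Germ.inductionOn with
  | _ x => rfl

theorem coe_max (x y : ℕ → T) : max (x : Gm T) (y : Gm T) = ((fun k => max (x k) (y k) : ℕ → T) : Gm T) := by
  rcases le_total (x : Gm T) (y : Gm T) with h | h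
  · rw [max_eq_right h]
    refine Germ.coe_eq.mpr ?_
    filter_upwards [Germ.coe_le.mp h] with k hk
    exact (max_eq_right hk).symm
  · rw [max_eq_left h]
    refine Germ.coe_eq.mpr ?_
    filter_upwards [Germ.coe_le.mp h] with k hk
    exact (max_eq_left hk).symm

theorem coe_min (x y : ℕ → T) : min (x : Gm T) (y : Gm T) = ((fun k => min (x k) (y k) : ℕ → T) : Gm T) := by
  rcases le_total (x : Gm T) (y : Gm T) with h | h
  · rw [min_eq_left h]
    refine Germ.coe_eq.mpr ?_
    filter_upwards [Germ.coe_le.mp h] with k hk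
    exact (min_eq_left hk).symm
  · rw [min_eq_right h]
    refine Germ.coe_eq.mpr ?_
    filter_upwards [Germ.coe_le.mp h] with k hk
    exact (min_eq_right hk).symm

theorem star_max {f g h : T ≃o T} (hh : ∀ t, h t = max (f t) (g t)) (x : Gm T) :
    star h x = max (star f x) (star g x) := by
  induction x using Germ.inductionOn with
  | _ x =>
    rw [star_coe, star_coe, star_coe, coe_max]
    simp only [hh]

theorem star_min {f g h : T ≃o T} (hh : ∀ t, h t = min (f t) (g t)) (x : Gm T) :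
    star h x = min (star f x) (star g x) := by
  induction x using Germ.inductionOn with
  | _ x =>
    rw [star_coe, star_coe, star_coe, coe_min]
    simp only [hh]

theorem starFam_bd (f : ℕ → (T ≃o T)) (a b : ℕ → T)
    (h : ∀ᶠ k in (UU : Filter ℕ), BdIn (a k) (b k) (f k)) :
    BdIn (a : Gm T) (b : Gm T) (starFam f) := by
  intro s hs
  induction s using Germ.inductionOn with
  | _ s =>
    rw [starFam_coe]
    refine Germ.coe_eq.mpr ?_
    rcases hs with hs | hs
    · have h1 := Germ.coe_lt.mp hs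
      filter_upwards [h, h1] with k hk h1
      exact hk _ (Or.inl h1)
    · have h1 := Germ.coe_lt.mp hs
      filter_upwards [h, h1] with k hk h1
      exact hk _ (Or.inr h1)

theorem star_bd {f : T ≃o T} {a b : T} (h : BdIn a b f) : BdIn (cst a) (cst b) (star f) :=
  starFam_bd _ _ _ (Eventually.of_forall fun _ => h)

theorem twoTrans_star (hT : TwoTrans T) : TwoTrans (Gm T) := by
  intro r1 r2 s1 s2 h1 h2
  induction r1 using Germ.inductionOn with
  | _ r1 =>
  induction r2 using Germ.inductionOn with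
  | _ r2 =>
  induction s1 using Germ.inductionOn with
  | _ s1 =>
  induction s2 using Germ.inductionOn with
  | _ s2 =>
  have h1' := Germ.coe_lt.mp h1
  have h2' := Germ.coe_lt.mp h2
  have hex : ∀ k, ∃ (f : T ≃o T) (a b : T), r1 k < r2 k → s1 k < s2 k →
      BdIn a b f ∧ f (r1 k) = s1 k ∧ f (r2 k) = s2 k := by
    intro k
    by_cases hk : r1 k < r2 k ∧ s1 k < s2 k
    · obtain ⟨f, ⟨a, b, hab⟩, e1, e2⟩ := hT _ _ _ _ hk.1 hk.2
      exact ⟨f, a, b, fun _ _ => ⟨hab, e1, e2⟩⟩
    · exact ⟨1, r1 k, r1 k, fun h h' => absurd ⟨h, h'⟩ hk⟩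
  choose f a b hf using hex
  refine ⟨starFam f, ⟨a, b, starFam_bd f a b ?_⟩, ?_, ?_⟩
  · filter_upwards [h1', h2'] with k k1 k2
    exact (hf k k1 k2).1
  · rw [starFam_coe]
    refine Germ.coe_eq.mpr ?_
    filter_upwards [h1', h2'] with k k1 k2
    exact (hf k k1 k2).2.1
  · rw [starFam_coe]
    refine Germ.coe_eq.mpr ?_
    filter_upwards [h1', h2'] with k k1 k2
    exact (hf k k1 k2).2.2

theorem split_star {f : T ≃o T} (hf : Bdd f) (hpos : ∀ t, t ≤ f t) (hne : f ≠ 1) :
    ∃ f1 f2 : Gm T ≃o Gm T, Bdd f1 ∧ Bdd f2 ∧ Split (star f) f1 f2 := by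
  obtain ⟨t1, t2, hbd⟩ := hf
  obtain ⟨t, ht⟩ : ∃ t, t < f t := by
    by_contra h
    push Not at h
    exact hne (RelIso.ext fun t => le_antisymm (h t) (hpos t))
  set F := star f with hF
  -- powers
  have hpow : ∀ (j : ℤ) (x : ℕ → T), (F ^ j) (x : Gm T) = ((fun k => (f ^ j) (x k) : ℕ → T) : Gm T) := by
    intro j
    induction j using Int.induction_on with
    | zero => intro x; rfl
    | succ j ih =>
      intro x
      rw [zpow_add_one, zpow_add_one]
      exact ih _
    | pred j ih =>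
      intro x
      rw [zpow_sub_one, zpow_sub_one]
      have h1 : F⁻¹ (x : Gm T) = ((fun k => f⁻¹ (x k) : ℕ → T) : Gm T) := rfl
      show (F ^ (-(j:ℤ))) (F⁻¹ (x : Gm T)) = _
      rw [h1, ih]
      rfl
  have hstrict : StrictMono (fun j : ℤ => (f ^ j) t) := by
    apply strictMono_int_of_lt_succ
    intro j
    have e : (f ^ (j+1)) t = (f ^ j) (f t) := by rw [zpow_add_one]; rfl
    rw [e]
    exact (f ^ j).strictMono ht
  let κ : Gm T := ((fun k : ℕ => (f ^ (-(k:ℤ))) t : ℕ → T) : Gm T)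
  have hκ : ∀ j : ℤ, (F ^ j) κ = ((fun k : ℕ => (f ^ (j - k)) t : ℕ → T) : Gm T) := by
    intro j
    rw [hpow]
    congr 1
    funext k
    show (f ^ j * f ^ (-(k:ℤ))) t = _
    rw [← zpow_add]
    rfl
  have hmonoF : ∀ i j : ℤ, i ≤ j → (F ^ i) κ ≤ (F ^ j) κ := by
    intro i j hij
    rw [hκ, hκ, Germ.coe_le]
    exact Eventually.of_forall fun k => hstrict.monotone (by omega)
  let I : Set (Gm T) := {y | ∃ j : ℤ, (F ^ (-j)) κ ≤ y ∧ y ≤ (F ^ j) κ}
  have hIconv : ∀ x ∈ I, ∀ y ∈ I, ∀ z, x ≤ z → z ≤ y → z ∈ I := by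
    rintro x ⟨i, hi, _⟩ y ⟨j, _, hj⟩ z hxz hzy
    refine ⟨max i j, ?_, ?_⟩
    · refine le_trans (hmonoF _ _ ?_) (hi.trans hxz)
      have := le_max_left i j
      omega
    · exact (hzy.trans hj).trans (hmonoF _ _ (le_max_right _ _))
  have hFI : ∀ y, F y ∈ I ↔ y ∈ I := by
    have e1 : ∀ (j : ℤ) (y : Gm T), F ((F ^ j) y) = (F ^ (j+1)) y := by
      intro j y
      rw [add_comm, zpow_one_add]
      rfl
    intro y
    constructor
    · rintro ⟨j, h1, h2⟩
      refine ⟨j + 1, ?_, ?_⟩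
      · rw [← F.le_iff_le, e1]
        refine le_trans (hmonoF _ _ ?_) h1
        omega
      · rw [← F.le_iff_le, e1]
        refine le_trans h2 (hmonoF _ _ ?_)
        omega
    · rintro ⟨j, h1, h2⟩
      refine ⟨j + 1, ?_, ?_⟩
      · rw [← F.le_iff_le, e1] at h1
        refine le_trans (hmonoF _ _ ?_) h1
        omega
      · rw [← F.le_iff_le, e1] at h2
        exact h2
  obtain ⟨f1, f11, f12⟩ := piece F I hIconv hFI
  obtain ⟨f2, f21, f22⟩ := piece2 F I hIconv hFI
  have hFpos : ∀ y, y ≤ F y := by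
    intro y
    induction y using Germ.inductionOn with
    | _ y =>
      rw [hF, star_coe, Germ.coe_le]
      exact Eventually.of_forall fun k => hpos _
  have hFbd : BdIn (cst t1) (cst t2) F := star_bd hbd
  have hκI : κ ∈ I := ⟨0, by simp, by simp⟩
  have hκm : F κ ≠ κ := by
    intro h
    have h1 : (F ^ (1:ℤ)) κ = κ := by rw [zpow_one]; exact h
    rw [hκ] at h1
    have h2 := Germ.coe_eq.mp h1
    obtain ⟨k, hk⟩ := h2.exists
    have h3 : (f ^ ((1:ℤ) - k)) t = (f ^ (-(k:ℤ))) t := hk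
    have := hstrict.injective h3
    omega
  have htI : cst t ∉ I := by
    rintro ⟨j, _, h⟩
    rw [hκ] at h
    have h2 := Germ.coe_le.mp h
    have h3 : ∀ᶠ k : ℕ in (UU : Filter ℕ), j < k := by
      have h4 : ∀ᶠ k : ℕ in atTop, j < (k:ℤ) := by
        filter_upwards [eventually_ge_atTop (j.toNat + 1)] with k hk
        omega
      have h5 : (UU : Filter ℕ) ≤ atTop := Nat.hyperfilter_le_atTop
      exact h5 h4
    obtain ⟨k, hk1, hk2⟩ := (h2.and h3).exists
    have hk1' : t ≤ (f ^ (j - (k:ℤ))) t := hk1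
    have h6 : (f ^ (j - (k:ℤ))) t < (f ^ (0:ℤ)) t := hstrict (by omega)
    rw [zpow_zero] at h6
    exact absurd hk1' (not_le.mpr h6)
  refine ⟨f1, f2, ⟨cst t1, cst t2, ?_⟩, ⟨cst t1, cst t2, ?_⟩, ?_, ?_, ?_, ?_⟩
  · intro s hs
    by_cases h : s ∈ I
    · rw [f11 s h]; exact hFbd s hs
    · exact f12 s h
  · intro s hs
    by_cases h : s ∈ I
    · exact f21 s h
    · rw [f22 s h]; exact hFbd s hs
  · intro h
    apply hκm
    rw [← f11 κ hκI, h]
    rfl
  · intro h
    have h1 := f22 _ htI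
    rw [h] at h1
    have h2 : cst t = F (cst t) := h1
    rw [hF, star_cst] at h2
    have h3 : cst (f t) ≤ cst t := by rw [← h2]
    rw [cst_le] at h3
    exact absurd ht (not_lt.mpr h3)
  · intro y
    by_cases h : y ∈ I
    · rw [f11 y h, f21 y h]
      exact min_eq_right (hFpos y)
    · rw [f12 y h, f22 y h]
      exact min_eq_left (hFpos y)
  · intro y
    by_cases h : y ∈ I
    · rw [f11 y h, f21 y h]
      exact max_eq_left (hFpos y)
    · rw [f12 y h, f22 y h]
      exact max_eq_right (hFpos y)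

end

theorem twoTrans_real : TwoTrans ℝ := by
  intro r1 r2 s1 s2 h1 h2
  obtain ⟨h, hh, e1, e2⟩ := Pool.Agent.H27.PO.trans2 h1 h2
  obtain ⟨_, a, b, hab⟩ := hh
  exact ⟨h, ⟨a, b, fun s hs => hab s (hs.imp le_of_lt le_of_lt)⟩, e1, e2⟩

end Pool.Agent.H27.LP
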