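import Mathlib
import Pool.Agent.H27.LP1

/-! Direct limit for MP_31a5b6_al. -/

namespace Pool.Agent.H27.LP

open Filter Set

noncomputable section

/-- bundled chains -/
structure Ch where
  α : Type
  lo : LinearOrder α

def C : ℕ → Ch
  | 0 => ⟨ℝ, inferInstance⟩
  | n+1 => letI := (C n).lo; ⟨Gm (C n).α, inferInstance⟩

instance instC (n : ℕ) : LinearOrder (C n).α := (C n).lo

theorem ttC (n : ℕ) : TwoTrans (C n).α := by
  induction n with
  | zero => exact twoTrans_real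
  | succ n ih => exact twoTrans_star ih

def ioC (n : ℕ) : (C n).α → (C (n+1)).α := fun x => (cst x : Gm (C n).α)

theorem ioC_le (n : ℕ) (x y : (C n).α) : ioC n x ≤ ioC n y ↔ x ≤ y := cst_le x y

def stC (n : ℕ) (f : (C n).α ≃o (C n).α) : (C (n+1)).α ≃o (C (n+1)).α :=
  (star f : Gm (C n).α ≃o Gm (C n).α)

abbrev A (n : ℕ) : Type := (C n).α

/-- iterated inclusion -/
def up {n m : ℕ} (h : n ≤ m) : A n → A m := Nat.leRecOn h (fun {k} => ioC k)

def sts {n m : ℕ} (h : n ≤ m) : (A n ≃o A n) → (A m ≃o A m) :=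
  Nat.leRecOn (C := fun k => (A k ≃o A k)) h (fun {k} => stC k)

theorem up_self {n : ℕ} (x : A n) : up (le_refl n) x = x := Nat.leRecOn_self x
theorem up_succ {n m : ℕ} (h : n ≤ m) (h2 : n ≤ m+1) (x : A n) : up h2 x = ioC m (up h x) :=
  Nat.leRecOn_succ h x
theorem up_trans {n m k : ℕ} (h : n ≤ m) (h2 : m ≤ k) (x : A n) :
    up (h.trans h2) x = up h2 (up h x) := Nat.leRecOn_trans h h2 x

theorem sts_self {n : ℕ} (x : A n ≃o A n) : sts (le_refl n) x = x :=
  Nat.leRecOn_self (C := fun k => (A k ≃o A k)) x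
theorem sts_succ {n m : ℕ} (h : n ≤ m) (h2 : n ≤ m+1) (x : A n ≃o A n) :
    sts h2 x = stC m (sts h x) :=
  Nat.leRecOn_succ (C := fun k => (A k ≃o A k)) h x
theorem sts_trans {n m k : ℕ} (h : n ≤ m) (h2 : m ≤ k) (x : A n ≃o A n) :
    sts (h.trans h2) x = sts h2 (sts h x) :=
  Nat.leRecOn_trans (C := fun k => (A k ≃o A k)) h h2 x

theorem up_le {n m : ℕ} (h : n ≤ m) (x y : A n) : up h x ≤ up h y ↔ x ≤ y := by
  induction m, h using Nat.le_induction with
  | base => rw [up_self, up_self]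
  | succ m h ih => rw [up_succ h, up_succ h, ioC_le, ih]

theorem up_inj {n m : ℕ} (h : n ≤ m) {x y : A n} (hxy : up h x = up h y) : x = y :=
  le_antisymm ((up_le h x y).mp hxy.le) ((up_le h y x).mp hxy.ge)

theorem up_max {n m : ℕ} (h : n ≤ m) (x y : A n) : up h (max x y) = max (up h x) (up h y) := by
  rcases le_total x y with h1 | h1
  · rw [max_eq_right h1, max_eq_right ((up_le h x y).mpr h1)]
  · rw [max_eq_left h1, max_eq_left ((up_le h y x).mpr h1)]

theorem sts_up {n m : ℕ} (h : n ≤ m) (f : A n ≃o A n) (x : A n) :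
    sts h f (up h x) = up h (f x) := by
  induction m, h using Nat.le_induction with
  | base => rw [up_self, up_self, sts_self]
  | succ m h ih =>
    rw [up_succ h, up_succ h, sts_succ h, ← ih]
    rfl

theorem sts_mul {n m : ℕ} (h : n ≤ m) (f g : A n ≃o A n) : sts h (f * g) = sts h f * sts h g := by
  induction m, h using Nat.le_induction with
  | base => rw [sts_self, sts_self, sts_self]
  | succ m h ih =>
    rw [sts_succ h, sts_succ h, sts_succ h, ih]
    exact star_mul _ _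

theorem sts_max {n m : ℕ} (h : n ≤ m) {f g k : A n ≃o A n} (hk : ∀ t, k t = max (f t) (g t)) :
    ∀ x, sts h k x = max (sts h f x) (sts h g x) := by
  induction m, h using Nat.le_induction with
  | base =>
    intro x
    rw [sts_self, sts_self, sts_self]
    exact hk x
  | succ m h ih =>
    intro x
    rw [sts_succ h, sts_succ h, sts_succ h]
    exact star_max ih x

theorem sts_min {n m : ℕ} (h : n ≤ m) {f g k : A n ≃o A n} (hk : ∀ t, k t = min (f t) (g t)) :
    ∀ x, sts h k x = min (sts h f x) (sts h g x) := by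
  induction m, h using Nat.le_induction with
  | base =>
    intro x
    rw [sts_self, sts_self, sts_self]
    exact hk x
  | succ m h ih =>
    intro x
    rw [sts_succ h, sts_succ h, sts_succ h]
    exact star_min ih x

theorem sts_bd {n m : ℕ} (h : n ≤ m) {f : A n ≃o A n} {a b : A n} (hf : BdIn a b f) :
    BdIn (up h a) (up h b) (sts h f) := by
  induction m, h using Nat.le_induction with
  | base => rw [up_self, up_self, sts_self]; exact hf
  | succ m h ih =>
    rw [up_succ h, up_succ h, sts_succ h]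
    exact star_bd ih

theorem sts_one {n m : ℕ} (h : n ≤ m) : sts h (1 : A n ≃o A n) = 1 := by
  have h1 := sts_mul h (1 : A n ≃o A n) 1
  rw [one_mul] at h1
  exact (mul_eq_left.mp h1.symm)

/-- the direct limit -/
def stoid : Setoid (Σ n, A n) where
  r x y := ∃ k, ∃ hx : x.1 ≤ k, ∃ hy : y.1 ≤ k, up hx x.2 = up hy y.2
  iseqv := by
    refine ⟨fun x => ⟨x.1, le_rfl, le_rfl, rfl⟩, ?_, ?_⟩
    · rintro x y ⟨k, hx, hy, h⟩
      exact ⟨k, hy, hx, h.symm⟩
    · rintro x y z ⟨k, hx, hy, h⟩ ⟨l, hy', hz, h'⟩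
      refine ⟨max k l, hx.trans (le_max_left _ _), hz.trans (le_max_right _ _), ?_⟩
      rw [up_trans hx (le_max_left k l), up_trans hz (le_max_right k l), h, ← h',
        ← up_trans, ← up_trans]

def TI : Type := Quotient stoid

def mk (n : ℕ) (x : A n) : TI := Quotient.mk stoid ⟨n, x⟩

theorem mk_up {n m : ℕ} (h : n ≤ m) (x : A n) : mk m (up h x) = mk n x :=
  Quotient.sound ⟨m, le_rfl, h, by rw [up_self]⟩

theorem mk_eq {n : ℕ} {x y : A n} (h : mk n x = mk n y) : x = y := by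
  obtain ⟨k, hx, hy, h⟩ := Quotient.exact h
  exact up_inj hx h

theorem mk_cases (a : TI) : ∃ n x, a = mk n x := by
  induction a using Quotient.inductionOn with
  | h a => exact ⟨a.1, a.2, rfl⟩

theorem mk_ge (a : TI) (m : ℕ) : ∃ n, m ≤ n ∧ ∃ x, a = mk n x := by
  obtain ⟨n, x, rfl⟩ := mk_cases a
  exact ⟨max n m, le_max_right _ _, up (le_max_left _ _) x, (mk_up _ _).symm⟩

theorem mk3 (a b c : TI) (m : ℕ) : ∃ n, m ≤ n ∧ ∃ x y z, a = mk n x ∧ b = mk n y ∧ c = mk n z := by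
  obtain ⟨n1, h1, x, rfl⟩ := mk_ge a m
  obtain ⟨n2, h2, y, rfl⟩ := mk_ge b n1
  obtain ⟨n3, h3, z, rfl⟩ := mk_ge c n2
  exact ⟨n3, h1.trans (h2.trans h3), up (h2.trans h3) x, up h3 y, z, (mk_up _ _).symm,
    (mk_up _ _).symm, rfl⟩

def leTI (a b : TI) : Prop := ∃ n x y, a = mk n x ∧ b = mk n y ∧ x ≤ y

theorem leTI_mk {n : ℕ} (x y : A n) : leTI (mk n x) (mk n y) ↔ x ≤ y := by
  constructor
  · rintro ⟨m, u, v, h1, h2, h3⟩
    have e1 : mk (max n m) (up (le_max_left _ _) x) = mk (max n m) (up (le_max_right _ _) u) := by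
      rw [mk_up, mk_up, h1]
    have e2 : mk (max n m) (up (le_max_left _ _) y) = mk (max n m) (up (le_max_right _ _) v) := by
      rw [mk_up, mk_up, h2]
    rw [← up_le (le_max_left n m), mk_eq e1, mk_eq e2, up_le]
    exact h3
  · intro h
    exact ⟨n, x, y, rfl, rfl, h⟩

instance : LinearOrder TI where
  le := leTI
  le_refl a := by
    obtain ⟨n, x, rfl⟩ := mk_cases a
    exact (leTI_mk x x).mpr le_rfl
  le_trans a b c hab hbc := by
    obtain ⟨n, _, x, y, z, rfl, rfl, rfl⟩ := mk3 a b c 0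
    exact (leTI_mk x z).mpr (((leTI_mk x y).mp hab).trans ((leTI_mk y z).mp hbc))
  le_antisymm a b hab hba := by
    obtain ⟨n, _, x, y, _, rfl, rfl, _⟩ := mk3 a b a 0
    rw [le_antisymm ((leTI_mk x y).mp hab) ((leTI_mk y x).mp hba)]
  le_total a b := by
    obtain ⟨n, _, x, y, _, rfl, rfl, _⟩ := mk3 a b a 0
    rcases le_total x y with h | h
    · exact Or.inl ((leTI_mk x y).mpr h)
    · exact Or.inr ((leTI_mk y x).mpr h)
  toDecidableLE := Classical.decRel _

theorem mk_le {n : ℕ} (x y : A n) : mk n x ≤ mk n y ↔ x ≤ y := leTI_mk x y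

theorem mk_lt {n : ℕ} (x y : A n) : mk n x < mk n y ↔ x < y := by
  rw [← not_le, ← not_le, mk_le]

theorem mk_max {n : ℕ} (x y : A n) : max (mk n x) (mk n y) = mk n (max x y) := by
  rcases le_total x y with h | h
  · rw [max_eq_right h, max_eq_right ((mk_le x y).mpr h)]
  · rw [max_eq_left h, max_eq_left ((mk_le y x).mpr h)]

theorem mk_min {n : ℕ} (x y : A n) : min (mk n x) (mk n y) = mk n (min x y) := by
  rcases le_total x y with h | h
  · rw [min_eq_left h, min_eq_left ((mk_le x y).mpr h)]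
  · rw [min_eq_right h, min_eq_right ((mk_le y x).mpr h)]

/-- action on the limit -/
def act0 (n : ℕ) (f : A n ≃o A n) (p : Σ m, A m) : TI :=
  mk (max n p.1) (sts (le_max_left _ _) f (up (le_max_right _ _) p.2))

theorem act0_eq (n : ℕ) (f : A n ≃o A n) (m : ℕ) (x : A m) (k : ℕ) (hn : n ≤ k) (hm : m ≤ k) :
    act0 n f ⟨m, x⟩ = mk k (sts hn f (up hm x)) := by
  have hk : max n m ≤ k := max_le hn hm
  show mk (max n m) (sts (le_max_left _ _) f (up (le_max_right _ _) x)) = _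
  rw [← mk_up hk, ← sts_up hk, ← sts_trans, ← up_trans]

def act (n : ℕ) (f : A n ≃o A n) : TI → TI :=
  Quotient.lift (act0 n f) (by
    rintro ⟨m, x⟩ ⟨m', x'⟩ ⟨k, hx, hy, h⟩
    have h1 : m ≤ k := hx
    have h2 : m' ≤ k := hy
    rw [act0_eq n f m x (max n k) (le_max_left _ _) (h1.trans (le_max_right _ _)),
      act0_eq n f m' x' (max n k) (le_max_left _ _) (h2.trans (le_max_right _ _)),
      up_trans h1 (le_max_right n k), up_trans h2 (le_max_right n k)]
    have h' : up h1 x = up h2 x' := h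
    rw [h'])

theorem act_mk (n : ℕ) (f : A n ≃o A n) (k : ℕ) (hn : n ≤ k) (x : A k) :
    act n f (mk k x) = mk k (sts hn f x) := by
  have := act0_eq n f k x k hn le_rfl
  rw [up_self] at this
  exact this

theorem act_mul (n : ℕ) (f g : A n ≃o A n) (a : TI) : act n (f * g) a = act n f (act n g a) := by
  obtain ⟨k, hk, x, rfl⟩ := mk_ge a n
  rw [act_mk n g k hk, act_mk n f k hk, act_mk n (f * g) k hk, sts_mul]
  rfl

theorem act_one (n : ℕ) (a : TI) : act n 1 a = a := by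
  obtain ⟨k, hk, x, rfl⟩ := mk_ge a n
  rw [act_mk n 1 k hk, sts_one]
  rfl

theorem act_le (n : ℕ) (f : A n ≃o A n) (a b : TI) : act n f a ≤ act n f b ↔ a ≤ b := by
  obtain ⟨k, hk, x, y, _, rfl, rfl, _⟩ := mk3 a b a n
  rw [act_mk n f k hk, act_mk n f k hk, mk_le, mk_le]
  exact (sts hk f).le_iff_le

def Act (n : ℕ) (f : A n ≃o A n) : TI ≃o TI where
  toFun := act n f
  invFun := act n f⁻¹
  left_inv a := by rw [← act_mul, inv_mul_cancel, act_one]
  right_inv a := by rw [← act_mul, mul_inv_cancel, act_one]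
  map_rel_iff' := by
    intro a b
    exact act_le n f a b

theorem Act_ap (n : ℕ) (f : A n ≃o A n) (a : TI) : Act n f a = act n f a := rfl

theorem Act_mk (n : ℕ) (f : A n ≃o A n) (k : ℕ) (hn : n ≤ k) (x : A k) :
    Act n f (mk k x) = mk k (sts hn f x) := act_mk n f k hn x

theorem Act_mul (n : ℕ) (f g : A n ≃o A n) : Act n (f * g) = Act n f * Act n g :=
  RelIso.ext fun a => act_mul n f g a

theorem Act_one (n : ℕ) : Act n 1 = 1 := RelIso.ext fun a => act_one n a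

theorem Act_inv (n : ℕ) (f : A n ≃o A n) : Act n f⁻¹ = (Act n f)⁻¹ := by
  rw [eq_inv_iff_mul_eq_one, ← Act_mul, inv_mul_cancel, Act_one]

theorem Act_sts (n m : ℕ) (h : n ≤ m) (f : A n ≃o A n) : Act m (sts h f) = Act n f := by
  apply RelIso.ext
  intro a
  obtain ⟨k, hk, x, rfl⟩ := mk_ge a m
  rw [Act_mk m _ k hk, Act_mk n _ k (h.trans hk), ← sts_trans]

theorem Act_inj (n : ℕ) {f g : A n ≃o A n} (h : Act n f = Act n g) : f = g := by
  apply RelIso.ext
  intro x
  have h1 : Act n f (mk n x) = Act n g (mk n x) := by rw [h]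
  rw [Act_mk n f n le_rfl, Act_mk n g n le_rfl, sts_self, sts_self] at h1
  exact mk_eq h1

theorem bdd_sts {n m : ℕ} (h : n ≤ m) {f : A n ≃o A n} (hf : Bdd f) : Bdd (sts h f) := by
  obtain ⟨a, b, hab⟩ := hf
  exact ⟨_, _, sts_bd h hab⟩

theorem bdd_mul {T : Type} [LinearOrder T] {f g : T ≃o T} (hf : Bdd f) (hg : Bdd g) :
    Bdd (f * g) := by
  obtain ⟨a, b, h1⟩ := hf
  obtain ⟨c, d, h2⟩ := hg
  refine ⟨min a c, max b d, ?_⟩
  intro s hs
  have hg' : g s = s := h2 s (hs.imp (fun h => lt_of_lt_of_le h (min_le_right _ _))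
    (fun h => lt_of_le_of_lt (le_max_right _ _) h))
  have hf' : f s = s := h1 s (hs.imp (fun h => lt_of_lt_of_le h (min_le_left _ _))
    (fun h => lt_of_le_of_lt (le_max_left _ _) h))
  show f (g s) = s
  rw [hg', hf']

theorem bdd_inv {T : Type} [LinearOrder T] {f : T ≃o T} (hf : Bdd f) : Bdd f⁻¹ := by
  obtain ⟨a, b, h1⟩ := hf
  refine ⟨a, b, ?_⟩
  intro s hs
  have := h1 s hs
  calc f⁻¹ s = f⁻¹ (f s) := by rw [this]
    _ = s := RelIso.inv_apply_self f s

theorem common (n m : ℕ) (f : A n ≃o A n) (g : A m ≃o A m) (hf : Bdd f) (hg : Bdd g) :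
    ∃ k, ∃ f' g' : A k ≃o A k, Bdd f' ∧ Bdd g' ∧ Act n f = Act k f' ∧ Act m g = Act k g' :=
  ⟨max n m, sts (le_max_left _ _) f, sts (le_max_right _ _) g, bdd_sts _ hf, bdd_sts _ hg,
    (Act_sts _ _ _ _).symm, (Act_sts _ _ _ _).symm⟩

/-- the group -/
def LI : Subgroup (TI ≃o TI) where
  carrier := {φ | ∃ n, ∃ f : A n ≃o A n, Bdd f ∧ φ = Act n f}
  one_mem' := ⟨0, 1, ⟨(0:ℝ), (0:ℝ), fun _ _ => rfl⟩, (Act_one 0).symm⟩
  mul_mem' := by
    rintro φ ψ ⟨n, f, hf, rfl⟩ ⟨m, g, hg, rfl⟩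
    obtain ⟨k, f', g', hf', hg', e1, e2⟩ := common n m f g hf hg
    exact ⟨k, f' * g', bdd_mul hf' hg', by rw [e1, e2, Act_mul]⟩
  inv_mem' := by
    rintro φ ⟨n, f, hf, rfl⟩
    exact ⟨n, f⁻¹, bdd_inv hf, (Act_inv n f).symm⟩

theorem Act_max (n : ℕ) {f g k : A n ≃o A n} (hk : ∀ t, k t = max (f t) (g t)) (a : TI) :
    Act n k a = max (Act n f a) (Act n g a) := by
  obtain ⟨m, hm, x, rfl⟩ := mk_ge a n
  rw [Act_mk n k m hm, Act_mk n f m hm, Act_mk n g m hm, mk_max, sts_max hm hk]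

theorem Act_min (n : ℕ) {f g k : A n ≃o A n} (hk : ∀ t, k t = min (f t) (g t)) (a : TI) :
    Act n k a = min (Act n f a) (Act n g a) := by
  obtain ⟨m, hm, x, rfl⟩ := mk_ge a n
  rw [Act_mk n k m hm, Act_mk n f m hm, Act_mk n g m hm, mk_min, sts_min hm hk]

/-- pointwise max of two automorphisms of a chain is an automorphism -/
theorem exists_max {T : Type} [LinearOrder T] (f g : T ≃o T) :
    ∃ k : T ≃o T, ∀ t, k t = max (f t) (g t) := by
  have hmono : StrictMono (fun t => max (f t) (g t)) := by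
    intro x y hxy
    exact max_lt_max (f.strictMono hxy) (g.strictMono hxy)
  have hsurj : Function.Surjective (fun t => max (f t) (g t)) := by
    intro y
    refine ⟨min (f.symm y) (g.symm y), ?_⟩
    rcases le_total (f.symm y) (g.symm y) with h | h
    · simp only [min_eq_left h, OrderIso.apply_symm_apply]
      apply max_eq_left
      have := g.monotone h
      simpa using this
    · simp only [min_eq_right h, OrderIso.apply_symm_apply]
      apply max_eq_right
      have := f.monotone h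
      simpa using this
  exact ⟨hmono.orderIsoOfSurjective _ hsurj, fun t => rfl⟩

theorem exists_min {T : Type} [LinearOrder T] (f g : T ≃o T) :
    ∃ k : T ≃o T, ∀ t, k t = min (f t) (g t) := by
  have hmono : StrictMono (fun t => min (f t) (g t)) := by
    intro x y hxy
    exact min_lt_min (f.strictMono hxy) (g.strictMono hxy)
  have hsurj : Function.Surjective (fun t => min (f t) (g t)) := by
    intro y
    refine ⟨max (f.symm y) (g.symm y), ?_⟩
    rcases le_total (f.symm y) (g.symm y) with h | h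
    · simp only [max_eq_right h, OrderIso.apply_symm_apply]
      apply min_eq_right
      have := f.monotone h
      simpa using this
    · simp only [max_eq_left h, OrderIso.apply_symm_apply]
      apply min_eq_left
      have := g.monotone h
      simpa using this
  exact ⟨hmono.orderIsoOfSurjective _ hsurj, fun t => rfl⟩

theorem LI_max (φ ψ : TI ≃o TI) (h1 : φ ∈ LI) (h2 : ψ ∈ LI) :
    ∃ χ ∈ LI, ∀ t, χ t = max (φ t) (ψ t) := by
  obtain ⟨n, f, hf, rfl⟩ := h1
  obtain ⟨m, g, hg, rfl⟩ := h2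
  obtain ⟨k, f', g', hf', hg', e1, e2⟩ := common n m f g hf hg
  obtain ⟨u, hu⟩ := exists_max f' g'
  obtain ⟨a, b, hab⟩ := hf'
  obtain ⟨c, d, hcd⟩ := hg'
  refine ⟨Act k u, ⟨k, u, ⟨min a c, max b d, ?_⟩, rfl⟩, ?_⟩
  · intro s hs
    have hg' : g' s = s := hcd s (hs.imp (fun h => lt_of_lt_of_le h (min_le_right _ _))
      (fun h => lt_of_le_of_lt (le_max_right _ _) h))
    have hf' : f' s = s := hab s (hs.imp (fun h => lt_of_lt_of_le h (min_le_left _ _))
      (fun h => lt_of_le_of_lt (le_max_left _ _) h))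
    rw [hu, hg', hf', max_self]
  · intro t
    rw [e1, e2]
    exact Act_max k hu t

theorem LI_min (φ ψ : TI ≃o TI) (h1 : φ ∈ LI) (h2 : ψ ∈ LI) :
    ∃ χ ∈ LI, ∀ t, χ t = min (φ t) (ψ t) := by
  obtain ⟨n, f, hf, rfl⟩ := h1
  obtain ⟨m, g, hg, rfl⟩ := h2
  obtain ⟨k, f', g', hf', hg', e1, e2⟩ := common n m f g hf hg
  obtain ⟨u, hu⟩ := exists_min f' g'
  obtain ⟨a, b, hab⟩ := hf'
  obtain ⟨c, d, hcd⟩ := hg'
  refine ⟨Act k u, ⟨k, u, ⟨min a c, max b d, ?_⟩, rfl⟩, ?_⟩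
  · intro s hs
    have hg' : g' s = s := hcd s (hs.imp (fun h => lt_of_lt_of_le h (min_le_right _ _))
      (fun h => lt_of_le_of_lt (le_max_right _ _) h))
    have hf' : f' s = s := hab s (hs.imp (fun h => lt_of_lt_of_le h (min_le_left _ _))
      (fun h => lt_of_le_of_lt (le_max_left _ _) h))
    rw [hu, hg', hf', min_self]
  · intro t
    rw [e1, e2]
    exact Act_min k hu t

theorem LI_two : ∀ r1 r2 s1 s2 : TI, r1 < r2 → s1 < s2 → ∃ f ∈ LI, f r1 = s1 ∧ f r2 = s2 := by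
  intro r1 r2 s1 s2 h1 h2
  obtain ⟨n, _, x1, x2, y1, rfl, rfl, rfl⟩ := mk3 r1 r2 s1 0
  obtain ⟨m, hm, y2, rfl⟩ := mk_ge s2 n
  rw [← mk_up hm x1, ← mk_up hm x2] at h1
  rw [← mk_up hm y1] at h2
  obtain ⟨f, hf, e1, e2⟩ := ttC m _ _ _ _ ((mk_lt _ _).mp h1) ((mk_lt _ _).mp h2)
  refine ⟨Act m f, ⟨m, f, hf, rfl⟩, ?_, ?_⟩
  · rw [← mk_up hm x1, Act_mk m f m le_rfl, sts_self, e1, mk_up]
  · rw [← mk_up hm x2, Act_mk m f m le_rfl, sts_self, e2]

theorem LI_bdd (φ : TI ≃o TI) (h : φ ∈ LI) : ∃ t1 t2 : TI, ∀ s, (s < t1 ∨ t2 < s) → φ s = s := by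
  obtain ⟨n, f, ⟨a, b, hab⟩, rfl⟩ := h
  refine ⟨mk n a, mk n b, ?_⟩
  intro s hs
  obtain ⟨m, hm, x, rfl⟩ := mk_ge s n
  rw [← mk_up hm a, ← mk_up hm b, mk_lt, mk_lt] at hs
  rw [Act_mk n f m hm, sts_bd hm hab x hs]

theorem LI_split (φ : TI ≃o TI) (h : φ ∈ LI) (hpos : ∀ t, t ≤ φ t) (hne : φ ≠ 1) :
    ∃ f1 ∈ LI, ∃ f2 ∈ LI, f1 ≠ 1 ∧ f2 ≠ 1 ∧ (∀ t, min (f1 t) (f2 t) = t) ∧
      (∀ t, max (f1 t) (f2 t) = φ t) := by
  obtain ⟨n, f, hf, rfl⟩ := h
  have hpos' : ∀ t, t ≤ f t := by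
    intro t
    have := hpos (mk n t)
    rw [Act_mk n f n le_rfl, sts_self, mk_le] at this
    exact this
  have hne' : f ≠ 1 := by
    rintro rfl
    exact hne (Act_one n)
  obtain ⟨f1, f2, hb1, hb2, hn1, hn2, hmin, hmax⟩ :=
    (split_star (T := (C n).α) hf hpos' hne' : ∃ f1 f2 : A (n+1) ≃o A (n+1), Bdd f1 ∧ Bdd f2 ∧
      Split (stC n f) f1 f2)
  have hAct : Act n f = Act (n+1) (stC n f) := by
    rw [← Act_sts n (n+1) (Nat.le_succ n) f, sts_succ le_rfl, sts_self]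
  refine ⟨Act (n+1) f1, ⟨n+1, f1, hb1, rfl⟩, Act (n+1) f2, ⟨n+1, f2, hb2, rfl⟩, ?_, ?_, ?_, ?_⟩
  · intro h
    rw [← Act_one (n+1)] at h
    exact hn1 (Act_inj _ h)
  · intro h
    rw [← Act_one (n+1)] at h
    exact hn2 (Act_inj _ h)
  · intro t
    have hk : ∀ s, (1 : A (n+1) ≃o A (n+1)) s = min (f1 s) (f2 s) := fun s => (hmin s).symm
    have := Act_min (n+1) hk t
    rw [Act_one] at this
    exact this.symm
  · intro t
    have hk : ∀ s, (stC n f) s = max (f1 s) (f2 s) := fun s => (hmax s).symm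
    have := Act_max (n+1) hk t
    rw [hAct, this]

theorem TI_three : ∃ x y z : TI, x < y ∧ y < z := by
  refine ⟨mk 0 (0:ℝ), mk 0 (1:ℝ), mk 0 (2:ℝ), ?_, ?_⟩
  · rw [mk_lt]
    exact (by norm_num : (0:ℝ) < 1)
  · rw [mk_lt]
    exact (by norm_num : (1:ℝ) < 2)

end

end Pool.Agent.H27.LP
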