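import Pool.Agent.H27.LaminarDefs

namespace Pool.Agent.H27.Laminar

open Real

/-! ### Group theory -/

lemma group_lemma {Γ : Type*} [Group Γ] (f g h : Γ)
    (hc : ∀ k : ℕ, 1 ≤ k → Commute g (f ^ k * h * (f ^ k)⁻¹)) (Q : Type) [Group Q] [Finite Q]
    (φ : Γ →* Q) : φ (g * h * g⁻¹ * h⁻¹) = 1 := by
  have hk : 1 ≤ orderOf (φ f) := orderOf_pos _
  have h1 := hc _ hk
  have h2 : Commute (φ g) (φ (f ^ (orderOf (φ f)) * h * (f ^ (orderOf (φ f)))⁻¹)) := h1.map φ
  have h3 : φ (f ^ (orderOf (φ f)) * h * (f ^ (orderOf (φ f)))⁻¹) = φ h := by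
    rw [map_mul, map_mul, map_inv, map_pow, pow_orderOf_eq_one]; simp
  rw [h3] at h2
  rw [map_mul, map_mul, map_mul, map_inv, map_inv, h2.eq]
  group

/-! ### Bump homeomorphisms of the line -/

noncomputable def bumpFun (α β x : ℝ) : ℝ := max x (min (2 * x - α) ((x + β) / 2))

noncomputable def bumpInv (α β y : ℝ) : ℝ := min y (max ((y + α) / 2) (2 * y - β))

lemma bump_left (α β x : ℝ) (h : α < β) : bumpInv α β (bumpFun α β x) = x := by
  unfold bumpInv bumpFun
  rcases le_total (2 * x - α) ((x + β) / 2) with h1 | h1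
  · rw [min_eq_left h1]
    rcases le_total x (2 * x - α) with h2 | h2
    · rw [max_eq_right h2, max_eq_left (by linarith), min_eq_right (by linarith)]; ring
    · rw [max_eq_left h2]
      apply min_eq_left
      apply le_max_of_le_left; linarith
  · rw [min_eq_right h1]
    rcases le_total x ((x + β) / 2) with h2 | h2
    · rw [max_eq_right h2, max_eq_right (by linarith), min_eq_right (by linarith)]; ring
    · rw [max_eq_left h2]
      apply min_eq_left
      apply le_max_of_le_right; linarith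

lemma bump_right (α β y : ℝ) (h : α < β) : bumpFun α β (bumpInv α β y) = y := by
  unfold bumpInv bumpFun
  rcases le_total ((y + α) / 2) (2 * y - β) with h1 | h1
  · rw [max_eq_right h1]
    rcases le_total y (2 * y - β) with h2 | h2
    · rw [min_eq_left h2]
      apply max_eq_left
      apply min_le_of_right_le; linarith
    · rw [min_eq_right h2, min_eq_right (by linarith), max_eq_right (by linarith)]; ring
  · rw [max_eq_left h1]
    rcases le_total y ((y + α) / 2) with h2 | h2
    · rw [min_eq_left h2]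
      apply max_eq_left
      apply min_le_of_left_le; linarith
    · rw [min_eq_right h2, min_eq_left (by linarith), max_eq_right (by linarith)]; ring

lemma bump_strictMono (α β : ℝ) : StrictMono (bumpFun α β) := by
  intro x y hxy
  unfold bumpFun
  rw [max_lt_iff]
  constructor
  · exact lt_max_of_lt_left hxy
  · apply lt_max_of_lt_right
    rw [lt_min_iff]
    constructor
    · apply min_lt_of_left_lt; linarith
    · apply min_lt_of_right_lt; linarith

noncomputable def bump (α β : ℝ) (h : α < β) : ℝ ≃o ℝ where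
  toFun := bumpFun α β
  invFun := bumpInv α β
  left_inv := fun x => bump_left α β x h
  right_inv := fun y => bump_right α β y h
  map_rel_iff' := (bump_strictMono α β).le_iff_le

lemma bump_apply (α β : ℝ) (h : α < β) (x : ℝ) :
    bump α β h x = max x (min (2 * x - α) ((x + β) / 2)) := rfl

lemma bump_fix_left (α β : ℝ) (h : α < β) (x : ℝ) (hx : x ≤ α) : bump α β h x = x := by
  rw [bump_apply]
  apply max_eq_left
  apply min_le_of_left_le; linarith

lemma bump_fix_right (α β : ℝ) (h : α < β) (x : ℝ) (hx : β ≤ x) : bump α β h x = x := by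
  rw [bump_apply]
  apply max_eq_left
  apply min_le_of_right_le; linarith

lemma le_bump (α β : ℝ) (h : α < β) (x : ℝ) : x ≤ bump α β h x := by
  rw [bump_apply]; exact le_max_left _ _

lemma comm_of_supports (a c : ℝ ≃o ℝ) (t : ℝ) (ha : ∀ x, t ≤ x → a x = x)
    (hc : ∀ x, x ≤ t → c x = x) : Commute a c := by
  show a * c = c * a
  ext x
  rw [RelIso.mul_apply, RelIso.mul_apply]
  rcases le_total x t with h | h
  · rw [hc x h]
    have h1 : a x ≤ t := by
      have := (map_le_map_iff a).mpr h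
      rwa [ha t le_rfl] at this
    rw [hc _ h1]
  · rw [ha x h]
    have h1 : t ≤ c x := by
      have := (map_le_map_iff c).mpr h
      rwa [hc t le_rfl] at this
    rw [ha _ h1]

/-- order automorphisms of the line supported in `[0, 1/2]` -/
def B : Subgroup (ℝ ≃o ℝ) where
  carrier := {b | ∀ x, x ≤ 0 ∨ 1 / 2 ≤ x → b x = x}
  one_mem' := fun x _ => rfl
  mul_mem' := by
    intro a b ha hb x hx
    rw [RelIso.mul_apply, hb x hx, ha x hx]
  inv_mem' := by
    intro a ha x hx
    have h := ha x hx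
    show a.symm x = x
    rw [OrderIso.symm_apply_eq]
    exact h.symm

/-! ### From the line to the circle -/

lemma B_mem (b : B) {x : ℝ} (hx : x ≤ 0 ∨ 1 / 2 ≤ x) : (b : ℝ ≃o ℝ) x = x := b.2 x hx

lemma B_range (b : B) {x : ℝ} (h0 : 0 ≤ x) (h1 : x < 1) :
    0 ≤ (b : ℝ ≃o ℝ) x ∧ (b : ℝ ≃o ℝ) x < 1 := by
  constructor
  · have := (map_le_map_iff (b : ℝ ≃o ℝ)).mpr h0
    rwa [B_mem b (Or.inl le_rfl)] at this
  · have := (map_lt_map_iff (b : ℝ ≃o ℝ)).mpr h1
    have e : (b : ℝ ≃o ℝ) 1 = 1 := B_mem b (Or.inr (by norm_num))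
    rwa [e] at this

noncomputable def perFun (b : B) (x : ℝ) : ℝ := (b : ℝ ≃o ℝ) (Int.fract x) + ⌊x⌋

lemma perFun_strictMono (b : B) : StrictMono (perFun b) := by
  intro x y hxy
  unfold perFun
  have hx := B_range b (Int.fract_nonneg x) (Int.fract_lt_one x)
  have hy := B_range b (Int.fract_nonneg y) (Int.fract_lt_one y)
  rcases eq_or_lt_of_le (Int.floor_le_floor hxy.le) with h | h
  · rw [h]
    have h2 : Int.fract x < Int.fract y := by
      unfold Int.fract; rw [h]; linarith
    have := (map_lt_map_iff (b : ℝ ≃o ℝ)).mpr h2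
    linarith
  · have h2 : (⌊x⌋ : ℝ) + 1 ≤ ⌊y⌋ := by exact_mod_cast h
    linarith

lemma perFun_surj (b : B) : Function.Surjective (perFun b) := by
  intro y
  have h0 := Int.fract_nonneg y
  have h1 := Int.fract_lt_one y
  have hr := B_range b⁻¹ h0 h1
  refine ⟨((b⁻¹ : B) : ℝ ≃o ℝ) (Int.fract y) + ⌊y⌋, ?_⟩
  unfold perFun
  rw [Int.fract_add_intCast, Int.floor_add_intCast, Int.fract_eq_self.mpr hr,
    Int.floor_eq_zero_iff.mpr hr]
  have : (b : ℝ ≃o ℝ) (((b⁻¹ : B) : ℝ ≃o ℝ) (Int.fract y)) = Int.fract y := by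
    rw [← RelIso.mul_apply]
    have : ((b : ℝ ≃o ℝ) * ((b⁻¹ : B) : ℝ ≃o ℝ)) = 1 := by
      rw [← Subgroup.coe_mul, mul_inv_cancel]; rfl
    rw [this]; rfl
  rw [this]
  push_cast
  have := Int.fract_add_floor y
  linarith

noncomputable def per (b : B) : ℝ ≃o ℝ :=
  StrictMono.orderIsoOfSurjective _ (perFun_strictMono b) (perFun_surj b)

lemma per_apply (b : B) (x : ℝ) : per b x = (b : ℝ ≃o ℝ) (Int.fract x) + ⌊x⌋ := rfl

lemma per_add_one (b : B) (x : ℝ) : per b (x + 1) = per b x + 1 := by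
  rw [per_apply, per_apply, Int.fract_add_one, Int.floor_add_one]
  push_cast; ring

noncomputable def p (x : ℝ) : Circle := Circle.exp (2 * π * x)

lemma p_eq_iff (x y : ℝ) : p x = p y ↔ ∃ m : ℤ, x = y + m := by
  unfold p
  rw [Circle.exp_eq_exp]
  constructor
  · rintro ⟨m, hm⟩
    refine ⟨m, ?_⟩
    have : 2 * π * x = 2 * π * (y + m) := by rw [hm]; ring
    exact mul_left_cancel₀ (by positivity) this
  · rintro ⟨m, hm⟩
    exact ⟨m, by rw [hm]; ring⟩

lemma p_surj (z : Circle) : ∃ x : ℝ, 0 ≤ x ∧ x < 1 ∧ p x = z := by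
  obtain ⟨t, ht⟩ := Circle.exp_surjective z
  refine ⟨Int.fract (t / (2 * π)), Int.fract_nonneg _, Int.fract_lt_one _, ?_⟩
  have : p (Int.fract (t / (2 * π))) = p (t / (2 * π)) := by
    rw [p_eq_iff]
    refine ⟨-⌊t / (2 * π)⌋, ?_⟩
    unfold Int.fract; push_cast; ring
  rw [this]
  unfold p
  rw [← ht]; congr 1; field_simp

lemma p_quot : Topology.IsQuotientMap p := by
  have h1 : Continuous p := by unfold p; fun_prop
  have h2 : IsOpenMap p := by
    have e : p = Circle.exp ∘ (fun x : ℝ => 2 * π * x) := rfl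
    rw [e]
    apply isLocalHomeomorph_circleExp.isOpenMap.comp
    exact (Homeomorph.mulLeft₀ (2 * π) (by positivity)).isOpenMap
  refine h2.isQuotientMap h1 ?_
  intro z
  obtain ⟨x, _, _, hx⟩ := p_surj z
  exact ⟨x, hx⟩

noncomputable def actFun (b : B) (z : Circle) : Circle := p (per b (Classical.choose (p_surj z)))

lemma actFun_p (b : B) (x : ℝ) : actFun b (p x) = p (per b x) := by
  unfold actFun
  obtain ⟨h0, h1, h2⟩ := Classical.choose_spec (p_surj (p x))
  set y := Classical.choose (p_surj (p x)) with hy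
  rw [p_eq_iff] at h2 ⊢
  obtain ⟨m, hm⟩ := h2
  refine ⟨m, ?_⟩
  rw [hm, per_apply, per_apply, Int.fract_add_intCast, Int.floor_add_intCast]
  push_cast; ring

lemma actFun_p' (b : B) (x : ℝ) (h0 : 0 ≤ x) (h1 : x < 1) :
    actFun b (p x) = p ((b : ℝ ≃o ℝ) x) := by
  rw [actFun_p, per_apply, Int.fract_eq_self.mpr ⟨h0, h1⟩, Int.floor_eq_zero_iff.mpr ⟨h0, h1⟩]
  simp

lemma actFun_mul (a b : B) (z : Circle) : actFun (a * b) z = actFun a (actFun b z) := by
  obtain ⟨x, h0, h1, rfl⟩ := p_surj z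
  have hr := B_range b h0 h1
  rw [actFun_p' _ _ h0 h1, actFun_p' _ _ h0 h1, actFun_p' _ _ hr.1 hr.2]
  rfl

lemma actFun_one (z : Circle) : actFun 1 z = z := by
  obtain ⟨x, h0, h1, rfl⟩ := p_surj z
  rw [actFun_p' _ _ h0 h1]; rfl

lemma actFun_cont (b : B) : Continuous (actFun b) := by
  rw [p_quot.continuous_iff]
  have : actFun b ∘ p = p ∘ per b := funext (actFun_p b)
  rw [this]
  exact p_quot.continuous.comp (per b).continuous

noncomputable def act : B →* (Circle ≃ₜ Circle) where
  toFun b :=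
    { toFun := actFun b
      invFun := actFun b⁻¹
      left_inv := fun z => by rw [← actFun_mul, inv_mul_cancel, actFun_one]
      right_inv := fun z => by rw [← actFun_mul, mul_inv_cancel, actFun_one]
      continuous_toFun := actFun_cont b
      continuous_invFun := actFun_cont b⁻¹ }
  map_one' := by ext z; exact congrArg _ (actFun_one z)
  map_mul' := fun a b => by ext z; exact congrArg _ (actFun_mul a b z)

lemma act_p' (b : B) (x : ℝ) (h0 : 0 ≤ x) (h1 : x < 1) : act b (p x) = p ((b : ℝ ≃o ℝ) x) :=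
  actFun_p' b x h0 h1

lemma act_orient (b : B) : OrientationPreserving (act b) :=
  ⟨per b, per_add_one b, fun x => actFun_p b x⟩

lemma p_im (x : ℝ) : ((p x : Circle) : ℂ).im = sin (2 * π * x) := by
  unfold p
  rw [Circle.coe_exp, Complex.exp_ofReal_mul_I_im]

lemma act_fix (b : B) (z : Circle) (hz : (z : ℂ).im ≤ 0) : act b z = z := by
  obtain ⟨x, h0, h1, rfl⟩ := p_surj z
  rw [act_p' b x h0 h1]
  rw [p_im] at hz
  have : x ≤ 0 ∨ 1 / 2 ≤ x := by
    by_contra h
    push Not at h
    have : 0 < sin (2 * π * x) := by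
      apply sin_pos_of_pos_of_lt_pi
      · have := h.1; positivity
      · have := h.2
        have := pi_pos
        nlinarith
    linarith
  rw [B_mem b this]

/-! ### The group -/

noncomputable def f0 : B := ⟨bump 0 (1 / 2) (by norm_num), by
  intro x hx
  rcases hx with hx | hx
  · exact bump_fix_left _ _ _ _ hx
  · exact bump_fix_right _ _ _ _ hx⟩

noncomputable def g0 : B := ⟨bump (1 / 6) (1 / 3) (by norm_num), by
  intro x hx
  rcases hx with hx | hx
  · exact bump_fix_left _ _ _ _ (by linarith)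
  · exact bump_fix_right _ _ _ _ (by linarith)⟩

noncomputable def h0 : B := ⟨bump (1 / 6) (1 / 4) (by norm_num), by
  intro x hx
  rcases hx with hx | hx
  · exact bump_fix_left _ _ _ _ (by linarith)
  · exact bump_fix_right _ _ _ _ (by linarith)⟩

lemma f0_pow_ge (k : ℕ) (hk : 1 ≤ k) : 1 / 3 ≤ (((f0 ^ k : B) : ℝ ≃o ℝ)) (1 / 6) := by
  induction k, hk using Nat.le_induction with
  | base =>
    rw [pow_one]
    show (1:ℝ) / 3 ≤ bump 0 (1 / 2) (by norm_num) (1 / 6)
    rw [bump_apply]
    apply le_max_of_le_right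
    rw [le_min_iff]
    constructor <;> norm_num
  | succ k hk ih =>
    rw [pow_succ']
    show (1:ℝ) / 3 ≤ (f0 : ℝ ≃o ℝ) (((f0 ^ k : B) : ℝ ≃o ℝ) (1 / 6))
    exact ih.trans (le_bump 0 (1 / 2) (by norm_num) _)

lemma comm_B (k : ℕ) (hk : 1 ≤ k) : Commute g0 (f0 ^ k * h0 * (f0 ^ k)⁻¹) := by
  have h : Commute (g0 : ℝ ≃o ℝ) ((f0 ^ k * h0 * (f0 ^ k)⁻¹ : B) : ℝ ≃o ℝ) := by
    apply comm_of_supports _ _ (1 / 3)
    · intro x hx
      exact bump_fix_right (1 / 6) (1 / 3) (by norm_num) _ hx
    · intro x hx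
      rw [Subgroup.coe_mul, Subgroup.coe_mul, RelIso.mul_apply, RelIso.mul_apply]
      set c : ℝ ≃o ℝ := ((f0 ^ k : B) : ℝ ≃o ℝ) with hc
      have e1 : (((f0 ^ k)⁻¹ : B) : ℝ ≃o ℝ) x = c.symm x := rfl
      rw [e1]
      have h1 : c.symm x ≤ 1 / 6 := by
        rw [OrderIso.symm_apply_le]
        exact hx.trans (f0_pow_ge k hk)
      have h2 : (h0 : ℝ ≃o ℝ) (c.symm x) = c.symm x :=
        bump_fix_left (1 / 6) (1 / 4) (by norm_num) _ h1
      rw [h2, OrderIso.apply_symm_apply]
  exact Subtype.ext h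

/-- the group: generated by three homeomorphisms -/
noncomputable def G : Subgroup (Circle ≃ₜ Circle) :=
  Subgroup.closure {act f0, act g0, act h0}

lemma G_fix (φ : Circle ≃ₜ Circle) (hφ : φ ∈ G) : ∀ z : Circle, (z : ℂ).im ≤ 0 → φ z = z := by
  refine Subgroup.closure_induction (p := fun φ _ => ∀ z : Circle, (z : ℂ).im ≤ 0 → φ z = z)
    ?_ ?_ ?_ ?_ hφ
  · rintro x (rfl | rfl | rfl) z hz
    · exact act_fix _ z hz
    · exact act_fix _ z hz
    · exact act_fix _ z hz
  · intro z _; rfl
  · intro x y _ _ hx hy z hz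
    rw [Homeomorph.mul_apply, hy z hz, hx z hz]
  · intro x _ hx z hz
    show x.symm z = z
    rw [Homeomorph.symm_apply_eq]
    exact (hx z hz).symm

lemma G_orient (φ : Circle ≃ₜ Circle) (hφ : φ ∈ G) : OrientationPreserving φ := by
  refine Subgroup.closure_induction (p := fun φ _ => OrientationPreserving φ) ?_ ?_ ?_ ?_ hφ
  · rintro x (rfl | rfl | rfl)
    · exact act_orient _
    · exact act_orient _
    · exact act_orient _
  · exact ⟨OrderIso.refl ℝ, fun x => rfl, fun x => rfl⟩
  · rintro x y _ _ ⟨F, hF1, hF2⟩ ⟨F', hF1', hF2'⟩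
    refine ⟨F'.trans F, fun x => ?_, fun x => ?_⟩
    · simp only [OrderIso.trans_apply]; rw [hF1', hF1]
    · rw [Homeomorph.mul_apply, hF2', hF2]; rfl
  · rintro x _ ⟨F, hF1, hF2⟩
    refine ⟨F.symm, fun t => ?_, fun t => ?_⟩
    · rw [OrderIso.symm_apply_eq, hF1, OrderIso.apply_symm_apply]
    · show x.symm _ = _
      rw [Homeomorph.symm_apply_eq, hF2, OrderIso.apply_symm_apply]

lemma G_im_pos (φ : Circle ≃ₜ Circle) (hφ : φ ∈ G) (z : Circle) (hz : 0 < (z : ℂ).im) :
    0 < ((φ z : Circle) : ℂ).im := by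
  by_contra h
  push Not at h
  have h1 := G_fix φ hφ (φ z) h
  have h2 := φ.injective h1
  rw [h2] at h
  linarith

lemma G_nonRF : ∃ g : G, g ≠ 1 ∧ ∀ (Q : Type) [Group Q] [Finite Q] (φ : G →* Q), φ g = 1 := by
  have mf : act f0 ∈ G := Subgroup.subset_closure (by simp)
  have mg : act g0 ∈ G := Subgroup.subset_closure (by simp)
  have mh : act h0 ∈ G := Subgroup.subset_closure (by simp)
  refine ⟨⟨act g0, mg⟩ * ⟨act h0, mh⟩ * ⟨act g0, mg⟩⁻¹ * ⟨act h0, mh⟩⁻¹, ?_, ?_⟩
  · intro h
    have h1 : (act g0) * (act h0) = (act h0) * (act g0) := by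
      have h2 := congrArg (fun x : G => (x : Circle ≃ₜ Circle)) h
      simp only [Subgroup.coe_mul, Subgroup.coe_inv, Subgroup.coe_one] at h2
      rw [mul_inv_eq_one, mul_inv_eq_iff_eq_mul] at h2
      exact h2
    have h3 := congrArg (fun x : Circle ≃ₜ Circle => x (p (5 / 24))) h1
    simp only [Homeomorph.mul_apply] at h3
    have v1 : (h0 : ℝ ≃o ℝ) (5 / 24) = 11 / 48 := by
      show bump (1 / 6) (1 / 4) (by norm_num) _ = _
      rw [bump_apply, min_eq_right (by norm_num), max_eq_right (by norm_num)]; norm_num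
    have v2 : (g0 : ℝ ≃o ℝ) (11 / 48) = 9 / 32 := by
      show bump (1 / 6) (1 / 3) (by norm_num) _ = _
      rw [bump_apply, min_eq_right (by norm_num), max_eq_right (by norm_num)]; norm_num
    have v3 : (g0 : ℝ ≃o ℝ) (5 / 24) = 1 / 4 := by
      show bump (1 / 6) (1 / 3) (by norm_num) _ = _
      rw [bump_apply, min_eq_left (by norm_num), max_eq_right (by norm_num)]; norm_num
    have v4 : (h0 : ℝ ≃o ℝ) (1 / 4) = 1 / 4 :=
      bump_fix_right (1 / 6) (1 / 4) (by norm_num) _ le_rfl
    rw [act_p' h0 _ (by norm_num) (by norm_num), v1, act_p' g0 _ (by norm_num) (by norm_num), v2,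
      act_p' g0 _ (by norm_num) (by norm_num), v3, act_p' h0 _ (by norm_num) (by norm_num), v4,
      p_eq_iff] at h3
    obtain ⟨m, hm⟩ := h3
    have h5 : (m : ℝ) = 1 / 32 := by linarith
    have h6 : (0:ℝ) < m := by rw [h5]; norm_num
    have h7 : (m:ℝ) < 1 := by rw [h5]; norm_num
    have h8 : 0 < m := by exact_mod_cast h6
    have h9 : m < 1 := by exact_mod_cast h7
    omega
  · intro Q _ _ φ
    apply group_lemma (⟨act f0, mf⟩ : G) ⟨act g0, mg⟩ ⟨act h0, mh⟩
    intro k hk
    have := (comm_B k hk).map act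
    rw [map_mul, map_mul, map_inv, map_pow] at this
    exact Subtype.ext this

/-! ### The lamination -/

def L0 : Set (Circle × Circle) := {q | ((q.1 : ℂ) = 1 ∧ (0 ≤ (q.2 : ℂ).im ∨
    1 ≤ (q.2 : ℂ).re - (q.2 : ℂ).im)) ∨ ((q.1 : ℂ) = -1 ∧ (q.2 : ℂ).re + (q.2 : ℂ).im ≤ -1)}

def L : Set (Circle × Circle) := {q | (q ∈ L0 ∨ q.swap ∈ L0) ∧ q.1 ≠ q.2}

lemma L0_closed : IsClosed L0 := by
  have c0 : Continuous fun q : Circle => (q : ℂ) := continuous_subtype_val
  have c1 : Continuous fun q : Circle × Circle => (q.1 : ℂ) := c0.comp continuous_fst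
  have c2 : Continuous fun q : Circle × Circle => (q.2 : ℂ) := c0.comp continuous_snd
  have r2 : Continuous fun q : Circle × Circle => (q.2 : ℂ).re := Complex.continuous_re.comp c2
  have i2 : Continuous fun q : Circle × Circle => (q.2 : ℂ).im := Complex.continuous_im.comp c2
  unfold L0
  refine IsClosed.union (IsClosed.inter ?_ (IsClosed.union ?_ ?_)) (IsClosed.inter ?_ ?_)
  · exact isClosed_eq c1 continuous_const
  · exact isClosed_le continuous_const i2
  · exact isClosed_le continuous_const (r2.sub i2)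
  · exact isClosed_eq c1 continuous_const
  · exact isClosed_le (r2.add i2) continuous_const

lemma circ (a : Circle) : (a : ℂ).re ^ 2 + (a : ℂ).im ^ 2 = 1 := by
  have h := Circle.normSq_coe a
  rw [Complex.normSq_apply] at h
  nlinarith

/-- the open triangle with vertices `1, -1, -i` -/
def T : Set ℂ := {z | z.im < 0 ∧ -1 < z.re + z.im ∧ z.re - z.im < 1}

lemma mem_geod {a b : Circle} {z : ℂ} (h : z ∈ geod a b) : ∃ t : ℝ, 0 < t ∧ t < 1 ∧
    z.re = (1 - t) * (a : ℂ).re + t * (b : ℂ).re ∧ z.im = (1 - t) * (a : ℂ).im + t * (b : ℂ).im := by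
  obtain ⟨s, t, hs, ht, hst, rfl⟩ := h
  refine ⟨t, ht, by linarith, ?_, ?_⟩
  · have : s = 1 - t := by linarith
    subst this
    simp
  · have : s = 1 - t := by linarith
    subst this
    simp

lemma geod_symm (a b : Circle) : geod a b = geod b a := openSegment_symm _ _ _

/-- from a point of the circle through an interior point one hits the circle again -/
lemma second_point (a : Circle) (z : ℂ) (hz : z.re ^ 2 + z.im ^ 2 < 1) :
    ∃ (w : Circle) (t : ℝ), 1 < t ∧ (w : ℂ).re = (a : ℂ).re + t * (z.re - (a : ℂ).re) ∧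
      (w : ℂ).im = (a : ℂ).im + t * (z.im - (a : ℂ).im) ∧ z ∈ geod a w ∧ a ≠ w := by
  have ha := circ a
  set A := (a : ℂ).re
  set A' := (a : ℂ).im
  set x := z.re with hx
  set y := z.im with hy
  have hd : 0 < (x - A) ^ 2 + (y - A') ^ 2 := by
    rcases lt_or_eq_of_le (show 0 ≤ (x - A) ^ 2 + (y - A') ^ 2 by positivity) with h | h
    · exact h
    · exfalso
      have h1 : (x - A) ^ 2 = 0 := by nlinarith [sq_nonneg (x - A), sq_nonneg (y - A')]
      have h2 : (y - A') ^ 2 = 0 := by nlinarith [sq_nonneg (x - A), sq_nonneg (y - A')]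
      have h3 : x = A := by nlinarith
      have h4 : y = A' := by nlinarith
      rw [h3, h4] at hz
      linarith
  set D := (x - A) ^ 2 + (y - A') ^ 2 with hD
  set N := -2 * (A * (x - A) + A' * (y - A')) with hN
  have hND : D < N := by rw [hN, hD]; nlinarith
  set t := N / D with ht
  have ht1 : 1 < t := by rw [ht, one_lt_div hd]; exact hND
  have htD : t * D = N := by rw [ht]; field_simp
  have hw : (A + t * (x - A)) ^ 2 + (A' + t * (y - A')) ^ 2 = 1 := by
    have : (A + t * (x - A)) ^ 2 + (A' + t * (y - A')) ^ 2 =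
        (A ^ 2 + A' ^ 2) + t * (t * D - N) := by rw [hD, hN]; ring
    rw [this, htD, ha]; ring
  let w : Circle := ⟨⟨A + t * (x - A), A' + t * (y - A')⟩, by
    apply mem_sphere_zero_iff_norm.mpr
    rw [Complex.norm_def, Complex.normSq_mk]
    have : (A + t * (x - A)) * (A + t * (x - A)) + (A' + t * (y - A')) * (A' + t * (y - A')) = 1 := by
      nlinarith
    rw [this]; simp⟩
  have hwre : (w : ℂ).re = A + t * (x - A) := rfl
  have hwim : (w : ℂ).im = A' + t * (y - A') := rfl
  refine ⟨w, t, ht1, hwre, hwim, ?_, ?_⟩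
  · refine ⟨1 - 1 / t, 1 / t, ?_, by positivity, by ring, ?_⟩
    · have : 1 / t < 1 := by rw [div_lt_one (by linarith)]; exact ht1
      linarith
    · have htne : t ≠ 0 := by linarith
      apply Complex.ext
      · simp only [Complex.add_re, Complex.real_smul, Complex.mul_re, Complex.ofReal_re,
          Complex.ofReal_im, zero_mul, sub_zero, hwre]
        field_simp
        ring
      · simp only [Complex.add_im, Complex.real_smul, Complex.mul_im, Complex.ofReal_re,
          Complex.ofReal_im, zero_mul, add_zero, hwim]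
        field_simp
        ring
  · intro h
    have h1 : A = A + t * (x - A) := by rw [← hwre, ← h]
    have h2 : A' = A' + t * (y - A') := by rw [← hwim, ← h]
    have h3 : t * (x - A) = 0 := by linarith
    have h4 : t * (y - A') = 0 := by linarith
    have htne : t ≠ 0 := by linarith
    have h5 : x - A = 0 := by simpa [htne] using h3
    have h6 : y - A' = 0 := by simpa [htne] using h4
    rw [hD, h5, h6] at hd
    norm_num at hd

lemma mem_L0_geod {a b : Circle} (h : (a, b) ∈ L0) (hne : a ≠ b) {z : ℂ} (hz : z ∈ geod a b) :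
    z ∉ T := by
  obtain ⟨t, ht0, ht1, hre, him⟩ := mem_geod hz
  rcases h with ⟨h1, h2 | h2⟩ | ⟨h1, h2⟩
  · simp only at h1 h2
    rw [h1] at hre him
    simp only [Complex.one_re, Complex.one_im] at hre him
    intro hT
    have := hT.1
    nlinarith
  · simp only at h1 h2
    rw [h1] at hre him
    simp only [Complex.one_re, Complex.one_im] at hre him
    intro hT
    have := hT.2.2
    nlinarith
  · simp only at h1 h2
    rw [h1] at hre him
    simp only [Complex.neg_re, Complex.neg_im, Complex.one_re, Complex.one_im] at hre him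
    intro hT
    have := hT.2.1
    nlinarith

lemma one_coe : ((1 : Circle) : ℂ) = 1 := Circle.coe_one

noncomputable def mone : Circle := ⟨-1, mem_sphere_zero_iff_norm.mpr (by simp)⟩

lemma mone_coe : ((mone : Circle) : ℂ) = -1 := rfl

lemma compl_eq : compl L = T := by
  ext z
  constructor
  · rintro ⟨hb, hl⟩
    rw [Metric.mem_ball, dist_zero_right] at hb
    have hz : z.re ^ 2 + z.im ^ 2 < 1 := by
      have h1 : ‖z‖ ^ 2 < 1 := by nlinarith [norm_nonneg z]
      rw [Complex.sq_norm, Complex.normSq_apply] at h1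
      nlinarith
    have hnot : ∀ q ∈ L, z ∉ geod q.1 q.2 := by
      intro q hq hzq
      exact hl (Set.mem_biUnion hq hzq)
    by_contra hT
    unfold T at hT
    rw [Set.mem_ofPred_eq] at hT
    by_cases h1 : z.im < 0
    · by_cases h2 : -1 < z.re + z.im
      · have h3 : 1 ≤ z.re - z.im := by
          by_contra h
          exact hT ⟨h1, h2, by linarith⟩
        obtain ⟨w, t, ht, hre, him, hmem, hne⟩ := second_point 1 z hz
        rw [one_coe] at hre him
        simp only [Complex.one_re, Complex.one_im] at hre him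
        refine hnot (1, w) ⟨Or.inl (Or.inl ⟨one_coe, Or.inr ?_⟩), hne⟩ hmem
        show 1 ≤ (w : ℂ).re - (w : ℂ).im
        rw [hre, him]
        nlinarith
      · push Not at h2
        obtain ⟨w, t, ht, hre, him, hmem, hne⟩ := second_point mone z hz
        rw [mone_coe] at hre him
        simp only [Complex.neg_re, Complex.neg_im, Complex.one_re, Complex.one_im] at hre him
        refine hnot (mone, w) ⟨Or.inl (Or.inr ⟨mone_coe, ?_⟩), hne⟩ hmem
        show (w : ℂ).re + (w : ℂ).im ≤ -1
        rw [hre, him]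
        nlinarith
    · push Not at h1
      obtain ⟨w, t, ht, hre, him, hmem, hne⟩ := second_point 1 z hz
      rw [one_coe] at hre him
      simp only [Complex.one_re, Complex.one_im] at hre him
      refine hnot (1, w) ⟨Or.inl (Or.inl ⟨one_coe, Or.inl ?_⟩), hne⟩ hmem
      show 0 ≤ (w : ℂ).im
      rw [him]
      nlinarith
  · intro hT
    refine ⟨?_, ?_⟩
    · rw [Metric.mem_ball, dist_zero_right]
      obtain ⟨h1, h2, h3⟩ := hT
      have h4 : ‖z‖ ^ 2 < 1 := by
        rw [Complex.sq_norm, Complex.normSq_apply]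
        nlinarith
      nlinarith [norm_nonneg z]
    · intro hm
      rw [Set.mem_iUnion₂] at hm
      obtain ⟨q, ⟨hq, hne⟩, hz⟩ := hm
      rcases hq with hq | hq
      · exact mem_L0_geod hq hne hz hT
      · rw [geod_symm] at hz
        exact mem_L0_geod hq hne.symm hz hT

lemma T_convex : Convex ℝ T := by
  intro z hz w hw s t hs ht hst
  obtain ⟨a1, a2, a3⟩ := hz
  obtain ⟨b1, b2, b3⟩ := hw
  have e1 : (s • z + t • w).re = s * z.re + t * w.re := by simp
  have e2 : (s • z + t • w).im = s * z.im + t * w.im := by simp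
  have ht' : t = 1 - s := by linarith
  unfold T
  rw [Set.mem_ofPred_eq, e1, e2]
  rcases eq_or_lt_of_le hs with h | h
  · rw [← h] at ht'
    subst ht'
    rw [← h]
    refine ⟨by linarith, by linarith, by linarith⟩
  · subst ht'
    have k1 := mul_lt_mul_of_pos_left a1 h
    have k2 := mul_lt_mul_of_pos_left a2 h
    have k3 := mul_lt_mul_of_pos_left a3 h
    have l1 := mul_le_mul_of_nonneg_left b1.le ht
    have l2 := mul_le_mul_of_nonneg_left b2.le ht
    have l3 := mul_le_mul_of_nonneg_left b3.le ht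
    refine ⟨by linarith, by linarith, by linarith⟩

noncomputable def verts : Finset ℂ := {1, -1, -Complex.I}

lemma T_closure : closure T = convexHull ℝ (verts : Set ℂ) := by
  have hvs : (verts : Set ℂ) = {1, -1, -Complex.I} := by simp [verts]
  apply Set.Subset.antisymm
  · -- T ⊆ closed triangle ⊆ hull
    let T' : Set ℂ := {z | z.im ≤ 0 ∧ -1 ≤ z.re + z.im ∧ z.re - z.im ≤ 1}
    have hc : IsClosed T' := by
      refine IsClosed.inter ?_ (IsClosed.inter ?_ ?_)
      · exact isClosed_le Complex.continuous_im continuous_const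
      · exact isClosed_le continuous_const (Complex.continuous_re.add Complex.continuous_im)
      · exact isClosed_le (Complex.continuous_re.sub Complex.continuous_im) continuous_const
    have hsub : T ⊆ T' := fun z hz => ⟨hz.1.le, hz.2.1.le, hz.2.2.le⟩
    refine (closure_minimal hsub hc).trans ?_
    rintro z ⟨h1, h2, h3⟩
    have hconv := convex_convexHull ℝ (verts : Set ℂ)
    have m1 : (1 : ℂ) ∈ convexHull ℝ (verts : Set ℂ) := subset_convexHull _ _ (by rw [hvs]; simp)
    have m2 : (-1 : ℂ) ∈ convexHull ℝ (verts : Set ℂ) := subset_convexHull _ _ (by rw [hvs]; simp)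
    have m3 : (-Complex.I : ℂ) ∈ convexHull ℝ (verts : Set ℂ) :=
      subset_convexHull _ _ (by rw [hvs]; simp)
    have hz : z = ((1 + z.im + z.re) / 2) • (1 : ℂ) + ((1 + z.im - z.re) / 2) • (-1 : ℂ) +
        (-z.im) • (-Complex.I) := by
      apply Complex.ext
      · simp; ring
      · simp
    have h5 : (1 + z.im + z.re) / 2 + (1 + z.im - z.re) / 2 + (-z.im) = 1 := by ring
    rw [hz]
    have := hconv.sum_mem (t := (Finset.univ : Finset (Fin 3)))
      (w := ![(1 + z.im + z.re) / 2, (1 + z.im - z.re) / 2, -z.im])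
      (z := ![(1 : ℂ), -1, -Complex.I]) ?_ ?_ ?_
    · rw [Fin.sum_univ_three] at this
      exact this
    · intro i _
      fin_cases i
      · show 0 ≤ (1 + z.im + z.re) / 2; linarith
      · show 0 ≤ (1 + z.im - z.re) / 2; linarith
      · show 0 ≤ -z.im; linarith
    · rw [Fin.sum_univ_three]; exact h5
    · intro i _
      fin_cases i
      · exact m1
      · exact m2
      · exact m3
  · apply convexHull_min _ T_convex.closure
    rw [hvs]
    have key : ∀ v : ℂ, v.im ≤ 0 → -1 ≤ v.re + v.im → v.re - v.im ≤ 1 → v ∈ closure T := by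
      intro v v1 v2 v3
      rw [Metric.mem_closure_iff]
      intro ε hε
      set m : ℂ := ⟨0, -1 / 2⟩ with hm
      set r := ‖m - v‖ with hr
      have hr0 : 0 ≤ r := norm_nonneg _
      set t : ℝ := min (1 / 2) (ε / (2 * (r + 1))) with ht
      have ht0 : 0 < t := by
        rw [ht]; exact lt_min (by norm_num) (by positivity)
      have ht1 : t ≤ 1 / 2 := min_le_left _ _
      have ht2 : t ≤ ε / (2 * (r + 1)) := min_le_right _ _
      refine ⟨v + t • (m - v), ?_, ?_⟩
      · have e1 : (v + t • (m - v)).re = v.re + t * (0 - v.re) := by simp [hm]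
        have e2 : (v + t • (m - v)).im = v.im + t * (-1 / 2 - v.im) := by simp [hm]
        unfold T
        rw [Set.mem_ofPred_eq, e1, e2]
        refine ⟨?_, ?_, ?_⟩ <;> nlinarith
      · rw [dist_eq_norm]
        have : v - (v + t • (m - v)) = -(t • (m - v)) := by ring
        rw [this, norm_neg, norm_smul, Real.norm_eq_abs, abs_of_pos ht0, ← hr]
        have h6 : t * (2 * (r + 1)) ≤ ε := by rwa [le_div_iff₀ (by positivity)] at ht2
        nlinarith
    rintro v (rfl | rfl | rfl)
    · exact key _ (by simp) (by simp) (by simp)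
    · exact key _ (by simp) (by simp) (by norm_num)
    · exact key _ (by simp) (by simp) (by simp)

lemma verts_card : verts.card = 3 := by
  unfold verts
  rw [Finset.card_eq_three]
  refine ⟨1, -1, -Complex.I, ?_, ?_, ?_, rfl⟩
  · intro h; have := congrArg Complex.re h; norm_num at this
  · intro h; have := congrArg Complex.re h; norm_num at this
  · intro h; have := congrArg Complex.re h; norm_num at this

lemma gap_eq {g : Set ℂ} (hg : IsGap L g) : g = convexHull ℝ (verts : Set ℂ) := by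
  obtain ⟨z, hz, rfl⟩ := hg
  rw [compl_eq] at hz ⊢
  rw [T_convex.isPreconnected.connectedComponentIn hz, T_closure]

lemma L_veryFull : VeryFull L := by
  intro g hg
  refine ⟨verts, by rw [verts_card], ?_, gap_eq hg⟩
  intro v hv
  simp only [verts, Finset.mem_insert, Finset.mem_singleton] at hv
  rcases hv with rfl | rfl | rfl <;> simp

lemma L_hasGap : IsGap L (convexHull ℝ ({1, -1, -Complex.I} : Set ℂ)) := by
  have hvs : (verts : Set ℂ) = {1, -1, -Complex.I} := by simp [verts]
  rw [← hvs]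
  have hz : (⟨0, -1 / 2⟩ : ℂ) ∈ compl L := by
    rw [compl_eq]; unfold T
    rw [Set.mem_ofPred_eq]; norm_num
  exact (gap_eq ⟨_, hz, rfl⟩) ▸ ⟨_, hz, rfl⟩

lemma chord_real {a1 a2 b1 b2 d1 d2 t s : ℝ} (ca : a1 ^ 2 + a2 ^ 2 = 1) (cb : b1 ^ 2 + b2 ^ 2 = 1)
    (cd : d1 ^ 2 + d2 ^ 2 = 1) (t0 : 0 < t) (s0 : 0 < s)
    (e1 : t * (b1 - a1) = s * (d1 - a1)) (e2 : t * (b2 - a2) = s * (d2 - a2))
    (hne : ¬ (a1 = d1 ∧ a2 = d2)) : b1 = d1 ∧ b2 = d2 := by
  have q1 : (b1 - a1) ^ 2 + (b2 - a2) ^ 2 = -2 * (a1 * (b1 - a1) + a2 * (b2 - a2)) := by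
    linear_combination cb - ca
  have q2 : (d1 - a1) ^ 2 + (d2 - a2) ^ 2 = -2 * (a1 * (d1 - a1) + a2 * (d2 - a2)) := by
    linear_combination cd - ca
  have q3 : t * ((b1 - a1) ^ 2 + (b2 - a2) ^ 2) = s * ((d1 - a1) ^ 2 + (d2 - a2) ^ 2) := by
    rw [q1, q2]; linear_combination (-2 * a1) * e1 + (-2 * a2) * e2
  have q4 : t ^ 2 * ((b1 - a1) ^ 2 + (b2 - a2) ^ 2) = s ^ 2 * ((d1 - a1) ^ 2 + (d2 - a2) ^ 2) := by
    linear_combination (t * (b1 - a1) + s * (d1 - a1)) * e1 + (t * (b2 - a2) + s * (d2 - a2)) * e2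
  have q5 : (t - s) * (s * ((d1 - a1) ^ 2 + (d2 - a2) ^ 2)) = 0 := by
    linear_combination q4 - t * q3
  have hpos : 0 < (d1 - a1) ^ 2 + (d2 - a2) ^ 2 := by
    by_contra h
    push Not at h
    have n1 := sq_nonneg (d1 - a1)
    have n2 := sq_nonneg (d2 - a2)
    have h3 : (d1 - a1) ^ 2 = 0 := by linarith
    have h4 : (d2 - a2) ^ 2 = 0 := by linarith
    have h5 : d1 - a1 = 0 := by simpa using h3
    have h6 : d2 - a2 = 0 := by simpa using h4
    exact hne ⟨by linarith, by linarith⟩
  have hts : t = s := by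
    rcases mul_eq_zero.mp q5 with h | h
    · linarith
    · exfalso
      have : 0 < s * ((d1 - a1) ^ 2 + (d2 - a2) ^ 2) := by positivity
      linarith
  subst hts
  have k1 := mul_left_cancel₀ t0.ne' e1
  have k2 := mul_left_cancel₀ t0.ne' e2
  exact ⟨by linarith, by linarith⟩

/-- two chords with a common end meet only if they are equal -/
lemma chord_common (a b d : Circle) (had : a ≠ d) (z : ℂ) (h1 : z ∈ geod a b)
    (h2 : z ∈ geod a d) : b = d := by
  obtain ⟨t, t0, t1, r1, i1⟩ := mem_geod h1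
  obtain ⟨s, s0, s1, r2, i2⟩ := mem_geod h2
  have hne : ¬ ((a : ℂ).re = (d : ℂ).re ∧ (a : ℂ).im = (d : ℂ).im) := by
    rintro ⟨u, v⟩
    exact had (Circle.ext (Complex.ext u v))
  have := chord_real (circ a) (circ b) (circ d) t0 s0 (by linarith) (by linarith) hne
  exact Circle.ext (Complex.ext this.1 this.2)

lemma unlinked0 {a b c d : Circle} (h1 : (a, b) ∈ L0) (hab : a ≠ b) (h2 : (c, d) ∈ L0)
    (hcd : c ≠ d) : s(a, b) = s(c, d) ∨ Disjoint (geod a b) (geod c d) := by
  by_cases hac : a = c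
  · subst hac
    by_cases hbd : b = d
    · left; rw [hbd]
    · right
      rw [Set.disjoint_left]
      intro z hz hz'
      exact hbd (chord_common a b d hcd z hz hz')
  · right
    -- one of a, c is 1 and the other is -1
    wlog hwl : (a : ℂ) = 1 generalizing a b c d
    · have ha : (a : ℂ) = -1 := by
        rcases h1 with ⟨h, _⟩ | ⟨h, _⟩
        · exact absurd h hwl
        · exact h
      have hc : (c : ℂ) = 1 := by
        rcases h2 with ⟨h, _⟩ | ⟨h, _⟩
        · exact h
        · exfalso; apply hac; apply Circle.ext; rw [ha]; exact h.symm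
      exact (this h2 hcd h1 hab (Ne.symm hac) hc).symm
    have hc : (c : ℂ) = -1 := by
      rcases h2 with ⟨h, _⟩ | ⟨h, _⟩
      · exfalso; apply hac; apply Circle.ext; rw [hwl]; exact h.symm
      · exact h
    have hd : (d : ℂ).re + (d : ℂ).im ≤ -1 := by
      rcases h2 with ⟨h, _⟩ | ⟨_, h⟩
      · exfalso
        simp only at h
        rw [hc] at h
        have := congrArg Complex.re h
        norm_num at this
      · exact h
    have hb : 0 ≤ (b : ℂ).im ∨ 1 ≤ (b : ℂ).re - (b : ℂ).im := by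
      rcases h1 with ⟨_, h⟩ | ⟨h, _⟩
      · exact h
      · exfalso
        simp only at h
        rw [hwl] at h
        have := congrArg Complex.re h
        norm_num at this
    have cb := circ b
    have cdd := circ d
    have hdim : (d : ℂ).im < 0 := by
      by_contra h
      push Not at h
      have h3 : (d : ℂ).im = 0 := by nlinarith
      have h4 : (d : ℂ).re = -1 := by nlinarith
      apply hcd
      apply Circle.ext
      apply Complex.ext
      · rw [hc, h4]; simp
      · rw [hc, h3]; simp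
    rw [Set.disjoint_left]
    intro z hz hz'
    obtain ⟨t, t0, t1, r1, i1⟩ := mem_geod hz
    obtain ⟨s, s0, s1, r2, i2⟩ := mem_geod hz'
    rw [hwl] at r1 i1
    rw [hc] at r2 i2
    simp only [Complex.one_re, Complex.one_im, Complex.neg_re, Complex.neg_im] at r1 i1 r2 i2
    have hzim : z.im < 0 := by rw [i2]; nlinarith
    rcases hb with hb | hb
    · rw [i1] at hzim
      nlinarith
    · have k1 : 1 ≤ z.re - z.im := by rw [r1, i1]; nlinarith
      have k2 : z.re + z.im ≤ -1 := by rw [r2, i2]; nlinarith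
      have k3 : z.im ≤ -1 := by linarith
      have k4 : -1 ≤ (d : ℂ).im := by nlinarith [sq_nonneg (d : ℂ).re]
      rw [i2] at k3
      nlinarith

lemma L_isLamination : IsLamination L where
  nonempty := by
    refine ⟨(1, mone), ⟨Or.inl (Or.inl ⟨one_coe, Or.inl ?_⟩), ?_⟩⟩
    · show 0 ≤ (mone : ℂ).im
      rw [mone_coe]; simp
    · intro h
      have h1 := congrArg (fun z : Circle => (z : ℂ).re) h
      simp only [mone_coe, one_coe] at h1
      norm_num at h1
  symm := by
    rintro a b ⟨h, hne⟩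
    exact ⟨h.symm, Ne.symm hne⟩
  closed := by
    refine ⟨L0 ∪ Prod.swap ⁻¹' L0, L0_closed.union (L0_closed.preimage continuous_swap), ?_⟩
    rfl
  unlinked := by
    rintro a b c d ⟨h1, hab⟩ ⟨h2, hcd⟩
    simp only at hab hcd
    rcases h1 with h1 | h1 <;> rcases h2 with h2 | h2
    · exact unlinked0 h1 hab h2 hcd
    · rw [geod_symm c d, Sym2.eq_swap (a := c)]
      exact unlinked0 h1 hab h2 hcd.symm
    · rw [geod_symm a b, Sym2.eq_swap (a := a)]
      exact unlinked0 h1 hab.symm h2 hcd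
    · rw [geod_symm a b, geod_symm c d, Sym2.eq_swap (a := a), Sym2.eq_swap (a := c)]
      exact unlinked0 h1 hab.symm h2 hcd.symm

lemma L0_invariant (φ : Circle ≃ₜ Circle) (hφ : φ ∈ G) {a b : Circle} (h : (a, b) ∈ L0) :
    (φ a, φ b) ∈ L0 := by
  have cb := circ b
  rcases h with ⟨h1, h2⟩ | ⟨h1, h2⟩
  · simp only at h1 h2
    have ha : φ a = a := G_fix φ hφ a (by rw [h1]; simp)
    left
    refine ⟨by rw [ha]; exact h1, ?_⟩
    rcases h2 with h2 | h2
    · rcases lt_or_eq_of_le h2 with h3 | h3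
      · exact Or.inl (G_im_pos φ hφ b h3).le
      · have hb : φ b = b := G_fix φ hφ b (by rw [← h3])
        simp only [hb]
        exact Or.inl h2
    · have h4 : (b : ℂ).im ≤ 0 := by nlinarith
      have hb : φ b = b := G_fix φ hφ b h4
      simp only [hb]
      exact Or.inr h2
  · simp only at h1 h2
    have ha : φ a = a := G_fix φ hφ a (by rw [h1]; simp)
    right
    refine ⟨by rw [ha]; exact h1, ?_⟩
    have h4 : (b : ℂ).im ≤ 0 := by nlinarith
    have hb : φ b = b := G_fix φ hφ b h4
    simp only [hb]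
    exact h2

lemma L_invariant (φ : Circle ≃ₜ Circle) (hφ : φ ∈ G) {a b : Circle} (h : (a, b) ∈ L) :
    (φ a, φ b) ∈ L := by
  obtain ⟨h1, hne⟩ := h
  refine ⟨?_, fun h => hne (φ.injective h)⟩
  rcases h1 with h1 | h1
  · exact Or.inl (L0_invariant φ hφ h1)
  · exact Or.inr (L0_invariant φ hφ h1)

theorem main : ∃ (G : Subgroup (Circle ≃ₜ Circle)) (L : Set (Circle × Circle)),
    G.FG ∧ (∀ φ ∈ G, OrientationPreserving φ) ∧ IsLamination L ∧ VeryFull L ∧
    IsGap L (convexHull ℝ ({1, -1, -Complex.I} : Set ℂ)) ∧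
    (∀ φ ∈ G, ∀ a b, (a, b) ∈ L ↔ (φ a, φ b) ∈ L) ∧
    ∃ g : G, g ≠ 1 ∧ ∀ (Q : Type) [Group Q] [Finite Q] (ψ : G →* Q), ψ g = 1 := by
  refine ⟨G, L, ?_, G_orient, L_isLamination, L_veryFull, L_hasGap, ?_, G_nonRF⟩
  · rw [Subgroup.fg_iff]
    exact ⟨_, rfl, Set.toFinite _⟩
  · intro φ hφ a b
    refine ⟨L_invariant φ hφ, fun h => ?_⟩
    have h1 := L_invariant φ⁻¹ (G.inv_mem hφ) h
    have e : ∀ x, φ⁻¹ (φ x) = x := fun x => φ.symm_apply_apply x
    rwa [e, e] at h1

end Pool.Agent.H27.Laminar
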