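import Mathlib

namespace Pool.Agent.H27.Laminar

open Real

/-- A self-homeomorphism of the unit circle preserves the orientation if it lifts to an increasing
homeomorphism of the line commuting with the deck translation. -/
def OrientationPreserving (φ : Circle ≃ₜ Circle) : Prop :=
  ∃ F : ℝ ≃o ℝ, (∀ x, F (x + 1) = F x + 1) ∧
    ∀ x, φ (Circle.exp (2 * π * x)) = Circle.exp (2 * π * F x)

/-- The geodesic with ends `a`, `b` in the projective (Klein) model of the hyperbolic plane on the
open unit disc: the open chord. -/
def geod (a b : Circle) : Set ℂ := openSegment ℝ (a : ℂ) (b : ℂ)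

/-- Laminations, as symmetric sets of ordered pairs of distinct points of the circle: nonempty,
closed in the space of pairs of distinct points, and different leaves have disjoint geodesics
(i.e. no two leaves are linked). -/
structure IsLamination (L : Set (Circle × Circle)) : Prop where
  nonempty : L.Nonempty
  symm : ∀ a b, (a, b) ∈ L → (b, a) ∈ L
  closed : ∃ C : Set (Circle × Circle), IsClosed C ∧ L = C ∩ {q | q.1 ≠ q.2}
  unlinked : ∀ a b c d, (a, b) ∈ L → (c, d) ∈ L →
    (s(a, b) = s(c, d)) ∨ Disjoint (geod a b) (geod c d)

/-- The open disc minus the union of the leaves. -/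
def compl (L : Set (Circle × Circle)) : Set ℂ :=
  Metric.ball (0 : ℂ) 1 \ ⋃ q ∈ L, geod q.1 q.2

/-- A gap is the closure of a connected component of the open disc minus the leaves. -/
def IsGap (L : Set (Circle × Circle)) (g : Set ℂ) : Prop :=
  ∃ z ∈ compl L, g = closure (connectedComponentIn (compl L) z)

/-- Every gap is a finite-sided ideal polygon: the convex hull of at least three, and finitely
many, points of the circle. -/
def VeryFull (L : Set (Circle × Circle)) : Prop :=
  ∀ g, IsGap L g → ∃ s : Finset ℂ, 3 ≤ s.card ∧ (∀ v ∈ s, ‖v‖ = 1) ∧ g = convexHull ℝ (s : Set ℂ)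

end Pool.Agent.H27.Laminar
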