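import Mathlib

set_option autoImplicit false

open Filter Topology Finset

namespace Pool.Agent.H27.Neumann

variable (𝕜 : Type) [RCLike 𝕜]

/-- two-sided sequences `a : ℤ → 𝕜` which decay super-exponentially at `-∞`:
for every `n` the sequence `(n+1)^J a (n - J)` (`J = 0, 1, 2, ...`) is bounded -/
def S : Submodule 𝕜 (ℤ → 𝕜) where
  carrier := {a | ∀ n : ℕ, ∃ C : ℝ, ∀ J : ℕ, ‖((n : 𝕜) + 1) ^ J * a (n - J)‖ ≤ C}
  add_mem' := by
    intro a b ha hb n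
    obtain ⟨C, hC⟩ := ha n
    obtain ⟨D, hD⟩ := hb n
    refine ⟨C + D, fun J => ?_⟩
    rw [Pi.add_apply, mul_add]
    exact (norm_add_le _ _).trans (add_le_add (hC J) (hD J))
  zero_mem' := fun n => ⟨0, fun J => by simp⟩
  smul_mem' := by
    intro c a ha n
    obtain ⟨C, hC⟩ := ha n
    refine ⟨‖c‖ * C, fun J => ?_⟩
    rw [Pi.smul_apply, smul_eq_mul, mul_left_comm, norm_mul]
    exact mul_le_mul_of_nonneg_left (hC J) (norm_nonneg _)

/-- the space -/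
def E : Type := S 𝕜

noncomputable instance : AddCommGroup (E 𝕜) := inferInstanceAs (AddCommGroup (S 𝕜))
noncomputable instance : Module 𝕜 (E 𝕜) := inferInstanceAs (Module 𝕜 (S 𝕜))

variable {𝕜}

theorem E.bound (a : E 𝕜) (n : ℕ) : ∃ C : ℝ, ∀ J : ℕ, ‖((n : 𝕜) + 1) ^ J * a.1 (n - J)‖ ≤ C := a.2 n

/-- the coordinate maps into Banach spaces of bounded sequences -/
noncomputable def row (n : ℕ) (a : E 𝕜) : BoundedContinuousFunction ℕ 𝕜 :=
  BoundedContinuousFunction.ofNormedAddCommGroupDiscrete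
    (fun J => ((n : 𝕜) + 1) ^ J * a.1 (n - J)) (a.bound n).choose (a.bound n).choose_spec

@[simp] theorem row_apply (n : ℕ) (a : E 𝕜) (J : ℕ) : row n a J = ((n : 𝕜) + 1) ^ J * a.1 (n - J) := rfl

/-- the embedding -/
noncomputable def Φ : E 𝕜 →ₗ[𝕜] (ℕ → BoundedContinuousFunction ℕ 𝕜) where
  toFun a n := row n a
  map_add' a b := by
    funext n
    ext J
    change ((n : 𝕜) + 1) ^ J * (a.1 (n - J) + b.1 (n - J)) = _
    rw [mul_add]; rfl
  map_smul' c a := by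
    funext n
    ext J
    change ((n : 𝕜) + 1) ^ J * (c * a.1 (n - J)) = c * (((n : 𝕜) + 1) ^ J * a.1 (n - J))
    ring

noncomputable instance : UniformSpace (E 𝕜) := UniformSpace.comap Φ inferInstance

theorem Φ_ui : IsUniformInducing (Φ : E 𝕜 →ₗ[𝕜] _) := ⟨rfl⟩

instance : IsUniformAddGroup (E 𝕜) := IsUniformAddGroup.comap (Φ : E 𝕜 →ₗ[𝕜] _)

/-- the seminorms -/
noncomputable def p (n : ℕ) : Seminorm 𝕜 (E 𝕜) :=
  (normSeminorm 𝕜 (BoundedContinuousFunction ℕ 𝕜)).comp ((LinearMap.proj n).comp Φ)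

theorem p_apply (n : ℕ) (a : E 𝕜) : p n a = ‖row n a‖ := rfl

theorem hp : WithSeminorms (p : ℕ → Seminorm 𝕜 (E 𝕜)) := by
  have h1 := withSeminorms_pi (𝕜 := 𝕜) (ι := ℕ) (E := fun _ => BoundedContinuousFunction ℕ 𝕜)
    (fun _ => norm_withSeminorms 𝕜 (BoundedContinuousFunction ℕ 𝕜))
  have h2 := Topology.IsInducing.withSeminorms h1 (Φ_ui (𝕜 := 𝕜)).isInducing
  have h3 := h2.congr_equiv (Equiv.sigmaUnique ℕ (fun _ => Fin 1)).symm
  exact h3

theorem row_bound (n : ℕ) (a : E 𝕜) (J : ℕ) : ((n : ℝ) + 1) ^ J * ‖a.1 (n - J)‖ ≤ p n a := by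
  have h := (row n a).norm_coe_le_norm J
  rw [row_apply, norm_mul, norm_pow] at h
  have h2 : ‖(n : 𝕜) + 1‖ = (n : ℝ) + 1 := by
    have : (n : 𝕜) + 1 = ((n + 1 : ℕ) : 𝕜) := by push_cast; rfl
    rw [this, RCLike.norm_natCast]
    push_cast; rfl
  rwa [h2] at h

theorem p_mono : Monotone (p : ℕ → Seminorm 𝕜 (E 𝕜)) := by
  apply monotone_nat_of_le_succ
  intro n a
  rw [p_apply, BoundedContinuousFunction.norm_le (by positivity)]
  intro J
  have h := row_bound (n + 1) a (J + 1)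
  have e : (((n + 1 : ℕ) : ℤ) - ((J + 1 : ℕ) : ℤ)) = (n : ℤ) - J := by push_cast; ring
  rw [e] at h
  rw [row_apply, norm_mul, norm_pow]
  have h2 : ‖(n : 𝕜) + 1‖ = (n : ℝ) + 1 := by
    have : (n : 𝕜) + 1 = ((n + 1 : ℕ) : 𝕜) := by push_cast; rfl
    rw [this, RCLike.norm_natCast]
    push_cast; rfl
  rw [h2]
  refine le_trans ?_ h
  apply mul_le_mul_of_nonneg_right _ (norm_nonneg _)
  push_cast
  calc ((n : ℝ) + 1) ^ J ≤ ((n : ℝ) + 1 + 1) ^ J := by gcongr; linarith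
    _ ≤ ((n : ℝ) + 1 + 1) ^ (J + 1) := by
      apply pow_le_pow_right₀ _ (Nat.le_succ J)
      have : (0 : ℝ) ≤ n := Nat.cast_nonneg n
      linarith

theorem eq_zero_of (a : E 𝕜) (h : ∀ n, p n a = 0) : a = 0 := by
  apply Subtype.ext
  funext j
  have h1 := row_bound j.toNat a (j.toNat - j).toNat
  have e : ((j.toNat : ℤ) - ((j.toNat - j).toNat : ℤ)) = j := by omega
  rw [e, h] at h1
  have h2 : ‖a.1 j‖ ≤ 0 := by
    by_contra hcon
    push Not at hcon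
    have : 0 < ((j.toNat : ℝ) + 1) ^ (j.toNat - j).toNat * ‖a.1 j‖ := by positivity
    linarith
  exact norm_le_zero_iff.1 h2

instance : T2Space (E 𝕜) := by
  have h1 : T1Space (E 𝕜) := hp.T1_of_separating (by
    intro x hx
    by_contra hcon
    push Not at hcon
    exact hx (eq_zero_of x hcon))
  infer_instance

theorem range_closed : IsClosed (Set.range (Φ : E 𝕜 →ₗ[𝕜] _)) := by
  have h1 : Set.range (Φ : E 𝕜 →ₗ[𝕜] _) = 
      {b : ℕ → BoundedContinuousFunction ℕ 𝕜 | ∀ n J m K : ℕ, (n : ℤ) - J = (m : ℤ) - K →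
        b n J * ((m : 𝕜) + 1) ^ K = b m K * ((n : 𝕜) + 1) ^ J} := by
    ext b
    constructor
    · rintro ⟨a, rfl⟩
      intro n J m K h
      change ((n : 𝕜) + 1) ^ J * a.1 (n - J) * ((m : 𝕜) + 1) ^ K = 
        ((m : 𝕜) + 1) ^ K * a.1 (m - K) * ((n : 𝕜) + 1) ^ J
      rw [h]
      ring
    · intro hb
      have hn : ∀ n : ℕ, ((n : 𝕜) + 1) ≠ 0 := fun n => Nat.cast_add_one_ne_zero n
      let a : ℤ → 𝕜 := fun j => b j.toNat (j.toNat - j).toNat / ((j.toNat : 𝕜) + 1) ^ (j.toNat - j).toNat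
      have key : ∀ n J : ℕ, ((n : 𝕜) + 1) ^ J * a (n - J) = b n J := by
        intro n J
        have h1 := hb n J ((n : ℤ) - J).toNat ((((n : ℤ) - J).toNat : ℤ) - ((n : ℤ) - J)).toNat (by omega)
        simp only [a]
        rw [mul_div_assoc', div_eq_iff (pow_ne_zero _ (hn _)), h1, mul_comm]
      refine ⟨⟨a, fun n => ⟨‖b n‖, fun J => ?_⟩⟩, ?_⟩
      · rw [key]
        exact (b n).norm_coe_le_norm J
      · funext n
        ext J
        exact key n J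
  rw [h1]
  simp only [Set.ofPred_forall]
  refine isClosed_iInter fun n => isClosed_iInter fun J => isClosed_iInter fun m => 
    isClosed_iInter fun K => isClosed_iInter fun _ => ?_
  apply isClosed_eq
  · exact ((BoundedContinuousFunction.evalCLM 𝕜 J).continuous.comp (continuous_apply n)).mul continuous_const
  · exact ((BoundedContinuousFunction.evalCLM 𝕜 K).continuous.comp (continuous_apply m)).mul continuous_const

instance : CompleteSpace (E 𝕜) := by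
  rw [completeSpace_iff_isComplete_range (Φ_ui (𝕜 := 𝕜))]
  exact range_closed.isComplete

/-- the shift -/
noncomputable def U₀ : E 𝕜 →ₗ[𝕜] E 𝕜 where
  toFun a := ⟨fun j => a.1 (j + 1), by
    intro n
    obtain ⟨C, hC⟩ := a.bound (n + 1)
    refine ⟨C, fun J => ?_⟩
    have h := hC J
    have e : (((n + 1 : ℕ) : ℤ) - J) = (n : ℤ) - J + 1 := by push_cast; ring
    rw [e] at h
    refine le_trans ?_ h
    rw [norm_mul, norm_mul, norm_pow, norm_pow]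
    apply mul_le_mul_of_nonneg_right _ (norm_nonneg _)
    have h2 : ∀ m : ℕ, ‖(m : 𝕜) + 1‖ = (m : ℝ) + 1 := by
      intro m
      have : (m : 𝕜) + 1 = ((m + 1 : ℕ) : 𝕜) := by push_cast; rfl
      rw [this, RCLike.norm_natCast]
      push_cast; rfl
    rw [h2, h2]
    push_cast
    gcongr
    linarith⟩
  map_add' a b := rfl
  map_smul' c a := rfl

@[simp] theorem U₀_apply (a : E 𝕜) (j : ℤ) : (U₀ a).1 j = a.1 (j + 1) := rfl

theorem p_U₀ (n : ℕ) (a : E 𝕜) : p n (U₀ a) ≤ p (n + 1) a := by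
  rw [p_apply, BoundedContinuousFunction.norm_le (by positivity)]
  intro J
  have h := row_bound (n + 1) a J
  have e : (((n + 1 : ℕ) : ℤ) - J) = (n : ℤ) - J + 1 := by push_cast; ring
  rw [e] at h
  refine le_trans ?_ h
  rw [row_apply, norm_mul, norm_pow, U₀_apply]
  apply mul_le_mul_of_nonneg_right _ (norm_nonneg _)
  have h2 : ∀ m : ℕ, ‖(m : 𝕜) + 1‖ = (m : ℝ) + 1 := by
    intro m
    have : (m : 𝕜) + 1 = ((m + 1 : ℕ) : 𝕜) := by push_cast; rfl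
    rw [this, RCLike.norm_natCast]
    push_cast; rfl
  rw [h2]
  push_cast
  gcongr
  linarith

/-- the shift as a continuous linear operator -/
noncomputable def U : E 𝕜 →L[𝕜] E 𝕜 :=
  ⟨U₀, by
    refine WithSeminorms.continuous_of_isBounded hp hp U₀ ?_
    intro n
    refine ⟨{n + 1}, 1, ?_⟩
    intro a
    simpa using p_U₀ n a⟩

theorem U_apply (a : E 𝕜) (j : ℤ) : (U a).1 j = a.1 (j + 1) := rfl

theorem sub_apply (a b : E 𝕜) (j : ℤ) : (a - b).1 j = a.1 j - b.1 j := rfl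
theorem smul_apply (c : 𝕜) (b : E 𝕜) (j : ℤ) : (c • b).1 j = c * b.1 j := rfl

theorem term_bound (c : 𝕜) (y : E 𝕜) (m n : ℕ) (hnm : n ≤ m) (hm : 2 ≤ ‖c‖ * (m + 1)) (J k : ℕ) :
    ((n : ℝ) + 1) ^ J * ‖(c⁻¹) ^ (k + 1) * y.1 ((n : ℤ) - J - 1 - k)‖ ≤ p m y * (1 / 2) ^ (k + 1) := by
  have hc : 0 < ‖c‖ := by
    by_contra hcon
    have : ‖c‖ = 0 := le_antisymm (not_lt.1 hcon) (norm_nonneg _)
    rw [this] at hm
    linarith
  have h := row_bound m y (m - n + J + 1 + k)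
  have e : ((m : ℤ) - ((m - n + J + 1 + k : ℕ) : ℤ)) = (n : ℤ) - J - 1 - k := by
    push_cast [hnm]; ring
  rw [e] at h
  rw [norm_mul, norm_pow, norm_inv]
  set Y := ‖y.1 ((n : ℤ) - J - 1 - k)‖ with hY
  have hm1 : (1 : ℝ) ≤ (m : ℝ) + 1 := by
    have : (0 : ℝ) ≤ m := Nat.cast_nonneg m
    linarith
  have h1 : ((n : ℝ) + 1) ^ J ≤ ((m : ℝ) + 1) ^ J := by gcongr
  have h2 : (‖c‖⁻¹) ^ (k + 1) ≤ ((m : ℝ) + 1) ^ (k + 1) * (1 / 2) ^ (k + 1) := by
    rw [← mul_pow]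
    apply pow_le_pow_left₀ (by positivity)
    rw [inv_le_iff_one_le_mul₀ hc]
    linarith
  have h3 : ((m : ℝ) + 1) ^ J * ((m : ℝ) + 1) ^ (k + 1) ≤ ((m : ℝ) + 1) ^ (m - n + J + 1 + k) := by
    rw [← pow_add]
    apply pow_le_pow_right₀ hm1
    omega
  have hYn : 0 ≤ Y := norm_nonneg _
  calc ((n : ℝ) + 1) ^ J * ((‖c‖⁻¹) ^ (k + 1) * Y) 
      ≤ ((m : ℝ) + 1) ^ J * ((((m : ℝ) + 1) ^ (k + 1) * (1 / 2) ^ (k + 1)) * Y) := by gcongr
    _ = (((m : ℝ) + 1) ^ J * ((m : ℝ) + 1) ^ (k + 1)) * Y * (1 / 2) ^ (k + 1) := by ring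
    _ ≤ ((m : ℝ) + 1) ^ (m - n + J + 1 + k) * Y * (1 / 2) ^ (k + 1) := by gcongr
    _ ≤ p m y * (1 / 2) ^ (k + 1) := by gcongr

theorem exists_m (c : 𝕜) (hc : c ≠ 0) (n : ℕ) : ∃ m : ℕ, n ≤ m ∧ 2 ≤ ‖c‖ * ((m : ℝ) + 1) := by
  obtain ⟨m, hm⟩ := exists_nat_ge (2 / ‖c‖)
  refine ⟨max n m, le_max_left _ _, ?_⟩
  have hc' : 0 < ‖c‖ := norm_pos_iff.2 hc
  rw [div_le_iff₀ hc'] at hm
  have : (m : ℝ) ≤ ((max n m : ℕ) : ℝ) := by exact_mod_cast le_max_right n m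
  nlinarith

theorem geo_summable (M : ℝ) : Summable (fun k : ℕ => M * (1 / 2 : ℝ) ^ (k + 1)) := by
  have h := (summable_nat_add_iff 1).2 (summable_geometric_of_lt_one (r := (1 / 2 : ℝ)) (by norm_num) (by norm_num))
  exact h.mul_left M

theorem term_summable (c : 𝕜) (hc : c ≠ 0) (y : E 𝕜) (j : ℤ) :
    Summable (fun k : ℕ => (c⁻¹) ^ (k + 1) * y.1 (j - 1 - k)) := by
  obtain ⟨m, hm1, hm2⟩ := exists_m c hc j.toNat
  refine Summable.of_norm_bounded (g := fun k : ℕ => p m y * (1 / 2 : ℝ) ^ (k + 1)) (geo_summable _) ?_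
  intro k
  have h := term_bound c y m j.toNat hm1 hm2 (j.toNat - j).toNat k
  have e : ((j.toNat : ℤ) - ((j.toNat - j).toNat : ℤ)) = j := by omega
  rw [e] at h
  refine le_trans ?_ h
  apply le_mul_of_one_le_left (norm_nonneg _)
  apply one_le_pow₀
  have : (0 : ℝ) ≤ j.toNat := Nat.cast_nonneg _
  linarith

/-- the solution of `x - c U x = y` -/
noncomputable def sol (c : 𝕜) (hc : c ≠ 0) (y : E 𝕜) : E 𝕜 :=
  ⟨fun j => - ∑' k : ℕ, (c⁻¹) ^ (k + 1) * y.1 (j - 1 - k), by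
    intro n
    obtain ⟨m, hm1, hm2⟩ := exists_m c hc n
    refine ⟨∑' k : ℕ, p m y * (1 / 2 : ℝ) ^ (k + 1), fun J => ?_⟩
    have h2 : ∀ m : ℕ, ‖(m : 𝕜) + 1‖ = (m : ℝ) + 1 := by
      intro m
      have : (m : 𝕜) + 1 = ((m + 1 : ℕ) : 𝕜) := by push_cast; rfl
      rw [this, RCLike.norm_natCast]
      push_cast; rfl
    rw [mul_neg, norm_neg, norm_mul, norm_pow, h2]
    have hs := term_summable c hc y (n - J)
    calc ((n : ℝ) + 1) ^ J * ‖∑' k : ℕ, (c⁻¹) ^ (k + 1) * y.1 ((n : ℤ) - J - 1 - k)‖ 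
        ≤ ((n : ℝ) + 1) ^ J * ∑' k : ℕ, ‖(c⁻¹) ^ (k + 1) * y.1 ((n : ℤ) - J - 1 - k)‖ := by
          gcongr
          exact norm_tsum_le_tsum_norm hs.norm
      _ = ∑' k : ℕ, ((n : ℝ) + 1) ^ J * ‖(c⁻¹) ^ (k + 1) * y.1 ((n : ℤ) - J - 1 - k)‖ := by
          rw [tsum_mul_left]
      _ ≤ ∑' k : ℕ, p m y * (1 / 2 : ℝ) ^ (k + 1) := by
          apply Summable.tsum_le_tsum
          · intro k
            exact term_bound c y m n hm1 hm2 J k
          · exact hs.norm.mul_left _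
          · exact geo_summable _⟩

theorem sol_apply (c : 𝕜) (hc : c ≠ 0) (y : E 𝕜) (j : ℤ) :
    (sol c hc y).1 j = - ∑' k : ℕ, (c⁻¹) ^ (k + 1) * y.1 (j - 1 - k) := rfl

theorem sol_eq (c : 𝕜) (hc : c ≠ 0) (y : E 𝕜) : sol c hc y - c • U (sol c hc y) = y := by
  apply Subtype.ext
  funext j
  rw [sub_apply, smul_apply, U_apply, sol_apply, sol_apply]
  have hs := term_summable c hc y (j + 1)
  rw [hs.tsum_eq_zero_add]
  have e1 : (fun k : ℕ => (c⁻¹) ^ (k + 1 + 1) * y.1 (j + 1 - 1 - ((k + 1 : ℕ) : ℤ))) = 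
      fun k : ℕ => c⁻¹ * ((c⁻¹) ^ (k + 1) * y.1 (j - 1 - k)) := by
    funext k
    have : (j + 1 - 1 - ((k + 1 : ℕ) : ℤ)) = j - 1 - k := by push_cast; ring
    rw [this, pow_succ]
    ring
  rw [e1, tsum_mul_left]
  have e2 : (j + 1 - 1 - ((0 : ℕ) : ℤ)) = j := by push_cast; ring
  rw [e2, zero_add, pow_one]
  have hcc : c * c⁻¹ = 1 := mul_inv_cancel₀ hc
  linear_combination (y.1 j + ∑' k : ℕ, (c⁻¹) ^ (k + 1) * y.1 (j - 1 - k)) * hcc

theorem inj (c : 𝕜) (d : E 𝕜) (h : d - c • U d = 0) : d = 0 := by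
  have h1 : ∀ j, d.1 j = c * d.1 (j + 1) := by
    intro j
    have h2 : (d - c • U d).1 j = (0 : E 𝕜).1 j := by rw [h]
    rw [sub_apply, smul_apply, U_apply] at h2
    exact sub_eq_zero.1 h2
  have h3 : ∀ (k : ℕ) (j : ℤ), d.1 (j - k) = c ^ k * d.1 j := by
    intro k
    induction k with
    | zero => intro j; simp
    | succ k ih =>
      intro j
      rw [h1, pow_succ', mul_assoc, ← ih j]
      congr 2
      push_cast; ring
  by_cases hc : c = 0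
  · apply Subtype.ext
    funext j
    rw [h1 j, hc, zero_mul]
    rfl
  have h4 : ∀ n : ℕ, 2 ≤ ‖c‖ * ((n : ℝ) + 1) → d.1 n = 0 := by
    intro n hn
    by_contra hne
    have hpos : 0 < ‖d.1 n‖ := norm_pos_iff.2 hne
    have h5 : ∀ J : ℕ, (2 : ℝ) ^ J * ‖d.1 n‖ ≤ p n d := by
      intro J
      have h6 := row_bound n d J
      rw [h3 J n, norm_mul, norm_pow, ← mul_assoc, ← mul_pow] at h6
      refine le_trans ?_ h6
      apply mul_le_mul_of_nonneg_right _ hpos.le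
      apply pow_le_pow_left₀ (by norm_num)
      linarith
    obtain ⟨J, hJ⟩ := pow_unbounded_of_one_lt (p n d / ‖d.1 n‖) (one_lt_two)
    have h7 := h5 J
    rw [div_lt_iff₀ hpos] at hJ
    linarith
  apply Subtype.ext
  funext j
  obtain ⟨m, hm1, hm2⟩ := exists_m c hc j.toNat
  have h8 := h3 (m - j).toNat m
  have e : ((m : ℤ) - ((m - j).toNat : ℤ)) = j := by omega
  rw [e, h4 m hm2, mul_zero] at h8
  exact h8

theorem bij (c : 𝕜) : Function.Bijective (fun x : E 𝕜 => x - c • U x) := by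
  constructor
  · intro x y hxy
    have h := inj c (x - y) (by
      simp only at hxy
      rw [map_sub, smul_sub]
      have : x - y - (c • U x - c • U y) = (x - c • U x) - (y - c • U y) := by abel
      rw [this, hxy, sub_self])
    exact sub_eq_zero.1 h
  · intro y
    by_cases hc : c = 0
    · exact ⟨y, by simp [hc]⟩
    · exact ⟨sol c hc y, sol_eq c hc y⟩

/-- the basis vector at `0` -/
def e₀ : E 𝕜 := ⟨Pi.single 0 1, by
  intro n
  refine ⟨((n : ℝ) + 1) ^ n, fun J => ?_⟩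
  have h2 : ‖(n : 𝕜) + 1‖ = (n : ℝ) + 1 := by
    have : (n : 𝕜) + 1 = ((n + 1 : ℕ) : 𝕜) := by push_cast; rfl
    rw [this, RCLike.norm_natCast]
    push_cast; rfl
  by_cases h : (n : ℤ) - J = 0
  · have : J = n := by omega
    rw [this, sub_self, Pi.single_eq_same, mul_one, norm_pow, h2]
  · rw [Pi.single_eq_of_ne h, mul_zero, norm_zero]
    positivity⟩

theorem U_pow_apply (N : ℕ) (a : E 𝕜) (j : ℤ) : ((U ^ N) a).1 j = a.1 (j + N) := by
  induction N generalizing j with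
  | zero => simp
  | succ N ih =>
    have e : j + 1 + (N : ℤ) = j + ((N + 1 : ℕ) : ℤ) := by push_cast; ring
    rw [pow_succ', ← e, ← ih]
    rfl

theorem p_lower (c : 𝕜) (n N : ℕ) (hn : 1 ≤ ‖c‖ * ((n : ℝ) + 1)) : 1 ≤ p n (c ^ N • (U ^ N) (e₀ : E 𝕜)) := by
  have h := row_bound n (c ^ N • (U ^ N) (e₀ : E 𝕜)) (n + N)
  have e : ((n : ℤ) - ((n + N : ℕ) : ℤ)) = -N := by push_cast; ring
  rw [e, smul_apply, U_pow_apply] at h
  have e2 : (e₀ : E 𝕜).1 (-(N : ℤ) + N) = 1 := by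
    rw [neg_add_cancel]
    change (Pi.single 0 1 : ℤ → 𝕜) 0 = 1
    simp
  rw [e2, mul_one, norm_pow] at h
  refine le_trans ?_ h
  have h1 : (1 : ℝ) ≤ ((n : ℝ) + 1) ^ n := by
    apply one_le_pow₀
    have : (0 : ℝ) ≤ n := Nat.cast_nonneg n
    linarith
  calc (1 : ℝ) ≤ ((n : ℝ) + 1) ^ n * (‖c‖ * ((n : ℝ) + 1)) ^ N := 
        one_le_mul_of_one_le_of_one_le h1 (one_le_pow₀ hn)
    _ = ((n : ℝ) + 1) ^ (n + N) * ‖c‖ ^ N := by rw [pow_add, mul_pow]; ring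

theorem diverges (c : 𝕜) (hc : c ≠ 0) :
    ¬ ∃ y : E 𝕜, Tendsto (fun N : ℕ => ∑ k ∈ range N, c ^ k • (U ^ k) (e₀ : E 𝕜)) atTop (𝓝 y) := by
  rintro ⟨y, hy⟩
  obtain ⟨m, -, hm⟩ := exists_m c hc 0
  have h1 := (hy.comp (tendsto_add_atTop_nat 1)).sub hy
  rw [sub_self] at h1
  have h2 := ((hp (𝕜 := 𝕜)).tendsto_nhds _ _).1 h1 m 1 one_pos
  obtain ⟨N, hN⟩ := h2.exists
  simp only [Function.comp_apply, sum_range_succ, sub_zero, add_sub_cancel_left] at hN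
  have h3 := p_lower c m N (by linarith)
  linarith

end Pool.Agent.H27.Neumann
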