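import Mathlib

/-! Abstract part for S0307 (simple pro-orderable group). -/

namespace Pool.Agent.H27.PO

/-- the normal subsemigroup generated by `g` (conjugations by `K`) -/
inductive NS {H : Type*} [Group H] (K : Subgroup H) (g : H) : H → Prop
  | conj (h : H) (hh : h ∈ K) : NS K g (h * g * h⁻¹)
  | mul {x y : H} : NS K g x → NS K g y → NS K g (x * y)

section
variable {H : Type*} [Group H] {K : Subgroup H} {g x y : H}

theorem NS.self : NS K g g := by
  have := NS.conj (K := K) (g := g) 1 K.one_mem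
  simpa using this

theorem NS.conj' (h : NS K g x) {k : H} (hk : k ∈ K) : NS K g (k * x * k⁻¹) := by
  induction h with
  | conj h hh =>
    have := NS.conj (K := K) (g := g) (k * h) (K.mul_mem hk hh)
    rw [mul_inv_rev] at this
    have e : k * (h * g * h⁻¹) * k⁻¹ = k * h * g * (h⁻¹ * k⁻¹) := by group
    rw [e]
    exact this
  | mul _ _ ih1 ih2 =>
    rename_i x y _ _
    have e : k * (x * y) * k⁻¹ = (k * x * k⁻¹) * (k * y * k⁻¹) := by group
    rw [e]
    exact NS.mul ih1 ih2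

theorem NS.trans (h : NS K g x) (h' : NS K x y) : NS K g y := by
  induction h' with
  | conj k hk => exact h.conj' hk
  | mul _ _ ih1 ih2 => exact NS.mul ih1 ih2

theorem NS.mem {L : Subgroup H} (hL : ∀ k ∈ K, ∀ z ∈ L, k * z * k⁻¹ ∈ L) (hg : g ∈ L)
    (h : NS K g x) : x ∈ L := by
  induction h with
  | conj k hk => exact hL k hk g hg
  | mul _ _ ih1 ih2 => exact L.mul_mem ih1 ih2

theorem NS.pow (h : NS K g x) (n : ℕ) : NS K g (x ^ (n+1)) := by
  induction n with
  | zero => simpa using h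
  | succ n ih =>
    rw [pow_succ]
    exact NS.mul ih h

/-- conjugacy under Γ -/
def Cj (K : Subgroup H) (x y : H) : Prop := ∃ h ∈ K, h * x * h⁻¹ = y

theorem Cj.trans {x y z : H} (h1 : Cj K x y) (h2 : Cj K y z) : Cj K x z := by
  obtain ⟨a, ha, rfl⟩ := h1
  obtain ⟨b, hb, rfl⟩ := h2
  exact ⟨b * a, K.mul_mem hb ha, by group⟩

theorem Cj.symm {x y : H} (h1 : Cj K x y) : Cj K y x := by
  obtain ⟨a, ha, rfl⟩ := h1
  exact ⟨a⁻¹, K.inv_mem ha, by group⟩

theorem Cj.ns {x y : H} (h1 : Cj K x y) : NS K x y := by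
  obtain ⟨a, ha, rfl⟩ := h1
  exact NS.conj a ha

/-- the shifted product -/
def Z (p : H) : List H → H
  | [] => 1
  | z :: zs => z * (p * Z p zs * p⁻¹)

def headmul : List H → H → List H
  | [], z => [z]
  | y :: r, z => (y * z) :: r

theorem headmul_mem (L : Subgroup H) (zs : List H) (z : H) (hzs : ∀ w ∈ zs, w ∈ L) (hz : z ∈ L) :
    ∀ w ∈ headmul zs z, w ∈ L := by
  cases zs with
  | nil =>
    intro w hw
    simp only [headmul, List.mem_singleton] at hw
    rw [hw]; exact hz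
  | cons y r =>
    intro w hw
    simp only [headmul, List.mem_cons] at hw
    rcases hw with rfl | hw
    · exact L.mul_mem (hzs y (by simp)) hz
    · exact hzs w (by simp [hw])

theorem headmul_prod (zs : List H) (z : H) :
    (headmul zs z).reverse.prod = zs.reverse.prod * z := by
  cases zs with
  | nil => simp [headmul]
  | cons y r => simp [headmul, mul_assoc]

variable (L : Subgroup H) (p : H)

theorem Z_headmul (hcomm : ∀ z ∈ L, ∀ zs : List H, (∀ w ∈ zs, w ∈ L) →
      z * (p * Z p zs * p⁻¹) = (p * Z p zs * p⁻¹) * z)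
    (zs : List H) (z : H) (hzs : ∀ w ∈ zs, w ∈ L) (hz : z ∈ L) :
    Z p zs * z = Z p (headmul zs z) := by
  cases zs with
  | nil => simp [headmul, Z]
  | cons y r =>
    simp only [headmul, Z]
    rw [mul_assoc, ← hcomm z hz r (fun w hw => hzs w (by simp [hw]))]
    simp only [mul_assoc]

theorem lemW (hLK : L ≤ K) (hp : p ∈ K) (hcomm : ∀ z ∈ L, ∀ zs : List H, (∀ w ∈ zs, w ∈ L) →
      z * (p * Z p zs * p⁻¹) = (p * Z p zs * p⁻¹) * z)
    (n : ℕ) : ∀ (zs : List H) (z : H), zs.length = n → (∀ w ∈ zs, w ∈ L) → z ∈ L →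
    Cj K (Z p (z :: zs) * p) (zs.reverse.prod * z * p) := by
  induction n with
  | zero =>
    intro zs z hn hzs hz
    have : zs = [] := List.length_eq_zero_iff.mp hn
    subst this
    refine ⟨1, K.one_mem, ?_⟩
    simp [Z]
  | succ n ih =>
    intro zs z hn hzs hz
    obtain ⟨y, r, rfl⟩ : ∃ y r, zs = y :: r := by
      cases zs with
      | nil => simp at hn
      | cons y r => exact ⟨y, r, rfl⟩
    have h1 : Cj K (Z p (z :: y :: r) * p) (Z p (y :: r) * z * p) := by
      refine ⟨(z * p)⁻¹, K.inv_mem (K.mul_mem (hLK hz) hp), ?_⟩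
      show (z * p)⁻¹ * (z * (p * Z p (y :: r) * p⁻¹) * p) * (z * p)⁻¹⁻¹ = _
      group
    have h2 : Z p (y :: r) * z = Z p ((y * z) :: r) := Z_headmul L p hcomm (y :: r) z hzs hz
    rw [h2] at h1
    have h3 := ih r (y * z) (by simpa using hn) (fun w hw => hzs w (by simp [hw]))
      (L.mul_mem (hzs y (by simp)) hz)
    have h4 : (y :: r).reverse.prod * z * p = r.reverse.prod * (y * z) * p := by
      simp [mul_assoc]
    rw [h4]
    exact h1.trans h3

theorem Z_inv (hcomm : ∀ z ∈ L, ∀ zs : List H, (∀ w ∈ zs, w ∈ L) →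
      z * (p * Z p zs * p⁻¹) = (p * Z p zs * p⁻¹) * z)
    (zs : List H) (hzs : ∀ w ∈ zs, w ∈ L) : (Z p zs)⁻¹ = Z p (zs.map (fun x => x⁻¹)) := by
  induction zs with
  | nil => simp [Z]
  | cons y r ih =>
    have h1 := ih (fun w hw => hzs w (by simp [hw]))
    have h2 := hcomm y (hzs y (by simp)) r (fun w hw => hzs w (by simp [hw]))
    simp only [Z, List.map_cons]
    rw [h2, ← h1]
    group

theorem comm_lists (c : H) (hc : c ∈ ⁅L, L⁆) :
    ∃ ys : List H, (∀ y ∈ ys, y ∈ L) ∧ ys.prod = c ∧ ys.reverse.prod = 1 := by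
  rw [Subgroup.commutator_def] at hc
  induction hc using Subgroup.closure_induction with
  | mem x hx =>
    obtain ⟨u, hu, v, hv, rfl⟩ := hx
    refine ⟨[u * v, u⁻¹, v⁻¹], ?_, ?_, ?_⟩
    · intro y hy
      simp only [List.mem_cons, List.mem_nil_iff, or_false] at hy
      rcases hy with rfl | rfl | rfl
      · exact L.mul_mem hu hv
      · exact L.inv_mem hu
      · exact L.inv_mem hv
    · simp [commutatorElement_def, mul_assoc]
    · simp [mul_assoc]
  | one => exact ⟨[], by simp, by simp, by simp⟩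
  | mul x y _ _ ihx ihy =>
    obtain ⟨a, ha, ha1, ha2⟩ := ihx
    obtain ⟨b, hb, hb1, hb2⟩ := ihy
    refine ⟨a ++ b, ?_, ?_, ?_⟩
    · intro y hy
      rcases List.mem_append.mp hy with h | h
      · exact ha y h
      · exact hb y h
    · rw [List.prod_append, ha1, hb1]
    · rw [List.reverse_append, List.prod_append, ha2, hb2, one_mul]
  | inv x _ ih =>
    obtain ⟨a, ha, ha1, ha2⟩ := ih
    refine ⟨(a.map (fun x => x⁻¹)).reverse, ?_, ?_, ?_⟩
    · intro y hy
      rw [List.mem_reverse, List.mem_map] at hy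
      obtain ⟨u, hu, rfl⟩ := hy
      exact L.inv_mem (ha u hu)
    · rw [← List.prod_inv_reverse, ha1]
    · rw [List.reverse_reverse]
      have h1 := List.prod_inv_reverse a.reverse
      rw [ha2, ← List.map_reverse, List.reverse_reverse, inv_one] at h1
      rw [← h1]

/-- absorption lemma -/
theorem absorb (hLK : L ≤ K) (hp : p ∈ K) (hcomm : ∀ z ∈ L, ∀ zs : List H, (∀ w ∈ zs, w ∈ L) →
      z * (p * Z p zs * p⁻¹) = (p * Z p zs * p⁻¹) * z)
    (z0 z1 : H) (h0 : z0 ∈ L) (h1 : z1 ∈ L) (hc : z1 * z0 ∈ ⁅L, L⁆) :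
    NS K p (z0 * (p * z1 * p⁻¹) * p * p) := by
  obtain ⟨ys, hys, hy1, hy2⟩ := comm_lists L _ hc
  have hY : Cj K (Z p (1 :: ys) * p) p := by
    have := lemW (K := K) L p hLK hp hcomm ys.length ys 1 rfl hys L.one_mem
    rw [hy2] at this
    simpa using this
  have hYeq : Z p (1 :: ys) = p * Z p ys * p⁻¹ := by simp [Z]
  set Y := Z p (1 :: ys) with hYdef
  have hys' : ∀ w ∈ ys.map (fun x => x⁻¹), w ∈ L := by
    intro y hy
    rw [List.mem_map] at hy
    obtain ⟨u, hu, rfl⟩ := hy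
    exact L.inv_mem (hys u hu)
  have hinv := Z_inv L p hcomm ys hys
  have hhm := Z_headmul L p hcomm (ys.map (fun x => x⁻¹)) z1 hys' h1
  have hWY : Y⁻¹ * (z0 * (p * z1 * p⁻¹)) = Z p (z0 :: headmul (ys.map (fun x => x⁻¹)) z1) := by
    have hc0 := hcomm z0 h0 ys hys
    have hc1 : (p * Z p ys * p⁻¹)⁻¹ * z0 = z0 * (p * Z p ys * p⁻¹)⁻¹ := by
      have := congrArg (fun u => (p * Z p ys * p⁻¹)⁻¹ * u * (p * Z p ys * p⁻¹)⁻¹) hc0
      simp only [mul_assoc, mul_inv_cancel, inv_mul_cancel_left, mul_one] at this ⊢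
      simpa [mul_assoc] using this
    show Y⁻¹ * (z0 * (p * z1 * p⁻¹)) = z0 * (p * Z p (headmul (ys.map (fun x => x⁻¹)) z1) * p⁻¹)
    rw [← hhm, ← hinv, hYeq, ← mul_assoc, hc1]
    group
  have hprod : (headmul (ys.map (fun x => x⁻¹)) z1).reverse.prod * z0 = 1 := by
    rw [headmul_prod, mul_assoc, ← List.prod_inv_reverse, hy1]
    simp
  have hW : Cj K (Y⁻¹ * (z0 * (p * z1 * p⁻¹)) * p) p := by
    rw [hWY]
    have := lemW (K := K) L p hLK hp hcomm _ (headmul (ys.map (fun x => x⁻¹)) z1) z0 rfl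
      (headmul_mem L _ _ hys' h1) h0
    rw [hprod, one_mul] at this
    exact this
  have hYK : Y ∈ K := by
    have : ∀ zs : List H, (∀ w ∈ zs, w ∈ L) → Z p zs ∈ K := by
      intro zs
      induction zs with
      | nil => intro _; exact K.one_mem
      | cons y r ih =>
        intro h
        exact K.mul_mem (hLK (h y (by simp))) (K.mul_mem (K.mul_mem hp
          (ih (fun w hw => h w (by simp [hw])))) (K.inv_mem hp))
    rw [hYeq]
    exact K.mul_mem (K.mul_mem hp (this ys hys)) (K.inv_mem hp)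
  have hW2 : Cj K ((z0 * (p * z1 * p⁻¹)) * p * Y⁻¹) p := by
    refine Cj.trans ⟨Y⁻¹, K.inv_mem hYK, ?_⟩ hW
    group
  have e : z0 * (p * z1 * p⁻¹) * p * p = ((z0 * (p * z1 * p⁻¹)) * p * Y⁻¹) * (Y * p) := by group
  rw [e]
  exact NS.mul hW2.symm.ns hY.symm.ns

end

end Pool.Agent.H27.PO
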