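import Pool.Agent.H27.PO2

namespace Pool.Agent.H27.PO

open Filter Topology Set

/-- the commutation hypothesis of the absorption lemma -/
theorem hcomm_of_displace {s t : ℝ} (hst : s ≤ t) (p : HR) (hp : t < p s ∨ p t < s) :
    ∀ z ∈ HJ s t, ∀ zs : List HR, (∀ w ∈ zs, w ∈ HJ s t) →
      z * (p * Z p zs * p⁻¹) = (p * Z p zs * p⁻¹) * z := by
  intro z hz zs hzs
  rcases hp with hp | hp
  · -- right displacement
    have hfix : ∀ zs : List HR, (∀ w ∈ zs, w ∈ HJ s t) → ∀ r, r ≤ s → Z p zs r = r := by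
      intro zs
      induction zs with
      | nil => intro _ r _; rfl
      | cons y l ih =>
        intro h r hr
        have h1 : p⁻¹ r ≤ s := by
          rw [inv_le_iff]
          linarith
        show (y * (p * Z p l * p⁻¹)) r = r
        rw [mul_ap, mul_ap, mul_ap, ih (fun w hw => h w (by simp [hw])) _ h1, ap_inv]
        exact (h y (by simp)).2 r (Or.inl hr)
    have h2 : ∀ r, s ≤ r → r ≤ t → (p * Z p zs * p⁻¹) r = r := by
      intro r _ hr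
      have h1 : p⁻¹ r ≤ s := by
        rw [inv_le_iff]
        linarith
      rw [mul_ap, mul_ap, hfix zs hzs _ h1, ap_inv]
    exact (comm_of_fix h2 hst hz.2).symm
  · have hfix : ∀ zs : List HR, (∀ w ∈ zs, w ∈ HJ s t) → ∀ r, t ≤ r → Z p zs r = r := by
      intro zs
      induction zs with
      | nil => intro _ r _; rfl
      | cons y l ih =>
        intro h r hr
        have h1 : t ≤ p⁻¹ r := by
          rw [le_inv_iff]
          linarith
        show (y * (p * Z p l * p⁻¹)) r = r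
        rw [mul_ap, mul_ap, mul_ap, ih (fun w hw => h w (by simp [hw])) _ h1, ap_inv]
        exact (h y (by simp)).2 r (Or.inr hr)
    have h2 : ∀ r, s ≤ r → r ≤ t → (p * Z p zs * p⁻¹) r = r := by
      intro r hr _
      have h1 : t ≤ p⁻¹ r := by
        rw [le_inv_iff]
        linarith
      rw [mul_ap, mul_ap, hfix zs hzs _ h1, ap_inv]
    exact (comm_of_fix h2 hst hz.2).symm

theorem absorbG {s t : ℝ} (hst : s ≤ t) (p : HR) (hpG : p ∈ Gam) (hp : t < p s ∨ p t < s)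
    (z0 z1 : HR) (h0 : z0 ∈ HJ s t) (h1 : z1 ∈ HJ s t) (hc : z1 * z0 ∈ ⁅HJ s t, HJ s t⁆) :
    NS Gam p (z0 * (p * z1 * p⁻¹) * p * p) :=
  absorb (K := Gam) (HJ s t) p (fun _ h => h.1) hpG (hcomm_of_displace hst p hp) z0 z1 h0 h1 hc

theorem KK_conjmem : ∀ k ∈ Gam, ∀ z ∈ KK, k * z * k⁻¹ ∈ KK := fun _ hk _ hz => KK_conj hk hz

/-- Lemma K -/
theorem lemmaK {f g : HR} (hf : f ∈ KK) (hg : g ∈ KK) {A B : ℝ} (hAB : A < B)
    (hgA : g A = A) (hgB : g B = B)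
    {a b : ℝ} (hAa : A < a) (hab : a ≤ b) (hbB : b < B)
    (hfg : ∀ t, (t ≤ a ∨ b ≤ t) → f t = g t)
    (hmA : ∀ r, A < r → ∃ u, A < u ∧ u < r ∧ g u ≠ u)
    (hmB : ∀ r, r < B → ∃ v, r < v ∧ v < B ∧ g v ≠ v) :
    ∃ w, NS Gam f w ∧ NS Gam g w := by
  have hfG := KK_le hf
  have hgG := KK_le hg
  have gA : ∀ r, A < r → A < g r := fun r hr => by
    have := g.lt_iff_lt.mpr hr
    rwa [hgA] at this
  have gB : ∀ r, r < B → g r < B := fun r hr => by
    have := g.lt_iff_lt.mpr hr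
    rwa [hgB] at this
  have giA : ∀ r, A < r → A < g⁻¹ r := fun r hr => by
    rw [lt_inv_iff, hgA]; exact hr
  have giB : ∀ r, r < B → g⁻¹ r < B := fun r hr => by
    rw [inv_lt_iff, hgB]; exact hr
  -- c and c2
  set c : HR := g⁻¹ * f with hc
  have hcs : SI a b c := by
    intro t ht
    rw [hc, mul_ap, hfg t ht, inv_ap]
  have hcK : c ∈ KK := KK.mul_mem (KK.inv_mem hg) hf
  have hfgc : f = g * c := by rw [hc]; group
  set c2 : HR := (g⁻¹ * c * g) * c with hc2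
  have hff : f * f = g * g * c2 := by
    rw [hc2, hfgc]; group
  set a2 := min a (g⁻¹ a) with ha2
  set b2 := max b (g⁻¹ b) with hb2
  have hAa2 : A < a2 := lt_min hAa (giA a hAa)
  have hb2B : b2 < B := max_lt hbB (giB b hbB)
  have ha2b2 : a2 ≤ b2 := (min_le_left _ _).trans (hab.trans (le_max_left _ _))
  have hc2s : SI a2 b2 c2 := by
    rw [hc2]
    refine SI.mul ?_ (hcs.mono (min_le_left _ _) (le_max_left _ _))
    have h1 := hcs.conj g⁻¹
    rw [inv_inv] at h1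
    exact h1.mono (min_le_right _ _) (le_max_right _ _)
  have hc2K : c2 ∈ KK := by
    rw [hc2]
    refine KK.mul_mem ?_ hcK
    have := KK_conj (Gam.inv_mem hgG) hcK
    rwa [inv_inv] at this
  obtain ⟨a3, hAa3, ha32⟩ := exists_between hAa2
  obtain ⟨b3, hb23, hb3B⟩ := exists_between hb2B
  have ha3b3 : a3 < b3 := by linarith
  set a4 := min a3 (g (g a3)) with ha4
  set b4 := max b3 (g (g b3)) with hb4
  have hAa4 : A < a4 := lt_min hAa3 (gA _ (gA _ hAa3))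
  have hb4B : b4 < B := max_lt hb3B (gB _ (gB _ hb3B))
  have ha4b4 : a4 < b4 := lt_of_le_of_lt (min_le_left _ _) (lt_of_lt_of_le ha3b3 (le_max_left _ _))
  have ha43 : a4 ≤ a3 := min_le_left _ _
  have hb34 : b3 ≤ b4 := le_max_left _ _
  -- u
  obtain ⟨u, hAu, hu, hgu⟩ := hmA (min a4 (g⁻¹ (g⁻¹ a4))) (lt_min hAa4 (giA _ (giA _ hAa4)))
  have hu1 : u < a4 := lt_of_lt_of_le hu (min_le_left _ _)
  have hu2 : g (g u) < a4 := by
    have := lt_of_lt_of_le hu (min_le_right _ _)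
    rw [lt_inv_iff, lt_inv_iff] at this
    exact this
  -- v
  obtain ⟨v, hv, hvB, hgv⟩ := hmB (max b4 (g⁻¹ b4)) (max_lt hb4B (giB _ hb4B))
  have hv1 : b4 < v := lt_of_le_of_lt (le_max_left _ _) hv
  have hv2 : b4 < g v := by
    have := lt_of_le_of_lt (le_max_right _ _) hv
    rwa [inv_lt_iff] at this
  -- h1
  have hh1 : ∃ h1 ∈ Gam, h1 a3 = 10 ∧ h1 b3 = 11 ∧
      ((h1 u = 1 ∧ h1 (g (g u)) = 3) ∨ (h1 u = 2 ∧ h1 (g (g u)) = 0)) := by
    rcases lt_or_gt_of_ne hgu with h | h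
    · have h2 : g (g u) < u := lt_trans (g.lt_iff_lt.mpr h) h
      obtain ⟨k, hk, k1, k2, k3, k4⟩ := trans4 (y1 := 0) (y2 := 2) (y3 := 10) (y4 := 11) h2
        (show u < a3 by linarith) ha3b3 (by norm_num) (by norm_num) (by norm_num)
      exact ⟨k, hk, k3, k4, Or.inr ⟨k2, k1⟩⟩
    · have h2 : u < g (g u) := lt_trans h (g.lt_iff_lt.mpr h)
      obtain ⟨k, hk, k1, k2, k3, k4⟩ := trans4 (y1 := 1) (y2 := 3) (y3 := 10) (y4 := 11) h2
        (show g (g u) < a3 by linarith) ha3b3 (by norm_num) (by norm_num) (by norm_num)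
      exact ⟨k, hk, k3, k4, Or.inl ⟨k1, k2⟩⟩
  have hh2 : ∃ h2 ∈ Gam, h2 a4 = 1 ∧ h2 b4 = 2 ∧
      ((h2 v = 10 ∧ h2 (g v) = 12) ∨ (h2 v = 11 ∧ h2 (g v) = 9)) := by
    rcases lt_or_gt_of_ne hgv with h | h
    · obtain ⟨k, hk, k1, k2, k3, k4⟩ := trans4 (y1 := 1) (y2 := 2) (y3 := 9) (y4 := 11) ha4b4
        hv2 h (by norm_num) (by norm_num) (by norm_num)
      exact ⟨k, hk, k1, k2, Or.inr ⟨k4, k3⟩⟩
    · obtain ⟨k, hk, k1, k2, k3, k4⟩ := trans4 (y1 := 1) (y2 := 2) (y3 := 10) (y4 := 12) ha4b4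
        hv1 h (by norm_num) (by norm_num) (by norm_num)
      exact ⟨k, hk, k1, k2, Or.inl ⟨k3, k4⟩⟩
  obtain ⟨h1, h1G, h1a, h1b, h1u⟩ := hh1
  obtain ⟨h2, h2G, h2a, h2b, h2v⟩ := hh2
  have hfv : f v = g v := hfg v (Or.inr (by
    have : b ≤ b2 := le_max_left _ _
    linarith))
  -- first absorption: p = f^{h2}, J1 = [10,11]
  set p : HR := h2 * f * h2⁻¹ with hp
  have hpG : p ∈ Gam := Gam.mul_mem (Gam.mul_mem h2G hfG) (Gam.inv_mem h2G)
  have hpdis : (11:ℝ) < p 10 ∨ p 11 < 10 := by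
    rcases h2v with ⟨e1, e2⟩ | ⟨e1, e2⟩
    · left
      have : h2⁻¹ 10 = v := by rw [← e1, inv_ap]
      rw [hp, mul_ap, mul_ap, this, hfv, e2]
      norm_num
    · right
      have : h2⁻¹ 11 = v := by rw [← e1, inv_ap]
      rw [hp, mul_ap, mul_ap, this, hfv, e2]
      norm_num
  set d : HR := h1 * c2 * h1⁻¹ with hd
  have hdK : d ∈ KK := KK_conj h1G hc2K
  have hds : SI (h1 a2) (h1 b2) d := hc2s.conj h1
  have e10 : (10:ℝ) < h1 a2 := by rw [← h1a]; exact h1.lt_iff_lt.mpr ha32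
  have e11 : h1 b2 < 11 := by rw [← h1b]; exact h1.lt_iff_lt.mpr hb23
  have e12 : h1 a2 ≤ h1 b2 := h1.monotone ha2b2
  have hdJ : d ∈ HJ 10 11 := ⟨KK_le hdK, hds.mono e10.le e11.le⟩
  have hdC : d ∈ ⁅HJ 10 11, HJ 10 11⁆ := compress hdK e10 e12 e11 hds
  have abs1 := absorbG (by norm_num) p hpG hpdis d⁻¹ 1 ((HJ 10 11).inv_mem hdJ) (HJ 10 11).one_mem
    (by rw [one_mul]; exact Subgroup.inv_mem _ hdC)
  have hfp : NS Gam f p := NS.conj h2 h2G
  have hV1 : NS Gam f (d⁻¹ * p * p) := by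
    have := hfp.trans abs1
    have e : d⁻¹ * (p * 1 * p⁻¹) * p * p = d⁻¹ * p * p := by group
    rwa [e] at this
  have hV0 : NS Gam f (h1 * (f * f) * h1⁻¹) := (NS.mul NS.self NS.self).conj' h1G
  set V : HR := (h1 * (f * f) * h1⁻¹) * (d⁻¹ * p * p) with hV
  have hVf : NS Gam f V := NS.mul hV0 hV1
  -- D
  set D : HR := (h1 * (g * g) * h1⁻¹) * (h2 * (g * g) * h2⁻¹) with hD
  set c' : HR := h2 * c2 * h2⁻¹ with hc'
  have hVD : V = D * c' := by
    rw [hV, hD, hc', hd, hp]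
    have : f * f = g * g * c2 := hff
    have e1 : h1 * (f * f) * h1⁻¹ * ((h1 * c2 * h1⁻¹)⁻¹ * (h2 * f * h2⁻¹) * (h2 * f * h2⁻¹)) =
      h1 * (f * f) * c2⁻¹ * h1⁻¹ * (h2 * (f * f) * h2⁻¹) := by group
    rw [e1, this]
    group
  have hDg : NS Gam g D :=
    NS.mul ((NS.mul NS.self NS.self).conj' h1G) ((NS.mul NS.self NS.self).conj' h2G)
  have hDG : D ∈ Gam := Gam.mul_mem
    (Gam.mul_mem (Gam.mul_mem h1G (Gam.mul_mem hgG hgG)) (Gam.inv_mem h1G))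
    (Gam.mul_mem (Gam.mul_mem h2G (Gam.mul_mem hgG hgG)) (Gam.inv_mem h2G))
  have hc'K : c' ∈ KK := KK_conj h2G hc2K
  have hc's : SI (h2 a2) (h2 b2) c' := hc2s.conj h2
  have f1 : h2 a3 < h2 a2 := h2.lt_iff_lt.mpr ha32
  have f2 : h2 b2 < h2 b3 := h2.lt_iff_lt.mpr hb23
  have f3 : h2 a2 ≤ h2 b2 := h2.monotone ha2b2
  have f4 : 1 ≤ h2 a3 := by rw [← h2a]; exact h2.monotone ha43
  have f5 : h2 b3 ≤ 2 := by rw [← h2b]; exact h2.monotone hb34
  have f6 : 1 ≤ h2 (g (g a3)) := by rw [← h2a]; exact h2.monotone (min_le_right _ _)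
  have f7 : h2 (g (g b3)) ≤ 2 := by rw [← h2b]; exact h2.monotone (le_max_right _ _)
  have hDdis : h2 b3 < D (h2 a3) ∨ D (h2 b3) < h2 a3 := by
    have g1 : (h2 * (g * g) * h2⁻¹) (h2 a3) = h2 (g (g a3)) := by
      rw [mul_ap, mul_ap, inv_ap, mul_ap]
    have g2 : (h2 * (g * g) * h2⁻¹) (h2 b3) = h2 (g (g b3)) := by
      rw [mul_ap, mul_ap, inv_ap, mul_ap]
    have g3 : (h1 * (g * g) * h1⁻¹) (h1 u) = h1 (g (g u)) := by
      rw [mul_ap, mul_ap, inv_ap, mul_ap]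
    rcases h1u with ⟨k1, k2⟩ | ⟨k1, k2⟩
    · left
      rw [hD, mul_ap, g1]
      have : (h1 * (g * g) * h1⁻¹) 1 ≤ (h1 * (g * g) * h1⁻¹) (h2 (g (g a3))) :=
        (h1 * (g * g) * h1⁻¹).monotone f6
      rw [← k1, g3, k2] at this
      linarith
    · right
      rw [hD, mul_ap, g2]
      have : (h1 * (g * g) * h1⁻¹) (h2 (g (g b3))) ≤ (h1 * (g * g) * h1⁻¹) 2 :=
        (h1 * (g * g) * h1⁻¹).monotone f7
      rw [← k1, g3, k2] at this
      linarith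
  have hc'J : c' ∈ HJ (h2 a3) (h2 b3) := ⟨KK_le hc'K, hc's.mono f1.le f2.le⟩
  have hc'C : c' * c' ∈ ⁅HJ (h2 a3) (h2 b3), HJ (h2 a3) (h2 b3)⁆ := by
    have := compress hc'K f1 f3 f2 hc's
    exact Subgroup.mul_mem _ this this
  have abs2 := absorbG (h2.monotone ha3b3.le) D hDG hDdis c' c' hc'J hc'J hc'C
  have ew : c' * (D * c' * D⁻¹) * D * D = c' * D * c' * D := by group
  rw [ew] at abs2
  refine ⟨c' * D * c' * D, ?_, hDg.trans abs2⟩
  have h3 : NS Gam f (V * V) := NS.mul hVf hVf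
  have h4 := h3.conj' (KK_le hc'K)
  have e5 : c' * (V * V) * c'⁻¹ = c' * D * c' * D := by
    rw [hVD]; group
  rwa [e5] at h4

end Pool.Agent.H27.PO
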