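import Pool.Agent.H27.PO1
import Pool.Prelude.Def_F_6038d89f

namespace Pool.Agent.H27.PO

open N5f09da3c

variable {G : Type*} [Group G]

structure NC (P : Set G) : Prop where
  one : 1 ∈ P
  mul : ∀ a ∈ P, ∀ b ∈ P, a * b ∈ P
  conj : ∀ a ∈ P, ∀ h : G, h * a * h⁻¹ ∈ P
  anti : ∀ a ∈ P, a⁻¹ ∈ P → a = 1

theorem NC.ns {P : Set G} (hP : NC P) {x y : G} (hx : x ∈ P) (h : NS (⊤ : Subgroup G) x y) :
    y ∈ P := by
  induction h with
  | conj h _ => exact hP.conj x hx h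
  | mul _ _ ih1 ih2 => exact hP.mul _ ih1 _ ih2

theorem key (h1 : ∀ g : G, g ≠ 1 → ¬ NS (⊤ : Subgroup G) g 1)
    (P : Set G) (hP : NC P) (hmax : ∀ Q : Set G, NC Q → P ⊆ Q → Q = P) (g : G) (hg : g ∉ P) :
    ∃ x, NS (⊤ : Subgroup G) g x ∧ x⁻¹ ∈ P := by
  by_contra hcon
  push Not at hcon
  have hg1 : g ≠ 1 := fun h => hg (h ▸ hP.one)
  let Q : Set G := {z | ∃ p ∈ P, ∃ s, (s = 1 ∨ NS (⊤ : Subgroup G) g s) ∧ z = p * s}
  have hsm : ∀ s t : G, (s = 1 ∨ NS (⊤ : Subgroup G) g s) → (t = 1 ∨ NS (⊤ : Subgroup G) g t) →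
      (s * t = 1 ∧ s = 1 ∧ t = 1) ∨ NS (⊤ : Subgroup G) g (s * t) := by
    rintro s t (rfl | hs) (rfl | ht)
    · left; simp
    · right; simpa using ht
    · right; simpa using hs
    · right; exact NS.mul hs ht
  have hsc : ∀ s h : G, (s = 1 ∨ NS (⊤ : Subgroup G) g s) →
      (h * s * h⁻¹ = 1 ∨ NS (⊤ : Subgroup G) g (h * s * h⁻¹)) := by
    rintro s h (rfl | hs)
    · left; simp
    · right; exact hs.conj' trivial
  have hQ : NC Q := by
    refine ⟨⟨1, hP.one, 1, Or.inl rfl, by simp⟩, ?_, ?_, ?_⟩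
    · rintro a ⟨p, hp, s, hs, rfl⟩ b ⟨q, hq, t, ht, rfl⟩
      refine ⟨p * (s * q * s⁻¹), hP.mul _ hp _ (hP.conj q hq s), s * t, ?_, by group⟩
      rcases hsm s t hs ht with h | h
      · exact Or.inl h.1
      · exact Or.inr h
    · rintro a ⟨p, hp, s, hs, rfl⟩ h
      refine ⟨h * p * h⁻¹, hP.conj p hp h, h * s * h⁻¹, hsc s h hs, by group⟩
    · rintro a ⟨p, hp, s, hs, rfl⟩ ⟨q, hq, t, ht, hqt⟩
      -- p s q t = 1
      have e1 : p * (s * q * s⁻¹) * (s * t) = 1 := by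
        have : p * s * (q * t) = 1 := by rw [← hqt]; simp
        calc p * (s * q * s⁻¹) * (s * t) = p * s * (q * t) := by group
          _ = 1 := this
      have e2 : (s * t)⁻¹ ∈ P := by
        have : (s * t)⁻¹ = p * (s * q * s⁻¹) := (mul_eq_one_iff_eq_inv.mp e1).symm
        rw [this]
        exact hP.mul _ hp _ (hP.conj q hq s)
      rcases hsm s t hs ht with h | h
      · obtain ⟨_, rfl, rfl⟩ := h
        have e3 : p * q = 1 := by simpa using e1
        have e4 : p⁻¹ ∈ P := by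
          rw [← eq_inv_of_mul_eq_one_right e3]
          exact hq
        have := hP.anti p hp e4
        rw [this]
        simp
      · exact absurd e2 (hcon _ h)
  have hPQ : P ⊆ Q := fun p hp => ⟨p, hp, 1, Or.inl rfl, by simp⟩
  have := hmax Q hQ hPQ
  apply hg
  rw [← this]
  exact ⟨1, hP.one, g, Or.inr NS.self, by simp⟩

theorem ns_inv {g x : G} (h : NS (⊤ : Subgroup G) g⁻¹ x) : NS (⊤ : Subgroup G) g x⁻¹ := by
  induction h with
  | conj h _ =>
    have := NS.conj (K := (⊤ : Subgroup G)) (g := g) h trivial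
    have e : (h * g⁻¹ * h⁻¹)⁻¹ = h * g * h⁻¹ := by group
    rw [e]; exact this
  | mul _ _ ih1 ih2 =>
    rw [mul_inv_rev]
    exact NS.mul ih2 ih1

/-- criterion for pro-orderability -/
theorem criterion (h1 : ∀ g : G, g ≠ 1 → ¬ NS (⊤ : Subgroup G) g 1)
    (h2 : ∀ g : G, g ≠ 1 → ∀ x y, NS (⊤ : Subgroup G) g x → NS (⊤ : Subgroup G) g y →
      ∃ w, NS (⊤ : Subgroup G) x w ∧ NS (⊤ : Subgroup G) y w) : ProOrderable G := by
  intro r hr hbi
  have hrefl : ∀ a, r a a := hr.toIsPreorder.toRefl.refl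
  have htrans : ∀ a b c, r a b → r b c → r a c := hr.toIsPreorder.toIsTrans.trans
  have hanti : ∀ a b, r a b → r b a → a = b := hr.toAntisymm.antisymm
  let P0 : Set G := {x | r 1 x}
  have hP0 : NC P0 := by
    refine ⟨hrefl 1, ?_, ?_, ?_⟩
    · intro a ha b hb
      have h3 := hbi.1 a 1 b hb
      rw [mul_one] at h3
      exact htrans _ _ _ ha h3
    · intro a ha h
      have h3 := hbi.2 h⁻¹ _ _ (hbi.1 h 1 a ha)
      show r 1 (h * a * h⁻¹)
      simpa using h3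
    · intro a ha ha'
      have h3 := hbi.1 a 1 a⁻¹ ha'
      rw [mul_one, mul_inv_cancel] at h3
      exact hanti _ _ h3 ha
  obtain ⟨P, hPP, hPmax⟩ := zorn_subset_nonempty {P : Set G | NC P} (by
    intro c hc hchain hne
    refine ⟨⋃₀ c, ?_, fun s hs => Set.subset_sUnion_of_mem hs⟩
    refine ⟨?_, ?_, ?_, ?_⟩
    · obtain ⟨s, hs⟩ := hne
      exact ⟨s, hs, (hc hs).one⟩
    · rintro a ⟨s, hs, ha⟩ b ⟨t, ht, hb⟩
      rcases hchain.total hs ht with h | h
      · exact ⟨t, ht, (hc ht).mul a (h ha) b hb⟩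
      · exact ⟨s, hs, (hc hs).mul a ha b (h hb)⟩
    · rintro a ⟨s, hs, ha⟩ h
      exact ⟨s, hs, (hc hs).conj a ha h⟩
    · rintro a ⟨s, hs, ha⟩ ⟨t, ht, hb⟩
      rcases hchain.total hs ht with h | h
      · exact (hc ht).anti a (h ha) hb
      · exact (hc hs).anti a ha (h hb)) P0 hP0
  have hP : NC P := hPmax.prop
  have hmax : ∀ Q : Set G, NC Q → P ⊆ Q → Q = P := fun Q hQ hPQ =>
    (hPmax.eq_of_subset hQ hPQ).symm
  have htot : ∀ g : G, g ∈ P ∨ g⁻¹ ∈ P := by
    intro g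
    by_contra hcon
    push Not at hcon
    obtain ⟨x, hx, hxP⟩ := key h1 P hP hmax g hcon.1
    obtain ⟨y, hy, hyP⟩ := key h1 P hP hmax g⁻¹ hcon.2
    have hg1 : g ≠ 1 := fun h => hcon.1 (h ▸ hP.one)
    have hy' := ns_inv hy
    obtain ⟨w, hxw, hyw⟩ := h2 g hg1 x y⁻¹ hx hy'
    have hw1 : w ∈ P := hP.ns hyP hyw
    have hw2 : w⁻¹ ∈ P := by
      have : NS (⊤ : Subgroup G) x⁻¹ w⁻¹ := by
        apply ns_inv
        rw [inv_inv]
        exact hxw
      exact hP.ns hxP this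
    have hw := hP.anti w hw1 hw2
    have hx1 : x ≠ 1 := by
      rintro rfl
      exact h1 g hg1 hx
    rw [hw] at hxw
    exact h1 x hx1 hxw
  refine ⟨fun a b => a⁻¹ * b ∈ P, ?_, ⟨?_, ?_⟩, ?_⟩
  · refine { refl := ?_, trans := ?_, antisymm := ?_, total := ?_ }
    · intro a
      simpa using hP.one
    · intro a b c hab hbc
      have := hP.mul _ hab _ hbc
      have e : a⁻¹ * b * (b⁻¹ * c) = a⁻¹ * c := by group
      rwa [e] at this
    · intro a b hab hba
      have : (a⁻¹ * b)⁻¹ ∈ P := by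
        have e : (a⁻¹ * b)⁻¹ = b⁻¹ * a := by group
        rw [e]; exact hba
      have h3 := hP.anti _ hab this
      have h4 := congrArg (fun u => a * u) h3
      simp only [mul_inv_cancel_left, mul_one] at h4
      exact h4.symm
    · intro a b
      rcases htot (a⁻¹ * b) with h | h
      · exact Or.inl h
      · right
        have e : (a⁻¹ * b)⁻¹ = b⁻¹ * a := by group
        rwa [e] at h
  · intro g a b h
    have e : (g * a)⁻¹ * (g * b) = a⁻¹ * b := by group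
    show (g * a)⁻¹ * (g * b) ∈ P
    rw [e]; exact h
  · intro g a b h
    have h3 := hP.conj _ h g⁻¹
    have e : (a * g)⁻¹ * (b * g) = g⁻¹ * (a⁻¹ * b) * g⁻¹⁻¹ := by group
    show (a * g)⁻¹ * (b * g) ∈ P
    rw [e]; exact h3
  · intro x y hxy
    apply hPP
    have h3 := hbi.1 x⁻¹ _ _ hxy
    rw [inv_mul_cancel] at h3
    exact h3

theorem proOrderable_ulift (h : ProOrderable G) : ProOrderable (ULift G) := by
  intro r hr hbi
  have hrefl : ∀ a, r a a := hr.toIsPreorder.toRefl.refl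
  have htrans : ∀ a b c, r a b → r b c → r a c := hr.toIsPreorder.toIsTrans.trans
  have hanti : ∀ a b, r a b → r b a → a = b := hr.toAntisymm.antisymm
  obtain ⟨s, hs, hsb, hrs⟩ := h (fun a b => r ⟨a⟩ ⟨b⟩)
    { refl := fun a => hrefl _, trans := fun a b c h h' => htrans _ _ _ h h',
      antisymm := fun a b h h' => congrArg ULift.down (hanti _ _ h h') }
    ⟨fun g a b h => hbi.1 ⟨g⟩ ⟨a⟩ ⟨b⟩ h, fun g a b h => hbi.2 ⟨g⟩ ⟨a⟩ ⟨b⟩ h⟩
  have srefl : ∀ a, s a a := hs.toIsPartialOrder.toIsPreorder.toRefl.refl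
  have strans : ∀ a b c, s a b → s b c → s a c := hs.toIsPartialOrder.toIsPreorder.toIsTrans.trans
  have santi : ∀ a b, s a b → s b a → a = b := hs.toIsPartialOrder.toAntisymm.antisymm
  have stot : ∀ a b, s a b ∨ s b a := hs.toTotal.total
  refine ⟨fun a b => s a.down b.down, ?_, ⟨fun g a b h => hsb.1 _ _ _ h, fun g a b h => hsb.2 _ _ _ h⟩,
    fun x y h => hrs _ _ h⟩
  exact { refl := fun a => srefl _, trans := fun a b c h h' => strans _ _ _ h h',
          antisymm := fun a b h h' => ULift.down_injective (santi _ _ h h'),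
          total := fun a b => stot _ _ }

end Pool.Agent.H27.PO
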