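import Pool.Agent.H27.PO3
import Pool.Agent.H27.POCrit

namespace Pool.Agent.H27.PO

open Filter Topology Set

theorem tR' (f : HR) (t : ℝ) : Tendsto f (𝓝[>] t) (𝓝[>] (f t)) :=
  (f.continuous.continuousWithinAt (s := Ioi t)).tendsto_nhdsWithin (fun _ hs => f.strictMono hs)

theorem tL' (f : HR) (t : ℝ) : Tendsto f (𝓝[<] t) (𝓝[<] (f t)) :=
  (f.continuous.continuousWithinAt (s := Iio t)).tendsto_nhdsWithin (fun _ hs => f.strictMono hs)

def LE' (x : HR) (A lam : ℝ) (k : ℕ) : Prop :=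
  (∀ t, t ≤ A → x t = t) ∧ ∀ᶠ t in 𝓝[>] A, x t = A + lam ^ k * (t - A)

def RE' (x : HR) (B mu : ℝ) (l : ℕ) : Prop :=
  (∀ t, B ≤ t → x t = t) ∧ ∀ᶠ t in 𝓝[<] B, x t = B + mu ^ l * (t - B)

theorem exists_left {g : HR} (hg : g ∈ Gam) (hg1 : g ≠ 1) :
    ∃ A lam : ℝ, 0 < lam ∧ lam ≠ 1 ∧ LE' g A lam 1 := by
  obtain ⟨hPL, a, b, hab⟩ := hg
  let S : Set ℝ := {t | g t ≠ t}
  have hne : S.Nonempty := by
    by_contra h
    rw [Set.not_nonempty_iff_eq_empty] at h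
    apply hg1
    apply ext_ap
    intro t
    by_contra h'
    have : t ∈ S := h'
    rw [h] at this
    exact this
  have hbd : BddBelow S := ⟨a, fun t ht => by
    by_contra h
    exact ht (hab t (Or.inl (not_le.mp h).le))⟩
  set A := sInf S with hA
  have hlt : ∀ t, t < A → g t = t := by
    intro t ht
    by_contra h
    exact absurd (csInf_le hbd h) (not_le.mpr ht)
  have hgA : g A = A := by
    have hcl : IsClosed {t : ℝ | g t = t} := isClosed_eq g.continuous continuous_id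
    have h1 : closure (Iio A) ⊆ {t : ℝ | g t = t} := hcl.closure_subset_iff.mpr hlt
    rw [closure_Iio] at h1
    exact h1 (Set.mem_Iic.mpr le_rfl)
  obtain ⟨m, c, hm, hev⟩ := (hPL A).1
  have h0 : g A = m * A + c := hev.self_of_nhdsWithin (Set.mem_Ici.mpr le_rfl)
  have hev2 : ∀ᶠ s in 𝓝[≥] A, g s = A + m * (s - A) := by
    filter_upwards [hev] with s hs
    rw [hs]
    linarith
  refine ⟨A, m, hm, ?_, ?_, ?_⟩
  · intro hm1
    obtain ⟨u, hu, hsub⟩ := mem_nhdsGE_iff_exists_Ico_subset.mp hev2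
    have : u ≤ A := by
      apply le_csInf hne
      intro t ht
      by_contra hcon
      push Not at hcon
      apply ht
      rcases lt_or_ge t A with h | h
      · exact hlt t h
      · have := hsub ⟨h, hcon⟩
        have h3 : g t = A + m * (t - A) := this
        rw [h3, hm1]
        ring
    exact absurd hu (not_lt.mpr this)
  · intro t ht
    rcases lt_or_eq_of_le ht with h | h
    · exact hlt t h
    · rw [h]; exact hgA
  · have : 𝓝[>] A ≤ 𝓝[≥] A := nhdsWithin_mono _ Ioi_subset_Ici_self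
    filter_upwards [this hev2] with s hs
    rw [pow_one]
    exact hs

theorem exists_right {g : HR} (hg : g ∈ Gam) (hg1 : g ≠ 1) :
    ∃ B mu : ℝ, 0 < mu ∧ mu ≠ 1 ∧ RE' g B mu 1 := by
  obtain ⟨hPL, a, b, hab⟩ := hg
  let S : Set ℝ := {t | g t ≠ t}
  have hne : S.Nonempty := by
    by_contra h
    rw [Set.not_nonempty_iff_eq_empty] at h
    apply hg1
    apply ext_ap
    intro t
    by_contra h'
    have : t ∈ S := h'
    rw [h] at this
    exact this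
  have hbd : BddAbove S := ⟨b, fun t ht => by
    by_contra h
    exact ht (hab t (Or.inr (not_le.mp h).le))⟩
  set A := sSup S with hA
  have hlt : ∀ t, A < t → g t = t := by
    intro t ht
    by_contra h
    exact absurd (le_csSup hbd h) (not_le.mpr ht)
  have hgA : g A = A := by
    have hcl : IsClosed {t : ℝ | g t = t} := isClosed_eq g.continuous continuous_id
    have h1 : closure (Ioi A) ⊆ {t : ℝ | g t = t} := hcl.closure_subset_iff.mpr hlt
    rw [closure_Ioi] at h1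
    exact h1 (Set.mem_Ici.mpr le_rfl)
  obtain ⟨m, c, hm, hev⟩ := (hPL A).2
  have h0 : g A = m * A + c := hev.self_of_nhdsWithin (Set.mem_Iic.mpr le_rfl)
  have hev2 : ∀ᶠ s in 𝓝[≤] A, g s = A + m * (s - A) := by
    filter_upwards [hev] with s hs
    rw [hs]
    linarith
  refine ⟨A, m, hm, ?_, ?_, ?_⟩
  · intro hm1
    obtain ⟨u, hu, hsub⟩ := mem_nhdsLE_iff_exists_Ioc_subset.mp hev2
    have : A ≤ u := by
      apply csSup_le hne
      intro t ht
      by_contra hcon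
      push Not at hcon
      apply ht
      rcases lt_or_ge A t with h | h
      · exact hlt t h
      · have := hsub ⟨hcon, h⟩
        have h3 : g t = A + m * (t - A) := this
        rw [h3, hm1]
        ring
    exact absurd hu (not_lt.mpr this)
  · intro t ht
    rcases lt_or_eq_of_le ht with h | h
    · exact hlt t h
    · rw [← h]; exact hgA
  · have : 𝓝[<] A ≤ 𝓝[≤] A := nhdsWithin_mono _ Iio_subset_Iic_self
    filter_upwards [this hev2] with s hs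
    rw [pow_one]
    exact hs

theorem LE'.conj {x h : HR} {A lam : ℝ} {k : ℕ} (hx : LE' x A lam k) (hh : h ∈ Gam) :
    LE' (h * x * h⁻¹) (h A) lam k := by
  obtain ⟨m, c, hm, hev⟩ := (hh.1 A).1
  have h0 : h A = m * A + c := hev.self_of_nhdsWithin (Set.mem_Ici.mpr le_rfl)
  constructor
  · intro t ht
    rw [mul_ap, mul_ap, hx.1 _ (by rw [inv_le_iff]; exact ht), ap_inv]
  · have hsub : 𝓝[>] A ≤ 𝓝[≥] A := nhdsWithin_mono _ Ioi_subset_Ici_self
    have hev' := hsub hev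
    have hxA : x A = A := hx.1 A le_rfl
    have ht1 : Tendsto x (𝓝[>] A) (𝓝[>] A) := by
      have := tR' x A
      rwa [hxA] at this
    have ht2 : Tendsto (⇑(h⁻¹ : HR)) (𝓝[>] (h A)) (𝓝[>] A) := by
      have := tR' h⁻¹ (h A)
      rwa [inv_ap] at this
    filter_upwards [ht2.eventually hx.2, ht2.eventually (ht1.eventually hev'),
      ht2.eventually hev'] with t h1 h2 h3
    rw [ap_inv] at h3
    have h2' : h (x (h⁻¹ t)) = m * x (h⁻¹ t) + c := h2
    rw [mul_ap, mul_ap, h2', h1, h0]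
    have e : m * (A + lam ^ k * (h⁻¹ t - A)) + c =
      m * A + c + lam ^ k * ((m * h⁻¹ t + c) - (m * A + c)) := by ring
    rw [e, ← h3]

theorem RE'.conj {x h : HR} {A lam : ℝ} {k : ℕ} (hx : RE' x A lam k) (hh : h ∈ Gam) :
    RE' (h * x * h⁻¹) (h A) lam k := by
  obtain ⟨m, c, hm, hev⟩ := (hh.1 A).2
  have h0 : h A = m * A + c := hev.self_of_nhdsWithin (Set.mem_Iic.mpr le_rfl)
  constructor
  · intro t ht
    rw [mul_ap, mul_ap, hx.1 _ (by rw [le_inv_iff]; exact ht), ap_inv]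
  · have hsub : 𝓝[<] A ≤ 𝓝[≤] A := nhdsWithin_mono _ Iio_subset_Iic_self
    have hev' := hsub hev
    have hxA : x A = A := hx.1 A le_rfl
    have ht1 : Tendsto x (𝓝[<] A) (𝓝[<] A) := by
      have := tL' x A
      rwa [hxA] at this
    have ht2 : Tendsto (⇑(h⁻¹ : HR)) (𝓝[<] (h A)) (𝓝[<] A) := by
      have := tL' h⁻¹ (h A)
      rwa [inv_ap] at this
    filter_upwards [ht2.eventually hx.2, ht2.eventually (ht1.eventually hev'),
      ht2.eventually hev'] with t h1 h2 h3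
    rw [ap_inv] at h3
    have h2' : h (x (h⁻¹ t)) = m * x (h⁻¹ t) + c := h2
    rw [mul_ap, mul_ap, h2', h1, h0]
    have e : m * (A + lam ^ k * (h⁻¹ t - A)) + c =
      m * A + c + lam ^ k * ((m * h⁻¹ t + c) - (m * A + c)) := by ring
    rw [e, ← h3]

theorem LE'.mul_same {x y : HR} {A lam : ℝ} {k k' : ℕ} (hx : LE' x A lam k)
    (hy : LE' y A lam k') : LE' (x * y) A lam (k + k') := by
  constructor
  · intro t ht
    rw [mul_ap, hy.1 t ht, hx.1 t ht]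
  · have hyA : y A = A := hy.1 A le_rfl
    have ht1 : Tendsto y (𝓝[>] A) (𝓝[>] A) := by
      have := tR' y A
      rwa [hyA] at this
    filter_upwards [hy.2, ht1.eventually hx.2] with t h1 h2
    rw [mul_ap, h2, h1]
    ring

theorem RE'.mul_same {x y : HR} {A lam : ℝ} {k k' : ℕ} (hx : RE' x A lam k)
    (hy : RE' y A lam k') : RE' (x * y) A lam (k + k') := by
  constructor
  · intro t ht
    rw [mul_ap, hy.1 t ht, hx.1 t ht]
  · have hyA : y A = A := hy.1 A le_rfl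
    have ht1 : Tendsto y (𝓝[<] A) (𝓝[<] A) := by
      have := tL' y A
      rwa [hyA] at this
    filter_upwards [hy.2, ht1.eventually hx.2] with t h1 h2
    rw [mul_ap, h2, h1]
    ring

/-- the right factor starts later -/
theorem LE'.mul_fix {x y : HR} {A A' lam : ℝ} {k : ℕ} (hx : LE' x A lam k)
    (hy : ∀ t, t ≤ A' → y t = t) (hA : A < A') : LE' (x * y) A lam k := by
  constructor
  · intro t ht
    rw [mul_ap, hy t (by linarith), hx.1 t ht]
  · have : ∀ᶠ t in 𝓝[>] A, t < A' := nhdsWithin_le_nhds (eventually_lt_nhds hA)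
    filter_upwards [hx.2, this] with t h1 h2
    rw [mul_ap, hy t h2.le, h1]

/-- the left factor starts later -/
theorem LE'.fix_mul {x y : HR} {A A' lam : ℝ} {k : ℕ} (hy : LE' y A lam k)
    (hx : ∀ t, t ≤ A' → x t = t) (hA : A < A') : LE' (x * y) A lam k := by
  constructor
  · intro t ht
    rw [mul_ap, hy.1 t ht, hx t (by linarith)]
  · have hyA : y A = A := hy.1 A le_rfl
    have ht1 : Tendsto y (𝓝[>] A) (𝓝[>] A) := by
      have := tR' y A
      rwa [hyA] at this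
    have : ∀ᶠ t in 𝓝[>] A, t < A' := nhdsWithin_le_nhds (eventually_lt_nhds hA)
    filter_upwards [hy.2, ht1.eventually this] with t h1 h2
    rw [mul_ap, hx _ (le_of_lt h2), h1]

theorem RE'.mul_fix {x y : HR} {A A' lam : ℝ} {k : ℕ} (hx : RE' x A lam k)
    (hy : ∀ t, A' ≤ t → y t = t) (hA : A' < A) : RE' (x * y) A lam k := by
  constructor
  · intro t ht
    rw [mul_ap, hy t (by linarith), hx.1 t ht]
  · have : ∀ᶠ t in 𝓝[<] A, A' < t := nhdsWithin_le_nhds (eventually_gt_nhds hA)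
    filter_upwards [hx.2, this] with t h1 h2
    rw [mul_ap, hy t h2.le, h1]

theorem RE'.fix_mul {x y : HR} {A A' lam : ℝ} {k : ℕ} (hy : RE' y A lam k)
    (hx : ∀ t, A' ≤ t → x t = t) (hA : A' < A) : RE' (x * y) A lam k := by
  constructor
  · intro t ht
    rw [mul_ap, hy.1 t ht, hx t (by linarith)]
  · have hyA : y A = A := hy.1 A le_rfl
    have ht1 : Tendsto y (𝓝[<] A) (𝓝[<] A) := by
      have := tL' y A
      rwa [hyA] at this
    have : ∀ᶠ t in 𝓝[<] A, A' < t := nhdsWithin_le_nhds (eventually_gt_nhds hA)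
    filter_upwards [hy.2, ht1.eventually this] with t h1 h2
    rw [mul_ap, hx _ (le_of_lt h2), h1]

theorem LE'.pow {x : HR} {A lam : ℝ} {k : ℕ} (hx : LE' x A lam k) (n : ℕ) :
    LE' (x ^ n) A lam (k * n) := by
  induction n with
  | zero =>
    constructor
    · intro t _
      rfl
    · filter_upwards with t
      rw [pow_zero, one_ap, mul_zero, pow_zero]
      ring
  | succ n ih =>
    rw [pow_succ, Nat.mul_succ]
    exact ih.mul_same hx

theorem RE'.pow {x : HR} {A lam : ℝ} {k : ℕ} (hx : RE' x A lam k) (n : ℕ) :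
    RE' (x ^ n) A lam (k * n) := by
  induction n with
  | zero =>
    constructor
    · intro t _
      rfl
    · filter_upwards with t
      rw [pow_zero, one_ap, mul_zero, pow_zero]
      ring
  | succ n ih =>
    rw [pow_succ, Nat.mul_succ]
    exact ih.mul_same hx

theorem pow_ne {lam : ℝ} (h0 : 0 < lam) (h1 : lam ≠ 1) {k : ℕ} (hk : 1 ≤ k) : lam ^ k ≠ 1 := by
  intro h
  exact h1 ((pow_eq_one_iff_of_nonneg h0.le (by omega)).mp h)

theorem LE'.moves {x : HR} {A lam : ℝ} {k : ℕ} (hx : LE' x A lam k) (h0 : 0 < lam)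
    (h1 : lam ≠ 1) (hk : 1 ≤ k) (r : ℝ) (hr : A < r) : ∃ u, A < u ∧ u < r ∧ x u ≠ u := by
  have : ∀ᶠ t in 𝓝[>] A, t < r := nhdsWithin_le_nhds (eventually_lt_nhds hr)
  obtain ⟨u, hu1, hu2, hu3⟩ := (hx.2.and (this.and self_mem_nhdsWithin)).exists
  refine ⟨u, hu3, hu2, ?_⟩
  rw [hu1]
  intro h
  have hu3' : A < u := hu3
  have h4 : (lam ^ k - 1) * (u - A) = 0 := by linarith
  rcases mul_eq_zero.mp h4 with h5 | h5
  · exact pow_ne h0 h1 hk (by linarith)
  · linarith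

theorem RE'.moves {x : HR} {A lam : ℝ} {k : ℕ} (hx : RE' x A lam k) (h0 : 0 < lam)
    (h1 : lam ≠ 1) (hk : 1 ≤ k) (r : ℝ) (hr : r < A) : ∃ u, r < u ∧ u < A ∧ x u ≠ u := by
  have : ∀ᶠ t in 𝓝[<] A, r < t := nhdsWithin_le_nhds (eventually_gt_nhds hr)
  obtain ⟨u, hu1, hu2, hu3⟩ := (hx.2.and (this.and self_mem_nhdsWithin)).exists
  refine ⟨u, hu2, hu3, ?_⟩
  rw [hu1]
  intro h
  have hu3' : u < A := hu3
  have h4 : (lam ^ k - 1) * (u - A) = 0 := by linarith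
  rcases mul_eq_zero.mp h4 with h5 | h5
  · exact pow_ne h0 h1 hk (by linarith)
  · linarith

theorem NS_left {g x : HR} {A lam : ℝ} (hg : LE' g A lam 1) (h : NS Gam g x) :
    ∃ A' k, 1 ≤ k ∧ LE' x A' lam k := by
  induction h with
  | conj h hh => exact ⟨h A, 1, le_rfl, hg.conj hh⟩
  | mul _ _ ih1 ih2 =>
    obtain ⟨A1, k1, hk1, h1⟩ := ih1
    obtain ⟨A2, k2, hk2, h2⟩ := ih2
    rcases lt_trichotomy A1 A2 with h | h | h
    · exact ⟨A1, k1, hk1, h1.mul_fix h2.1 h⟩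
    · subst h
      exact ⟨A1, k1 + k2, by omega, h1.mul_same h2⟩
    · exact ⟨A2, k2, hk2, h2.fix_mul h1.1 h⟩

theorem NS_right {g x : HR} {A lam : ℝ} (hg : RE' g A lam 1) (h : NS Gam g x) :
    ∃ A' k, 1 ≤ k ∧ RE' x A' lam k := by
  induction h with
  | conj h hh => exact ⟨h A, 1, le_rfl, hg.conj hh⟩
  | mul _ _ ih1 ih2 =>
    obtain ⟨A1, k1, hk1, h1⟩ := ih1
    obtain ⟨A2, k2, hk2, h2⟩ := ih2
    rcases lt_trichotomy A1 A2 with h | h | h
    · exact ⟨A2, k2, hk2, h2.fix_mul h1.1 h⟩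
    · subst h
      exact ⟨A1, k1 + k2, by omega, h1.mul_same h2⟩
    · exact ⟨A1, k1, hk1, h1.mul_fix h2.1 h⟩

theorem condC1 {g : HR} (hg : g ∈ Gam) (hg1 : g ≠ 1) : ¬ NS Gam g 1 := by
  intro h
  obtain ⟨A, lam, h0, h1, hl⟩ := exists_left hg hg1
  obtain ⟨A', k, hk, hx⟩ := NS_left hl h
  obtain ⟨u, _, _, hu⟩ := hx.moves h0 h1 hk (A' + 1) (by linarith)
  exact hu rfl

theorem condC2 {g : HR} (hg : g ∈ KK) (hg1 : g ≠ 1) {x y : HR} (hx : NS Gam g x)
    (hy : NS Gam g y) : ∃ w, NS Gam x w ∧ NS Gam y w := by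
  have hgG := KK_le hg
  obtain ⟨A, lam, hl0, hl1, hl⟩ := exists_left hgG hg1
  obtain ⟨B, mu, hm0, hm1, hm⟩ := exists_right hgG hg1
  obtain ⟨Ax, k1, hk1, xL⟩ := NS_left hl hx
  obtain ⟨Bx, l1, hl1', xR⟩ := NS_right hm hx
  obtain ⟨Ay, k2, hk2, yL⟩ := NS_left hl hy
  obtain ⟨By, l2, hl2', yR⟩ := NS_right hm hy
  have hxAB : Ax < Bx := by
    obtain ⟨u, h1, _, h3⟩ := xL.moves hl0 hl1 hk1 (Ax + 1) (by linarith)
    by_contra h
    exact h3 (xR.1 u (by linarith))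
  have hyAB : Ay < By := by
    obtain ⟨u, h1, _, h3⟩ := yL.moves hl0 hl1 hk2 (Ay + 1) (by linarith)
    by_contra h
    exact h3 (yR.1 u (by linarith))
  have hxK : x ∈ KK := hx.mem KK_conjmem hg
  have hyK : y ∈ KK := hy.mem KK_conjmem hg
  obtain ⟨a1, ha1, a1A, a1B⟩ := trans2 (y1 := 0) (y2 := 1) hxAB (by norm_num)
  obtain ⟨a2, ha2, a2A, a2B⟩ := trans2 (y1 := 2) (y2 := 3) hxAB (by norm_num)
  obtain ⟨b1, hb1, b1A, b1B⟩ := trans2 (y1 := 0) (y2 := 1) hyAB (by norm_num)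
  obtain ⟨b2, hb2, b2A, b2B⟩ := trans2 (y1 := 2) (y2 := 3) hyAB (by norm_num)
  -- general construction
  have gen : ∀ (z c1 c2 : HR) (Az Bz : ℝ) (k l m n : ℕ), LE' z Az lam k → RE' z Bz mu l →
      c1 ∈ Gam → c2 ∈ Gam → c1 Az = 0 → c1 Bz = 1 → c2 Az = 2 → c2 Bz = 3 →
      LE' ((c1 * z * c1⁻¹) ^ m * (c2 * z * c2⁻¹) ^ n) 0 lam (k * m) ∧
      RE' ((c1 * z * c1⁻¹) ^ m * (c2 * z * c2⁻¹) ^ n) 3 mu (l * n) := by
    intro z c1 c2 Az Bz k l m n zL zR hc1 hc2 e1 e2 e3 e4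
    have L1 := (zL.conj hc1).pow m
    have R1 := (zR.conj hc1).pow m
    have L2 := (zL.conj hc2).pow n
    have R2 := (zR.conj hc2).pow n
    rw [e1] at L1
    rw [e2] at R1
    rw [e3] at L2
    rw [e4] at R2
    exact ⟨L1.mul_fix L2.1 (by norm_num), R2.fix_mul R1.1 (by norm_num)⟩
  obtain ⟨fL, fR⟩ := gen x a1 a2 Ax Bx k1 l1 k2 l2 xL xR ha1 ha2 a1A a1B a2A a2B
  obtain ⟨gL, gR⟩ := gen y b1 b2 Ay By k2 l2 k1 l1 yL yR hb1 hb2 b1A b1B b2A b2B
  set f : HR := (a1 * x * a1⁻¹) ^ k2 * (a2 * x * a2⁻¹) ^ l2 with hf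
  set h : HR := (b1 * y * b1⁻¹) ^ k1 * (b2 * y * b2⁻¹) ^ l1 with hh
  have hfx : NS Gam x f := by
    obtain ⟨k, rfl⟩ : ∃ k, k2 = k + 1 := ⟨k2 - 1, by omega⟩
    obtain ⟨l, rfl⟩ : ∃ l, l2 = l + 1 := ⟨l2 - 1, by omega⟩
    exact NS.mul ((NS.conj a1 ha1).pow k) ((NS.conj a2 ha2).pow l)
  have hhy : NS Gam y h := by
    obtain ⟨k, rfl⟩ : ∃ k, k1 = k + 1 := ⟨k1 - 1, by omega⟩
    obtain ⟨l, rfl⟩ : ∃ l, l1 = l + 1 := ⟨l1 - 1, by omega⟩
    exact NS.mul ((NS.conj b1 hb1).pow k) ((NS.conj b2 hb2).pow l)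
  have hfK : f ∈ KK := hfx.mem KK_conjmem hxK
  have hhK : h ∈ KK := hhy.mem KK_conjmem hyK
  have evL : ∀ᶠ t in 𝓝[>] (0:ℝ), f t = h t := by
    filter_upwards [fL.2, gL.2] with t h1 h2
    rw [h1, h2, mul_comm k1 k2]
  have evR : ∀ᶠ t in 𝓝[<] (3:ℝ), f t = h t := by
    filter_upwards [fR.2, gR.2] with t h1 h2
    rw [h1, h2, mul_comm l1 l2]
  obtain ⟨a, ha0, ha⟩ := mem_nhdsGT_iff_exists_Ioc_subset.mp evL
  obtain ⟨b, hb0, hb⟩ := mem_nhdsLT_iff_exists_Ico_subset.mp evR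
  have ha0' : (0:ℝ) < a := ha0
  have hb0' : b < (3:ℝ) := hb0
  obtain ⟨w, hw1, hw2⟩ := lemmaK hfK hhK (A := 0) (B := 3) (by norm_num)
    (gL.1 0 le_rfl) (gR.1 3 le_rfl) (a := min a 1) (b := max b 2)
    (lt_min ha0' one_pos) ((min_le_right _ _).trans ((by norm_num : (1:ℝ) ≤ 2).trans
      (le_max_right _ _))) (max_lt hb0' (by norm_num))
    (by
      rintro t (ht | ht)
      · rcases le_or_gt t 0 with h0 | h0
        · rw [fL.1 t h0, gL.1 t h0]
        · exact ha ⟨h0, ht.trans (min_le_left _ _)⟩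
      · rcases le_or_gt 3 t with h0 | h0
        · rw [fR.1 t h0, gR.1 t h0]
        · exact hb ⟨(le_max_left _ _).trans ht, h0⟩)
    (fun r hr => gL.moves hl0 hl1 (Nat.mul_pos hk2 hk1) r hr)
    (fun r hr => gR.moves hm0 hm1 (Nat.mul_pos hl2' hl1') r hr)
  exact ⟨w, hfx.trans hw1, hhy.trans hw2⟩

/-- transitivity condition -/
def TT (K : Subgroup HR) : Prop := ∀ a b s t : ℝ, a < b → s < t → ∃ h ∈ K, h a = s ∧ h b = t

theorem TT_Gam : TT Gam := by
  intro a b s t hab hst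
  obtain ⟨h, hh, h1, h2⟩ := trans2 hab hst
  exact ⟨h, hh, h1, h2⟩

theorem TT_KK : TT KK := by
  intro a b s t hab hst
  obtain ⟨h, hh, h1, h2⟩ := trans2 hab hst
  obtain ⟨h', hh', he⟩ := approx hh b
  exact ⟨h', hh', by rw [he a hab.le, h1], by rw [he b le_rfl, h2]⟩

theorem bdM {f : HR} (hf : f ∈ Gam) : ∃ M : ℝ, 0 < M ∧ SI (-M) M f := by
  obtain ⟨_, a, b, hab⟩ := hf
  refine ⟨max 1 (max (-a) b), lt_of_lt_of_le one_pos (le_max_left _ _), hab.mono ?_ ?_⟩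
  · have := (le_max_left (-a) b).trans (le_max_right 1 _)
    linarith
  · exact (le_max_right (-a) b).trans (le_max_right 1 _)

theorem higman (K N : Subgroup HR) (hK : K ≤ Gam) (hT : TT K) (hNK : N ≤ K)
    (hnorm : ∀ h ∈ K, ∀ n ∈ N, h * n * h⁻¹ ∈ N) (f : HR) (hf : f ∈ N) (hf1 : f ≠ 1)
    (a b : HR) (ha : a ∈ K) (hb : b ∈ K) : a * b * a⁻¹ * b⁻¹ ∈ N := by
  obtain ⟨x0, hx0⟩ : ∃ x, f x ≠ x := by
    by_contra h
    push Not at h
    exact hf1 (ext_ap h)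
  obtain ⟨s, t, hst, hdis⟩ : ∃ s t, s < t ∧ (t < f s ∨ f t < s) := by
    rcases lt_or_gt_of_ne hx0 with h | h
    · exact ⟨(f x0 + x0) / 2, x0, by linarith, Or.inr (by linarith)⟩
    · exact ⟨x0, (f x0 + x0) / 2, by linarith, Or.inl (by linarith)⟩
  have small : ∀ a b : HR, a ∈ K → b ∈ K → SI s t a → SI s t b → a * b * a⁻¹ * b⁻¹ ∈ N := by
    intro a b ha hb has hbs
    set a' : HR := f * a⁻¹ * f⁻¹ with ha'
    have hfix : ∀ r, s ≤ r → r ≤ t → a' r = r := by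
      intro r h1 h2
      rw [ha', mul_ap, mul_ap]
      have : a⁻¹ (f⁻¹ r) = f⁻¹ r := by
        apply has.inv
        rcases hdis with h | h
        · left
          rw [inv_le_iff]
          linarith
        · right
          rw [le_inv_iff]
          linarith
      rw [this, ap_inv]
    have hca : a' * a = a * a' := comm_of_fix hfix hst.le has
    have hcb : a' * b = b * a' := comm_of_fix hfix hst.le hbs
    have he : a * a' ∈ N := by
      have h1 := hnorm a ha f hf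
      have h2 := N.mul_mem h1 (N.inv_mem hf)
      have e : a * a' = a * f * a⁻¹ * f⁻¹ := by rw [ha']; group
      rw [e]; exact h2
    have h3 := N.mul_mem he (hnorm b hb _ (N.inv_mem he))
    have e : a * a' * (b * (a * a')⁻¹ * b⁻¹) = a * b * a⁻¹ * b⁻¹ := by
      have : a' * b * a'⁻¹ = b := by rw [hcb]; group
      calc a * a' * (b * (a * a')⁻¹ * b⁻¹) = a * (a' * b * a'⁻¹) * a⁻¹ * b⁻¹ := by group
        _ = _ := by rw [this]
    rwa [e] at h3
  obtain ⟨M1, hM1, s1⟩ := bdM (hK ha)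
  obtain ⟨M2, hM2, s2⟩ := bdM (hK hb)
  let M := max M1 M2
  have hMpos : 0 < M := lt_of_lt_of_le hM1 (le_max_left _ _)
  have q1 : M1 ≤ M := le_max_left _ _
  have q2 : M2 ≤ M := le_max_right _ _
  have s1' : SI (-M) M a := s1.mono (by linarith) q1
  have s2' : SI (-M) M b := s2.mono (by linarith) q2
  obtain ⟨h, hh, h1, h2⟩ := hT (-M) M s t (by linarith) hst
  have c1 := s1'.conj h
  have c2 := s2'.conj h
  rw [h1, h2] at c1 c2
  have h3 := small _ _ (K.mul_mem (K.mul_mem hh ha) (K.inv_mem hh))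
    (K.mul_mem (K.mul_mem hh hb) (K.inv_mem hh)) c1 c2
  have h4 := hnorm h⁻¹ (K.inv_mem hh) _ h3
  have e : h⁻¹ * (h * a * h⁻¹ * (h * b * h⁻¹) * (h * a * h⁻¹)⁻¹ * (h * b * h⁻¹)⁻¹) * h⁻¹⁻¹ =
    a * b * a⁻¹ * b⁻¹ := by group
  rwa [e] at h4

theorem nontriv_comm (K : Subgroup HR) (hK : K ≤ Gam) (hT : TT K) (c : HR) (hc : c ∈ K)
    (hc1 : c ≠ 1) : ∃ h ∈ K, h * c * h⁻¹ * c⁻¹ ≠ 1 := by
  obtain ⟨M, hM, s⟩ := bdM (hK hc)
  obtain ⟨h, hh, h1, h2⟩ := hT (-M) M (M+1) (M+2) (by linarith) (by linarith)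
  refine ⟨h, hh, ?_⟩
  intro heq
  apply hc1
  apply ext_ap
  intro t
  have c1 := s.conj h
  rw [h1, h2] at c1
  have e : h * c * h⁻¹ = c := by
    have := congrArg (fun u => u * c) heq
    simpa using this
  rw [e] at c1
  rcases le_or_gt t (M+1) with h | h
  · exact c1 t (Or.inl h)
  · exact s t (Or.inr (by linarith))

theorem exists_nontriv : ∃ c ∈ Gam, c ≠ (1 : HR) := by
  obtain ⟨h, hh, _, h2⟩ := tau (p := 0) (x := 1) (y := 2) (q := 3) (by norm_num) (by norm_num)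
    (by norm_num) (by norm_num)
  refine ⟨h, hh, ?_⟩
  rintro rfl
  rw [one_ap] at h2
  norm_num at h2

theorem KK_nontriv : ∃ c ∈ KK, c ≠ (1 : HR) := by
  obtain ⟨c, hc, hc1⟩ := exists_nontriv
  obtain ⟨h, hh, hne⟩ := nontriv_comm Gam le_rfl TT_Gam c hc hc1
  exact ⟨_, comm_mem_KK hh hc, hne⟩

theorem KK_perfect : KK ≤ ⁅KK, KK⁆ := by
  obtain ⟨c, hc, hc1⟩ := KK_nontriv
  obtain ⟨h, hh, hne⟩ := nontriv_comm KK KK_le TT_KK c hc hc1
  have hmem : h * c * h⁻¹ * c⁻¹ ∈ ⁅KK, KK⁆ := Subgroup.commutator_mem_commutator hh hc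
  have hle : ⁅KK, KK⁆ ≤ Gam := by
    rw [Subgroup.commutator_le]
    intro a ha b hb
    have ha := KK_le ha
    have hb := KK_le hb
    exact Gam.mul_mem (Gam.mul_mem (Gam.mul_mem ha hb) (Gam.inv_mem ha)) (Gam.inv_mem hb)
  have hnorm : ∀ g ∈ Gam, ∀ n ∈ ⁅KK, KK⁆, g * n * g⁻¹ ∈ ⁅KK, KK⁆ := by
    intro g hg n hn
    have hmap : ⁅KK, KK⁆.map (MulAut.conj g).toMonoidHom ≤ ⁅KK, KK⁆ := by
      rw [Subgroup.map_commutator]
      apply Subgroup.commutator_mono <;>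
      · rintro _ ⟨f, hf, rfl⟩
        exact KK_conj hg hf
    exact hmap ⟨n, hn, rfl⟩
  show ⁅Gam, Gam⁆ ≤ ⁅KK, KK⁆
  rw [Subgroup.commutator_le]
  intro a ha b hb
  exact higman Gam ⁅KK, KK⁆ le_rfl TT_Gam hle hnorm _ hmem hne a b ha hb

theorem KK_simple : IsSimpleGroup ↥KK := by
  obtain ⟨c, hc, hc1⟩ := KK_nontriv
  have hnt : Nontrivial ↥KK := ⟨⟨⟨c, hc⟩, 1, fun h => hc1 (congrArg Subtype.val h)⟩⟩
  refine { toNontrivial := hnt, eq_bot_or_eq_top_of_normal := ?_ }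
  intro N hN
  by_cases hbot : N = ⊥
  · exact Or.inl hbot
  · right
    obtain ⟨f, hf, hf1⟩ := (Subgroup.bot_or_exists_ne_one N).resolve_left hbot
    have hnorm : ∀ h ∈ KK, ∀ n ∈ N.map KK.subtype, h * n * h⁻¹ ∈ N.map KK.subtype := by
      rintro h hh _ ⟨n, hn, rfl⟩
      exact ⟨⟨h, hh⟩ * n * ⟨h, hh⟩⁻¹, hN.conj_mem n hn ⟨h, hh⟩, rfl⟩
    have hle : N.map KK.subtype ≤ KK := by
      rintro _ ⟨n, _, rfl⟩
      exact n.2
    have key := higman KK (N.map KK.subtype) KK_le TT_KK hle hnorm f.1 ⟨f, hf, rfl⟩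
      (fun h => hf1 (Subtype.ext h))
    have h2 : ⁅KK, KK⁆ ≤ N.map KK.subtype := by
      rw [Subgroup.commutator_le]
      intro a ha b hb
      exact key a b ha hb
    rw [eq_top_iff]
    intro x _
    obtain ⟨y, hy, hyx⟩ := h2 (KK_perfect x.2)
    have : y = x := Subtype.ext hyx
    rwa [← this]

theorem NS_up {g x : ↥KK} (h : NS (⊤ : Subgroup ↥KK) g x) : NS KK (g : HR) (x : HR) := by
  induction h with
  | conj h _ => exact NS.conj h.1 h.2
  | mul _ _ ih1 ih2 => exact NS.mul ih1 ih2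

theorem NS_down {g : ↥KK} {x : HR} (h : NS KK (g : HR) x) :
    ∃ hx : x ∈ KK, NS (⊤ : Subgroup ↥KK) g ⟨x, hx⟩ := by
  induction h with
  | conj h hh =>
    exact ⟨KK.mul_mem (KK.mul_mem hh g.2) (KK.inv_mem hh),
      NS.conj (K := (⊤ : Subgroup ↥KK)) (g := g) ⟨h, hh⟩ trivial⟩
  | mul _ _ ih1 ih2 =>
    obtain ⟨h1, h1'⟩ := ih1
    obtain ⟨h2, h2'⟩ := ih2
    exact ⟨KK.mul_mem h1 h2, NS.mul h1' h2'⟩

theorem KK_proOrderable : N5f09da3c.ProOrderable ↥KK := by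
  apply criterion
  · intro g hg h
    exact condC1 (KK_le g.2) (fun h' => hg (Subtype.ext h')) (NS_Gam (NS_up h))
  · intro g hg x y hx hy
    obtain ⟨w, hw1, hw2⟩ := condC2 g.2 (fun h' => hg (Subtype.ext h')) (NS_Gam (NS_up hx))
      (NS_Gam (NS_up hy))
    obtain ⟨hwK, hw1'⟩ := NS_down (NS_KK (KK_le x.2) hw1)
    obtain ⟨hwK', hw2'⟩ := NS_down (NS_KK (KK_le y.2) hw2)
    exact ⟨⟨w, hwK⟩, hw1', hw2'⟩

theorem main_thm : ∃ (G : Type*) (_ : Group G), IsSimpleGroup G ∧ N5f09da3c.ProOrderable G := by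
  haveI := KK_simple
  haveI : Nontrivial (ULift ↥KK) := (Equiv.ulift (α := ↥KK)).nontrivial
  refine ⟨ULift ↥KK, inferInstance, ?_, proOrderable_ulift KK_proOrderable⟩
  exact IsSimpleGroup.isSimpleGroup_of_surjective (MulEquiv.ulift (α := ↥KK)).symm.toMonoidHom
    (MulEquiv.ulift (α := ↥KK)).symm.surjective

end Pool.Agent.H27.PO
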