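import Mathlib

set_option autoImplicit false

namespace Pool.Agent.H27.QBar

theorem qbar_isAlgebraic (x : AlgebraicClosure ℚ) : ∃ p : Polynomial ℤ, p ≠ 0 ∧ 
      Polynomial.eval₂ (Int.castRingHom (AlgebraicClosure ℚ)) x p = 0 := by
  obtain ⟨p, hp, hx⟩ := (AlgebraicClosure.isAlgebraic ℚ).isAlgebraic x
  obtain ⟨b, hb⟩ := IsLocalization.integerNormalization_map_to_map (nonZeroDivisors ℤ) p
  refine ⟨IsLocalization.integerNormalization (nonZeroDivisors ℤ) p, ?_, ?_⟩
  · intro h0
    rw [h0, Polynomial.map_zero] at hb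
    have hb0 : ((b : ℤ) : ℚ) ≠ 0 := by
      exact_mod_cast nonZeroDivisors.ne_zero b.2
    have h3 : (b : ℤ) • p = 0 := hb.symm
    rw [zsmul_eq_mul] at h3
    rcases mul_eq_zero.1 h3 with h4 | h4
    · have h5 : (((b : ℤ) : ℚ)) = 0 := by
        have h6 := congrArg (Polynomial.eval 0) h4
        simpa using h6
      exact hb0 h5
    · exact hp h4
  · have h4 : Polynomial.eval₂ (Int.castRingHom (AlgebraicClosure ℚ)) x
        (IsLocalization.integerNormalization (nonZeroDivisors ℤ) p) = 0 := by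
      have h5 : Int.castRingHom (AlgebraicClosure ℚ) = 
          (@algebraMap ℚ (AlgebraicClosure ℚ) _ _ (AlgebraicClosure.instAlgebra ℚ)).comp (algebraMap ℤ ℚ) := 
        RingHom.ext_int _ _
      rw [h5, ← Polynomial.eval₂_map, hb]
      have h6 : (b : ℤ) • p = (b : ℤ) • p := rfl
      change Polynomial.eval₂ _ x ((b : ℤ) • p) = 0
      rw [zsmul_eq_mul, Polynomial.eval₂_mul]
      have h7 : Polynomial.eval₂ (@algebraMap ℚ (AlgebraicClosure ℚ) _ _ (AlgebraicClosure.instAlgebra ℚ)) x p = 0 := hx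
      rw [h7, mul_zero]
    exact h4

end Pool.Agent.H27.QBar
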