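import Mathlib
import Pool.Agent.H27.Gp2

set_option autoImplicit false

open LaurentPolynomial Matrix

namespace Pool.Agent.H27.Rigid

open Pool.Agent.H27.Grp Pool.Agent.H27.Gp2

variable {K : Type*} [Field K] [IsAlgClosed K] [CharZero K]
variable {n : Type*} [Fintype n] [DecidableEq n]

/-- multiplication by `T 1` -/
noncomputable def mT : ℤ[T;T⁻¹] ≃+ ℤ[T;T⁻¹] where
  toFun z := T 1 * z
  invFun z := T (-1) * z
  left_inv z := by
    change T (-1) * (T 1 * z) = z
    rw [← mul_assoc, ← T_add]; simp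
  right_inv z := by
    change T 1 * (T (-1) * z) = z
    rw [← mul_assoc, ← T_add]; simp
  map_add' z w := mul_add _ _ _

theorem aeval_mT (F : Polynomial ℤ) (z : ℤ[T;T⁻¹]) :
    Polynomial.aeval (mT.toAddMonoidHom.toIntLinearMap : Module.End ℤ ℤ[T;T⁻¹]) F z 
      = Polynomial.toLaurent F * z := by
  induction F using Polynomial.induction_on' with
  | add p q hp hq => rw [map_add, LinearMap.add_apply, hp, hq, map_add, add_mul]
  | monomial k c =>
    have hk : ∀ k : ℕ, ((mT.toAddMonoidHom.toIntLinearMap : Module.End ℤ ℤ[T;T⁻¹]) ^ k) z = T k * z := by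
      intro k
      induction k with
      | zero => simp
      | succ k ih =>
        rw [pow_succ', Module.End.mul_apply, ih]
        change T 1 * (T k * z) = _
        rw [← mul_assoc, ← T_add]
        congr 2
        push_cast; ring
    rw [Polynomial.aeval_monomial, Module.End.mul_apply, hk, Polynomial.toLaurent_C_mul_T]
    simp [mul_assoc]

theorem kill (halg : ∀ x : K, ∃ p : Polynomial ℤ, p ≠ 0 ∧ 
      Polynomial.eval₂ (Int.castRingHom K) x p = 0) (φ : G →* (Matrix n n K)ˣ)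
    (htf : ∀ h : (Matrix n n K)ˣ, h ∈ φ.range → IsOfFinOrder h → h = 1) :
    φ ⟨U 0 0 ((T 1 - 1) * p2), memZ _⟩ = 1 := by
  classical
  have : Algebra.IsAlgebraic ℤ K := ⟨fun x => halg x⟩
  -- total extension of `φ`
  let ψ : (Matrix (Fin 3) (Fin 3) ℤ[T;T⁻¹])ˣ → (Matrix n n K)ˣ := 
    fun x => if h : x ∈ G then φ ⟨x, h⟩ else 1
  have hψ : ∀ x (h : x ∈ G), ψ x = φ ⟨x, h⟩ := fun x h => by simp [ψ, h]
  have hmul : ∀ x y, x ∈ G → y ∈ G → ψ (x * y) = ψ x * ψ y := by
    intro x y hx hy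
    rw [hψ x hx, hψ y hy, hψ _ (mul_mem hx hy), ← map_mul]
    rfl
  have hone : ψ 1 = 1 := by
    rw [hψ 1 (one_mem _)]
    exact map_one φ
  have htf' : ∀ x, x ∈ G → ∀ k : ℤ, k ≠ 0 → ψ x ^ k = 1 → ψ x = 1 := by
    intro x hx k hk h
    refine htf _ ⟨⟨x, hx⟩, (hψ x hx).symm⟩ ?_
    rw [isOfFinOrder_iff_zpow_eq_one]
    exact ⟨k, hk, h⟩
  -- the action on the centre
  let ζ : Multiplicative ℤ[T;T⁻¹] →* (Matrix n n K)ˣ :=
    { toFun := fun z => ψ (U 0 0 z.toAdd)
      map_one' := by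
        change ψ (U 0 0 0) = 1
        rw [U_zero]; exact hone
      map_mul' := by
        intro a b
        rw [← hmul _ _ (memZ _) (memZ _), U_mul]
        congr 2 <;> simp }
  have hζ : ∀ z, ζ (Multiplicative.ofAdd z) = ψ (U 0 0 z) := fun z => rfl
  obtain ⟨F, hF, hF2⟩ := KeyB.kill_GL mT ζ (ψ (D (Tn 1) 1)) (by
    intro z
    rw [hζ, hζ, mul_inv_eq_iff_eq_mul, ← hmul _ _ memD1 (memZ _), ← hmul _ _ (memZ _) memD1]
    congr 1
    rw [← mul_inv_eq_iff_eq_mul, D_mul_U]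
    congr 1
    · simp
    · simp
    · simp [Tn, mT])
  -- make `F` primitive
  set F0 := F.primPart with hF0
  have hprim : F0.IsPrimitive := F.isPrimitive_primPart
  have hcont : F.content ≠ 0 := by rwa [Ne, Polynomial.content_eq_zero_iff]
  have hF3 : ∀ z, ψ (U 0 0 (Polynomial.toLaurent F0 * z)) = 1 := by
    intro z
    refine htf' _ (memZ _) F.content hcont ?_
    have h1 := hF2 z
    rw [aeval_mT] at h1
    have h2 : Polynomial.toLaurent F * z = F.content • (Polynomial.toLaurent F0 * z) := by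
      conv_lhs => rw [F.eq_C_content_mul_primPart]
      rw [Polynomial.toLaurent_C_mul_eq, zsmul_eq_mul, mul_assoc]
      congr 1
    rw [h2, ofAdd_zsmul, map_zpow, hζ] at h1
    exact h1
  have hmap : F0.map (Int.castRingHom (ZMod 2)) ≠ 0 := by
    intro h
    have h2 : (Polynomial.C 2 : Polynomial ℤ) ∣ F0 := by
      rw [Polynomial.C_dvd_iff_dvd_coeff]
      intro i
      have h9 := congrArg (fun p => Polynomial.coeff p i) h
      simp only [Polynomial.coeff_map, Polynomial.coeff_zero] at h9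
      exact (ZMod.intCast_zmod_eq_zero_iff_dvd _ 2).1 h9
    have := hprim 2 h2
    rw [Int.isUnit_iff] at this
    omega
  obtain ⟨q, r, z, w, hq⟩ := RingL.ring_lemma F0 hmap
  have hq' := congrArg (Polynomial.toLaurent (R := ℤ)) hq
  simp only [map_sub, map_mul, map_add, map_one, map_ofNat, Polynomial.toLaurent_X, 
    Polynomial.toLaurent_X_pow] at hq'
  set X : ℤ[T;T⁻¹] := 1 + (T 1 - 1) * Polynomial.toLaurent q with hX
  set Y : ℤ[T;T⁻¹] := 1 + p2 * Polynomial.toLaurent r with hY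
  set z' : ℤ[T;T⁻¹] := Polynomial.toLaurent z with hz'
  have hg1 : U X Y z' * S ∈ G := memUS _ _ _
  have hg2 : ψ (U X Y z' * S) = 1 := by
    refine htf' _ hg1 2 (by norm_num) ?_
    have h2 : ψ (U X Y z' * S) ^ (2 : ℤ) = ψ ((U X Y z' * S) * (U X Y z' * S)) := by
      rw [hmul _ _ hg1 hg1]
      exact zpow_two _
    rw [h2, US_sq]
    have h3 : 2 * z' - X * Y = Polynomial.toLaurent F0 * Polynomial.toLaurent w := by
      rw [mul_comm (Polynomial.toLaurent F0), ← hq', hX, hY, p2]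
      norm_num
    rw [h3]
    exact hF3 _
  -- conjugate
  set p1 : ℤ[T;T⁻¹] := T 1 - 1 with hp1
  have hX1 : ∀ w, U (w * p1) 0 0 ∈ G := memX
  have ha : U p1 0 0 ∈ G := by simpa using hX1 1
  have hb : U 0 p2 0 ∈ G := by simpa using memY 1
  have ha' : U (-p1) 0 (p1 * Y) ∈ G := by
    have h3 : U (-p1) 0 (p1 * Y) = U ((-1) * p1) 0 0 * U 0 0 (p1 * Y) := by
      rw [U_mul]; congr 1 <;> ring
    rw [h3]
    exact mul_mem (hX1 _) (memZ _)
  have h4 : (U X Y z' * S) * U p1 0 0 = U (-p1) 0 (p1 * Y) * (U X Y z' * S) := by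
    rw [mul_assoc, S_mul_U, ← mul_assoc, ← mul_assoc, U_mul, U_mul]
    congr 2 <;> ring
  have h5 : ψ (U p1 0 0) = ψ (U (-p1) 0 (p1 * Y)) := by
    have := congrArg ψ h4
    rw [hmul _ _ hg1 ha, hmul _ _ ha' hg1, hg2, one_mul, mul_one] at this
    exact this
  have hh : U (2 * p1) 0 (-(p1 * Y)) ∈ G := by
    have h3 : U (2 * p1) 0 (-(p1 * Y)) = U (2 * p1) 0 0 * U 0 0 (-(p1 * Y)) := by
      rw [U_mul]; congr 1 <;> ring
    rw [h3]
    exact mul_mem (hX1 _) (memZ _)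
  have h6 : ψ (U (2 * p1) 0 (-(p1 * Y))) = 1 := by
    have h7 : U p1 0 0 = U (2 * p1) 0 (-(p1 * Y)) * U (-p1) 0 (p1 * Y) := by
      rw [U_mul]; congr 1 <;> ring
    have h8 := congrArg ψ h7
    rw [hmul _ _ hh ha', h5] at h8
    exact right_eq_mul.1 h8
  have h9 : ψ (U 0 0 (2 * (p1 * p2))) = 1 := by
    have h10 : U (2 * p1) 0 (-(p1 * Y)) * U 0 p2 0 = 
        U 0 0 (2 * (p1 * p2)) * (U 0 p2 0 * U (2 * p1) 0 (-(p1 * Y))) := by
      rw [U_mul, U_mul, U_mul]
      congr 1 <;> ring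
    have h11 := congrArg ψ h10
    rw [hmul _ _ hh hb, hmul _ _ (memZ _) (mul_mem hb hh), hmul _ _ hb hh, h6, one_mul, mul_one] at h11
    exact right_eq_mul.1 h11
  have h12 : ψ (U 0 0 (p1 * p2)) = 1 := by
    refine htf' _ (memZ _) 2 (by norm_num) ?_
    have h13 : ψ (U 0 0 (p1 * p2)) ^ (2 : ℤ) = ψ (U 0 0 (p1 * p2) * U 0 0 (p1 * p2)) := by
      rw [hmul _ _ (memZ _) (memZ _)]
      exact zpow_two _
    rw [h13, U_mul, ← h9]
    congr 2 <;> ring
  rw [← h12, hψ _ (memZ _)]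

end Pool.Agent.H27.Rigid
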