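import Mathlib

set_option autoImplicit false

namespace Pool.Agent.H27.Selectors

open Cardinal Order

abbrev I := Set.Icc (0:ℝ) 1

/-- the cofinality of the continuum -/
noncomputable def κ : Cardinal.{0} := (𝔠 : Cardinal.{0}).ord.cof

abbrev K : Type := κ.ord.ToType

lemma aleph0_lt_κ : ℵ₀ < κ := by
  have h := Cardinal.lt_cof_ord_power (a := ℵ₀) (b := 2) le_rfl (by norm_num)
  rwa [Cardinal.two_power_aleph0] at h

lemma mkK : #K = κ := Cardinal.mk_ord_toType _

lemma cofK : Order.cof K = κ := by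
  rw [Ordinal.cof_toType]
  exact Ordinal.cof_ord_cof _

lemma bound (s : Set K) (hs : #s < κ) : ∃ b : K, ∀ a ∈ s, a < b := by
  by_contra h
  push Not at h
  have h1 : IsCofinal s := fun b => by
    obtain ⟨a, ha, hab⟩ := h b
    exact ⟨a, ha, hab⟩
  have h2 := Order.cof_le h1
  rw [cofK] at h2
  exact absurd hs (not_lt.mpr h2)

lemma bound_countable (f : ℕ → K) : ∃ b : K, ∀ n, f n < b := by
  obtain ⟨b, hb⟩ := bound (Set.range f) (by
    refine lt_of_le_of_lt ?_ aleph0_lt_κ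
    rw [Cardinal.le_aleph0_iff_set_countable]
    exact Set.countable_range f)
  exact ⟨b, fun n => hb _ ⟨n, rfl⟩⟩

lemma mk_Iic (x : K) : #(Set.Iic x) < κ := by
  have h : Set.Iic x = insert x (Set.Iio x) := by
    ext y; simp [le_iff_lt_or_eq, or_comm]
  rw [h]
  have h1 : #(Set.Iio x) < κ := Cardinal.mk_Iio_toType_ord_lt x
  refine lt_of_le_of_lt Cardinal.mk_insert_le ?_
  exact Cardinal.add_lt_of_lt aleph0_lt_κ.le h1 (lt_of_lt_of_le Cardinal.one_lt_aleph0 aleph0_lt_κ.le)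

/-- closure points of a function -/
def C (g : K → K) : Set K := {β | ∀ α, α < β → g α < β}

lemma C_mono {g h : K → K} (hgh : ∀ α, g α ≤ h α) : C h ⊆ C g :=
  fun β hβ α hα => (hgh α).trans_lt (hβ α hα)

lemma C_inter (g : ℕ → K → K) : ∃ h : K → K, ∀ n, C h ⊆ C (g n) := by
  choose h hh using fun α => bound_countable (fun n => g n α)
  exact ⟨h, fun n => C_mono (fun α => (hh α n).le)⟩

/-- strictly increasing majorant -/
lemma majorant (g : K → K) : ∃ h : K → K, ∀ α γ, γ ≤ α → g γ < h α ∧ γ < h α := by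
  have key : ∀ α : K, ∃ b, ∀ γ, γ ≤ α → g γ < b ∧ γ < b := by
    intro α
    obtain ⟨b1, hb1⟩ := bound (g '' Set.Iic α) (lt_of_le_of_lt Cardinal.mk_image_le (mk_Iic α))
    obtain ⟨b2, hb2⟩ := bound (Set.Iic α) (mk_Iic α)
    refine ⟨max b1 b2, fun γ hγ => ⟨?_, ?_⟩⟩
    · exact lt_max_of_lt_left (hb1 _ ⟨γ, hγ, rfl⟩)
    · exact lt_max_of_lt_right (hb2 _ hγ)
  choose h hh using key
  exact ⟨h, hh⟩

def Stat (S : Set K) : Prop := ∀ g : K → K, ∃ β, β ∈ C g ∧ β ∈ S

/-- points of countable cofinality -/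
def Sω : Set K := {β | ∃ a : ℕ → K, (∀ n, a n < β) ∧ ∀ γ, γ < β → ∃ n, γ < a n}

instance : Nonempty K := by
  rw [← Cardinal.mk_ne_zero_iff, mkK]
  exact (lt_trans Cardinal.aleph0_pos aleph0_lt_κ).ne'

lemma Sω_stat : Stat Sω := by
  intro g
  obtain ⟨h, hh⟩ := majorant g
  let a : ℕ → K := fun n => Nat.rec (Classical.arbitrary K) (fun _ x => h x) n
  have ha : ∀ n, a (n + 1) = h (a n) := fun n => rfl
  have hlt : ∀ n, a n < a (n + 1) := fun n => by rw [ha]; exact (hh _ _ le_rfl).2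
  have hne : ({b | ∀ n, a n < b} : Set K).Nonempty := bound_countable a
  let β : K := WellFounded.min (wellFounded_lt (α := K)) {b | ∀ n, a n < b} hne
  have hβ : ∀ n, a n < β := WellFounded.min_mem _ _ hne
  have hmin : ∀ γ, γ < β → ∃ n, γ ≤ a n := by
    intro γ hγ
    by_contra hcon
    push Not at hcon
    exact WellFounded.not_lt_min (wellFounded_lt (α := K)) {b | ∀ n, a n < b} (x := γ) hcon hγ
  refine ⟨β, ?_, a, hβ, ?_⟩
  · intro γ hγ
    obtain ⟨n, hn⟩ := hmin γ hγ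
    have h5 : g γ < a (n + 1) := (hh (a n) γ hn).1
    exact h5.trans (hβ (n + 1))
  · intro γ hγ
    obtain ⟨n, hn⟩ := hmin γ hγ
    exact ⟨n + 1, lt_of_le_of_lt hn (hlt n)⟩

lemma fodor {S : Set K} (hS : Stat S) (f : K → K) (hf : ∀ β ∈ S, f β < β) :
    ∃ γ, Stat {β | β ∈ S ∧ f β = γ} := by
  by_contra hcon
  push Not at hcon
  have h1 : ∀ γ, ∃ g : K → K, ∀ β ∈ C g, β ∈ S → f β ≠ γ := by
    intro γ
    have := hcon γ
    unfold Stat at this
    push Not at this
    obtain ⟨g, hg⟩ := this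
    refine ⟨g, fun β hβ hβS he => ?_⟩
    exact hg β hβ ⟨hβS, he⟩
  choose G hG using h1
  -- diagonal function
  have key : ∀ α : K, ∃ b, ∀ γ δ, γ ≤ α → δ ≤ α → G γ δ < b := by
    intro α
    obtain ⟨b, hb⟩ := bound ((fun p : K × K => G p.1 p.2) '' (Set.Iic α ×ˢ Set.Iic α)) (by
      refine lt_of_le_of_lt Cardinal.mk_image_le ?_
      rw [Cardinal.mk_setProd]
      exact Cardinal.mul_lt_of_lt aleph0_lt_κ.le (mk_Iic α) (mk_Iic α))
    exact ⟨b, fun γ δ hγ hδ => hb _ ⟨(γ, δ), ⟨hγ, hδ⟩, rfl⟩⟩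
  choose d hd using key
  obtain ⟨β, hβ, hβS⟩ := hS d
  refine hG (f β) β ?_ hβS rfl
  intro δ hδ
  have h2 : max (f β) δ < β := max_lt (hf β hβS) hδ
  exact (hd (max (f β) δ) (f β) δ (le_max_left _ _) (le_max_right _ _)).trans (hβ _ h2)

/-- there is a function whose fibers are stationary for cofinally many values -/
lemma split : ∃ (S : Set K) (f : K → K), ∀ η : K, ∃ γ, η ≤ γ ∧ Stat {β | β ∈ S ∧ f β = γ} := by
  classical
  have hch : ∀ β : K, ∃ a : ℕ → K, β ∈ Sω → (∀ n, a n < β) ∧ ∀ γ, γ < β → ∃ n, γ < a n := by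
    intro β
    by_cases h : β ∈ Sω
    · obtain ⟨a, ha⟩ := h
      exact ⟨a, fun _ => ha⟩
    · exact ⟨fun _ => β, fun h' => absurd h' h⟩
  choose a ha using hch
  have claim : ∃ n, ∀ η, Stat {β | β ∈ Sω ∧ η ≤ a β n} := by
    by_contra hcon
    push Not at hcon
    choose η hη using hcon
    have h1 : ∀ n, ∃ g : K → K, ∀ β ∈ C g, β ∈ Sω → ¬ η n ≤ a β n := by
      intro n
      have := hη n
      unfold Stat at this
      push Not at this
      obtain ⟨g, hg⟩ := this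
      exact ⟨g, fun β hβ hβS he => hg β hβ ⟨hβS, he⟩⟩
    choose g hg using h1
    obtain ⟨E, hE⟩ := bound_countable η
    obtain ⟨h, hh⟩ := C_inter g
    obtain ⟨β, hβ, hβS⟩ := Sω_stat (fun α => max (h α) E)
    have hβ1 : β ∈ C h := C_mono (fun α => le_max_left _ _) hβ
    obtain ⟨c1, c2⟩ := ha β hβS
    have hEβ : E < β := lt_of_le_of_lt (le_max_right _ _) (hβ (a β 0) (c1 0))
    obtain ⟨n, hn⟩ := c2 E hEβ
    exact hg n β (hh n hβ1) hβS ((hE n).trans hn).le
  obtain ⟨n, hn⟩ := claim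
  refine ⟨Sω, fun β => a β n, fun η => ?_⟩
  obtain ⟨γ, hγ⟩ := fodor (hn η) (fun β => a β n) (fun β hβ => (ha β hβ.1).1 n)
  refine ⟨γ, ?_, ?_⟩
  · obtain ⟨β, _, hβ⟩ := hγ id
    have h1 : η ≤ a β n := hβ.1.2
    have h2 : a β n = γ := hβ.2
    rwa [h2] at h1
  · intro g
    obtain ⟨β, h1, h2⟩ := hγ g
    exact ⟨β, h1, h2.1.1, h2.2⟩

lemma two_pow_κ : (𝔠 : Cardinal.{0}) < 2 ^ κ := by
  have h := Cardinal.lt_power_cof_ord (c := (𝔠 : Cardinal.{0})) Cardinal.aleph0_le_continuum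
  have e : (𝔠 : Cardinal.{0}) ^ (𝔠 : Cardinal.{0}).ord.cof = 2 ^ κ := by
    show (𝔠 : Cardinal.{0}) ^ κ = 2 ^ κ
    rw [← Cardinal.two_power_aleph0, ← Cardinal.power_mul,
      Cardinal.mul_eq_right aleph0_lt_κ.le aleph0_lt_κ.le Cardinal.aleph0_ne_zero]
  rwa [e] at h

lemma card_borel : #{t : Set I | MeasurableSet t} ≤ 𝔠 := by
  obtain ⟨b, hbc, hb⟩ := MeasurableSpace.CountablyGenerated.isCountablyGenerated (α := I)
  rw [hb]
  exact MeasurableSpace.cardinal_measurableSet_le_continuum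
    ((Cardinal.le_aleph0_iff_set_countable.mpr hbc).trans Cardinal.aleph0_le_continuum)

lemma exists_emb : Nonempty (K ↪ I) := by
  have h1 : #K ≤ #I := by
    rw [mkK]
    have h2 : #I = 𝔠 := Cardinal.mk_Icc_real zero_lt_one
    rw [h2]
    exact Ordinal.cof_ord_le _
  exact h1

theorem main :
    ¬ (∀ N : Set (Set (Set.Icc (0:ℝ) 1)),
      (∀ a b : ℝ,
        (Subtype.val : Set.Icc (0:ℝ) 1 → ℝ) ⁻¹' Set.Icc a b ∈ N ∧
        (Subtype.val : Set.Icc (0:ℝ) 1 → ℝ) ⁻¹' Set.Ico a b ∈ N ∧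
        (Subtype.val : Set.Icc (0:ℝ) 1 → ℝ) ⁻¹' Set.Ioc a b ∈ N ∧
        (Subtype.val : Set.Icc (0:ℝ) 1 → ℝ) ⁻¹' Set.Ioo a b ∈ N) →
      (∀ s ∈ N, sᶜ ∈ N) →
      (∀ f : ℕ → Set (Set.Icc (0:ℝ) 1), (∀ n, f n ∈ N) → (⋃ n, f n) ∈ N) →
      (∀ P : Set (Set (Set.Icc (0:ℝ) 1)),
        P.PairwiseDisjoint id →
        ⋃₀ P = Set.univ →
        (∀ p ∈ P, ∃ x ∈ p, ∃ y ∈ p, x ≠ y) →
        ∃ S ∈ N, ∀ p ∈ P, ∃! x, x ∈ p ∧ x ∈ S) →
      N = Set.univ) := by
  classical
  intro hall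
  obtain ⟨e⟩ := exists_emb
  let N : Set (Set I) := {A | ∃ B : Set I, MeasurableSet B ∧ ∃ g : K → K,
    ∀ β ∈ C g, (e β ∈ A ↔ e β ∈ B)}
  have hmeas : ∀ A : Set I, MeasurableSet A → A ∈ N :=
    fun A hA => ⟨A, hA, id, fun β _ => Iff.rfl⟩
  have hN : N = Set.univ := by
    apply hall N
    · intro a b
      exact ⟨hmeas _ (measurable_subtype_coe measurableSet_Icc),
        hmeas _ (measurable_subtype_coe measurableSet_Ico),
        hmeas _ (measurable_subtype_coe measurableSet_Ioc),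
        hmeas _ (measurable_subtype_coe measurableSet_Ioo)⟩
    · rintro A ⟨B, hB, g, hg⟩
      exact ⟨Bᶜ, hB.compl, g, fun β hβ => not_congr (hg β hβ)⟩
    · intro f hf
      choose B hB g hg using hf
      obtain ⟨h, hh⟩ := C_inter g
      refine ⟨⋃ n, B n, MeasurableSet.iUnion hB, h, fun β hβ => ?_⟩
      simp only [Set.mem_iUnion]
      exact exists_congr (fun n => hg n β (hh n hβ))
    · intro P hdisj _ htwo
      -- the function sending a point to a later point of the same part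
      let g : K → K := fun α => if h : ∃ β, α < β ∧ ∃ p ∈ P, e α ∈ p ∧ e β ∈ p then h.choose else α
      have hg : ∀ α, (∃ β, α < β ∧ ∃ p ∈ P, e α ∈ p ∧ e β ∈ p) →
          α < g α ∧ ∃ p ∈ P, e α ∈ p ∧ e (g α) ∈ p := by
        intro α h
        have : g α = h.choose := dif_pos h
        rw [this]
        exact h.choose_spec
      have hout : ∀ p ∈ P, ∃ x ∈ p, ∀ β ∈ C g, e β ≠ x := by
        intro p hp
        by_contra hcon
        push Not at hcon
        have hall' : ∀ x ∈ p, ∃ β ∈ C g, e β = x := hcon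
        obtain ⟨x, hx, y, hy, hxy⟩ := htwo p hp
        obtain ⟨α, hα, rfl⟩ := hall' x hx
        obtain ⟨β, hβ, rfl⟩ := hall' y hy
        have hne : α ≠ β := fun h => hxy (by rw [h])
        -- wlog α < β
        have main' : ∀ α β : K, α < β → e α ∈ p → e β ∈ p → False := by
          intro α β hlt h1 h2
          obtain ⟨k1, q, hq, k2, k3⟩ := hg α ⟨β, hlt, p, hp, h1, h2⟩
          have hqp : q = p := by
            by_contra hqp
            have := hdisj hq hp hqp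
            exact Set.disjoint_left.mp this k2 h1
          rw [hqp] at k3
          obtain ⟨δ, hδ, hδe⟩ := hall' _ k3
          have hδg : δ = g α := e.injective hδe
          rw [hδg] at hδ
          exact absurd (hδ α k1) (lt_irrefl _)
        rcases lt_or_gt_of_ne hne with h | h
        · exact main' α β h hx hy
        · exact main' β α h hy hx
      choose! x hx1 hx2 using hout
      refine ⟨x '' P, ⟨∅, MeasurableSet.empty, g, fun β hβ => ?_⟩, ?_⟩
      · constructor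
        · rintro ⟨p, hp, he⟩
          exact absurd he.symm (hx2 p hp β hβ)
        · intro h; exact absurd h (Set.notMem_empty _)
      · intro p hp
        refine ⟨x p, ⟨hx1 p hp, p, hp, rfl⟩, ?_⟩
        rintro y ⟨hy, q, hq, rfl⟩
        have : q = p := by
          by_contra hqp
          exact Set.disjoint_left.mp (hdisj hq hp hqp) (hx1 q hq) hy
        rw [this]
  -- contradiction by counting
  obtain ⟨S, f, hf⟩ := split
  let Γ : Set K := {γ | Stat {β | β ∈ S ∧ f β = γ}}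
  have hΓ : κ ≤ #Γ := by
    by_contra h
    push Not at h
    obtain ⟨b, hb⟩ := bound Γ h
    obtain ⟨γ, h1, h2⟩ := hf b
    exact absurd (hb γ h2) (not_lt.mpr h1)
  let Z : Set Γ → Set I := fun T => e '' {β | β ∈ S ∧ ∃ γ ∈ T, f β = γ}
  have hZ : ∀ T, ∃ B : Set I, MeasurableSet B ∧ ∃ g : K → K, ∀ β ∈ C g, (e β ∈ Z T ↔ e β ∈ B) := by
    intro T
    have : Z T ∈ N := by rw [hN]; exact Set.mem_univ _
    exact this
  choose B hB g hg using hZ
  have hmem : ∀ T β, e β ∈ Z T ↔ β ∈ S ∧ ∃ γ ∈ T, f β = γ := by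
    intro T β
    constructor
    · rintro ⟨β', h, he⟩
      rw [← e.injective he]; exact h
    · intro h; exact ⟨β, h, rfl⟩
  have hsub : ∀ T T' : Set Γ, B T = B T' → T ⊆ T' := by
    intro T T' hBB γ hγ
    have hst : Stat {β | β ∈ S ∧ f β = γ} := γ.2
    obtain ⟨β, hβ, hβS, hfβ⟩ := hst (fun α => max (g T α) (g T' α))
    have c1 : β ∈ C (g T) := C_mono (fun α => le_max_left _ _) hβ
    have c2 : β ∈ C (g T') := C_mono (fun α => le_max_right _ _) hβ
    have m1 : e β ∈ Z T := (hmem T β).mpr ⟨hβS, γ, hγ, hfβ⟩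
    have m2 : e β ∈ B T' := by rw [← hBB]; exact (hg T β c1).mp m1
    have m3 := (hmem T' β).mp ((hg T' β c2).mpr m2)
    obtain ⟨_, γ', hγ', hfβ'⟩ := m3
    have : γ = γ' := Subtype.ext (hfβ.symm.trans hfβ')
    rw [this]; exact hγ'
  have hinj : Function.Injective (fun T : Set Γ => (⟨B T, hB T⟩ : {t : Set I | MeasurableSet t})) := by
    intro T T' h
    have h1 : B T = B T' := congrArg Subtype.val h
    exact Set.Subset.antisymm (hsub T T' h1) (hsub T' T h1.symm)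
  have h1 := Cardinal.mk_le_of_injective hinj
  rw [Cardinal.mk_set] at h1
  have h2 : (2 : Cardinal.{0}) ^ κ ≤ 2 ^ #Γ := Cardinal.power_le_power_left two_ne_zero hΓ
  exact absurd (two_pow_κ.trans_le (h2.trans (h1.trans card_borel))) (lt_irrefl _)

end Pool.Agent.H27.Selectors
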