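import Mathlib

set_option autoImplicit false

namespace Pool.Agent.H27.Semi

abbrev X := (ℚ →₀ ℤ) × ℚ

def lt (x y : X) : Prop :=
  (∃ i, (∀ j < i, x.1 j = y.1 j) ∧ x.1 i < y.1 i) ∨ (x.1 = y.1 ∧ x.2 < y.2)

def Le (x y : X) : Prop := y.2 ≤ x.2 ∧ ∀ i < y.2, (2:ℤ) ∣ (x.1 i - y.1 i)

theorem lt_irrefl (x : X) : ¬ lt x x := by
  rintro (⟨i, _, h⟩ | ⟨_, h⟩)
  · exact absurd h (by simp)
  · exact absurd h (by simp)

theorem lt_trans {x y z : X} (h1 : lt x y) (h2 : lt y z) : lt x z := by
  rcases h1 with ⟨i, hi, hi'⟩ | ⟨hxy, hq⟩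
  · rcases h2 with ⟨j, hj, hj'⟩ | ⟨hyz, hq'⟩
    · left
      rcases lt_trichotomy i j with h | h | h
      · exact ⟨i, fun k hk => (hi k hk).trans (hj k (hk.trans h)), by rw [← hj i h]; exact hi'⟩
      · subst h
        exact ⟨i, fun k hk => (hi k hk).trans (hj k hk), hi'.trans hj'⟩
      · exact ⟨j, fun k hk => (hi k (hk.trans h)).trans (hj k hk), by rw [hi j h]; exact hj'⟩
    · left
      rw [← hyz]
      exact ⟨i, hi, hi'⟩
  · rcases h2 with ⟨j, hj, hj'⟩ | ⟨hyz, hq'⟩
    · left
      rw [hxy]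
      exact ⟨j, hj, hj'⟩
    · right
      exact ⟨hxy.trans hyz, hq.trans hq'⟩

theorem lt_total (x y : X) (h : x ≠ y) : lt x y ∨ lt y x := by
  by_cases h1 : x.1 = y.1
  · have h2 : x.2 ≠ y.2 := fun h2 => h (Prod.ext h1 h2)
    rcases lt_or_gt_of_ne h2 with h3 | h3
    · left; right; exact ⟨h1, h3⟩
    · right; right; exact ⟨h1.symm, h3⟩
  · have hne : (x.1 - y.1).support.Nonempty := by
      rw [Finsupp.support_nonempty_iff]
      exact sub_ne_zero.mpr h1
    set i := (x.1 - y.1).support.min' hne with hi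
    have hi1 : i ∈ (x.1 - y.1).support := Finset.min'_mem _ _
    have hi2 : x.1 i ≠ y.1 i := by
      rw [Finsupp.mem_support_iff, Finsupp.sub_apply] at hi1
      exact fun h => hi1 (by rw [h, sub_self])
    have hi3 : ∀ j < i, x.1 j = y.1 j := by
      intro j hj
      by_contra hne'
      have : j ∈ (x.1 - y.1).support := by
        rw [Finsupp.mem_support_iff, Finsupp.sub_apply]
        exact sub_ne_zero.mpr hne'
      exact absurd (Finset.min'_le _ _ this) (not_le.mpr hj)
    rcases lt_or_gt_of_ne hi2 with h3 | h3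
    · left; left; exact ⟨i, hi3, h3⟩
    · right; left; exact ⟨i, fun j hj => (hi3 j hj).symm, h3⟩

theorem Le_refl (x : X) : Le x x := ⟨le_refl _, fun i _ => by simp⟩

theorem Le_trans {x y z : X} (h1 : Le x y) (h2 : Le y z) : Le x z := by
  refine ⟨h2.1.trans h1.1, fun i hi => ?_⟩
  have := dvd_add (h1.2 i (lt_of_lt_of_le hi h2.1)) (h2.2 i hi)
  simpa using this

/-- permutations preserving both relations -/
def G : Subgroup (Equiv.Perm X) where
  carrier := {g | ((∀ x y, lt x y → lt (g x) (g y)) ∧ (∀ x y, Le x y → Le (g x) (g y))) ∧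
    ((∀ x y, lt x y → lt (g⁻¹ x) (g⁻¹ y)) ∧ (∀ x y, Le x y → Le (g⁻¹ x) (g⁻¹ y)))}
  mul_mem' := by
    rintro a b ⟨⟨a1, a2⟩, a3, a4⟩ ⟨⟨b1, b2⟩, b3, b4⟩
    refine ⟨⟨fun x y h => ?_, fun x y h => ?_⟩, fun x y h => ?_, fun x y h => ?_⟩
    · exact a1 _ _ (b1 _ _ h)
    · exact a2 _ _ (b2 _ _ h)
    · rw [mul_inv_rev]; exact b3 _ _ (a3 _ _ h)
    · rw [mul_inv_rev]; exact b4 _ _ (a4 _ _ h)
  one_mem' := by
    refine ⟨⟨fun x y h => h, fun x y h => h⟩, fun x y h => ?_, fun x y h => ?_⟩
    · rw [inv_one]; exact h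
    · rw [inv_one]; exact h
  inv_mem' := by
    rintro a ⟨h1, h2⟩
    refine ⟨h2, ?_⟩
    rw [inv_inv]
    exact h1

/-- right action -/
def act (x : X) (g : G) : X := (g⁻¹ : G).1 x

theorem act_one (x : X) : act x 1 = x := by simp [act]

theorem act_mul (x : X) (g h : G) : act x (g * h) = act (act x g) h := by
  simp [act, mul_inv_rev]

theorem act_lt {x y : X} (h : lt x y) (g : G) : lt (act x g) (act y g) :=
  (g⁻¹ : G).2.1.1 x y h

theorem act_Le {x y : X} (h : Le x y) (g : G) : Le (act x g) (act y g) :=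
  (g⁻¹ : G).2.1.2 x y h

theorem act_Le_iff {x y : X} (g : G) : Le (act x g) (act y g) ↔ Le x y := by
  constructor
  · intro h
    have := act_Le h g⁻¹
    rwa [← act_mul, ← act_mul, mul_inv_cancel, act_one, act_one] at this
  · intro h
    exact act_Le h g

theorem act_inj {x y : X} (g : G) (h : act x g = act y g) : x = y := by
  have := congrArg (fun z => act z g⁻¹) h
  simp only [← act_mul, mul_inv_cancel, act_one] at this
  exact this

theorem eq_of_act {a b : G} (h : ∀ x, act x a = act x b) : a = b := by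
  have : (a⁻¹ : G) = b⁻¹ := by
    apply Subtype.ext
    apply Equiv.ext
    intro x
    exact h x
  exact inv_injective this

/-- the right order on `G` -/
def R (a b : G) : Prop :=
  a = b ∨ ∃ x, (∀ y, WellOrderingRel y x → act y a = act y b) ∧ lt (act x a) (act x b)

theorem R_refl (a : G) : R a a := Or.inl rfl

theorem R_mul {a b : G} (h : R a b) (c : G) : R (a * c) (b * c) := by
  rcases h with h | ⟨x, h1, h2⟩
  · left; rw [h]
  · right
    refine ⟨x, fun y hy => ?_, ?_⟩
    · rw [act_mul, act_mul, h1 y hy]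
    · rw [act_mul, act_mul]; exact act_lt h2 c

theorem R_total (a b : G) : R a b ∨ R b a := by
  by_cases hab : a = b
  · left; left; exact hab
  · have hne : ({x | act x a ≠ act x b} : Set X).Nonempty := by
      by_contra hcon
      rw [Set.not_nonempty_iff_eq_empty] at hcon
      apply hab
      apply eq_of_act
      intro x
      by_contra hx
      have : x ∈ ({x | act x a ≠ act x b} : Set X) := hx
      rw [hcon] at this
      exact this
    have wf : WellFounded (WellOrderingRel : X → X → Prop) := WellOrderingRel.isWellOrder.toIsWellFounded.wf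
    set x := wf.min _ hne with hx
    have hx1 : act x a ≠ act x b := wf.min_mem _ hne
    have hx2 : ∀ y, WellOrderingRel y x → act y a = act y b := by
      intro y hy
      by_contra hc
      exact wf.not_lt_min _ (x := y) hc hy
    rcases lt_total _ _ hx1 with h | h
    · left; right; exact ⟨x, hx2, h⟩
    · right; right; exact ⟨x, fun y hy => (hx2 y hy).symm, h⟩

theorem R_trans {a b c : G} (h1 : R a b) (h2 : R b c) : R a c := by
  rcases h1 with h1 | ⟨x, hx1, hx2⟩
  · rw [h1]; exact h2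
  · rcases h2 with h2 | ⟨y, hy1, hy2⟩
    · rw [← h2]; right; exact ⟨x, hx1, hx2⟩
    · right
      rcases trichotomous_of WellOrderingRel x y with h | h | h
      · refine ⟨x, fun z hz => ?_, ?_⟩
        · rw [hx1 z hz, hy1 z (trans_of WellOrderingRel hz h)]
        · rw [← hy1 x h]; exact hx2
      · subst h
        exact ⟨x, fun z hz => (hx1 z hz).trans (hy1 z hz), lt_trans hx2 hy2⟩
      · refine ⟨y, fun z hz => ?_, ?_⟩
        · rw [hx1 z (trans_of WellOrderingRel hz h), hy1 z hz]
        · rw [hx1 y h]; exact hy2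

theorem R_antisymm {a b : G} (h1 : R a b) (h2 : R b a) : a = b := by
  rcases h1 with h1 | ⟨x, hx1, hx2⟩
  · exact h1
  · rcases h2 with h2 | ⟨y, hy1, hy2⟩
    · exact h2.symm
    · exfalso
      rcases trichotomous_of WellOrderingRel x y with h | h | h
      · rw [hy1 x h] at hx2
        exact lt_irrefl _ hx2
      · subst h
        exact lt_irrefl _ (lt_trans hx2 hy2)
      · rw [hx1 y h] at hy2
        exact lt_irrefl _ hy2

def t0 : X := (0, 1)

def r (a b : G) : Prop := Le (act t0 a) (act t0 b) ∧ (Le (act t0 b) (act t0 a) → R a b)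

theorem r_refl (a : G) : r a a := ⟨Le_refl _, fun _ => R_refl a⟩

theorem r_antisymm (a b : G) (h1 : r a b) (h2 : r b a) : a = b :=
  R_antisymm (h1.2 h2.1) (h2.2 h1.1)

theorem r_trans (a b c : G) (h1 : r a b) (h2 : r b c) : r a c := by
  refine ⟨Le_trans h1.1 h2.1, fun h => ?_⟩
  exact R_trans (h1.2 (Le_trans h2.1 h)) (h2.2 (Le_trans h h1.1))

theorem r_mul (a b c : G) (h : r a b) : r (a * c) (b * c) := by
  refine ⟨?_, fun h' => ?_⟩
  · rw [act_mul, act_mul]; exact act_Le h.1 c
  · rw [act_mul, act_mul, act_Le_iff] at h'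
    exact R_mul (h.2 h') c

theorem r_chain (a b : G) (h1 : r 1 a) (h2 : r 1 b) : r a b ∨ r b a := by
  have h1' := h1.1
  have h2' := h2.1
  rw [act_one] at h1' h2'
  have key : ∀ u v : X, Le t0 u → Le t0 v → v.2 ≤ u.2 → Le u v := by
    intro u v hu hv huv
    refine ⟨huv, fun i hi => ?_⟩
    have e1 := hu.2 i (lt_of_lt_of_le hi huv)
    have e2 := hv.2 i hi
    have := dvd_sub e2 e1
    simpa using this
  have tot : Le (act t0 a) (act t0 b) ∨ Le (act t0 b) (act t0 a) := by
    rcases le_total (act t0 b).2 (act t0 a).2 with h | h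
    · left; exact key _ _ h1' h2' h
    · right; exact key _ _ h2' h1' h
  by_cases ha : Le (act t0 a) (act t0 b)
  · by_cases hb : Le (act t0 b) (act t0 a)
    · rcases R_total a b with h | h
      · left; exact ⟨ha, fun _ => h⟩
      · right; exact ⟨hb, fun _ => h⟩
    · left; exact ⟨ha, fun h => absurd h hb⟩
  · rcases tot with h | h
    · exact absurd h ha
    · right; exact ⟨h, fun h' => absurd h' ha⟩

end Pool.Agent.H27.Semi
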