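import Pool.Agent.H27.Semi1

set_option autoImplicit false

namespace Pool.Agent.H27.Semi

/-- map induced by an order automorphism of `ℚ` -/
def E (e : ℚ ≃o ℚ) (x : X) : X := (Finsupp.equivMapDomain e.toEquiv x.1, e x.2)

theorem E_apply (e : ℚ ≃o ℚ) (x : X) (i : ℚ) : (E e x).1 i = x.1 (e.symm i) := rfl

theorem E_lt (e : ℚ ≃o ℚ) {x y : X} (h : lt x y) : lt (E e x) (E e y) := by
  rcases h with ⟨i, hi, hi'⟩ | ⟨h1, h2⟩
  · left
    refine ⟨e i, fun j hj => ?_, ?_⟩
    · rw [E_apply, E_apply]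
      apply hi
      rw [OrderIso.symm_apply_lt]
      exact hj
    · rw [E_apply, E_apply, OrderIso.symm_apply_apply]
      exact hi'
  · right
    refine ⟨?_, ?_⟩
    · show Finsupp.equivMapDomain e.toEquiv x.1 = Finsupp.equivMapDomain e.toEquiv y.1
      rw [h1]
    · exact e.strictMono h2

theorem E_Le (e : ℚ ≃o ℚ) {x y : X} (h : Le x y) : Le (E e x) (E e y) := by
  refine ⟨e.monotone h.1, fun i hi => ?_⟩
  rw [E_apply, E_apply]
  apply h.2
  rw [OrderIso.symm_apply_lt]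
  exact hi

theorem E_E_symm (e : ℚ ≃o ℚ) (x : X) : E e (E e.symm x) = x := by
  apply Prod.ext
  · ext i
    rw [E_apply, E_apply]
    simp
  · show e (e.symm x.2) = x.2
    simp

theorem E_symm_E (e : ℚ ≃o ℚ) (x : X) : E e.symm (E e x) = x := by
  apply Prod.ext
  · ext i
    rw [E_apply, E_apply]
    simp
  · show e.symm (e x.2) = x.2
    simp

/-- the compression -/
def phi : ℚ ≃o ℚ where
  toFun x := if 0 < x then x / 2 else x
  invFun x := if 0 < x then 2 * x else x
  left_inv x := by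
    by_cases h : 0 < x
    · have : 0 < x / 2 := by positivity
      simp only [h, this, if_true]
      ring
    · simp only [h, if_false]
  right_inv x := by
    by_cases h : 0 < x
    · have : 0 < 2 * x := by positivity
      simp only [h, this, if_true]
      ring
    · simp only [h, if_false]
  map_rel_iff' := by
    intro a b
    simp only [Equiv.coe_fn_mk]
    split_ifs with h1 h2 h2
    · constructor <;> intro h <;> linarith
    · constructor <;> intro h <;> linarith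
    · constructor <;> intro h <;> linarith
    · exact Iff.rfl

theorem phi_pos {x : ℚ} (h : 0 < x) : phi x = x / 2 := by
  show (if 0 < x then x / 2 else x) = x / 2
  rw [if_pos h]

theorem phi_nonpos {x : ℚ} (h : x ≤ 0) : phi x = x := by
  show (if 0 < x then x / 2 else x) = x
  rw [if_neg (not_lt.mpr h)]

theorem phi_symm_nonpos {x : ℚ} (h : x ≤ 0) : phi.symm x = x := by
  rw [OrderIso.symm_apply_eq, phi_nonpos h]

/-- `e` fixes the nonpositive rationals -/
def FixNP (e : ℚ ≃o ℚ) : Prop := ∀ x ≤ 0, e x = x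

theorem fix_phi : FixNP phi := fun _ h => phi_nonpos h
theorem fix_phi_symm : FixNP phi.symm := fun _ h => phi_symm_nonpos h

theorem FixNP.symm {e : ℚ ≃o ℚ} (h : FixNP e) : FixNP e.symm := by
  intro x hx
  rw [OrderIso.symm_apply_eq, h x hx]

theorem FixNP.E_apply {e : ℚ ≃o ℚ} (h : FixNP e) (x : X) {i : ℚ} (hi : i ≤ 0) :
    (E e x).1 i = x.1 i := by
  rw [Semi.E_apply, h.symm i hi]

theorem FixNP.pos {e : ℚ ≃o ℚ} (h : FixNP e) {x : ℚ} (hx : 0 < x) : 0 < e x := by
  have := e.strictMono hx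
  rwa [h 0 le_rfl] at this

theorem mixed_lt {e e' : ℚ ≃o ℚ} (h : FixNP e) (h' : FixNP e') {x y : X} (hxy : lt x y)
    (h0 : x.1 0 ≠ y.1 0) : lt (E e x) (E e' y) := by
  rcases hxy with ⟨i, hi, hi'⟩ | ⟨h1, h2⟩
  · have hi0 : i ≤ 0 := by
      by_contra hc
      exact h0 (hi 0 (not_le.mp hc))
    left
    refine ⟨i, fun j hj => ?_, ?_⟩
    · rw [h.E_apply _ (hj.le.trans hi0), h'.E_apply _ (hj.le.trans hi0)]
      exact hi j hj
    · rw [h.E_apply _ hi0, h'.E_apply _ hi0]
      exact hi'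
  · exact absurd (by rw [h1]) h0

theorem mixed_Le {e e' : ℚ ≃o ℚ} (h : FixNP e) (h' : FixNP e') {x y : X} (hxy : Le x y)
    (h0 : ¬ (2:ℤ) ∣ (x.1 0 - y.1 0)) : Le (E e x) (E e' y) := by
  have hy : y.2 ≤ 0 := by
    by_contra hc
    exact h0 (hxy.2 0 (not_le.mp hc))
  have e2 : (E e' y).2 = y.2 := h' _ hy
  refine ⟨?_, fun i hi => ?_⟩
  · rw [e2]
    show y.2 ≤ e x.2
    rcases le_or_gt x.2 0 with hx | hx
    · rw [h _ hx]; exact hxy.1
    · exact hy.trans (h.pos hx).le
  · rw [e2] at hi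
    rw [h.E_apply _ (hi.le.trans hy), h'.E_apply _ (hi.le.trans hy)]
    exact hxy.2 i hi

/-- the two-branch map -/
noncomputable def W (e e' : ℚ ≃o ℚ) (x : X) : X := if Even (x.1 0) then E e x else E e' x

theorem W_lt {e e' : ℚ ≃o ℚ} (h : FixNP e) (h' : FixNP e') {x y : X} (hxy : lt x y) :
    lt (W e e' x) (W e e' y) := by
  unfold W
  by_cases hx : Even (x.1 0) <;> by_cases hy : Even (y.1 0)
  · rw [if_pos hx, if_pos hy]; exact E_lt e hxy
  · rw [if_pos hx, if_neg hy]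
    exact mixed_lt h h' hxy (fun h0 => hy (h0 ▸ hx))
  · rw [if_neg hx, if_pos hy]
    exact mixed_lt h' h hxy (fun h0 => hx (h0 ▸ hy))
  · rw [if_neg hx, if_neg hy]; exact E_lt e' hxy

theorem W_Le {e e' : ℚ ≃o ℚ} (h : FixNP e) (h' : FixNP e') {x y : X} (hxy : Le x y) :
    Le (W e e' x) (W e e' y) := by
  unfold W
  by_cases hx : Even (x.1 0) <;> by_cases hy : Even (y.1 0)
  · rw [if_pos hx, if_pos hy]; exact E_Le e hxy
  · rw [if_pos hx, if_neg hy]
    refine mixed_Le h h' hxy (fun h0 => hy ?_)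
    have := (Int.even_sub.mp (even_iff_two_dvd.mpr h0)).mp hx
    exact this
  · rw [if_neg hx, if_pos hy]
    refine mixed_Le h' h hxy (fun h0 => hx ?_)
    exact (Int.even_sub.mp (even_iff_two_dvd.mpr h0)).mpr hy
  · rw [if_neg hx, if_neg hy]; exact E_Le e' hxy

theorem W_W {e e' : ℚ ≃o ℚ} (h : FixNP e) (h' : FixNP e') (x : X) :
    W e.symm e'.symm (W e e' x) = x := by
  unfold W
  by_cases hx : Even (x.1 0)
  · rw [if_pos hx]
    have : (E e x).1 0 = x.1 0 := h.E_apply x le_rfl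
    rw [this, if_pos hx, E_symm_E]
  · rw [if_neg hx]
    have : (E e' x).1 0 = x.1 0 := h'.E_apply x le_rfl
    rw [this, if_neg hx, E_symm_E]

noncomputable def etaP : Equiv.Perm X where
  toFun := W phi phi.symm
  invFun := W phi.symm phi
  left_inv x := W_W fix_phi fix_phi_symm x
  right_inv x := W_W fix_phi_symm fix_phi x

noncomputable def eta : G := ⟨etaP, ⟨⟨fun _ _ h => W_lt fix_phi fix_phi_symm h,
  fun _ _ h => W_Le fix_phi fix_phi_symm h⟩,
  ⟨fun _ _ h => W_lt fix_phi_symm fix_phi h, fun _ _ h => W_Le fix_phi_symm fix_phi h⟩⟩⟩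

def tauE : ℚ ≃o ℚ := OrderIso.addRight (-1)

noncomputable def tauP : Equiv.Perm X where
  toFun := E tauE
  invFun := E tauE.symm
  left_inv x := E_symm_E _ x
  right_inv x := E_E_symm _ x

noncomputable def tau : G := ⟨tauP, ⟨⟨fun _ _ h => E_lt _ h, fun _ _ h => E_Le _ h⟩,
  ⟨fun _ _ h => E_lt _ h, fun _ _ h => E_Le _ h⟩⟩⟩

noncomputable def S (n : ℤ) (x : X) : X := (x.1 + Finsupp.single 0 n, x.2)

theorem S_lt (n : ℤ) {x y : X} (h : lt x y) : lt (S n x) (S n y) := by
  rcases h with ⟨i, hi, hi'⟩ | ⟨h1, h2⟩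
  · left
    refine ⟨i, fun j hj => ?_, ?_⟩
    · show (x.1 + Finsupp.single 0 n : ℚ →₀ ℤ) j = (y.1 + Finsupp.single 0 n : ℚ →₀ ℤ) j
      rw [Finsupp.add_apply, Finsupp.add_apply, hi j hj]
    · show (x.1 + Finsupp.single 0 n : ℚ →₀ ℤ) i < (y.1 + Finsupp.single 0 n : ℚ →₀ ℤ) i
      rw [Finsupp.add_apply, Finsupp.add_apply]
      linarith
  · right
    refine ⟨?_, h2⟩
    show x.1 + Finsupp.single 0 n = y.1 + Finsupp.single 0 n
    rw [h1]

theorem S_Le (n : ℤ) {x y : X} (h : Le x y) : Le (S n x) (S n y) := by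
  refine ⟨h.1, fun i hi => ?_⟩
  show (2:ℤ) ∣ ((x.1 + Finsupp.single 0 n : ℚ →₀ ℤ) i - (y.1 + Finsupp.single 0 n : ℚ →₀ ℤ) i)
  rw [Finsupp.add_apply, Finsupp.add_apply, add_sub_add_right_eq_sub]
  exact h.2 i hi

theorem S_S (n m : ℤ) (x : X) : S n (S m x) = S (m + n) x := by
  apply Prod.ext
  · show x.1 + Finsupp.single 0 m + Finsupp.single 0 n = x.1 + Finsupp.single 0 (m + n)
    rw [add_assoc, Finsupp.single_add]
  · rfl

theorem S_zero (x : X) : S 0 x = x := by
  apply Prod.ext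
  · show x.1 + Finsupp.single 0 0 = x.1
    simp
  · rfl

noncomputable def sigP : Equiv.Perm X where
  toFun := S 1
  invFun := S (-1)
  left_inv x := by rw [S_S]; simpa using S_zero x
  right_inv x := by rw [S_S]; simpa using S_zero x

noncomputable def sig : G := ⟨sigP, ⟨⟨fun _ _ h => S_lt _ h, fun _ _ h => S_Le _ h⟩,
  ⟨fun _ _ h => S_lt _ h, fun _ _ h => S_Le _ h⟩⟩⟩

/-- the group elements used (for the right action) -/
noncomputable def s : G := sig⁻¹
noncomputable def h : G := eta⁻¹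
noncomputable def t : G := tau⁻¹

theorem act_s (x : X) : act x s = S 1 x := by
  simp only [act, s, inv_inv]; rfl

theorem act_s_inv (x : X) : act x s⁻¹ = S (-1) x := by
  simp only [act, s, inv_inv]; rfl

theorem act_h (x : X) : act x h = W phi phi.symm x := by
  simp only [act, h, inv_inv]; rfl

theorem act_h_inv (x : X) : act x h⁻¹ = W phi.symm phi x := by
  simp only [act, h, inv_inv]; rfl

theorem act_t (x : X) : act x t = E tauE x := by
  simp only [act, t, inv_inv]; rfl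

theorem act_t_pow (n : ℕ) : act t0 (t ^ n) = (0, 1 - (n : ℚ)) := by
  induction n with
  | zero => simp [act_one, t0]
  | succ n ih =>
    rw [pow_succ, act_mul, ih, act_t]
    apply Prod.ext
    · ext i
      rw [E_apply]
      rfl
    · show (1 - (n:ℚ)) + (-1) = 1 - ((n + 1 : ℕ) : ℚ)
      push_cast
      ring

theorem exists_pow (x : X) : ∃ N : ℕ, ∀ n ≥ N, Le x (act t0 (t ^ n)) ∧ ¬ Le (act t0 (t ^ n)) x := by
  obtain ⟨b, hb⟩ : ∃ b : ℚ, ∀ i < b, x.1 i = 0 := by
    obtain ⟨b, hb⟩ := (x.1.support.finite_toSet).bddBelow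
    refine ⟨b, fun i hi => ?_⟩
    by_contra hne
    exact absurd (hb (Finsupp.mem_support_iff.mpr hne)) (not_le.mpr hi)
  obtain ⟨N, hN⟩ := exists_nat_gt (1 - min b x.2)
  refine ⟨N, fun n hn => ?_⟩
  have hn' : (1:ℚ) - n < min b x.2 := by
    have : (N:ℚ) ≤ n := by exact_mod_cast hn
    linarith
  rw [act_t_pow]
  refine ⟨⟨?_, ?_⟩, ?_⟩
  · show (1:ℚ) - n ≤ x.2
    exact hn'.le.trans (min_le_right _ _)
  · intro i hi
    have hi' : i < 1 - (n:ℚ) := hi
    have : x.1 i = 0 := hb i (hi'.trans (hn'.trans_le (min_le_left _ _)))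
    show (2:ℤ) ∣ x.1 i - 0
    rw [this]
    simp
  · intro hle
    have : x.2 ≤ 1 - (n:ℚ) := hle.1
    have := hn'.trans_le (min_le_right b x.2)
    linarith

theorem r_directed (a b : G) : ∃ c : G, r a c ∧ r b c := by
  obtain ⟨N, hN⟩ := exists_pow (act t0 a)
  obtain ⟨M, hM⟩ := exists_pow (act t0 b)
  refine ⟨t ^ (max N M), ?_, ?_⟩
  · have := hN (max N M) (le_max_left _ _)
    exact ⟨this.1, fun h => absurd h this.2⟩
  · have := hM (max N M) (le_max_right _ _)
    exact ⟨this.1, fun h => absurd h this.2⟩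

/-- membership criterion for strict positivity: `act t0 g = (f, 1/2)` with `f` even below `1/2` -/
theorem r_one_of {g : G} {f : ℚ →₀ ℤ} (hg : act t0 g = (f, 1/2)) (hf : ∀ i < (1/2 : ℚ), (2:ℤ) ∣ f i) :
    r 1 g ∧ g ≠ 1 := by
  refine ⟨⟨?_, ?_⟩, ?_⟩
  · rw [act_one, hg]
    refine ⟨by norm_num [t0], fun i hi => ?_⟩
    have := hf i hi
    show (2:ℤ) ∣ 0 - f i
    rw [zero_sub, dvd_neg]
    exact this
  · intro hle
    rw [act_one, hg] at hle
    have := hle.1
    norm_num [t0] at this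
  · intro h1
    rw [h1, act_one] at hg
    have := congrArg Prod.snd hg
    norm_num [t0] at this

theorem W_single_even (n : ℤ) (hn : Even n) (e e' : ℚ ≃o ℚ) (he : FixNP e) (q : ℚ) :
    W e e' (Finsupp.single 0 n, q) = (Finsupp.single 0 n, e q) := by
  unfold W
  have h0 : (Finsupp.single (0:ℚ) n) 0 = n := by simp
  rw [if_pos (by show Even ((Finsupp.single (0:ℚ) n) 0); rw [h0]; exact hn)]
  apply Prod.ext
  · show Finsupp.equivMapDomain e.toEquiv (Finsupp.single 0 n) = Finsupp.single 0 n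
    rw [Finsupp.equivMapDomain_single]
    congr 1
    exact he 0 le_rfl
  · rfl

theorem W_single_odd (n : ℤ) (hn : ¬ Even n) (e e' : ℚ ≃o ℚ) (he : FixNP e') (q : ℚ) :
    W e e' (Finsupp.single 0 n, q) = (Finsupp.single 0 n, e' q) := by
  unfold W
  have h0 : (Finsupp.single (0:ℚ) n) 0 = n := by simp
  rw [if_neg (by show ¬ Even ((Finsupp.single (0:ℚ) n) 0); rw [h0]; exact hn)]
  apply Prod.ext
  · show Finsupp.equivMapDomain e'.toEquiv (Finsupp.single 0 n) = Finsupp.single 0 n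
    rw [Finsupp.equivMapDomain_single]
    congr 1
    exact he 0 le_rfl
  · rfl

theorem S_single (n m : ℤ) (q : ℚ) :
    S n (Finsupp.single 0 m, q) = (Finsupp.single 0 (m + n), q) := by
  apply Prod.ext
  · show Finsupp.single (0:ℚ) m + Finsupp.single 0 n = Finsupp.single 0 (m + n)
    rw [Finsupp.single_add]
  · rfl

theorem t0_eq : t0 = (Finsupp.single 0 0, 1) := by
  apply Prod.ext
  · simp [t0]
  · rfl

theorem phi_one : phi 1 = 1 / 2 := phi_pos one_pos

theorem single_even_dvd {n : ℤ} (hn : Even n) : ∀ i < (1/2 : ℚ), (2:ℤ) ∣ (Finsupp.single (0:ℚ) n) i := by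
  intro i _
  by_cases h : i = 0
  · subst h
    simpa using even_iff_two_dvd.mp hn
  · rw [Finsupp.single_eq_of_ne h]
    simp

theorem p3 : r 1 h ∧ h ≠ 1 := by
  refine r_one_of (f := Finsupp.single 0 0) ?_ (single_even_dvd (by decide))
  rw [act_h, t0_eq, W_single_even _ (by decide) _ _ fix_phi, phi_one]

theorem p1 : r 1 (s⁻¹ * h⁻¹ * s) ∧ s⁻¹ * h⁻¹ * s ≠ 1 := by
  refine r_one_of (f := Finsupp.single 0 0) ?_ (single_even_dvd (by decide))
  rw [act_mul, act_mul, act_s_inv, act_h_inv, act_s, t0_eq, S_single,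
    W_single_odd _ (by decide) _ _ fix_phi, phi_one, S_single]
  rfl

theorem p2 : r 1 (s⁻¹ * s⁻¹ * h) ∧ s⁻¹ * s⁻¹ * h ≠ 1 := by
  refine r_one_of (f := Finsupp.single 0 (-2)) ?_ (single_even_dvd (by decide))
  rw [act_mul, act_mul, act_s_inv, act_s_inv, act_h, t0_eq, S_single, S_single,
    W_single_even _ (by decide) _ _ fix_phi, phi_one]
  rfl

theorem p4 : r 1 (s * h⁻¹ * s) ∧ s * h⁻¹ * s ≠ 1 := by
  refine r_one_of (f := Finsupp.single 0 2) ?_ (single_even_dvd (by decide))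
  rw [act_mul, act_mul, act_s, act_h_inv, act_s, t0_eq, S_single,
    W_single_odd _ (by decide) _ _ fix_phi, phi_one, S_single]
  rfl

/-- no right order extends `r` -/
theorem no_ext (Q : G → G → Prop) (hrefl : ∀ a, Q a a) (hanti : ∀ a b, Q a b → Q b a → a = b)
    (htrans : ∀ a b c, Q a b → Q b c → Q a c) (htot : ∀ a b, Q a b ∨ Q b a)
    (hmul : ∀ a b c, Q a b → Q (a * c) (b * c)) (hext : ∀ a b, r a b → Q a b) : False := by
  have mulpos : ∀ a b, Q 1 a → Q 1 b → Q 1 (a * b) := by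
    intro a b ha hb
    have := hmul 1 a b ha
    rw [one_mul] at this
    exact htrans _ _ _ hb this
  have invneg : ∀ a, Q a 1 → Q 1 a⁻¹ := by
    intro a ha
    have := hmul a 1 a⁻¹ ha
    rwa [mul_inv_cancel, one_mul] at this
  have contra : ∀ a, Q 1 a → Q 1 a⁻¹ → a = 1 := by
    intro a h1 h2
    have := hmul 1 a⁻¹ a h2
    rw [one_mul, inv_mul_cancel] at this
    exact hanti _ _ this h1
  rcases htot 1 s with hs | hs
  · have e1 := mulpos _ _ (mulpos _ _ hs (hext _ _ p1.1)) hs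
    have e2 := hext _ _ p2.1
    apply p2.2
    apply contra _ e2
    have : (s⁻¹ * s⁻¹ * h)⁻¹ = s * (s⁻¹ * h⁻¹ * s) * s := by
      simp only [mul_inv_rev, inv_inv, mul_assoc, mul_inv_cancel_left]
    rw [this]
    exact e1
  · have hs' := invneg _ hs
    have e1 := mulpos _ _ (mulpos _ _ hs' (hext _ _ p3.1)) hs'
    have e2 := hext _ _ p4.1
    apply p4.2
    apply contra _ e2
    have : (s * h⁻¹ * s)⁻¹ = s⁻¹ * h * s⁻¹ := by
      simp only [mul_inv_rev, inv_inv, mul_assoc]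
    rw [this]
    exact e1

end Pool.Agent.H27.Semi
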