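import Mathlib

/-! Every even permutation of a finite type is a product of two commutators. -/

namespace Pool.Agent.H27.Sym

open Equiv Equiv.Perm

variable {K : Type*} [Fintype K] [DecidableEq K]

theorem decomp (t : Perm K) : ∃ i o : Perm K, t = i * o ∧ Odd (orderOf o) ∧ i * i = 1 ∧
    o.support ⊆ t.support ∧ i.support ⊆ t.support := by
  induction t using Equiv.Perm.cycle_induction_on with
  | base_one => exact ⟨1, 1, by simp, by simp, by simp, by simp, by simp⟩
  | base_cycles σ hσ =>
    by_cases hodd : Odd (σ.support.card)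
    · exact ⟨1, σ, by simp, by rw [hσ.orderOf]; exact hodd, by simp, subset_rfl, by simp⟩
    · obtain ⟨x, hx, _⟩ := hσ
      have hσ : σ.IsCycle := ⟨x, hx, by assumption⟩
      by_cases h2 : σ (σ x) = x
      · have h3 := hσ.eq_swap_of_apply_apply_eq_self hx h2
        refine ⟨σ, 1, by simp, by simp, ?_, by simp, subset_rfl⟩
        rw [h3]
        simp
      · have hc := hσ.swap_mul hx h2
        have hs := Equiv.Perm.support_swap_mul_eq σ x h2
        refine ⟨swap x (σ x), swap x (σ x) * σ, ?_, ?_, ?_, ?_, ?_⟩
        · rw [← mul_assoc]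
          simp
        · rw [hc.orderOf, hs]
          have hxs : x ∈ σ.support := Equiv.Perm.mem_support.mpr hx
          rw [Finset.card_sdiff_of_subset (by simpa using hx), Finset.card_singleton]
          rw [Nat.not_odd_iff_even] at hodd
          have hpos : 0 < σ.support.card := Finset.card_pos.mpr ⟨x, hxs⟩
          obtain ⟨r, hr⟩ := hodd
          exact ⟨r - 1, by omega⟩
        · simp
        · rw [hs]
          exact Finset.sdiff_subset
        · intro y hy
          rw [Equiv.Perm.mem_support] at hy ⊢
          by_cases h1 : y = x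
          · rw [h1]; exact hx
          · by_cases h3 : y = σ x
            · rw [h3]
              exact fun h => hx (σ.injective h)
            · exact absurd (swap_apply_of_ne_of_ne h1 h3) hy
  | induction_disjoint σ τ hd hc ih1 ih2 =>
    obtain ⟨i1, o1, h1, ho1, hi1, hs1, hs1'⟩ := ih1
    obtain ⟨i2, o2, h2, ho2, hi2, hs2, hs2'⟩ := ih2
    have hd' : _root_.Disjoint σ.support τ.support := Equiv.Perm.disjoint_iff_disjoint_support.mp hd
    have hdd : ∀ a b : Perm K, a.support ⊆ σ.support → b.support ⊆ τ.support → Commute a b := by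
      intro a b ha hb
      apply Equiv.Perm.Disjoint.commute
      rw [Equiv.Perm.disjoint_iff_disjoint_support]
      exact hd'.mono ha hb
    have hsup : (σ * τ).support = σ.support ∪ τ.support := hd.support_mul
    refine ⟨i1 * i2, o1 * o2, ?_, ?_, ?_, ?_, ?_⟩
    · have hcm := hdd o1 i2 hs1 hs2'
      rw [h1, h2]
      calc i1 * o1 * (i2 * o2) = i1 * (o1 * i2) * o2 := by group
        _ = i1 * (i2 * o1) * o2 := by rw [hcm.eq]
        _ = i1 * i2 * (o1 * o2) := by group
    · have hcm := hdd o1 o2 hs1 hs2
      have := hcm.orderOf_mul_dvd_mul_orderOf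
      exact Odd.of_dvd_nat (ho1.mul ho2) this
    · have hcm := hdd i1 i2 hs1' hs2'
      calc i1 * i2 * (i1 * i2) = i1 * (i2 * i1) * i2 := by group
        _ = i1 * (i1 * i2) * i2 := by rw [hcm.eq]
        _ = (i1 * i1) * (i2 * i2) := by group
        _ = 1 := by rw [hi1, hi2]; simp
    · rw [hsup]
      refine (Equiv.Perm.support_mul_le o1 o2).trans ?_
      exact Finset.union_subset_union hs1 hs2
    · rw [hsup]
      refine (Equiv.Perm.support_mul_le i1 i2).trans ?_
      exact Finset.union_subset_union hs1' hs2'

theorem odd_comm (o : Perm K) (ho : Odd (orderOf o)) : ∃ a b : Perm K, o = a * b * a⁻¹ * b⁻¹ := by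
  obtain ⟨k, hk⟩ := ho
  have h1 : o ^ (k+1) * o ^ (k+1) = o := by
    rw [← pow_add]
    have : k + 1 + (k + 1) = orderOf o + 1 := by omega
    rw [this, pow_succ, pow_orderOf_eq_one, one_mul]
  have h2 : IsConj (o ^ (k+1)) (o ^ (k+1))⁻¹ := by
    rw [Equiv.Perm.isConj_iff_cycleType_eq, Equiv.Perm.cycleType_inv]
  obtain ⟨g, hg⟩ := isConj_iff.mp h2
  refine ⟨o ^ (k+1), g, ?_⟩
  have h3 : g * (o ^ (k+1))⁻¹ * g⁻¹ = o ^ (k+1) := by
    have := congrArg (·⁻¹) hg
    simp only [mul_inv_rev, inv_inv] at this
    rw [mul_assoc]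
    exact this
  calc o = o ^ (k+1) * o ^ (k+1) := h1.symm
    _ = o ^ (k+1) * (g * (o ^ (k+1))⁻¹ * g⁻¹) := by rw [h3]
    _ = _ := by group

theorem invol_cycleType (i : Perm K) (hi : i * i = 1) :
    i.cycleType = Multiset.replicate (i.support.card / 2) 2 ∧ 2 * (i.support.card / 2) = i.support.card := by
  have h1 : ∀ n ∈ i.cycleType, n = 2 := by
    intro n hn
    have h2 := Equiv.Perm.two_le_of_mem_cycleType hn
    have h3 := Equiv.Perm.dvd_of_mem_cycleType hn
    have h4 : orderOf i ∣ 2 := by
      apply orderOf_dvd_of_pow_eq_one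
      rw [pow_two]
      exact hi
    have h5 := Nat.le_of_dvd (by norm_num) (h3.trans h4)
    omega
  have h2 : i.cycleType = Multiset.replicate (Multiset.card i.cycleType) 2 :=
    Multiset.eq_replicate.mpr ⟨rfl, h1⟩
  have h3 := Equiv.Perm.sum_cycleType i
  rw [h2, Multiset.sum_replicate, smul_eq_mul] at h3
  have h4 : i.support.card / 2 = Multiset.card i.cycleType := by omega
  rw [h4]
  exact ⟨h2, by omega⟩

theorem invol_conj (s s' : Perm K) (hs : s * s = 1) (hs' : s' * s' = 1)
    (h : s.support.card = s'.support.card) : IsConj s s' := by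
  rw [Equiv.Perm.isConj_iff_cycleType_eq, (invol_cycleType s hs).1, (invol_cycleType s' hs').1, h]

theorem invol_comm (i : Perm K) (hi : i * i = 1) (hsign : Equiv.Perm.sign i = 1) :
    ∃ a b : Perm K, i = a * b * a⁻¹ * b⁻¹ := by
  classical
  have hii : ∀ x, i (i x) = x := by
    intro x
    have := congrArg (fun g : Perm K => g x) hi
    simpa [Equiv.Perm.mul_apply] using this
  obtain ⟨hct, hcard⟩ := invol_cycleType i hi
  -- number of transpositions is even
  have hpar : Even (i.support.card / 2) := by
    rw [Equiv.Perm.sign_of_cycleType, hct, Multiset.sum_replicate, Multiset.card_replicate,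
      smul_eq_mul] at hsign
    by_contra hne
    rw [Nat.not_even_iff_odd] at hne
    have h3 : Odd (i.support.card / 2 * 2 + i.support.card / 2) := by
      obtain ⟨r, hr⟩ := hne
      exact ⟨i.support.card / 2 + r, by omega⟩
    rw [h3.neg_one_pow] at hsign
    exact absurd hsign (by decide)
  let e := Fintype.equivFin K
  let M : Finset K := Finset.univ.filter (fun x => e x < e (i x))
  have hMi : ∀ x, x ∈ M → i x ∉ M := by
    intro x hx hx'
    simp only [M, Finset.mem_filter, Finset.mem_univ, true_and] at hx hx'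
    rw [hii] at hx'
    exact absurd hx (not_lt.mpr hx'.le)
  have hsupM : i.support = M ∪ M.image i := by
    ext x
    rw [Equiv.Perm.mem_support, Finset.mem_union, Finset.mem_image]
    constructor
    · intro hx
      have hne : e (i x) ≠ e x := fun h => hx (e.injective h)
      rcases lt_or_gt_of_ne hne with h | h
      · right
        refine ⟨i x, ?_, hii x⟩
        simp only [M, Finset.mem_filter, Finset.mem_univ, true_and]
        rw [hii]
        exact h
      · left
        simp only [M, Finset.mem_filter, Finset.mem_univ, true_and]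
        exact h
    · rintro (h | ⟨y, hy, rfl⟩)
      · simp only [M, Finset.mem_filter, Finset.mem_univ, true_and] at h
        intro h'
        rw [h'] at h
        exact lt_irrefl _ h
      · simp only [M, Finset.mem_filter, Finset.mem_univ, true_and] at hy
        intro h'
        have h2 := i.injective h'
        rw [h2] at hy
        exact lt_irrefl _ hy
  have hcardU : ∀ N : Finset K, N ⊆ M → (N ∪ N.image i).card = 2 * N.card := by
    intro N hN
    rw [Finset.card_union_of_disjoint, Finset.card_image_of_injective _ i.injective]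
    · ring
    · rw [Finset.disjoint_left]
      intro x hx hx'
      rw [Finset.mem_image] at hx'
      obtain ⟨y, hy, rfl⟩ := hx'
      exact hMi y (hN hy) (hN hx)
  have hMcard : M.card = i.support.card / 2 := by
    have := hcardU M subset_rfl
    rw [← hsupM] at this
    omega
  obtain ⟨r, hr⟩ := hpar
  obtain ⟨N, hNM, hNc⟩ := Finset.exists_subset_card_eq (s := M) (n := r) (by omega)
  let N1 : Finset K := N ∪ N.image i
  have hN1i : ∀ x, x ∈ N1 ↔ i x ∈ N1 := by
    have hone : ∀ x, x ∈ N1 → i x ∈ N1 := by
      intro x hx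
      rw [Finset.mem_union] at hx ⊢
      rcases hx with hx | hx
      · right
        exact Finset.mem_image_of_mem _ hx
      · left
        rw [Finset.mem_image] at hx
        obtain ⟨y, hy, rfl⟩ := hx
        rw [hii]
        exact hy
    intro x
    refine ⟨hone x, fun h => ?_⟩
    have := hone _ h
    rwa [hii] at this
  let f : K → K := fun x => if x ∈ N1 then i x else x
  have hff : ∀ x, f (f x) = x := by
    intro x
    by_cases hx : x ∈ N1
    · simp only [f, if_pos hx, if_pos ((hN1i x).mp hx), hii]
    · simp only [f, if_neg hx]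
  let s : Perm K := ⟨f, f, hff, hff⟩
  have hs : ∀ x, s x = if x ∈ N1 then i x else x := fun x => rfl
  have hss : s * s = 1 := by
    ext x
    exact hff x
  have hsi : ∀ x, s (i x) = i (s x) := by
    intro x
    by_cases hx : x ∈ N1
    · rw [hs, hs, if_pos hx, if_pos ((hN1i x).mp hx)]
    · rw [hs, hs, if_neg hx, if_neg (fun h => hx ((hN1i x).mpr h))]
  have hN1sub : N1 ⊆ i.support := by
    rw [hsupM]
    exact Finset.union_subset_union hNM (Finset.image_subset_image hNM)
  have hssupp : s.support = N1 := by
    ext x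
    rw [Equiv.Perm.mem_support, hs]
    by_cases hx : x ∈ N1
    · rw [if_pos hx]
      have := hN1sub hx
      rw [Equiv.Perm.mem_support] at this
      exact ⟨fun _ => hx, fun _ => this⟩
    · rw [if_neg hx]
      exact ⟨fun h => absurd rfl h, fun h => absurd h hx⟩
  have hs'supp : (i * s).support = i.support \ N1 := by
    ext x
    rw [Equiv.Perm.mem_support, Equiv.Perm.mul_apply, hs, Finset.mem_sdiff,
      Equiv.Perm.mem_support]
    by_cases hx : x ∈ N1
    · rw [if_pos hx, hii]
      exact ⟨fun h => absurd rfl h, fun h => absurd hx h.2⟩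
    · rw [if_neg hx]
      exact ⟨fun h => ⟨h, hx⟩, fun h => h.1⟩
  have his : (i * s) * (i * s) = 1 := by
    have hcom : i * s = s * i := by
      ext x
      simp only [Equiv.Perm.mul_apply]
      rw [hsi]
    calc (i * s) * (i * s) = i * (s * i) * s := by group
      _ = i * (i * s) * s := by rw [hcom]
      _ = (i * i) * (s * s) := by group
      _ = 1 := by rw [hi, hss]; simp
  have hconj : IsConj s (i * s) := by
    apply invol_conj s (i * s) hss his
    rw [hssupp, hs'supp, Finset.card_sdiff_of_subset hN1sub, hcardU N hNM]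
    omega
  obtain ⟨g, hg⟩ := isConj_iff.mp hconj
  have hsinv : s⁻¹ = s := by
    rw [inv_eq_iff_mul_eq_one]
    exact hss
  refine ⟨g, s, ?_⟩
  rw [hg, hsinv, mul_assoc, hss, mul_one]

theorem even_comm (t : Perm K) (ht : Equiv.Perm.sign t = 1) :
    ∃ a b c d : Perm K, t = (a * b * a⁻¹ * b⁻¹) * (c * d * c⁻¹ * d⁻¹) := by
  obtain ⟨i, o, h1, ho, hi, _, _⟩ := decomp t
  obtain ⟨c, d, hcd⟩ := odd_comm o ho
  have hso : Equiv.Perm.sign o = 1 := by
    rw [hcd]
    simp only [map_mul, map_inv]
    have : ∀ u v : ℤˣ, u * v * u⁻¹ * v⁻¹ = 1 := by decide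
    exact this _ _
  have hsi : Equiv.Perm.sign i = 1 := by
    rw [h1, map_mul, hso, mul_one] at ht
    exact ht
  obtain ⟨a, b, hab⟩ := invol_comm i hi hsi
  exact ⟨a, b, c, d, by rw [← hab, ← hcd]; exact h1⟩

end Pool.Agent.H27.Sym
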