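import Pool.Agent.H27.SymB2
import Pool.Agent.H27.SymEven

namespace Pool.Agent.H27.Sym

open Equiv Set

variable {X : Type*}

/-- products of an even number of transpositions -/
def EvenFin [DecidableEq X] (t : Perm X) : Prop :=
  ∃ l : List (Perm X), (∀ s ∈ l, s.IsSwap) ∧ Even l.length ∧ l.prod = t

theorem list_bound [DecidableEq X] (l : List (Perm X)) (hl : ∀ s ∈ l, s.IsSwap) :
    ∃ T : Finset X, ∀ s ∈ l, ∃ x y, x ≠ y ∧ x ∈ T ∧ y ∈ T ∧ s = swap x y := by
  induction l with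
  | nil => exact ⟨∅, fun s hs => absurd hs (by simp)⟩
  | cons a l ih =>
    obtain ⟨T, hT⟩ := ih (fun s hs => hl s (List.mem_cons_of_mem _ hs))
    obtain ⟨x, y, hxy, ha⟩ := hl a (by simp)
    refine ⟨insert x (insert y T), ?_⟩
    intro s hs
    rcases List.mem_cons.mp hs with rfl | hs
    · exact ⟨x, y, hxy, by simp, by simp, ha⟩
    · obtain ⟨u, v, h1, h2, h3, h4⟩ := hT s hs
      exact ⟨u, v, h1, by simp [h2], by simp [h3], h4⟩

theorem list_lift [DecidableEq X] (T : Finset X) (l : List (Perm X))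
    (hl : ∀ s ∈ l, ∃ x y, x ≠ y ∧ x ∈ T ∧ y ∈ T ∧ s = swap x y) :
    ∃ t' : Perm ↥T, Perm.ofSubtype t' = l.prod ∧ Perm.sign t' = (-1) ^ l.length := by
  induction l with
  | nil => exact ⟨1, by simp, by simp⟩
  | cons a l ih =>
    obtain ⟨t0, h1, h2⟩ := ih (fun s hs => hl s (List.mem_cons_of_mem _ hs))
    obtain ⟨x, y, hxy, hx, hy, ha⟩ := hl a (by simp)
    refine ⟨swap ⟨x, hx⟩ ⟨y, hy⟩ * t0, ?_, ?_⟩
    · rw [map_mul, h1, List.prod_cons, ha, Equiv.Perm.ofSubtype_swap_eq]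
    · rw [map_mul, h2, Perm.sign_swap, List.length_cons, pow_succ]
      · exact mul_comm _ _
      · intro h
        exact hxy (congrArg Subtype.val h)

theorem even_finite [DecidableEq X] (t : Perm X) (ht : EvenFin t) :
    (mv t).Finite ∧ ∃ a b c d : Perm X, SuppIn (mv t) a ∧ SuppIn (mv t) b ∧ SuppIn (mv t) c ∧
      SuppIn (mv t) d ∧ t = (a * b * a⁻¹ * b⁻¹) * (c * d * c⁻¹ * d⁻¹) := by
  classical
  obtain ⟨l, hl, hlen, hprod⟩ := ht
  obtain ⟨T, hT⟩ := list_bound l hl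
  obtain ⟨t', ht', hsign⟩ := list_lift T l hT
  rw [hlen.neg_one_pow] at hsign
  rw [hprod] at ht'
  have hval : ∀ x : ↥T, t x.1 = (t' x).1 := by
    intro x
    rw [← ht', Perm.ofSubtype_apply_coe]
  have hout : ∀ x, x ∉ T → t x = x := by
    intro x hx
    rw [← ht', Perm.ofSubtype_apply_of_not_mem _ hx]
  have hfin : (mv t).Finite := by
    refine Set.Finite.subset T.finite_toSet ?_
    intro x hx
    by_contra h
    exact hx (hout x h)
  refine ⟨hfin, ?_⟩
  let K := {x : ↥T // t' x ≠ x}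
  have hp : ∀ x, (t' (t' x) ≠ t' x) ↔ (t' x ≠ x) := by
    intro x
    exact not_congr (t'.injective.eq_iff)
  let t2 : Perm K := t'.subtypePerm hp
  have hs2 : Perm.sign t2 = 1 := by
    have := Perm.sign_subtypePerm t' hp (fun x hx => hx)
    rw [← hsign]
    convert this
  obtain ⟨a, b, c, d, habcd⟩ := even_comm t2 hs2
  let ι : K ↪ X := ⟨fun x => x.1.1, fun x y h => Subtype.ext (Subtype.ext h)⟩
  have hr : Set.range ι ⊆ mv t := by
    rintro x ⟨y, rfl⟩ h
    have h2 : t y.1.1 = y.1.1 := h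
    rw [hval] at h2
    exact y.2 (Subtype.ext h2)
  have hsupp : ∀ C : Perm K, SuppIn (mv t) (Perm.viaEmbeddingHom ι C) := by
    intro C x hx
    rw [Perm.viaEmbeddingHom_apply]
    apply Perm.viaEmbedding_apply_of_notMem
    exact fun h => hx (hr h)
  have htt : Perm.viaEmbeddingHom ι t2 = t := by
    ext1 x
    rw [Perm.viaEmbeddingHom_apply]
    by_cases hx : x ∈ Set.range ι
    · obtain ⟨y, rfl⟩ := hx
      rw [Perm.viaEmbedding_apply]
      show ((t2 y).1).1 = t y.1.1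
      rw [hval]
      rfl
    · rw [Perm.viaEmbedding_apply_of_notMem _ _ _ hx]
      by_contra h
      have hxm : x ∈ mv t := fun h' => h h'.symm
      have hxT : x ∈ T := by
        by_contra h'
        exact hxm (hout x h')
      apply hx
      refine ⟨⟨⟨x, hxT⟩, ?_⟩, rfl⟩
      intro h'
      apply hxm
      rw [hval ⟨x, hxT⟩, h']
  refine ⟨Perm.viaEmbeddingHom ι a, Perm.viaEmbeddingHom ι b, Perm.viaEmbeddingHom ι c,
    Perm.viaEmbeddingHom ι d, hsupp a, hsupp b, hsupp c, hsupp d, ?_⟩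
  simp only [← map_inv, ← map_mul]
  rw [← habcd, htt]

/-- pointwise closure -/
def Vs (V : ℕ → Set (Perm X)) (n : ℕ) : Set (Perm X) :=
  {g | ∀ F : Set X, F.Finite → ∃ v ∈ V n, ∀ x ∈ F, v x = g x}

theorem Vs_sys {V : ℕ → Set (Perm X)} (S : Sys V) : Sys (Vs V) where
  one n := fun F _ => ⟨1, S.one n, fun x _ => rfl⟩
  inv n g hg := by
    intro F hF
    obtain ⟨v, hv, hvg⟩ := hg (((g⁻¹ : Perm X) : X → X) '' F) (hF.image _)
    refine ⟨v⁻¹, S.inv n v hv, ?_⟩
    intro x hx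
    rw [Perm.inv_eq_iff_eq, hvg _ ⟨x, hx, rfl⟩]
    simp
  mul n g hg h hh := by
    intro F hF
    obtain ⟨w, hw, hwh⟩ := hh F hF
    obtain ⟨v, hv, hvg⟩ := hg (h '' F) (hF.image _)
    refine ⟨v * w, S.mul n v hv w hw, ?_⟩
    intro x hx
    rw [Perm.mul_apply, hwh x hx, hvg _ ⟨x, hx, rfl⟩, Perm.mul_apply]
  conj g n := by
    obtain ⟨m, hm⟩ := S.conj g n
    refine ⟨m, ?_⟩
    intro v hv F hF
    obtain ⟨w, hw, hwv⟩ := hv (((g⁻¹ : Perm X) : X → X) '' F) (hF.image _)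
    refine ⟨g * w * g⁻¹, hm w hw, ?_⟩
    intro x hx
    simp only [Perm.mul_apply]
    rw [hwv _ ⟨x, hx, rfl⟩]
  pt x := by
    obtain ⟨n, hn⟩ := S.pt x
    refine ⟨n, ?_⟩
    intro v hv
    obtain ⟨w, hw, hwv⟩ := hv {x} (Set.finite_singleton x)
    rw [← hwv x rfl]
    exact hn w hw

theorem tail_prod {V : ℕ → Set (Perm X)} (S : Sys V) (n : ℕ) (g : ℕ → Perm X)
    (hg : ∀ i, g i ∈ V (n+1+i)) (hd : ∀ i j, i ≠ j → ∀ x, g i x ≠ x → g j x = x) (k : ℕ) :
    ∀ j, ∃ p ∈ V (n+j), (∀ i, j ≤ i → i < j + k → ∀ x, g i x ≠ x → p x = g i x) ∧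
      (∀ x, (∀ i, j ≤ i → i < j + k → g i x = x) → p x = x) := by
  induction k with
  | zero =>
    intro j
    exact ⟨1, S.one _, fun i h1 h2 => by omega, fun x _ => rfl⟩
  | succ k ih =>
    intro j
    obtain ⟨p, hp, hp1, hp2⟩ := ih (j+1)
    refine ⟨g j * p, ?_, ?_, ?_⟩
    · refine S.mul (n+j) _ ?_ _ ?_
      · have := hg j
        rwa [show n + 1 + j = n + j + 1 by omega] at this
      · rwa [show n + (j+1) = n + j + 1 by omega] at hp
    · intro i h1 h2 x hx
      rw [Perm.mul_apply]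
      by_cases hij : i = j
      · subst hij
        have : p x = x := by
          apply hp2
          intro l hl1 hl2
          exact hd i l (by omega) x hx
        rw [this]
      · rw [hp1 i (by omega) (by omega) x hx]
        have h3 : g i (g i x) ≠ g i x := fun h => hx ((g i).injective h)
        exact hd i j hij _ h3
    · intro x hx
      rw [Perm.mul_apply]
      have : p x = x := by
        apply hp2
        intro l hl1 hl2
        exact hx l (by omega) (by omega)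
      rw [this]
      exact hx j le_rfl (by omega)

theorem Vs_inf {V : ℕ → Set (Perm X)} (S : Sys V) (hfin : ∀ v ∈ V 0, (mv v).Finite)
    (hne : ∀ n, ∃ g ∈ V n, g ≠ 1) (n : ℕ) : ∃ g ∈ Vs V n, (mv g).Infinite := by
  classical
  obtain ⟨f, hf1, hf2⟩ := exists_seq_dep (α := {v : Perm X // (mv v).Finite})
    (P := fun i v => v.1 ∈ V (n+1+i) ∧ v.1 ≠ 1)
    (r := fun v w => ∀ x, v.1 x ≠ x → w.1 x = x) (by
      intro i s
      have h1 : (⋃ v ∈ s, mv v.1).Finite := s.finite_toSet.biUnion (fun v _ => v.2)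
      obtain ⟨m, hm⟩ := S.ptF _ h1
      obtain ⟨g, hg1, hg2⟩ := hne (max m (n+1+i))
      refine ⟨⟨g, hfin g (S.anti (Nat.zero_le _) hg1)⟩,
        ⟨S.anti (le_max_right _ _) hg1, hg2⟩, ?_⟩
      intro v hv x hx
      apply hm g (S.anti (le_max_left _ _) hg1)
      simp only [Set.mem_iUnion]
      exact ⟨v, hv, hx⟩)
  let g : ℕ → Perm X := fun i => (f i).1
  have hg1 : ∀ i, g i ∈ V (n+1+i) := fun i => (hf1 i).1
  have hg2 : ∀ i, g i ≠ 1 := fun i => (hf1 i).2
  have hd : ∀ i j, i ≠ j → ∀ x, g i x ≠ x → g j x = x := by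
    intro i j hij x hx
    rcases lt_or_gt_of_ne hij with h | h
    · exact hf2 i j h x hx
    · by_contra h'
      exact hx (hf2 j i h x h')
  have hdis : ∀ i j x, x ∈ mv (g i) → x ∈ mv (g j) → i = j := by
    intro i j x hx hx'
    by_contra hij
    exact hx' (hd i j hij x hx)
  obtain ⟨G, hG1, hG2⟩ := exists_glue (fun i => mv (g i)) hdis g (fun i => suppIn_mv (g i))
  refine ⟨G, ?_, ?_⟩
  · intro F hF
    -- bound on indices
    have hk : ∃ k, ∀ x ∈ F, ∀ i, g i x ≠ x → i < k := by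
      induction F, hF using Set.Finite.induction_on with
      | empty => exact ⟨0, fun x hx => absurd hx (Set.notMem_empty x)⟩
      | insert _ _ ih =>
        rename_i a s _ _
        obtain ⟨k, hk⟩ := ih
        by_cases ha : ∃ i, g i a ≠ a
        · obtain ⟨i, hi⟩ := ha
          refine ⟨max k (i+1), ?_⟩
          rintro x (rfl | hx) j hj
          · have := hdis i j x hi hj
            subst this
            exact lt_of_lt_of_le (Nat.lt_succ_self _) (le_max_right _ _)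
          · exact lt_of_lt_of_le (hk x hx j hj) (le_max_left _ _)
        · push Not at ha
          refine ⟨k, ?_⟩
          rintro x (rfl | hx) j hj
          · exact absurd (ha j) hj
          · exact hk x hx j hj
    obtain ⟨k, hk⟩ := hk
    obtain ⟨p, hp, hp1, hp2⟩ := tail_prod S n g hg1 hd k 0
    refine ⟨p, hp, ?_⟩
    intro x hx
    by_cases h : ∃ i, g i x ≠ x
    · obtain ⟨i, hi⟩ := h
      have h1 := hk x hx i hi
      rw [hp1 i (Nat.zero_le _) (by omega) x hi, hG1 i x hi]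
    · push Not at h
      rw [hp2 x (fun i _ _ => h i), hG2 x (fun i hi => hi (h i))]
  · have h3 : ∀ i, ∃ x, g i x ≠ x := by
      intro i
      by_contra hcon
      push Not at hcon
      exact hg2 i (Equiv.ext hcon)
    choose y hy using h3
    refine Set.infinite_of_injective_forall_mem (f := y) ?_ ?_
    · intro i j hij
      have h4 : g j (y i) ≠ y i := by
        have := hy j
        rw [← hij] at this
        exact this
      exact hdis i j (y i) (hy i) h4
    · intro i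
      show G (y i) ≠ y i
      rw [hG1 i _ (hy i)]
      exact hy i

theorem unif {V : ℕ → Set (Perm X)} (S : Sys V) (hfin : ∀ v ∈ V 0, (mv v).Finite) (n : ℕ) :
    ∃ (k : ℕ) (U : Set X), U.Finite ∧ ∀ w ∈ V k, ∀ ρ : Perm X, (mv ρ).Finite →
      (∀ x ∈ U, w x = x) → (∀ x ∈ U, ρ x = x) → ρ * w * ρ⁻¹ ∈ V n := by
  classical
  by_contra hcon
  push Not at hcon
  obtain ⟨f, hf1, hf2⟩ := exists_seq_dep
    (α := {p : Perm X × Perm X // (mv p.1).Finite ∧ (mv p.2).Finite})
    (P := fun k p => p.1.1 ∈ V k ∧ p.1.2 * p.1.1 * (p.1.2)⁻¹ ∉ V n)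
    (r := fun p q => ∀ x, (p.1.1 x ≠ x ∨ p.1.2 x ≠ x) → (q.1.1 x = x ∧ q.1.2 x = x)) (by
      intro k s
      have h1 : (⋃ v ∈ s, (mv v.1.1 ∪ mv v.1.2)).Finite :=
        s.finite_toSet.biUnion (fun v _ => v.2.1.union v.2.2)
      obtain ⟨w, hw, ρ, hρ, hw1, hρ1, hn⟩ := hcon k _ h1
      refine ⟨⟨(w, ρ), hfin w (S.anti (Nat.zero_le _) hw), hρ⟩, ⟨hw, hn⟩, ?_⟩
      intro v hv x hx
      have hx' : x ∈ ⋃ v ∈ s, (mv v.1.1 ∪ mv v.1.2) := by
        simp only [Set.mem_iUnion]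
        exact ⟨v, hv, hx⟩
      exact ⟨hw1 x hx', hρ1 x hx'⟩)
  let w : ℕ → Perm X := fun k => (f k).1.1
  let ρ : ℕ → Perm X := fun k => (f k).1.2
  let E : ℕ → Set X := fun k => mv (w k) ∪ mv (ρ k)
  have hE : ∀ i j x, x ∈ E i → x ∈ E j → i = j := by
    intro i j x hx hx'
    by_contra hij
    rcases lt_or_gt_of_ne hij with h | h
    · have := hf2 i j h x hx
      rcases hx' with h1 | h1
      · exact h1 this.1
      · exact h1 this.2
    · have := hf2 j i h x hx'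
      rcases hx with h1 | h1
      · exact h1 this.1
      · exact h1 this.2
  obtain ⟨π, hπ1, hπ2⟩ := exists_glue E hE ρ
    (fun k => (suppIn_mv (ρ k)).mono Set.subset_union_right)
  have hTw : Tends V w := S.tends_of (fun k => (hf1 k).1)
  obtain ⟨N, hN⟩ := S.tends_conj π hTw n
  have h1 : π * w N * π⁻¹ ∈ V n := hN N le_rfl
  have hfix : ∀ x ∈ E N, (ρ N)⁻¹ (π x) = x := by
    intro x hx
    rw [hπ1 N x hx]
    simp
  have hwE : SuppIn (E N) (w N) := (suppIn_mv (w N)).mono Set.subset_union_left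
  have h2 : ((ρ N)⁻¹ * π) * w N = w N * ((ρ N)⁻¹ * π) := by
    ext x
    simp only [Perm.mul_apply]
    by_cases hx : x ∈ E N
    · rw [hfix _ (hwE.apply_mem hx), hfix x hx]
    · have h3 : (ρ N)⁻¹ (π x) ∉ E N := by
        intro h4
        have h5 := hfix _ h4
        have h6 := (ρ N)⁻¹.injective h5
        have h7 := π.injective h6
        rw [h7] at h4
        exact hx h4
      rw [hwE x hx, hwE _ h3]
  have h3 : π * w N * π⁻¹ = ρ N * w N * (ρ N)⁻¹ := by
    calc π * w N * π⁻¹ = ρ N * (((ρ N)⁻¹ * π) * w N) * π⁻¹ := by group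
      _ = ρ N * (w N * ((ρ N)⁻¹ * π)) * π⁻¹ := by rw [h2]
      _ = _ := by group
  rw [h3] at h1
  exact (hf1 N).2 h1

theorem comm_small [Countable X] [Infinite X] {V : ℕ → Set (Perm X)} (S : Sys V)
    (hfin : ∀ v ∈ V 0, (mv v).Finite) (hne : ∀ n, ∃ g ∈ V n, g ≠ 1) (n : ℕ) :
    ∃ F : Set X, F.Finite ∧ ∀ a b : Perm X, (mv a).Finite → (mv b).Finite →
      (∀ x ∈ F, a x = x) → (∀ x ∈ F, b x = x) → a * b * a⁻¹ * b⁻¹ ∈ V n := by
  classical
  obtain ⟨k, U, hU, hk⟩ := unif S hfin (n+2)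
  have full := caseB (Vs_sys S) (Vs_inf S hfin hne)
  obtain ⟨F1, hF1, hfull1⟩ := full (n+2)
  refine ⟨F1 ∪ U, hF1.union hU, ?_⟩
  intro a b ha hb haF hbF
  set T : Set X := mv a ∪ mv b with hT
  have hTfin : T.Finite := ha.union hb
  have haT : SuppIn T a := (suppIn_mv a).mono Set.subset_union_left
  have hbT : SuppIn T b := (suppIn_mv b).mono Set.subset_union_right
  obtain ⟨v, hv, hva⟩ := hfull1 a (fun x hx => haF x (Or.inl hx)) T hTfin
  have hvfin : (mv v).Finite := hfin v (S.anti (Nat.zero_le _) hv)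
  have hbig : (U ∪ T ∪ mv v).Finite := (hU.union hTfin).union hvfin
  obtain ⟨k1, hk1⟩ := S.ptF _ hbig
  obtain ⟨F2, hF2, hfull2⟩ := full (max k k1)
  have hcompl : ((F2 ∪ (U ∪ T ∪ mv v))ᶜ).Infinite := (hF2.union hbig).infinite_compl
  obtain ⟨T', hT'sub, hT'fin, hT'card⟩ := hcompl.exists_subset_ncard_eq (T.ncard)
  have hTT' : ∀ x, x ∈ T → x ∉ T' := by
    intro x hx hx'
    exact hT'sub hx' (Or.inr (Or.inl (Or.inr hx)))
  have hUT : ∀ x, x ∈ U → x ∉ T := by
    rintro x hx (h | h)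
    · exact h (haF x (Or.inr hx))
    · exact h (hbF x (Or.inr hx))
  have e : Nonempty (↥T ≃ ↥T') := by
    haveI := hTfin.fintype
    haveI := hT'fin.fintype
    rw [← Fintype.card_eq, ← Nat.card_eq_fintype_card, ← Nat.card_eq_fintype_card]
    rw [Nat.card_coe_set_eq, Nat.card_coe_set_eq, hT'card]
  obtain ⟨e⟩ := e
  obtain ⟨ρ, hρ1, hρ2, hρ3, hρ4⟩ := exists_swap T T' (Set.disjoint_left.mpr hTT') e
  have hρinv : ρ⁻¹ = ρ := by
    rw [inv_eq_iff_mul_eq_one]
    ext x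
    exact hρ2 x
  have hb' : SuppIn T' (ρ * b * ρ) := by
    intro x hx
    have h1 : ρ x ∉ T := by
      intro h
      have := hρ3 _ h
      rw [hρ2] at this
      exact hx this
    simp only [Perm.mul_apply]
    rw [hbT _ h1, hρ2]
  obtain ⟨w, hw, hwb⟩ := hfull2 (ρ * b * ρ) (by
    intro x hx
    apply hb'
    intro h
    exact hT'sub h (Or.inl hx)) T' hT'fin
  have hwfix : ∀ x ∈ U ∪ T ∪ mv v, w x = x := hk1 w (S.anti (le_max_right _ _) hw)
  have hρfin : (mv ρ).Finite := (hTfin.union hT'fin).subset (mv_subset_of_suppIn hρ1)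
  have hc : ρ * w * ρ⁻¹ ∈ V (n+2) := by
    apply hk w (S.anti (le_max_left _ _) hw) ρ hρfin
    · intro x hx
      exact hwfix x (Or.inl (Or.inl hx))
    · intro x hx
      apply hρ1
      rintro (h | h)
      · exact hUT x hx h
      · exact hT'sub h (Or.inr (Or.inl (Or.inl hx)))
  have heq : v * (ρ * w * ρ⁻¹) * v⁻¹ * (ρ * w * ρ⁻¹)⁻¹ = a * b * a⁻¹ * b⁻¹ := by
    refine comm_eq _ _ _ _ T haT hbT hva ?_ ?_
    · intro x hx
      rw [hρinv]
      simp only [Perm.mul_apply]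
      rw [hwb _ (hρ3 x hx)]
      simp only [Perm.mul_apply]
      rw [hρ2, hρ2]
    · intro x hx
      by_cases hvx : v x = x
      · exact Or.inl hvx
      · right
        have h1 : ρ x = x := by
          apply hρ1
          rintro (h | h)
          · exact hx h
          · exact hT'sub h (Or.inr (Or.inr hvx))
        rw [hρinv]
        simp only [Perm.mul_apply]
        rw [h1, hwfix x (Or.inr hvx), h1]
  rw [← heq, mul_assoc (v * (ρ * w * ρ⁻¹))]
  exact S.mul n _ (S.mul (n+1) _ hv _ hc) _ (S.mul (n+1) _ (S.inv _ _ hv) _ (S.inv _ _ hc))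

/-- Case A conclusion -/
theorem caseA [DecidableEq X] [Countable X] [Infinite X] {V : ℕ → Set (Perm X)} (S : Sys V)
    (hfin : ∀ v ∈ V 0, (mv v).Finite) (hne : ∀ n, ∃ g ∈ V n, g ≠ 1) (n : ℕ) :
    ∃ F : Set X, F.Finite ∧ ∀ t : Perm X, EvenFin t → (∀ x ∈ F, t x = x) → t ∈ V n := by
  obtain ⟨F, hF, h⟩ := comm_small S hfin hne (n+1)
  refine ⟨F, hF, ?_⟩
  intro t ht htF
  obtain ⟨hfint, a, b, c, d, ha, hb, hc, hd, heq⟩ := even_finite t ht
  have hm : ∀ x ∈ F, x ∉ mv t := fun x hx h => h (htF x hx)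
  have hfa : ∀ u : Perm X, SuppIn (mv t) u → (mv u).Finite ∧ ∀ x ∈ F, u x = x :=
    fun u hu => ⟨hfint.subset (mv_subset_of_suppIn hu), fun x hx => hu x (hm x hx)⟩
  rw [heq]
  exact S.mul n _ (h a b (hfa a ha).1 (hfa b hb).1 (hfa a ha).2 (hfa b hb).2) _
    (h c d (hfa c hc).1 (hfa d hd).1 (hfa c hc).2 (hfa d hd).2)

end Pool.Agent.H27.Sym
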