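import Pool.Agent.H27.SymTools

/-! Case B: systems of neighbourhoods containing elements of infinite support. -/

namespace Pool.Agent.H27.Sym

open Equiv Set

variable {X : Type*}

structure Sys (V : ℕ → Set (Perm X)) : Prop where
  one : ∀ n, 1 ∈ V n
  inv : ∀ n, ∀ g ∈ V n, g⁻¹ ∈ V n
  mul : ∀ n, ∀ g ∈ V (n+1), ∀ h ∈ V (n+1), g * h ∈ V n
  conj : ∀ (g : Perm X) (n : ℕ), ∃ m, ∀ v ∈ V m, g * v * g⁻¹ ∈ V n
  pt : ∀ x : X, ∃ n, ∀ v ∈ V n, v x = x

def Tends (V : ℕ → Set (Perm X)) (x : ℕ → Perm X) : Prop := ∀ n, ∃ N, ∀ k, N ≤ k → x k ∈ V n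

namespace Sys

variable {V : ℕ → Set (Perm X)}

theorem anti1 (S : Sys V) (n : ℕ) : V (n+1) ⊆ V n := by
  intro g hg
  have := S.mul n g hg 1 (S.one _)
  simpa using this

theorem anti (S : Sys V) {m n : ℕ} (h : m ≤ n) : V n ⊆ V m := by
  induction h with
  | refl => exact subset_rfl
  | step _ ih => exact (S.anti1 _).trans ih

theorem ptF (S : Sys V) (F : Set X) (hF : F.Finite) : ∃ n, ∀ v ∈ V n, ∀ x ∈ F, v x = x := by
  induction F, hF using Set.Finite.induction_on with
  | empty => exact ⟨0, fun v _ x hx => absurd hx (Set.notMem_empty x)⟩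
  | insert _ _ ih =>
    rename_i a s _ _
    obtain ⟨n, hn⟩ := ih
    obtain ⟨m, hm⟩ := S.pt a
    refine ⟨max n m, fun v hv x hx => ?_⟩
    rcases hx with rfl | hx
    · exact hm v (S.anti (le_max_right _ _) hv)
    · exact hn v (S.anti (le_max_left _ _) hv) x hx

theorem tends_mul (S : Sys V) {x y : ℕ → Perm X} (hx : Tends V x) (hy : Tends V y) :
    Tends V (fun k => x k * y k) := by
  intro n
  obtain ⟨N, hN⟩ := hx (n+1)
  obtain ⟨M, hM⟩ := hy (n+1)
  exact ⟨max N M, fun k hk => S.mul n _ (hN k (le_trans (le_max_left _ _) hk)) _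
    (hM k (le_trans (le_max_right _ _) hk))⟩

theorem tends_inv (S : Sys V) {x : ℕ → Perm X} (hx : Tends V x) :
    Tends V (fun k => (x k)⁻¹) := by
  intro n
  obtain ⟨N, hN⟩ := hx n
  exact ⟨N, fun k hk => S.inv n _ (hN k hk)⟩

theorem tends_conj (S : Sys V) (g : Perm X) {x : ℕ → Perm X} (hx : Tends V x) :
    Tends V (fun k => g * x k * g⁻¹) := by
  intro n
  obtain ⟨m, hm⟩ := S.conj g n
  obtain ⟨N, hN⟩ := hx m
  exact ⟨N, fun k hk => hm _ (hN k hk)⟩

theorem tends_of (S : Sys V) {x : ℕ → Perm X} (hx : ∀ k, x k ∈ V k) : Tends V x :=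
  fun n => ⟨n, fun k hk => S.anti hk (hx k)⟩

theorem tends_comm (S : Sys V) {x y : ℕ → Perm X} (hx : Tends V x) (hy : Tends V y) :
    Tends V (fun k => x k * y k * (x k)⁻¹ * (y k)⁻¹) :=
  S.tends_mul (S.tends_mul (S.tends_mul hx hy) (S.tends_inv hx)) (S.tends_inv hy)

end Sys

theorem infinite_diff_finite_nonempty {s t : Set X} (hs : s.Infinite) (ht : t.Finite) :
    ∃ x ∈ s, x ∉ t := by
  obtain ⟨x, hx⟩ := (hs.diff ht).nonempty
  exact ⟨x, hx.1, hx.2⟩

def task (s : ℕ) : ℕ × ℕ := (s.unpair.1).unpair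

theorem task_pair (n k j : ℕ) : task (Nat.pair (Nat.pair n k) j) = (n, k) := by
  simp [task]

theorem claim1 [Countable X] {V : ℕ → Set (Perm X)} (S : Sys V)
    (hB : ∀ n, ∃ g ∈ V n, (mv g).Infinite) :
    ∃ P Y : ℕ → Set X, (∀ n, (P n).Infinite) ∧ (∀ n, P n ⊆ Y n) ∧
      (∀ m n x, x ∈ Y m → x ∈ Y n → m = n) ∧
      ∀ n, ∀ τ : Perm X, SuppIn (P n) τ → ∃ z ∈ V n, (∀ x ∈ P n, z x = τ x) ∧ SuppIn (Y n) z := by
  classical
  choose g hg1 hg2 using hB
  let g' : ℕ → Perm X := fun i => Nat.casesOn i 1 g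
  have g'0 : g' 0 = 1 := rfl
  have g's : ∀ k, g' (k+1) = g k := fun k => rfl
  have fin1 : ∀ x, (Set.range (fun i => g' i x)).Finite := by
    intro x
    obtain ⟨n, hn⟩ := S.pt x
    refine Set.Finite.subset (((Finset.range (n+1)).image (fun i => g' i x)).finite_toSet.union
      (Set.finite_singleton x)) ?_
    rintro y ⟨i, rfl⟩
    by_cases hi : i < n + 1
    · left
      simp only [Finset.coe_image, Set.mem_image, Finset.mem_coe, Finset.mem_range]
      exact ⟨i, hi, rfl⟩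
    · right
      obtain ⟨j, rfl⟩ : ∃ j, i = j + 1 := ⟨i - 1, by omega⟩
      simp only [g's, Set.mem_singleton_iff]
      exact hn _ (S.anti (by omega) (hg1 j))
  have fin2 : ∀ x, (Set.range (fun i => (g' i)⁻¹ x)).Finite := by
    intro x
    obtain ⟨n, hn⟩ := S.pt x
    refine Set.Finite.subset (((Finset.range (n+1)).image (fun i => (g' i)⁻¹ x)).finite_toSet.union
      (Set.finite_singleton x)) ?_
    rintro y ⟨i, rfl⟩
    by_cases hi : i < n + 1
    · left
      simp only [Finset.coe_image, Set.mem_image, Finset.mem_coe, Finset.mem_range]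
      exact ⟨i, hi, rfl⟩
    · right
      obtain ⟨j, rfl⟩ : ∃ j, i = j + 1 := ⟨i - 1, by omega⟩
      simp only [g's, Set.mem_singleton_iff]
      exact hn _ (S.inv _ _ (S.anti (by omega) (hg1 j)))
  have fin : ∀ x, {y | ∃ i j, g' i y = g' j x}.Finite := by
    intro x
    refine Set.Finite.subset ((fin1 x).biUnion (fun z _ => fin2 z)) ?_
    rintro y ⟨i, j, h⟩
    simp only [Set.mem_iUnion, Set.mem_range]
    refine ⟨g' j x, ⟨j, rfl⟩, i, ?_⟩
    rw [Perm.inv_eq_iff_eq]
    exact h.symm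
  obtain ⟨e, he1, he2⟩ := exists_seq_dep
    (P := fun s y => g ((task s).1 + 1 + (task s).2) y ≠ y)
    (r := fun x y => ∀ i j, g' i y ≠ g' j x) (by
      intro n s
      have hfin : (⋃ x ∈ s, {y | ∃ i j, g' i y = g' j x}).Finite :=
        s.finite_toSet.biUnion (fun x _ => fin x)
      obtain ⟨y, hy1, hy2⟩ := infinite_diff_finite_nonempty (hg2 ((task n).1 + 1 + (task n).2)) hfin
      refine ⟨y, hy1, ?_⟩
      intro x hx i j h
      apply hy2
      simp only [Set.mem_iUnion]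
      exact ⟨x, hx, i, j, h⟩)
  have he3 : ∀ r s, r ≠ s → ∀ i j, g' i (e s) ≠ g' j (e r) := by
    intro r s hrs i j
    rcases lt_or_gt_of_ne hrs with h | h
    · exact he2 r s h i j
    · exact (he2 s r h j i).symm
  have einj : Function.Injective e := by
    intro r s h
    by_contra hrs
    exact he3 r s hrs 0 0 (by rw [h])
  let E : ℕ → ℕ → Set X := fun n k => {x | ∃ s, task s = (n, k) ∧ e s = x}
  let X' : ℕ → Set X := fun n => {x | ∃ s, (task s).1 = n ∧ e s = x}
  have hEX : ∀ n k, E n k ⊆ X' n := by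
    rintro n k x ⟨s, hs, rfl⟩
    exact ⟨s, by rw [hs], rfl⟩
  have hEinf : ∀ n k, (E n k).Infinite := by
    intro n k
    refine Set.infinite_of_injective_forall_mem (f := fun j : ℕ => e (Nat.pair (Nat.pair n k) j)) ?_ ?_
    · intro a b hab
      have := einj hab
      have h2 := congrArg Nat.unpair this
      simpa using h2
    · intro j
      exact ⟨_, task_pair n k j, rfl⟩
  have hEdisj : ∀ n i j x, x ∈ E n i → x ∈ E n j → i = j := by
    rintro n i j x ⟨s, hs, rfl⟩ ⟨r, hr, hrs⟩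
    have := einj hrs
    rw [this, hs] at hr
    exact (Prod.ext_iff.mp hr).2
  have hdiag : ∀ n, ∃ k, ∀ σ : Perm X, SuppIn (E n k) σ → ∃ h : Perm X,
      (∀ v ∈ V (n+1+k), h * v * h⁻¹ ∈ V (n+1)) ∧ (∀ x ∈ E n k, h x = σ x) ∧ SuppIn (X' n) h := by
    intro n
    by_contra hcon
    push Not at hcon
    choose σ hσ1 hσ2 using hcon
    obtain ⟨h, hh1, hh2⟩ := exists_glue (E n) (hEdisj n) σ hσ1
    obtain ⟨m, hm⟩ := S.conj h (n+1)
    refine hσ2 m h ?_ (hh1 m) ?_
    · intro v hv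
      exact hm v (S.anti (by omega) hv)
    · intro x hx
      exact hh2 x (fun k hk => hx (hEX n k hk))
  choose k hk using hdiag
  let G : ℕ → Perm X := fun n => g (n+1+k n)
  have hG' : ∀ n, ∃ i, G n = g' i := fun n => ⟨n+1+k n+1, rfl⟩
  have hGmem : ∀ n, G n ∈ V (n+1) := fun n => S.anti (by omega) (hg1 (n+1+k n))
  refine ⟨fun n => G n '' E n (k n), fun n => X' n ∪ G n '' X' n, ?_, ?_, ?_, ?_⟩
  · intro n
    exact (hEinf n (k n)).image ((G n).injective.injOn)
  · intro n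
    rintro y ⟨x, hx, rfl⟩
    right
    exact ⟨x, hEX _ _ hx, rfl⟩
  · have key : ∀ m x, x ∈ X' m ∪ G m '' X' m → ∃ s i, (task s).1 = m ∧ x = g' i (e s) := by
      rintro m x (⟨s, hs, rfl⟩ | ⟨y, ⟨s, hs, rfl⟩, rfl⟩)
      · exact ⟨s, 0, hs, rfl⟩
      · obtain ⟨i, hi⟩ := hG' m
        exact ⟨s, i, hs, by rw [hi]⟩
    intro m n x hxm hxn
    obtain ⟨s, i, hs, hx1⟩ := key m x hxm
    obtain ⟨r, j, hr, hx2⟩ := key n x hxn
    by_contra hmn
    have hrs : r ≠ s := by
      rintro rfl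
      exact hmn (hs.symm.trans hr)
    exact he3 r s hrs i j (hx1.symm.trans hx2)
  · intro n τ hτ
    -- disjointness of G n '' X' n restricted
    have hdis : ∀ x ∈ E n (k n), G n x ∉ X' n := by
      rintro x ⟨s, hs, rfl⟩ ⟨r, hr, hrs⟩
      by_cases h : r = s
      · subst h
        have h1 := he1 r
        rw [hs] at h1
        exact h1 hrs.symm
      · obtain ⟨i, hi⟩ := hG' n
        rw [hi] at hrs
        exact he3 r s h i 0 hrs.symm
    let σ : Perm X := (G n)⁻¹ * τ⁻¹ * G n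
    have hσ : SuppIn (E n (k n)) σ := by
      intro x hx
      have h1 : G n x ∉ G n '' E n (k n) := by
        rintro ⟨y, hy, hxy⟩
        exact hx ((G n).injective hxy ▸ hy)
      have h2 : τ⁻¹ (G n x) = G n x := hτ.inv _ h1
      simp only [σ, Perm.mul_apply, h2]
      simp
    obtain ⟨h, hh1, hh2, hh3⟩ := hk n σ hσ
    refine ⟨h * G n * h⁻¹ * (G n)⁻¹, ?_, ?_, ?_⟩
    · exact S.mul n _ (hh1 _ (hg1 _)) _ (S.inv _ _ (hGmem n))
    · rintro y ⟨x, hx, rfl⟩
      have h1 : h⁻¹ x = σ⁻¹ x := by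
        rw [Perm.inv_eq_iff_eq, hh2 _ (hσ.inv_apply_mem hx)]
        simp
      have h2 : (h * G n * h⁻¹ * (G n)⁻¹) (G n x) = h (G n (σ⁻¹ x)) := by
        simp only [Perm.mul_apply]
        rw [← h1]
        simp
      rw [h2]
      have h3 : SuppIn (X' n) h := hh3
      rw [h3 _ (hdis _ (hσ.inv_apply_mem hx))]
      simp [σ, Perm.mul_apply]
    · intro x hx
      have hx1 : x ∉ X' n := fun h' => hx (Or.inl h')
      have hx2 : (G n)⁻¹ x ∉ X' n := by
        intro h'
        exact hx (Or.inr ⟨_, h', by simp⟩)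
      simp only [Perm.mul_apply]
      rw [hh3.inv _ hx2]
      have : G n ((G n)⁻¹ x) = x := by simp
      rw [this, hh3 _ hx1]

theorem claim2 [Countable X] {V : ℕ → Set (Perm X)} (S : Sys V)
    (hB : ∀ n, ∃ g ∈ V n, (mv g).Infinite) :
    ∃ Q : ℕ → Set X, (∀ n, (Q n).Infinite) ∧ (∀ m n x, x ∈ Q m → x ∈ Q n → m = n) ∧
      ∀ a b : ℕ → Perm X, (∀ n, SuppIn (Q n) (a n)) → (∀ n, SuppIn (Q n) (b n)) →
        Tends V (fun n => a n * b n * (a n)⁻¹ * (b n)⁻¹) := by
  obtain ⟨P, Y, hP, hPY, hY, hz⟩ := claim1 S hB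
  have hPd : ∀ m n x, x ∈ P m → x ∈ P n → m = n := fun m n x h h' => hY m n x (hPY m h) (hPY n h')
  have hsw : ∀ n, ∃ ρ : Perm X, SuppIn (P (2*n) ∪ P (2*n+1)) ρ ∧ (∀ x, ρ (ρ x) = x) ∧
      (∀ x ∈ P (2*n), ρ x ∈ P (2*n+1)) ∧ (∀ x ∈ P (2*n+1), ρ x ∈ P (2*n)) := by
    intro n
    refine exists_swap_inf _ _ ?_ (hP _) (hP _)
    rw [Set.disjoint_left]
    intro x h h'
    have := hPd _ _ x h h'
    omega
  choose ρ hρ1 hρ2 hρ3 hρ4 using hsw
  obtain ⟨π, hπ1, hπ2⟩ := exists_glue (fun n => P (2*n) ∪ P (2*n+1)) (by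
    rintro i j x (h | h) (h' | h')
    all_goals
      have := hPd _ _ x h h'
      omega) ρ hρ1
  refine ⟨fun n => P (2*n), fun n => hP _, ?_, ?_⟩
  · intro m n x h h'
    have := hPd _ _ x h h'
    omega
  · intro a b ha hb
    have hz1 : ∀ n, ∃ z ∈ V (2*n), (∀ x ∈ P (2*n), z x = a n x) ∧ SuppIn (Y (2*n)) z :=
      fun n => hz (2*n) (a n) (ha n)
    choose z hz1 hz2 hz3 using hz1
    have hsup : ∀ n, SuppIn (P (2*n+1)) (ρ n * b n * ρ n) := by
      intro n x hx
      have h1 : ρ n x ∉ P (2*n) := by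
        intro h
        have := hρ3 n _ h
        rw [hρ2] at this
        exact hx this
      simp only [Perm.mul_apply]
      rw [hb n _ h1, hρ2]
    have hw1 : ∀ n, ∃ z ∈ V (2*n+1), (∀ x ∈ P (2*n+1), z x = (ρ n * b n * ρ n) x) ∧
      SuppIn (Y (2*n+1)) z := fun n => hz (2*n+1) _ (hsup n)
    choose w hw1 hw2 hw3 using hw1
    have hTz : Tends V z := S.tends_of (fun k => S.anti (by omega) (hz1 k))
    have hTw : Tends V w := S.tends_of (fun k => S.anti (by omega) (hw1 k))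
    have hT := S.tends_comm hTz (S.tends_conj π⁻¹ hTw)
    have heq : ∀ n, z n * (π⁻¹ * w n * π⁻¹⁻¹) * (z n)⁻¹ * (π⁻¹ * w n * π⁻¹⁻¹)⁻¹ =
        a n * b n * (a n)⁻¹ * (b n)⁻¹ := by
      intro n
      refine comm_eq _ _ _ _ (P (2*n)) (ha n) (hb n) (hz2 n) ?_ ?_
      · intro x hx
        simp only [Perm.mul_apply, inv_inv]
        rw [hπ1 n x (Or.inl hx), hw2 n _ (hρ3 n x hx)]
        simp only [Perm.mul_apply]
        rw [hρ2, Perm.inv_eq_iff_eq]
        exact (hπ1 n _ (Or.inl ((hb n).apply_mem hx))).symm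
      · intro x hx
        by_cases hxY : x ∈ Y (2*n)
        · right
          have h1 : π x = x := by
            apply hπ2
            intro m hm
            rcases hm with hm | hm
            · have := hY _ _ x (hPY _ hm) hxY
              have h2 : m = n := by omega
              subst h2
              exact hx hm
            · have := hY _ _ x (hPY _ hm) hxY
              omega
          have h2 : w n x = x := by
            apply hw3 n
            intro h
            have := hY _ _ x h hxY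
            omega
          simp only [Perm.mul_apply, inv_inv]
          rw [h1, h2, Perm.inv_eq_iff_eq, h1]
        · left
          exact hz3 n x hxY
    intro n
    obtain ⟨N, hN⟩ := hT n
    refine ⟨N, fun k hk => ?_⟩
    show a k * b k * (a k)⁻¹ * (b k)⁻¹ ∈ V n
    rw [← heq k]
    exact hN k hk

/-- swindle -/
theorem swindle [Countable X] (Q : Set X) (hQ : Q.Infinite) :
    ∃ C ⊆ Q, C.Infinite ∧ ∀ t : Perm X, SuppIn C t → ∃ a b : Perm X, SuppIn Q a ∧ SuppIn Q b ∧
      t = a * b * a⁻¹ * b⁻¹ := by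
  classical
  obtain ⟨f, hf, hfr⟩ := exists_split Q hQ
  obtain ⟨ε⟩ : Nonempty (ℤ × ℕ ≃ ℕ) := nonempty_equiv_of_countable
  let ι : ℤ × ℕ ↪ X := ⟨fun p => f (ε p), fun a b h => ε.injective (hf h)⟩
  have hr : Set.range ι = Q := by
    rw [← hfr]
    ext x
    constructor
    · rintro ⟨p, rfl⟩
      exact ⟨ε p, rfl⟩
    · rintro ⟨n, rfl⟩
      exact ⟨ε.symm n, by simp [ι]⟩
  refine ⟨Set.range (fun n : ℕ => ι (0, n)), ?_, ?_, ?_⟩
  · rintro x ⟨n, rfl⟩
    rw [← hr]
    exact ⟨_, rfl⟩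
  · apply Set.infinite_range_of_injective
    intro a b h
    have := ι.injective h
    exact (Prod.ext_iff.mp this).2
  · intro t ht
    have h1 : ∀ n, ∃ m, ι (0, m) = t (ι (0, n)) := by
      intro n
      exact ht.apply_mem ⟨n, rfl⟩
    have h2 : ∀ n, ∃ m, ι (0, m) = t⁻¹ (ι (0, n)) := by
      intro n
      exact ht.inv_apply_mem ⟨n, rfl⟩
    choose s hs using h1
    choose s' hs' using h2
    let σ : Perm ℕ := ⟨s, s', by
      intro n
      have : ι (0, s' (s n)) = ι (0, n) := by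
        rw [hs', hs]
        simp
      exact (Prod.ext_iff.mp (ι.injective this)).2, by
      intro n
      have : ι (0, s (s' n)) = ι (0, n) := by
        rw [hs, hs']
        simp
      exact (Prod.ext_iff.mp (ι.injective this)).2⟩
    have hσ : ∀ n, ι (0, σ n) = t (ι (0, n)) := hs
    let A : Perm (ℤ × ℕ) := ⟨fun p => if 0 ≤ p.1 then (p.1, σ p.2) else p,
      fun p => if 0 ≤ p.1 then (p.1, σ.symm p.2) else p, by
        rintro ⟨i, n⟩
        by_cases h : 0 ≤ i <;> simp [h], by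
        rintro ⟨i, n⟩
        by_cases h : 0 ≤ i <;> simp [h]⟩
    let B : Perm (ℤ × ℕ) := ⟨fun p => (p.1 + 1, p.2), fun p => (p.1 - 1, p.2), by
        rintro ⟨i, n⟩
        simp, by
        rintro ⟨i, n⟩
        simp⟩
    let D : Perm (ℤ × ℕ) := ⟨fun p => if p.1 = 0 then (p.1, σ p.2) else p,
      fun p => if p.1 = 0 then (p.1, σ.symm p.2) else p, by
        rintro ⟨i, n⟩
        by_cases h : i = 0 <;> simp [h], by
        rintro ⟨i, n⟩
        by_cases h : i = 0 <;> simp [h]⟩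
    have hA : ∀ p, A p = if 0 ≤ p.1 then (p.1, σ p.2) else p := fun p => rfl
    have hBp : ∀ p, B p = (p.1 + 1, p.2) := fun p => rfl
    have hD : ∀ p, D p = if p.1 = 0 then (p.1, σ p.2) else p := fun p => rfl
    have key : A * B = D * (B * A) := by
      ext1 p
      obtain ⟨i, n⟩ := p
      simp only [Perm.mul_apply]
      rw [hBp, hA (i, n), hA]
      by_cases h : 0 ≤ i
      · rw [if_pos h]
        simp only [hBp]
        rw [if_pos (show (0:ℤ) ≤ i + 1 by omega), hD, if_neg (show ¬ (i + 1 : ℤ) = 0 by omega)]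
      · rw [if_neg h]
        simp only [hBp]
        by_cases h' : i = -1
        · subst h'
          rw [hD]
          norm_num
        · rw [hD, if_neg (show ¬ (0:ℤ) ≤ i + 1 by omega), if_neg (show ¬ (i + 1 : ℤ) = 0 by omega)]
    have key2 : D = A * B * A⁻¹ * B⁻¹ := by
      have : D = (A * B) * (B * A)⁻¹ := by
        rw [key]
        group
      rw [this, mul_inv_rev]
      group
    have hsupp : ∀ C : Perm (ℤ × ℕ), SuppIn Q (Perm.viaEmbeddingHom ι C) := by
      intro C x hx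
      rw [Perm.viaEmbeddingHom_apply]
      apply Perm.viaEmbedding_apply_of_notMem
      rw [hr]
      exact hx
    refine ⟨Perm.viaEmbeddingHom ι A, Perm.viaEmbeddingHom ι B, hsupp A, hsupp B, ?_⟩
    rw [← map_inv, ← map_inv, ← map_mul, ← map_mul, ← map_mul, ← key2]
    ext1 y
    rw [Perm.viaEmbeddingHom_apply]
    by_cases hy : y ∈ Set.range ι
    · obtain ⟨⟨i, n⟩, rfl⟩ := hy
      rw [Perm.viaEmbedding_apply, hD]
      by_cases h : i = 0
      · subst h
        simp only [if_true]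
        exact (hσ n).symm
      · simp only [if_neg h]
        apply ht
        rintro ⟨m, hm⟩
        have := (Prod.ext_iff.mp (ι.injective hm)).1
        exact h this.symm
    · rw [Perm.viaEmbedding_apply_of_notMem _ _ _ hy]
      apply ht
      rintro ⟨m, hm⟩
      exact hy ⟨_, hm⟩

end Pool.Agent.H27.Sym
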