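import Pool.Agent.H27.SymB

namespace Pool.Agent.H27.Sym

open Equiv Set

variable {X : Type*}

theorem suppIn_conj {Q : Set X} {t π : Perm X} (ht : SuppIn (π '' Q) t) :
    SuppIn Q (π⁻¹ * t * π) := by
  intro x hx
  have h1 : π x ∉ π '' Q := by
    rintro ⟨y, hy, hxy⟩
    exact hx (π.injective hxy ▸ hy)
  simp only [Perm.mul_apply]
  rw [ht _ h1]
  simp

theorem claim3 [Countable X] {V : ℕ → Set (Perm X)} (S : Sys V)
    (hB : ∀ n, ∃ g ∈ V n, (mv g).Infinite) (C : Set X) (hC : C.Infinite) (m : ℕ) :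
    ∃ C' ⊆ C, C'.Infinite ∧ ∀ t : Perm X, SuppIn C' t → t ∈ V m := by
  obtain ⟨Q, hQ, hQd, hT⟩ := claim2 S hB
  obtain ⟨f, hf, hfr⟩ := exists_split C hC
  obtain ⟨enc, henc⟩ := exists_injective_nat X
  let ψ : X → X := fun x => f (2 * enc x)
  have hψ : Function.Injective ψ := by
    intro x y h
    have := hf h
    exact henc (by omega)
  have hodd : ∀ j x, f (2*j+1) ≠ ψ x := by
    intro j x h
    have := hf h
    omega
  obtain ⟨π, hπ⟩ := exists_extend (⋃ n, Q (n+1)) ψ hψ.injOn (by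
      refine (hQ 0).mono ?_
      intro x hx h
      rw [Set.mem_iUnion] at h
      obtain ⟨n, hn⟩ := h
      have := hQd _ _ x hx hn
      omega)
    (by
      refine Set.infinite_of_injective_forall_mem (f := fun j : ℕ => f (2*j+1)) ?_ ?_
      · intro a b h
        have := hf h
        omega
      · rintro j ⟨x, hx, h⟩
        exact hodd j x h.symm)
  have hsw := fun n => swindle (Q (n+1)) (hQ (n+1))
  choose C' hC'1 hC'2 hC'3 using hsw
  by_contra hcon
  push Not at hcon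
  have hsub : ∀ n, π '' C' n ⊆ C := by
    rintro n y ⟨x, hx, rfl⟩
    rw [hπ x (Set.mem_iUnion.mpr ⟨n, hC'1 n hx⟩), ← hfr]
    exact ⟨_, rfl⟩
  have h1 := fun n => hcon (π '' C' n) (hsub n) ((hC'2 n).image π.injective.injOn)
  choose t ht1 ht2 using h1
  have h2 : ∀ n, ∃ a b : Perm X, SuppIn (Q (n+1)) a ∧ SuppIn (Q (n+1)) b ∧
      π⁻¹ * t n * π = a * b * a⁻¹ * b⁻¹ := fun n => hC'3 n _ (suppIn_conj (ht1 n))
  choose a b ha hb hab using h2
  let a' : ℕ → Perm X := fun n => Nat.casesOn n 1 a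
  let b' : ℕ → Perm X := fun n => Nat.casesOn n 1 b
  have hT2 := hT a' b' (by
      intro n
      cases n with
      | zero => exact SuppIn.one _
      | succ n => exact ha n)
    (by
      intro n
      cases n with
      | zero => exact SuppIn.one _
      | succ n => exact hb n)
  have hT3 := S.tends_conj π hT2
  obtain ⟨N, hN⟩ := hT3 m
  have h3 : π * (a' (N+1) * b' (N+1) * (a' (N+1))⁻¹ * (b' (N+1))⁻¹) * π⁻¹ ∈ V m :=
    hN (N+1) (by omega)
  have h4 : a' (N+1) * b' (N+1) * (a' (N+1))⁻¹ * (b' (N+1))⁻¹ = π⁻¹ * t N * π := (hab N).symm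
  rw [h4] at h3
  have h5 : π * (π⁻¹ * t N * π) * π⁻¹ = t N := by group
  rw [h5] at h3
  exact ht2 N h3

theorem claim4 [Countable X] [Infinite X] {V : ℕ → Set (Perm X)} (S : Sys V)
    (hB : ∀ n, ∃ g ∈ V n, (mv g).Infinite) :
    ∃ c : ℕ → X, Function.Injective c ∧ ((Set.range c)ᶜ).Infinite ∧
      ∀ n, ∀ t : Perm X, SuppIn {x | ∃ j, n < j ∧ c j = x} t → t ∈ V n := by
  classical
  obtain ⟨f, hf, hfr⟩ := exists_split (Set.univ : Set X) Set.infinite_univ
  let C0 : Set X := Set.range (fun n => f (2*n))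
  have hC0 : C0.Infinite := by
    apply Set.infinite_range_of_injective
    intro a b h
    have := hf h
    omega
  have hC0c : (C0ᶜ).Infinite := by
    refine Set.infinite_of_injective_forall_mem (f := fun j : ℕ => f (2*j+1)) ?_ ?_
    · intro a b h
      have := hf h
      omega
    · rintro j ⟨x, h⟩
      have := hf h
      omega
  have hpt : ∀ C : {C : Set X // C.Infinite}, ∃ x, x ∈ C.1 := fun C => C.2.nonempty
  choose p hp using hpt
  have hnx : ∀ (n : ℕ) (C : {C : Set X // C.Infinite}), ∃ C' : {C : Set X // C.Infinite},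
      C'.1 ⊆ C.1 \ {p C} ∧ ∀ t : Perm X, SuppIn C'.1 t → t ∈ V n := by
    intro n C
    obtain ⟨C', h1, h2, h3⟩ := claim3 S hB (C.1 \ {p C}) (C.2.diff (Set.finite_singleton _)) n
    exact ⟨⟨C', h2⟩, h1, h3⟩
  choose nx hnx1 hnx2 using hnx
  let T : ℕ → {C : Set X // C.Infinite} := fun n => Nat.rec ⟨C0, hC0⟩ (fun n C => nx n C) n
  have hT0 : (T 0).1 = C0 := rfl
  have hTs : ∀ n, T (n+1) = nx n (T n) := fun n => rfl
  have hTsub : ∀ n, (T (n+1)).1 ⊆ (T n).1 \ {p (T n)} := by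
    intro n
    rw [hTs]
    exact hnx1 n (T n)
  have hTanti : ∀ m n, m ≤ n → (T n).1 ⊆ (T m).1 := by
    intro m n h
    induction h with
    | refl => exact subset_rfl
    | step _ ih => exact ((hTsub _).trans Set.diff_subset).trans ih
  let c : ℕ → X := fun n => p (T n)
  have hcT : ∀ n, c n ∈ (T n).1 := fun n => hp (T n)
  have hne : ∀ i j, i < j → c i ≠ c j := by
    intro i j hij h
    have h1 : c j ∈ (T (i+1)).1 := hTanti _ _ hij (hcT j)
    have h2 := (hTsub i h1).2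
    exact h2 h.symm
  refine ⟨c, ?_, ?_, ?_⟩
  · intro i j h
    by_contra hij
    rcases lt_or_gt_of_ne hij with h' | h'
    · exact hne _ _ h' h
    · exact hne _ _ h' h.symm
  · refine hC0c.mono ?_
    intro x hx
    rintro ⟨j, rfl⟩
    exact hx (hTanti 0 j (Nat.zero_le _) (hcT j))
  · intro n t ht
    refine hnx2 n (T n) t (ht.mono ?_)
    rintro x ⟨j, hj, rfl⟩
    exact hTanti (n+1) j hj (hcT j)

/-- factorisation lemma -/
theorem factor [Countable X] (C D : Set X) (hCD : (C ∩ D).Infinite)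
    (hD : (D \ C).Infinite) (t : Perm X) (ht : SuppIn (C ∪ D) t) :
    ∃ d0 c d c' : Perm X, SuppIn D d0 ∧ SuppIn C c ∧ SuppIn D d ∧ SuppIn C c' ∧
      t = d0 * c * d * c' := by
  classical
  -- step 0: reduce to `C \ t '' E` infinite by an element of Sym(D)
  set E : Set X := D \ C with hE
  have step1 : ∃ d0 : Perm X, SuppIn D d0 ∧ (C \ (d0 '' (t '' E))).Infinite := by
    by_cases h : (C \ (t '' E)).Infinite
    · refine ⟨1, SuppIn.one _, ?_⟩
      simpa using h
    · -- then `E \ t '' E` is infinite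
      have h1 : (C ∩ D) ⊆ C ∪ D := fun x hx => Or.inl hx.1
      have hinf : ((C ∪ D) \ (t '' E)).Infinite := by
        have h2 : t '' (C ∩ D) ⊆ (C ∪ D) \ (t '' E) := by
          rintro y ⟨x, hx, rfl⟩
          refine ⟨ht.apply_mem (Or.inl hx.1), ?_⟩
          rintro ⟨z, hz, hzx⟩
          have := t.injective hzx
          subst this
          exact hz.2 hx.1
        exact (hCD.image t.injective.injOn).mono h2
      have hU : (E \ (t '' E)).Infinite := by
        intro hfin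
        apply hinf
        refine Set.Finite.subset ((Set.not_infinite.mp h).union hfin) ?_
        rintro x ⟨hx, hx'⟩
        by_cases hxC : x ∈ C
        · exact Or.inl ⟨hxC, hx'⟩
        · exact Or.inr ⟨⟨hx.resolve_left hxC, hxC⟩, hx'⟩
      obtain ⟨ρ, hρ1, hρ2, hρ3, hρ4⟩ := exists_swap_inf (E \ (t '' E)) (C ∩ D) (by
        rw [Set.disjoint_left]
        rintro x ⟨hx, _⟩ hx'
        exact hx.2 hx'.1) hU hCD
      refine ⟨ρ, hρ1.mono ?_, ?_⟩
      · rintro x (hx | hx)
        · exact hx.1.1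
        · exact hx.2
      · refine hCD.mono ?_
        intro x hx
        refine ⟨hx.1, ?_⟩
        rintro ⟨y, hy, rfl⟩
        have := hρ4 _ hx
        rw [hρ2] at this
        exact this.2 hy
  obtain ⟨d0, hd0, hinf1⟩ := step1
  set S1 : Set X := d0 '' (t '' E) with hS1
  have hS1sub : S1 ⊆ C ∪ D := by
    rintro y ⟨x, ⟨z, hz, rfl⟩, rfl⟩
    exact (hd0.mono Set.subset_union_right).apply_mem (ht.apply_mem (Or.inr hz.1))
  -- step 2: move S1 ∩ C into B
  obtain ⟨f, hf, hfr⟩ := exists_split (C ∩ D) hCD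
  obtain ⟨enc, henc⟩ := exists_injective_nat X
  obtain ⟨c, hc1, hc2⟩ := exists_extend_rel C (S1 ∩ C) Set.inter_subset_right
    (fun x => f (2 * enc x)) (by
      intro x _ y _ h
      have := hf h
      exact henc (by omega))
    (by
      intro x _
      have : f (2 * enc x) ∈ C ∩ D := by
        rw [← hfr]
        exact ⟨_, rfl⟩
      exact this.1)
    (by
      refine hinf1.mono ?_
      rintro x ⟨hx, hx'⟩
      exact ⟨hx, fun h => hx' h.1⟩)
    (by
      refine Set.infinite_of_injective_forall_mem (f := fun j : ℕ => f (2*j+1)) ?_ ?_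
      · intro a b h
        have := hf h
        omega
      · intro j
        have h1 : f (2*j+1) ∈ C ∩ D := by
          rw [← hfr]
          exact ⟨_, rfl⟩
        refine ⟨h1.1, ?_⟩
        rintro ⟨x, _, h⟩
        have := hf h
        omega)
  -- step 3
  have hodd : ∀ j, ∀ x ∈ S1, c x ≠ f (2*j+1) := by
    intro j x hx h
    by_cases hxC : x ∈ C
    · rw [hc1 x ⟨hx, hxC⟩] at h
      have := hf h
      omega
    · rw [hc2 x hxC] at h
      have h1 : f (2*j+1) ∈ C ∩ D := by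
        rw [← hfr]
        exact ⟨_, rfl⟩
      rw [← h] at h1
      exact hxC h1.1
  have hcS : ∀ x ∈ S1, c x ∈ D := by
    intro x hx
    by_cases hxC : x ∈ C
    · rw [hc1 x ⟨hx, hxC⟩]
      have : f (2 * enc x) ∈ C ∩ D := by
        rw [← hfr]
        exact ⟨_, rfl⟩
      exact this.2
    · rw [hc2 x hxC]
      exact (hS1sub hx).resolve_left hxC
  obtain ⟨d, hd1, hd2⟩ := exists_extend_rel D (c '' S1) (by
      rintro y ⟨x, hx, rfl⟩
      exact hcS x hx) (fun y => (c * d0 * t)⁻¹ y) (Equiv.injective _).injOn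
    (by
      rintro y ⟨x, ⟨z, ⟨w, hw, rfl⟩, rfl⟩, rfl⟩
      have : (c * d0 * t)⁻¹ (c (d0 (t w))) = w := by
        rw [Perm.inv_eq_iff_eq]
        rfl
      rw [this]
      exact hw.1)
    (by
      refine Set.infinite_of_injective_forall_mem (f := fun j : ℕ => f (2*j+1)) ?_ ?_
      · intro a b h
        have := hf h
        omega
      · intro j
        have h1 : f (2*j+1) ∈ C ∩ D := by
          rw [← hfr]
          exact ⟨_, rfl⟩
        refine ⟨h1.2, ?_⟩
        rintro ⟨x, hx, h⟩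
        exact hodd j x hx h)
    (by
      refine hCD.mono ?_
      intro x hx
      refine ⟨hx.2, ?_⟩
      rintro ⟨y, ⟨z, ⟨w, ⟨v, hv, rfl⟩, rfl⟩, rfl⟩, h⟩
      have h1 : (c * d0 * t)⁻¹ (c (d0 (t v))) = v := by
        rw [Perm.inv_eq_iff_eq]
        rfl
      simp only [h1] at h
      subst h
      exact hv.2 hx.1)
  have hfix : ∀ x ∈ E, d (c (d0 (t x))) = x := by
    intro x hx
    rw [hd1 _ ⟨_, ⟨_, ⟨x, hx, rfl⟩, rfl⟩, rfl⟩, Perm.inv_eq_iff_eq]
    rfl
  refine ⟨d0⁻¹, c⁻¹, d⁻¹, d * c * d0 * t, hd0.inv, hc2.inv, hd2.inv, ?_, by group⟩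
  intro x hx
  simp only [Perm.mul_apply]
  by_cases hxE : x ∈ E
  · exact hfix x hxE
  · have hxD : x ∉ D := fun h => hxE ⟨h, hx⟩
    have h1 : t x = x := ht x (fun h => h.elim hx hxD)
    rw [h1, hd0 x hxD, hc2 x hx, hd2 x hxD]

/-- Case B conclusion -/
theorem caseB [Countable X] [Infinite X] {V : ℕ → Set (Perm X)} (S : Sys V)
    (hB : ∀ n, ∃ g ∈ V n, (mv g).Infinite) (n : ℕ) :
    ∃ F : Set X, F.Finite ∧ ∀ t : Perm X, (∀ x ∈ F, t x = x) → t ∈ V n := by
  classical
  obtain ⟨c, hc, hcc, hcV⟩ := claim4 S hB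
  obtain ⟨u, hu, hur⟩ := exists_split _ hcc
  -- the permutation π
  let f : X → X := fun x => if h : ∃ j, c (2*j) = x then u (Classical.choose h) else
    if h : ∃ j, c (2*j+1) = x then c (4 * Classical.choose h + 1) else x
  have f1 : ∀ j, f (c (2*j)) = u j := by
    intro j
    have h : ∃ i, c (2*i) = c (2*j) := ⟨j, rfl⟩
    have h2 : Classical.choose h = j := by
      have := hc (Classical.choose_spec h)
      omega
    simp only [f, dif_pos h, h2]
  have f2 : ∀ j, f (c (2*j+1)) = c (4*j+1) := by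
    intro j
    have h' : ¬ ∃ i, c (2*i) = c (2*j+1) := by
      rintro ⟨i, hi⟩
      have := hc hi
      omega
    have h : ∃ i, c (2*i+1) = c (2*j+1) := ⟨j, rfl⟩
    have h2 : Classical.choose h = j := by
      have := hc (Classical.choose_spec h)
      omega
    simp only [f, dif_neg h', dif_pos h, h2]
  have hu' : ∀ j, u j ∉ Set.range c := by
    intro j
    have : u j ∈ (Set.range c)ᶜ := by
      rw [← hur]
      exact ⟨j, rfl⟩
    exact this
  have heo : ∀ j : ℕ, ∃ i, j = 2*i ∨ j = 2*i+1 := fun j => ⟨j/2, by omega⟩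
  have fcases : ∀ j : ℕ, (∃ i, j = 2*i ∧ f (c j) = u i) ∨ (∃ i, j = 2*i+1 ∧ f (c j) = c (4*i+1)) := by
    intro j
    obtain ⟨i, rfl | rfl⟩ := heo j
    · exact Or.inl ⟨i, rfl, f1 i⟩
    · exact Or.inr ⟨i, rfl, f2 i⟩
  obtain ⟨π, hπ⟩ := exists_extend (Set.range c) f (by
      rintro x ⟨i, rfl⟩ y ⟨j, rfl⟩ h
      rcases fcases i with ⟨i', hi, hi'⟩ | ⟨i', hi, hi'⟩ <;>
      rcases fcases j with ⟨j', hj, hj'⟩ | ⟨j', hj, hj'⟩ <;> rw [hi', hj'] at h
      · rw [hi, hj, hu h]
      · exact absurd ⟨_, h.symm⟩ (hu' i')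
      · exact absurd ⟨_, h⟩ (hu' j')
      · have := hc h
        congr 1
        omega)
    hcc
    (by
      refine Set.infinite_of_injective_forall_mem (f := fun j : ℕ => c (2*j)) ?_ ?_
      · intro a b h
        have := hc h
        omega
      · rintro j ⟨x, ⟨i, rfl⟩, h⟩
        rcases fcases i with ⟨i', hi, hi'⟩ | ⟨i', hi, hi'⟩
        · rw [hi'] at h
          exact hu' i' ⟨_, h.symm⟩
        · rw [hi'] at h
          have := hc h
          omega)
  have hπ1 : ∀ j, π (c (2*j)) = u j := fun j => by rw [hπ _ ⟨_, rfl⟩, f1]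
  have hπ2 : ∀ j, π (c (2*j+1)) = c (4*j+1) := fun j => by rw [hπ _ ⟨_, rfl⟩, f2]
  -- levels
  obtain ⟨m2, hm2⟩ := S.conj π (n+2)
  have hc1 := hcV (n+2)
  have hc2 := hcV m2
  let F : Set X := c '' Set.Iic (n+2) ∪ (fun j => π (c j)) '' Set.Iic m2
  have hF : F.Finite := ((Set.finite_Iic _).image _).union ((Set.finite_Iic _).image _)
  refine ⟨F, hF, ?_⟩
  intro t ht
  let C : Set X := Set.range c \ F
  let D : Set X := Set.range (fun j => π (c j)) \ F
  have hCV : ∀ s, SuppIn C s → s ∈ V (n+2) := by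
    intro s hs
    apply hc1 s
    refine hs.mono ?_
    rintro x ⟨⟨j, rfl⟩, hx⟩
    refine ⟨j, ?_, rfl⟩
    by_contra hj
    exact hx (Or.inl ⟨j, by simpa using hj, rfl⟩)
  have hDV : ∀ s, SuppIn D s → s ∈ V (n+2) := by
    intro s hs
    have h1 : SuppIn {x | ∃ j, m2 < j ∧ c j = x} (π⁻¹ * s * π) := by
      apply suppIn_conj
      refine hs.mono ?_
      rintro x ⟨⟨j, rfl⟩, hx⟩
      refine ⟨c j, ⟨j, ?_, rfl⟩, rfl⟩
      by_contra hj
      exact hx (Or.inr ⟨j, by simpa using hj, rfl⟩)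
    have h2 := hm2 _ (hc2 _ h1)
    have h3 : π * (π⁻¹ * s * π) * π⁻¹ = s := by group
    rwa [h3] at h2
  have hCDinf : (C ∩ D).Infinite := by
    have : (Set.range (fun j : ℕ => c (4*j+1)) \ F).Infinite := by
      refine Set.Infinite.diff ?_ hF
      apply Set.infinite_range_of_injective
      intro a b h
      have := hc h
      omega
    refine this.mono ?_
    rintro x ⟨⟨j, rfl⟩, hx⟩
    exact ⟨⟨⟨_, rfl⟩, hx⟩, ⟨⟨2*j+1, hπ2 j⟩, hx⟩⟩
  have hDCinf : (D \ C).Infinite := by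
    have : (Set.range u \ F).Infinite := by
      refine Set.Infinite.diff ?_ hF
      exact Set.infinite_range_of_injective hu
    refine this.mono ?_
    rintro x ⟨⟨j, rfl⟩, hx⟩
    exact ⟨⟨⟨2*j, hπ1 j⟩, hx⟩, fun h => hu' j h.1⟩
  obtain ⟨d0, c0, d, c', h1, h2, h3, h4, h5⟩ := factor C D hCDinf hDCinf t (by
    intro x hx
    apply ht
    by_contra hxF
    apply hx
    by_cases hxc : x ∈ Set.range c
    · exact Or.inl ⟨hxc, hxF⟩
    · right
      refine ⟨?_, hxF⟩
      have : x ∈ Set.range u := by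
        rw [hur]
        exact hxc
      obtain ⟨j, rfl⟩ := this
      exact ⟨2*j, hπ1 j⟩)
  rw [h5, mul_assoc (d0 * c0)]
  exact S.mul n _ (S.mul (n+1) _ (hDV _ h1) _ (hCV _ h2)) _
    (S.mul (n+1) _ (hDV _ h3) _ (hCV _ h4))

end Pool.Agent.H27.Sym
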