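import Pool.Agent.H27.SymMain

namespace Pool.Agent.H27.SymMain

open Equiv Set Filter Topology Pool.Agent.H27.Sym Pool.Agent.H27.SymDefs

theorem isOpen_std (N : Subgroup SInf) (U : Set SInf) : IsOpen[stdTopology N] U ↔
    ∀ g ∈ U, ∃ F : Finset ℤ, ∀ h ∈ N, (∀ x ∈ F, h x = x) → g * h ∈ U := Iff.rfl

theorem mem_nhds_std (N : Subgroup SInf) (g : SInf) (U : Set SInf) :
    U ∈ @nhds _ (stdTopology N) g ↔
      ∃ F : Finset ℤ, ∀ h ∈ N, (∀ x ∈ F, h x = x) → g * h ∈ U := by
  classical
  refine (@mem_nhds_iff _ (stdTopology N) g U).trans ?_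
  constructor
  · rintro ⟨t, htU, ht, hg⟩
    obtain ⟨F, hF⟩ := (isOpen_std N t).mp ht g hg
    exact ⟨F, fun h hN hx => htU (hF h hN hx)⟩
  · rintro ⟨F, hF⟩
    refine ⟨{k | ∃ h ∈ N, (∀ x ∈ F, h x = x) ∧ k = g * h}, ?_, ?_, ?_⟩
    · rintro k ⟨h, hN, hx, rfl⟩
      exact hF h hN hx
    · rw [isOpen_std]
      rintro k ⟨h, hN, hx, rfl⟩
      refine ⟨F, fun h' hN' hx' => ⟨h * h', N.mul_mem hN hN', ?_, mul_assoc _ _ _⟩⟩
      intro x hxF
      rw [Perm.mul_apply, hx' x hxF, hx x hxF]
    · exact ⟨1, N.one_mem, fun x _ => rfl, (mul_one g).symm⟩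

theorem basis_std (N : Subgroup SInf) (g : SInf) :
    (@nhds _ (stdTopology N) g).HasBasis (fun _ : Finset ℤ => True)
      (fun F => {k | ∃ h ∈ N, (∀ x ∈ F, h x = x) ∧ k = g * h}) := by
  constructor
  intro U
  rw [mem_nhds_std]
  constructor
  · rintro ⟨F, hF⟩
    refine ⟨F, trivial, ?_⟩
    rintro k ⟨h, hN, hx, rfl⟩
    exact hF h hN hx
  · rintro ⟨F, _, hF⟩
    exact ⟨F, fun h hN hx => hF ⟨h, hN, hx, rfl⟩⟩

theorem group_std (N : Subgroup SInf) (hN : N.Normal) :
    @IsTopologicalGroup SInf (stdTopology N) _ := by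
  classical
  letI := stdTopology N
  have hmul : ContinuousMul SInf := by
    constructor
    rw [continuous_iff_continuousAt]
    rintro ⟨a, b⟩
    intro U hU
    have hU' := (mem_nhds_std N (a * b) U).mp hU
    obtain ⟨F, hF⟩ := hU'
    rw [Filter.mem_map, mem_nhds_prod_iff]
    refine ⟨{k | ∃ h ∈ N, (∀ x ∈ F.image b, h x = x) ∧ k = a * h}, ?_,
      {k | ∃ h ∈ N, (∀ x ∈ F, h x = x) ∧ k = b * h}, ?_, ?_⟩
    · exact (basis_std N a).mem_of_mem trivial
    · exact (basis_std N b).mem_of_mem trivial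
    · rintro ⟨k, l⟩ ⟨⟨h, hN1, hx, hk⟩, ⟨h', hN', hx', hl⟩⟩
      simp only at hk hl
      show k * l ∈ U
      have e : k * l = a * b * ((b⁻¹ * h * b) * h') := by
        rw [hk, hl]
        group
      rw [e]
      apply hF
      · refine N.mul_mem ?_ hN'
        have := hN.conj_mem h hN1 b⁻¹
        simpa using this
      · intro x hxF
        simp only [Perm.mul_apply]
        rw [hx' x hxF, hx _ (Finset.mem_image_of_mem _ hxF)]
        simp
  have hinv : ContinuousInv SInf := by
    constructor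
    rw [continuous_iff_continuousAt]
    intro a U hU
    have hU' := (mem_nhds_std N (a⁻¹) U).mp hU
    obtain ⟨F, hF⟩ := hU'
    rw [Filter.mem_map]
    refine Filter.mem_of_superset ((basis_std N a).mem_of_mem (i := F.image (⇑(a⁻¹ : SInf))) trivial) ?_
    rintro k ⟨h, hN1, hx, rfl⟩
    show (a * h)⁻¹ ∈ U
    have e : (a * h)⁻¹ = a⁻¹ * (a * h⁻¹ * a⁻¹) := by group
    rw [e]
    apply hF
    · exact hN.conj_mem _ (N.inv_mem hN1) a
    · intro x hxF
      simp only [Perm.mul_apply]
      have h1 : h⁻¹ (a⁻¹ x) = a⁻¹ x := by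
        rw [Perm.inv_eq_iff_eq]
        exact (hx _ (Finset.mem_image_of_mem _ hxF)).symm
      rw [h1]
      simp
  exact { toContinuousMul := hmul, toContinuousInv := hinv }

theorem metr_std (N : Subgroup SInf) (hN : N.Normal) :
    @TopologicalSpace.MetrizableSpace SInf (stdTopology N) := by
  classical
  letI := stdTopology N
  haveI : IsTopologicalGroup SInf := group_std N hN
  haveI : T2Space SInf := by
    refine ⟨fun g k hgk => ?_⟩
    obtain ⟨x, hx⟩ : ∃ x, g x ≠ k x := by
      by_contra hcon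
      push Not at hcon
      exact hgk (Equiv.ext hcon)
    have ho : ∀ y : ℤ, IsOpen {u : SInf | u x = y} := by
      intro y
      refine (isOpen_std N _).mpr ?_
      intro u hu
      refine ⟨{x}, fun h _ hh => ?_⟩
      show (u * h) x = y
      rw [Perm.mul_apply, hh x (by simp)]
      exact hu
    refine ⟨{u | u x = g x}, {u | u x = k x}, ho _, ho _, rfl, rfl, ?_⟩
    rw [Set.disjoint_left]
    intro u hu hu'
    exact hx (hu.symm.trans hu')
  haveI hc : (𝓝 (1 : SInf)).IsCountablyGenerated := (basis_std N 1).isCountablyGenerated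
  letI := IsTopologicalGroup.rightUniformSpace SInf
  haveI : IsCountablyGenerated (uniformity SInf) := by
    change IsCountablyGenerated (Filter.comap _ (𝓝 (1 : SInf)))
    exact Filter.comap.isCountablyGenerated _ _
  exact UniformSpace.metrizableSpace

theorem Nc_normal : Nc.Normal := by
  constructor
  intro n hn g
  have : {x : ℤ | (g * n * g⁻¹) x ≠ x} ⊆ g '' {x : ℤ | n x ≠ x} := by
    intro x hx
    refine ⟨g⁻¹ x, ?_, by simp⟩
    intro h
    apply hx
    simp only [Perm.mul_apply]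
    rw [h]
    simp
  exact Set.Finite.subset (Set.Finite.image _ hn) this

theorem Nb_normal : Nb.Normal := by
  constructor
  rintro n ⟨l, h1, h2, h3⟩ g
  refine ⟨l.map (fun x => g * x * g⁻¹), ?_, by simpa using h2, ?_⟩
  · intro s hs
    rw [List.mem_map] at hs
    obtain ⟨u, hu, rfl⟩ := hs
    obtain ⟨x, y, hxy, hu'⟩ := h1 u hu
    exact ⟨g x, g y, fun h => hxy (g.injective h), by rw [hu', swap_apply_apply]⟩
  · rw [← h3]
    clear h1 h2 h3
    induction l with
    | nil => simp
    | cons a l ih =>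
      rw [List.map_cons, List.prod_cons, List.prod_cons, ih]
      group

theorem classification (τ : TopologicalSpace SInf) :
    (@IsTopologicalGroup SInf τ _ ∧ @TopologicalSpace.MetrizableSpace SInf τ) ↔
    (τ = stdTopology ⊥ ∨ τ = stdTopology Nb ∨ τ = stdTopology Nc ∨ τ = stdTopology ⊤) := by
  constructor
  · rintro ⟨h1, h2⟩
    exact main τ h1 h2
  · rintro (rfl | rfl | rfl | rfl)
    · exact ⟨group_std _ inferInstance, metr_std _ inferInstance⟩
    · exact ⟨group_std _ Nb_normal, metr_std _ Nb_normal⟩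
    · exact ⟨group_std _ Nc_normal, metr_std _ Nc_normal⟩
    · exact ⟨group_std _ inferInstance, metr_std _ inferInstance⟩

end Pool.Agent.H27.SymMain
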