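import Mathlib

/-! Definitions for MP_8d0ff6_al (metrizable group topologies on `S_∞`). -/

namespace Pool.Agent.H27.SymDefs

open Equiv

/-- `S_∞`: the group of all permutations of the integers. -/
abbrev SInf : Type := Equiv.Perm ℤ

/-- `N_c`: the finitary permutations (those moving only finitely many points). -/
def Nc : Subgroup SInf where
  carrier := {g | {x : ℤ | g x ≠ x}.Finite}
  one_mem' := by simp
  mul_mem' := by
    intro a b ha hb
    refine Set.Finite.subset (ha.union hb) ?_
    intro x hx
    by_contra h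
    simp only [Set.mem_union, Set.mem_ofPred_eq, not_or, not_not] at h
    apply hx
    rw [Perm.mul_apply, h.2, h.1]
  inv_mem' := by
    intro a ha
    refine Set.Finite.subset ha ?_
    intro x hx h
    apply hx
    rw [Perm.inv_eq_iff_eq]
    exact h.symm

/-- `N_b`: the finitary even permutations, i.e. the products of an even number of
transpositions. -/
def Nb : Subgroup SInf where
  carrier := {g | ∃ l : List SInf, (∀ s ∈ l, s.IsSwap) ∧ Even l.length ∧ l.prod = g}
  one_mem' := ⟨[], by simp, by simp, by simp⟩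
  mul_mem' := by
    rintro a b ⟨l, h1, h2, h3⟩ ⟨l', h1', h2', h3'⟩
    refine ⟨l ++ l', ?_, ?_, ?_⟩
    · intro s hs
      rcases List.mem_append.mp hs with h | h
      · exact h1 s h
      · exact h1' s h
    · rw [List.length_append]
      exact h2.add h2'
    · rw [List.prod_append, h3, h3']
  inv_mem' := by
    rintro a ⟨l, h1, h2, h3⟩
    refine ⟨(l.map (fun x => x⁻¹)).reverse, ?_, ?_, ?_⟩
    · intro s hs
      rw [List.mem_reverse, List.mem_map] at hs
      obtain ⟨u, hu, rfl⟩ := hs
      obtain ⟨x, y, hxy, hu'⟩ := h1 u hu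
      exact ⟨x, y, hxy, by rw [hu', swap_inv]⟩
    · simpa using h2
    · rw [← h3, List.prod_inv_reverse]

/-- For `N ≤ S_∞` (used for the four normal subgroups `1`, `N_b`, `N_c`, `S_∞`), the topology
`τ_N`: a set `U` is open iff around each of its points `g` it contains a set
`g · (Stab(F) ∩ N)` with `F` a finite set of integers, where `Stab(F)` is the pointwise
stabiliser of `F`. -/
def stdTopology (N : Subgroup SInf) : TopologicalSpace SInf where
  IsOpen U := ∀ g ∈ U, ∃ F : Finset ℤ, ∀ h ∈ N, (∀ x ∈ F, h x = x) → g * h ∈ U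
  isOpen_univ := fun g _ => ⟨∅, fun _ _ _ => trivial⟩
  isOpen_inter := by
    classical
    intro U V hU hV g hg
    obtain ⟨F, hF⟩ := hU g hg.1
    obtain ⟨F', hF'⟩ := hV g hg.2
    exact ⟨F ∪ F', fun h hN hx => ⟨hF h hN fun x hxF => hx x (Finset.mem_union_left _ hxF),
      hF' h hN fun x hxF => hx x (Finset.mem_union_right _ hxF)⟩⟩
  isOpen_sUnion := by
    intro S hS g hg
    obtain ⟨U, hU, hgU⟩ := hg
    obtain ⟨F, hF⟩ := hS U hU g hgU
    exact ⟨F, fun h hN hx => ⟨U, hU, hF h hN hx⟩⟩

end Pool.Agent.H27.SymDefs
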