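import Pool.Agent.H27.SymA
import Pool.Agent.H27.SymDefs

namespace Pool.Agent.H27.SymMain

open Equiv Set Filter Topology Pool.Agent.H27.Sym Pool.Agent.H27.SymDefs

/-- point stabilisers are open in every Hausdorff group topology -/
theorem stab_nhds [TopologicalSpace SInf] [IsTopologicalGroup SInf] [T2Space SInf] (a : ℤ) :
    {g : SInf | g a = a} ∈ 𝓝 (1 : SInf) := by
  have key : ∀ b d : ℤ, a ≠ b → a ≠ d → b ≠ d →
      {g : SInf | (g * swap a b * g⁻¹) * swap a d * (g * swap a b * g⁻¹)⁻¹ * (swap a d)⁻¹ ≠ 1} ∈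
        𝓝 (1 : SInf) := by
    intro b d hab had hbd
    have hcont : Continuous (fun g : SInf =>
        (g * swap a b * g⁻¹) * swap a d * (g * swap a b * g⁻¹)⁻¹ * (swap a d)⁻¹) := by
      fun_prop
    have hopen : IsOpen ((fun g : SInf =>
        (g * swap a b * g⁻¹) * swap a d * (g * swap a b * g⁻¹)⁻¹ * (swap a d)⁻¹) ⁻¹'
          ({1}ᶜ : Set SInf)) := isOpen_compl_singleton.preimage hcont
    refine hopen.mem_nhds ?_
    intro h
    have h1 : (1 * swap a b * (1:SInf)⁻¹) * swap a d * (1 * swap a b * (1:SInf)⁻¹)⁻¹ *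
      (swap a d)⁻¹ = 1 := h
    have h2 : swap a b * swap a d = swap a d * swap a b := by
      have := congrArg (fun u : SInf => u * swap a d * swap a b) h1
      simpa using this
    have h3 := congrArg (fun u : SInf => u a) h2
    simp only [Perm.mul_apply, swap_apply_left] at h3
    rw [swap_apply_of_ne_of_ne had.symm hbd.symm, swap_apply_of_ne_of_ne hab.symm hbd] at h3
    exact hbd h3.symm
  have ne : ∀ k : ℤ, k ≠ 0 → a ≠ a + k := fun k hk h => hk (by omega)
  have k1 := key (a+1) (a+4) (ne _ (by norm_num)) (ne _ (by norm_num)) (by omega)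
  have k2 := key (a+2) (a+4) (ne _ (by norm_num)) (ne _ (by norm_num)) (by omega)
  have k3 := key (a+3) (a+4) (ne _ (by norm_num)) (ne _ (by norm_num)) (by omega)
  have k4 := key (a+1) (a+5) (ne _ (by norm_num)) (ne _ (by norm_num)) (by omega)
  have k5 := key (a+2) (a+5) (ne _ (by norm_num)) (ne _ (by norm_num)) (by omega)
  have k6 := key (a+3) (a+5) (ne _ (by norm_num)) (ne _ (by norm_num)) (by omega)
  have aux : ∀ (g : SInf) (b d : ℤ), a ≠ d →
      (g * swap a b * g⁻¹) * swap a d * (g * swap a b * g⁻¹)⁻¹ * (swap a d)⁻¹ ≠ 1 →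
      g a ≠ a → g a ≠ d → (g b = a ∨ g b = d) := by
    intro g b d had hne h1 h2
    by_contra hcon
    push Not at hcon
    apply hne
    rw [← swap_apply_apply g a b]
    have hdis : Perm.Disjoint (swap (g a) (g b)) (swap a d) := by
      intro x
      by_cases hxa : x = a
      · left
        rw [hxa]
        exact swap_apply_of_ne_of_ne (Ne.symm h1) (Ne.symm hcon.1)
      · by_cases hxd : x = d
        · left
          rw [hxd]
          exact swap_apply_of_ne_of_ne (Ne.symm h2) (Ne.symm hcon.2)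
        · right
          exact swap_apply_of_ne_of_ne hxa hxd
    rw [hdis.commute.eq]
    group
  filter_upwards [k1, k2, k3, k4, k5, k6] with g g1 g2 g3 g4 g5 g6
  by_contra hga
  have hga' : g a ≠ a := hga
  have inj : ∀ x y : ℤ, x ≠ y → g x ≠ g y := fun x y h h' => h (g.injective h')
  have i12 := inj (a+1) (a+2) (by omega)
  have i13 := inj (a+1) (a+3) (by omega)
  have i23 := inj (a+2) (a+3) (by omega)
  by_cases hd : g a = a + 4
  · have hd' : g a ≠ a + 5 := by omega
    have e1 := aux g (a+1) (a+5) (ne _ (by norm_num)) g4 hga' hd'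
    have e2 := aux g (a+2) (a+5) (ne _ (by norm_num)) g5 hga' hd'
    have e3 := aux g (a+3) (a+5) (ne _ (by norm_num)) g6 hga' hd'
    omega
  · have e1 := aux g (a+1) (a+4) (ne _ (by norm_num)) g1 hga' hd
    have e2 := aux g (a+2) (a+4) (ne _ (by norm_num)) g2 hga' hd
    have e3 := aux g (a+3) (a+4) (ne _ (by norm_num)) g3 hga' hd
    omega

theorem finset_nhds [TopologicalSpace SInf] [IsTopologicalGroup SInf] [T2Space SInf]
    (F : Finset ℤ) : {g : SInf | ∀ x ∈ F, g x = x} ∈ 𝓝 (1 : SInf) := by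
  have : {g : SInf | ∀ x ∈ F, g x = x} = ⋂ x ∈ F, {g : SInf | g x = x} := by
    ext g
    simp
  rw [this, Filter.biInter_finset_mem]
  exact fun x _ => stab_nhds x

theorem eq_std (τ : TopologicalSpace SInf) (hτ : @IsTopologicalGroup SInf τ _)
    (N : Subgroup SInf) (V : ℕ → Set SInf)
    (hV1 : ∀ n, V n ∈ @nhds _ τ 1) (hV2 : ∀ U ∈ @nhds _ τ 1, ∃ n, V n ⊆ U)
    (h1 : ∀ n, ∃ F : Finset ℤ, ∀ h ∈ N, (∀ x ∈ F, h x = x) → h ∈ V n)
    (h2 : ∀ F : Finset ℤ, ∃ n, ∀ h ∈ V n, h ∈ N ∧ ∀ x ∈ F, h x = x) :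
    τ = stdTopology N := by
  have key : ∀ U : Set SInf, ∀ g : SInf, U ∈ @nhds _ τ g ↔ ∃ n, ∀ h ∈ V n, g * h ∈ U := by
    intro U g
    rw [← map_mul_left_nhds_one g, Filter.mem_map]
    constructor
    · intro h
      obtain ⟨n, hn⟩ := hV2 _ h
      exact ⟨n, fun v hv => hn hv⟩
    · rintro ⟨n, hn⟩
      exact Filter.mem_of_superset (hV1 n) (fun v hv => hn v hv)
  apply TopologicalSpace.ext
  funext U
  apply propext
  show IsOpen[τ] U ↔ IsOpen[stdTopology N] U
  rw [@isOpen_iff_mem_nhds _ τ]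
  show _ ↔ ∀ g ∈ U, ∃ F : Finset ℤ, ∀ h ∈ N, (∀ x ∈ F, h x = x) → g * h ∈ U
  refine forall_congr' fun g => forall_congr' fun _ => ?_
  rw [key]
  constructor
  · rintro ⟨n, hn⟩
    obtain ⟨F, hF⟩ := h1 n
    exact ⟨F, fun h hN hx => hn h (hF h hN hx)⟩
  · rintro ⟨F, hF⟩
    obtain ⟨n, hn⟩ := h2 F
    exact ⟨n, fun h hh => hF h (hn h hh).1 (hn h hh).2⟩

theorem swap_list (t : SInf) (ht : (mv t).Finite) :
    ∃ l : List SInf, (∀ s ∈ l, s.IsSwap) ∧ l.prod = t := by
  have h1 : t ∈ Subgroup.closure {σ : SInf | σ.IsSwap} := by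
    rw [mem_closure_isSwap']
    refine ht.subset ?_
    intro x hx
    exact hx
  clear ht
  induction h1 using Subgroup.closure_induction with
  | mem x hx => exact ⟨[x], by simpa using hx, by simp⟩
  | one => exact ⟨[], by simp, by simp⟩
  | mul x y _ _ ihx ihy =>
    obtain ⟨l, hl, hlp⟩ := ihx
    obtain ⟨m, hm, hmp⟩ := ihy
    refine ⟨l ++ m, ?_, by rw [List.prod_append, hlp, hmp]⟩
    intro s hs
    rcases List.mem_append.mp hs with h | h
    · exact hl s h
    · exact hm s h
  | inv x _ ih =>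
    obtain ⟨l, hl, hlp⟩ := ih
    refine ⟨(l.map (fun x => x⁻¹)).reverse, ?_, by rw [← hlp, List.prod_inv_reverse]⟩
    intro s hs
    rw [List.mem_reverse, List.mem_map] at hs
    obtain ⟨u, hu, rfl⟩ := hs
    obtain ⟨x, y, hxy, hu'⟩ := hl u hu
    exact ⟨x, y, hxy, by rw [hu', swap_inv]⟩

theorem odd_odd (p t : SInf) (hp : (mv p).Finite) (ht : (mv t).Finite) (hp' : ¬ EvenFin p)
    (ht' : ¬ EvenFin t) : EvenFin (p⁻¹ * t) := by
  obtain ⟨l, hl, hlp⟩ := swap_list p hp
  obtain ⟨m, hm, hmp⟩ := swap_list t ht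
  have ol : ¬ Even l.length := fun h => hp' ⟨l, hl, h, hlp⟩
  have om : ¬ Even m.length := fun h => ht' ⟨m, hm, h, hmp⟩
  refine ⟨(l.map (fun x => x⁻¹)).reverse ++ m, ?_, ?_, ?_⟩
  · intro s hs
    rcases List.mem_append.mp hs with h | h
    · rw [List.mem_reverse, List.mem_map] at h
      obtain ⟨u, hu, rfl⟩ := h
      obtain ⟨x, y, hxy, hu'⟩ := hl u hu
      exact ⟨x, y, hxy, by rw [hu', swap_inv]⟩
    · exact hm s h
  · rw [List.length_append, List.length_reverse, List.length_map]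
    rw [Nat.not_even_iff_odd] at ol om
    exact ol.add_odd om
  · rw [List.prod_append, hmp, ← hlp, List.prod_inv_reverse]

theorem sys_shift {V : ℕ → Set SInf} (S : Sys V) (n0 : ℕ) : Sys (fun n => V (n0 + n)) where
  one n := S.one _
  inv n := S.inv _
  mul n := S.mul _
  conj g n := by
    obtain ⟨m, hm⟩ := S.conj g (n0 + n)
    exact ⟨m, fun v hv => hm v (S.anti (by omega) hv)⟩
  pt x := by
    obtain ⟨m, hm⟩ := S.pt x
    exact ⟨m, fun v hv => hm v (S.anti (by omega) hv)⟩

theorem main (τ : TopologicalSpace SInf) (hτ : @IsTopologicalGroup SInf τ _)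
    (hm : @TopologicalSpace.MetrizableSpace SInf τ) :
    τ = stdTopology ⊥ ∨ τ = stdTopology Nb ∨ τ = stdTopology Nc ∨ τ = stdTopology ⊤ := by
  classical
  obtain ⟨u, hu, hmul⟩ := IsTopologicalGroup.exists_antitone_basis_nhds_one SInf
  let V : ℕ → Set SInf := fun n => u n ∩ {g | g⁻¹ ∈ u n}
  have hu1 : ∀ n, u n ∈ 𝓝 (1 : SInf) := fun n => hu.1.mem_of_mem trivial
  have hV1 : ∀ n, V n ∈ 𝓝 (1 : SInf) := by
    intro n
    refine Filter.inter_mem (hu1 n) ?_
    have hc : ContinuousAt (fun g : SInf => g⁻¹) 1 := continuous_inv.continuousAt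
    have : u n ∈ 𝓝 ((fun g : SInf => g⁻¹) 1) := by
      simpa using hu1 n
    exact hc this
  have hV2 : ∀ U ∈ 𝓝 (1 : SInf), ∃ n, V n ⊆ U := by
    intro U hU
    obtain ⟨n, _, hn⟩ := hu.1.mem_iff.mp hU
    exact ⟨n, inter_subset_left.trans hn⟩
  have S : Sys V := by
    refine ⟨?_, ?_, ?_, ?_, ?_⟩
    · intro n
      exact mem_of_mem_nhds (hV1 n)
    · intro n g hg
      exact ⟨hg.2, by simpa using hg.1⟩
    · intro n g hg h hh
      refine ⟨hmul n (Set.mul_mem_mul hg.1 hh.1), ?_⟩
      show (g * h)⁻¹ ∈ u n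
      rw [mul_inv_rev]
      exact hmul n (Set.mul_mem_mul hh.2 hg.2)
    · intro g n
      have hc : Continuous (fun v : SInf => g * v * g⁻¹) := by fun_prop
      have h1 : V n ∈ 𝓝 ((fun v : SInf => g * v * g⁻¹) 1) := by
        simpa using hV1 n
      obtain ⟨m, hm⟩ := hV2 _ (hc.continuousAt h1)
      exact ⟨m, fun v hv => hm hv⟩
    · intro x
      obtain ⟨n, hn⟩ := hV2 _ (stab_nhds x)
      exact ⟨n, fun v hv => hn hv⟩
  have hstab : ∀ F : Finset ℤ, ∃ n, ∀ h ∈ V n, ∀ x ∈ F, h x = x := by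
    intro F
    obtain ⟨n, hn⟩ := hV2 _ (finset_nhds F)
    exact ⟨n, fun h hh => hn hh⟩
  by_cases hB : ∀ n, ∃ g ∈ V n, (mv g).Infinite
  · -- natural topology
    right; right; right
    refine eq_std τ hτ ⊤ V hV1 hV2 ?_ ?_
    · intro n
      obtain ⟨F, hF, h⟩ := caseB S hB n
      exact ⟨hF.toFinset, fun t _ ht => h t (fun x hx => ht x (by simpa using hx))⟩
    · intro F
      obtain ⟨n, hn⟩ := hstab F
      exact ⟨n, fun h hh => ⟨trivial, hn h hh⟩⟩
  · push Not at hB
    obtain ⟨n0, hn0⟩ := hB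
    have hn0' : ∀ g ∈ V n0, (mv g).Finite := fun g hg => by
      simpa [Set.not_infinite] using hn0 g hg
    by_cases hne : ∀ n, ∃ g ∈ V (n0 + n), g ≠ 1
    · have S' := sys_shift S n0
      have hA := caseA S' hn0' hne
      by_cases hodd : ∃ n, ∀ g ∈ V n, g ∈ Nb
      · right; left
        obtain ⟨n1, hn1⟩ := hodd
        refine eq_std τ hτ Nb V hV1 hV2 ?_ ?_
        · intro n
          obtain ⟨F, hF, h⟩ := hA n
          refine ⟨hF.toFinset, fun t htN ht => ?_⟩
          exact S.anti (by omega) (h t htN (fun x hx => ht x (by simpa using hx)))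
        · intro F
          obtain ⟨n, hn⟩ := hstab F
          exact ⟨max n n1, fun h hh => ⟨hn1 h (S.anti (le_max_right _ _) hh),
            hn h (S.anti (le_max_left _ _) hh)⟩⟩
      · right; right; left
        push Not at hodd
        refine eq_std τ hτ Nc V hV1 hV2 ?_ ?_
        · intro n
          obtain ⟨F, hF, h⟩ := hA (n+1)
          obtain ⟨k, hk⟩ := S.ptF F hF
          obtain ⟨p, hp, hpN⟩ := hodd (max (max k n0) (n+1))
          have hpfin : (mv p).Finite := hn0' p (S.anti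
            ((le_max_right _ _).trans (le_max_left _ _)) hp)
          have hpF : ∀ x ∈ F, p x = x :=
            hk p (S.anti ((le_max_left _ _).trans (le_max_left _ _)) hp)
          refine ⟨hF.toFinset, fun t htN ht => ?_⟩
          have htF : ∀ x ∈ F, t x = x := fun x hx => ht x (by simpa using hx)
          by_cases hte : EvenFin t
          · exact S.anti (by omega) (h t hte htF)
          · have h1 : EvenFin (p⁻¹ * t) := odd_odd p t hpfin htN hpN hte
            have h2 : p⁻¹ * t ∈ V (n0 + (n+1)) := by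
              apply h _ h1
              intro x hx
              rw [Perm.mul_apply, htF x hx, Perm.inv_eq_iff_eq]
              exact (hpF x hx).symm
            have h3 : t = p * (p⁻¹ * t) := by group
            rw [h3]
            exact S.mul n _ (S.anti (le_max_right _ _) hp) _ (S.anti (by omega) h2)
        · intro F
          obtain ⟨n, hn⟩ := hstab F
          exact ⟨max n n0, fun h hh => ⟨hn0' h (S.anti (le_max_right _ _) hh),
            hn h (S.anti (le_max_left _ _) hh)⟩⟩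
    · left
      push Not at hne
      obtain ⟨n1, hn1⟩ := hne
      refine eq_std τ hτ ⊥ V hV1 hV2 ?_ ?_
      · intro n
        refine ⟨∅, fun t ht _ => ?_⟩
        rw [Subgroup.mem_bot] at ht
        rw [ht]
        exact S.one n
      · intro F
        refine ⟨n0 + n1, fun h hh => ?_⟩
        have := hn1 h hh
        rw [this]
        exact ⟨Subgroup.one_mem _, fun x _ => rfl⟩

end Pool.Agent.H27.SymMain
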