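import Mathlib

/-! Tools on permutations of a countably infinite type, for MP_8d0ff6_al. -/

namespace Pool.Agent.H27.Sym

open Equiv Set

variable {X : Type*}

/-- `g` is supported in `S`. -/
def SuppIn (S : Set X) (g : Perm X) : Prop := ∀ x, x ∉ S → g x = x

theorem SuppIn.mono {S T : Set X} {g : Perm X} (h : SuppIn S g) (hST : S ⊆ T) : SuppIn T g :=
  fun x hx => h x (fun hxS => hx (hST hxS))

theorem SuppIn.one (S : Set X) : SuppIn S (1 : Perm X) := fun x _ => rfl

theorem SuppIn.mul {S : Set X} {g h : Perm X} (hg : SuppIn S g) (hh : SuppIn S h) :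
    SuppIn S (g * h) := by
  intro x hx
  rw [Perm.mul_apply, hh x hx, hg x hx]

theorem SuppIn.inv {S : Set X} {g : Perm X} (hg : SuppIn S g) : SuppIn S g⁻¹ := by
  intro x hx
  rw [Perm.inv_eq_iff_eq]
  exact (hg x hx).symm

theorem SuppIn.apply_mem {S : Set X} {g : Perm X} (hg : SuppIn S g) {x : X} (hx : x ∈ S) :
    g x ∈ S := by
  by_contra h
  have h1 := hg (g x) h
  have h2 : g x = x := g.injective h1
  rw [h2] at h
  exact h hx

theorem SuppIn.inv_apply_mem {S : Set X} {g : Perm X} (hg : SuppIn S g) {x : X} (hx : x ∈ S) :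
    g⁻¹ x ∈ S := hg.inv.apply_mem hx

/-- moved points -/
def mv (g : Perm X) : Set X := {x | g x ≠ x}

theorem suppIn_mv (g : Perm X) : SuppIn (mv g) g := by
  intro x hx
  by_contra h
  exact hx h

theorem mv_subset_of_suppIn {S : Set X} {g : Perm X} (h : SuppIn S g) : mv g ⊆ S := by
  intro x hx
  by_contra h'
  exact hx (h x h')

/-- gluing permutations supported in disjoint sets -/
theorem exists_glue (E : ℕ → Set X) (hE : ∀ i j x, x ∈ E i → x ∈ E j → i = j) (σ : ℕ → Perm X)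
    (hσ : ∀ k, SuppIn (E k) (σ k)) :
    ∃ g : Perm X, (∀ k, ∀ x ∈ E k, g x = σ k x) ∧ (∀ x, (∀ k, x ∉ E k) → g x = x) := by
  classical
  let f : (ℕ → Perm X) → X → X := fun τ x =>
    if h : ∃ k, x ∈ E k then τ (Classical.choose h) x else x
  have f1 : ∀ τ k x, x ∈ E k → f τ x = τ k x := by
    intro τ k x hx
    have h : ∃ k, x ∈ E k := ⟨k, hx⟩
    have h2 : Classical.choose h = k := hE _ _ x (Classical.choose_spec h) hx
    simp only [f, dif_pos h, h2]
  have f2 : ∀ τ x, (∀ k, x ∉ E k) → f τ x = x := by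
    intro τ x hx
    have h : ¬ ∃ k, x ∈ E k := by
      rintro ⟨k, hk⟩
      exact hx k hk
    simp only [f, dif_neg h]
  refine ⟨⟨f σ, f (fun k => (σ k)⁻¹), ?_, ?_⟩, ?_, ?_⟩
  · intro x
    by_cases h : ∃ k, x ∈ E k
    · obtain ⟨k, hk⟩ := h
      rw [f1 σ k x hk, f1 (fun k => (σ k)⁻¹) k _ ((hσ k).apply_mem hk)]
      simp
    · push Not at h
      rw [f2 σ x h, f2 (fun k => (σ k)⁻¹) x h]
  · intro x
    by_cases h : ∃ k, x ∈ E k
    · obtain ⟨k, hk⟩ := h
      rw [f1 (fun k => (σ k)⁻¹) k x hk, f1 σ k _ ((hσ k).inv_apply_mem hk)]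
      simp
    · push Not at h
      rw [f2 (fun k => (σ k)⁻¹) x h, f2 σ x h]
  · intro k x hx
    exact f1 σ k x hx
  · intro x hx
    exact f2 σ x hx

/-- extension of an injective partial map with infinite complements -/
theorem exists_extend [Countable X] (P : Set X) (f : X → X) (hf : Set.InjOn f P)
    (h1 : (Pᶜ).Infinite) (h2 : ((f '' P)ᶜ).Infinite) :
    ∃ π : Perm X, ∀ x ∈ P, π x = f x := by
  classical
  have i1 : Infinite (↥(Pᶜ)) := h1.to_subtype
  have i2 : Infinite (↥((f '' P)ᶜ)) := h2.to_subtype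
  obtain ⟨e2⟩ : Nonempty (↥(Pᶜ) ≃ ↥((f '' P)ᶜ)) := nonempty_equiv_of_countable
  let e1 : ↥P ≃ ↥(f '' P) := Equiv.Set.imageOfInjOn f P hf
  refine ⟨(Equiv.Set.sumCompl P).symm.trans ((Equiv.sumCongr e1 e2).trans
    (Equiv.Set.sumCompl (f '' P))), ?_⟩
  intro x hx
  simp only [Equiv.trans_apply]
  rw [Equiv.Set.sumCompl_symm_apply_of_mem hx]
  simp [e1, Equiv.Set.imageOfInjOn]

/-- relative version -/
theorem exists_extend_rel [Countable X] (K P : Set X) (hPK : P ⊆ K) (f : X → X)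
    (hf : Set.InjOn f P) (hfK : ∀ x ∈ P, f x ∈ K)
    (h1 : (K \ P).Infinite) (h2 : (K \ (f '' P)).Infinite) :
    ∃ π : Perm X, (∀ x ∈ P, π x = f x) ∧ SuppIn K π := by
  classical
  let f' : X → X := fun x => if x ∈ K then f x else x
  have hf'K : ∀ x ∈ P, f' x = f x := by
    intro x hx
    simp only [f', if_pos (hPK hx)]
  have hf'n : ∀ x, x ∉ K → f' x = x := by
    intro x hx
    simp only [f', if_neg hx]
  have him : f' '' (P ∪ Kᶜ) = f '' P ∪ Kᶜ := by
    ext y
    constructor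
    · rintro ⟨x, hx | hx, rfl⟩
      · left
        rw [hf'K x hx]
        exact ⟨x, hx, rfl⟩
      · right
        rw [hf'n x hx]
        exact hx
    · rintro (⟨x, hx, rfl⟩ | hx)
      · exact ⟨x, Or.inl hx, hf'K x hx⟩
      · exact ⟨y, Or.inr hx, hf'n y hx⟩
  obtain ⟨π, hπ⟩ := exists_extend (P ∪ Kᶜ) f' (by
      intro x hx y hy hxy
      rcases hx with hx | hx <;> rcases hy with hy | hy
      · rw [hf'K x hx, hf'K y hy] at hxy
        exact hf hx hy hxy
      · rw [hf'K x hx, hf'n y hy] at hxy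
        exact absurd (hxy ▸ hfK x hx) hy
      · rw [hf'n x hx, hf'K y hy] at hxy
        exact absurd (hxy.symm ▸ hfK y hy) hx
      · rw [hf'n x hx, hf'n y hy] at hxy
        exact hxy)
    (by
      refine h1.mono ?_
      rintro x ⟨hx, hx'⟩ h
      rcases h with h | h
      · exact hx' h
      · exact h hx)
    (by
      rw [him]
      refine h2.mono ?_
      rintro x ⟨hx, hx'⟩ h
      rcases h with h | h
      · exact hx' h
      · exact h hx)
  refine ⟨π, ?_, ?_⟩
  · intro x hx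
    rw [hπ x (Or.inl hx), hf'K x hx]
  · intro x hx
    rw [hπ x (Or.inr hx), hf'n x hx]

/-- swapping two disjoint sets along a bijection -/
theorem exists_swap (A B : Set X) (hAB : Disjoint A B) (e : ↥A ≃ ↥B) :
    ∃ ρ : Perm X, SuppIn (A ∪ B) ρ ∧ (∀ x, ρ (ρ x) = x) ∧ (∀ x ∈ A, ρ x ∈ B) ∧
      (∀ x ∈ B, ρ x ∈ A) := by
  classical
  rw [Set.disjoint_left] at hAB
  let f : X → X := fun x => if h : x ∈ A then (e ⟨x, h⟩ : X) else
    if h : x ∈ B then (e.symm ⟨x, h⟩ : X) else x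
  have fA : ∀ x (h : x ∈ A), f x = (e ⟨x, h⟩ : X) := by
    intro x h
    simp only [f, dif_pos h]
  have fB : ∀ x (h : x ∈ B), f x = (e.symm ⟨x, h⟩ : X) := by
    intro x h
    have : x ∉ A := fun h' => hAB h' h
    simp only [f, dif_neg this, dif_pos h]
  have fN : ∀ x, x ∉ A → x ∉ B → f x = x := by
    intro x h h'
    simp only [f, dif_neg h, dif_neg h']
  have hff : ∀ x, f (f x) = x := by
    intro x
    by_cases h : x ∈ A
    · rw [fA x h, fB _ (e ⟨x, h⟩).2]
      simp
    · by_cases h' : x ∈ B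
      · rw [fB x h', fA _ (e.symm ⟨x, h'⟩).2]
        simp
      · rw [fN x h h', fN x h h']
  refine ⟨⟨f, f, hff, hff⟩, ?_, ?_, ?_, ?_⟩
  · intro x hx
    exact fN x (fun h => hx (Or.inl h)) (fun h => hx (Or.inr h))
  · intro x
    exact hff x
  · intro x hx
    show f x ∈ B
    rw [fA x hx]
    exact (e ⟨x, hx⟩).2
  · intro x hx
    show f x ∈ A
    rw [fB x hx]
    exact (e.symm ⟨x, hx⟩).2

theorem exists_swap_inf [Countable X] (A B : Set X) (hAB : Disjoint A B) (hA : A.Infinite)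
    (hB : B.Infinite) :
    ∃ ρ : Perm X, SuppIn (A ∪ B) ρ ∧ (∀ x, ρ (ρ x) = x) ∧ (∀ x ∈ A, ρ x ∈ B) ∧
      (∀ x ∈ B, ρ x ∈ A) := by
  have i1 := hA.to_subtype
  have i2 := hB.to_subtype
  obtain ⟨e⟩ : Nonempty (↥A ≃ ↥B) := nonempty_equiv_of_countable
  exact exists_swap A B hAB e

/-- commutator lemma -/
theorem comm_eq (z c a b : Perm X) (Q : Set X) (ha : SuppIn Q a) (hb : SuppIn Q b)
    (hz : ∀ x ∈ Q, z x = a x) (hc : ∀ x ∈ Q, c x = b x)
    (hd : ∀ x, x ∉ Q → z x = x ∨ c x = x) :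
    z * c * z⁻¹ * c⁻¹ = a * b * a⁻¹ * b⁻¹ := by
  have zQ : ∀ x, x ∈ Q → z x ∈ Q := by
    intro x hx
    rw [hz x hx]
    exact ha.apply_mem hx
  have cQ : ∀ x, x ∈ Q → c x ∈ Q := by
    intro x hx
    rw [hc x hx]
    exact hb.apply_mem hx
  have zQ' : ∀ x, x ∉ Q → z x ∉ Q := by
    intro x hx h
    have h1 : z (a⁻¹ (z x)) = z x := by
      rw [hz _ (ha.inv_apply_mem h)]
      simp
    have h2 := z.injective h1
    exact hx (h2 ▸ ha.inv_apply_mem h)
  have cQ' : ∀ x, x ∉ Q → c x ∉ Q := by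
    intro x hx h
    have h1 : c (b⁻¹ (c x)) = c x := by
      rw [hc _ (hb.inv_apply_mem h)]
      simp
    have h2 := c.injective h1
    exact hx (h2 ▸ hb.inv_apply_mem h)
  have key : z * c = (a * b * a⁻¹ * b⁻¹) * (c * z) := by
    ext x
    by_cases hx : x ∈ Q
    · have e1 : (z * c) x = a (b x) := by
        rw [Perm.mul_apply, hc x hx, hz _ (hb.apply_mem hx)]
      have e2 : (c * z) x = b (a x) := by
        rw [Perm.mul_apply, hz x hx, hc _ (ha.apply_mem hx)]
      rw [Perm.mul_apply _ (c * z), e2, e1]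
      simp [Perm.mul_apply]
    · have h0 : (c * z) x ∉ Q := cQ' _ (zQ' x hx)
      have hs : SuppIn Q (a * b * a⁻¹ * b⁻¹) := ((ha.mul hb).mul ha.inv).mul hb.inv
      rw [Perm.mul_apply _ (c * z), hs _ h0, Perm.mul_apply, Perm.mul_apply]
      rcases hd x hx with h | h
      · by_cases h2 : c x = x
        · rw [h2, h, h2]
        · have h3 : c (c x) ≠ c x := fun h' => h2 (c.injective h')
          have h4 := (hd (c x) (cQ' x hx)).resolve_right h3
          rw [h4, h]
      · by_cases h2 : z x = x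
        · rw [h, h2, h]
        · have h3 : z (z x) ≠ z x := fun h' => h2 (z.injective h')
          have h4 := (hd (z x) (zQ' x hx)).resolve_left h3
          rw [h4, h]
  have : z * c * z⁻¹ * c⁻¹ = (z * c) * (c * z)⁻¹ := by
    rw [mul_inv_rev]
    group
  rw [this, key]
  group

/-- sequences satisfying a pairwise condition -/
theorem exists_seq_dep {α : Type*} (P : ℕ → α → Prop) (r : α → α → Prop)
    (h : ∀ n (s : Finset α), ∃ y, P n y ∧ ∀ x ∈ s, r x y) :
    ∃ f : ℕ → α, (∀ n, P n (f n)) ∧ ∀ m n, m < n → r (f m) (f n) := by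
  classical
  choose c hc1 hc2 using h
  let S : ℕ → Finset α := fun n => Nat.rec ∅ (fun n s => insert (c n s) s) n
  have hS : ∀ n, S (n+1) = insert (c n (S n)) (S n) := fun n => rfl
  refine ⟨fun n => c n (S n), fun n => hc1 n _, ?_⟩
  have mem : ∀ n m, m < n → c m (S m) ∈ S n := by
    intro n
    induction n with
    | zero => intro m hm; omega
    | succ n ih =>
      intro m hm
      rw [hS]
      rcases Nat.lt_succ_iff_lt_or_eq.mp hm with h | h
      · exact Finset.mem_insert_of_mem (ih m h)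
      · rw [h]
        exact Finset.mem_insert_self _ _
  intro m n hmn
  exact hc2 n _ _ (mem n m hmn)

/-- splitting an infinite set -/
theorem exists_split [Countable X] (B : Set X) (hB : B.Infinite) :
    ∃ f : ℕ → X, Function.Injective f ∧ Set.range f = B := by
  have i1 := hB.to_subtype
  obtain ⟨e⟩ : Nonempty (ℕ ≃ ↥B) := nonempty_equiv_of_countable
  refine ⟨fun n => (e n : X), fun a b h => e.injective (Subtype.ext h), ?_⟩
  ext x
  constructor
  · rintro ⟨n, rfl⟩
    exact (e n).2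
  · intro hx
    exact ⟨e.symm ⟨x, hx⟩, by simp⟩

end Pool.Agent.H27.Sym
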