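import Mathlib

set_option autoImplicit false

open MeasureTheory Filter Topology Set
open scoped ENNReal NNReal

namespace Pool.Agent.H27.WT

/-- the Hilbert space `L²(ℝ)` -/
abbrev H : Type := Lp ℂ 2 (volume : Measure ℝ)

/-! ### scalar functions -/

noncomputable def q (x : ℝ) : ℝ := √(√(1 + x))

theorem sqrt_lip {a b : ℝ} (ha : 1 ≤ a) (hb : 1 ≤ b) : |√a - √b| ≤ |a - b| := by
  have h1 : 1 ≤ √a := Real.one_le_sqrt.2 ha
  have h2 : 1 ≤ √b := Real.one_le_sqrt.2 hb
  have h3 : a - b = (√a - √b) * (√a + √b) := by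
    have e1 := Real.mul_self_sqrt (zero_le_one.trans ha)
    have e2 := Real.mul_self_sqrt (zero_le_one.trans hb)
    linear_combination -e1 + e2
  rw [h3, abs_mul]
  have h4 : 1 ≤ |√a + √b| := by rw [abs_of_nonneg (by linarith)]; linarith
  exact le_mul_of_one_le_right (abs_nonneg _) h4

theorem one_le_q {x : ℝ} (hx : 0 ≤ x) : 1 ≤ q x :=
  Real.one_le_sqrt.2 (Real.one_le_sqrt.2 (by linarith))

theorem q_pos {x : ℝ} (hx : 0 ≤ x) : 0 < q x := lt_of_lt_of_le one_pos (one_le_q hx)

theorem q_lip {x y : ℝ} (hx : 0 ≤ x) (hy : 0 ≤ y) : |q x - q y| ≤ |x - y| := by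
  have h1 := sqrt_lip (a := √(1 + x)) (b := √(1 + y)) (Real.one_le_sqrt.2 (by linarith)) (Real.one_le_sqrt.2 (by linarith))
  have h2 := sqrt_lip (a := 1 + x) (b := 1 + y) (by linarith) (by linarith)
  have e : 1 + x - (1 + y) = x - y := by ring
  rw [e] at h2
  exact h1.trans h2

theorem q_zero : q 0 = 1 := by simp [q]

theorem q_le {x : ℝ} (hx : 0 ≤ x) : q x ≤ 1 + x := by
  have h := q_lip hx le_rfl
  rw [q_zero, sub_zero, abs_of_nonneg hx] at h
  have := le_abs_self (q x - 1)
  linarith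

theorem q_sq {x : ℝ} : q x ^ 2 = √(1 + x) := Real.sq_sqrt (Real.sqrt_nonneg _)

theorem q_mono {x y : ℝ} (hxy : x ≤ y) : q x ≤ q y := 
  Real.sqrt_le_sqrt (Real.sqrt_le_sqrt (by linarith))

theorem q_inv_lip {x y : ℝ} (hx : 0 ≤ x) (hy : 0 ≤ y) : |(q x)⁻¹ - (q y)⁻¹| ≤ |x - y| := by
  have h1 := one_le_q hx
  have h2 := one_le_q hy
  have h3 := q_lip hx hy
  have h4 : (q x)⁻¹ - (q y)⁻¹ = (q y - q x) / (q x * q y) := by
    have := (q_pos hx).ne'
    have := (q_pos hy).ne'
    field_simp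
  rw [h4, abs_div, abs_sub_comm]
  have h5 : 1 ≤ |q x * q y| := by
    rw [abs_of_nonneg (by positivity)]
    nlinarith
  exact (div_le_self (abs_nonneg _) h5).trans h3

/-- indicator of the nonpositive half line -/
noncomputable def χ (s : ℝ) : ℝ := if 0 < s then 0 else 1
noncomputable def n (t s : ℝ) : ℝ := if 0 < s then q (|t| / (1 + s)) else 0
noncomputable def k (t s : ℝ) : ℝ := if 0 < s then (q (|t| / (1 + s)))⁻¹ else 0

theorem arg_nonneg (t : ℝ) {s : ℝ} (hs : 0 < s) : 0 ≤ |t| / (1 + s) := by positivity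

theorem q_meas : Measurable q := by
  unfold q
  fun_prop

theorem χ_meas : Measurable χ := Measurable.ite measurableSet_Ioi measurable_const measurable_const
theorem n_meas2 : Measurable (Function.uncurry n) := by
  refine Measurable.ite (measurableSet_Ioi.preimage measurable_snd) (q_meas.comp ?_) measurable_const
  fun_prop
theorem n_meas (t : ℝ) : Measurable (n t) := n_meas2.of_uncurry_left
theorem k_meas (t : ℝ) : Measurable (k t) := by
  refine Measurable.ite measurableSet_Ioi (q_meas.comp ?_).inv measurable_const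
  fun_prop

theorem χ_bd (s : ℝ) : |χ s| ≤ 1 := by
  unfold χ; split_ifs <;> simp
theorem n_bd (t s : ℝ) : |n t s| ≤ 1 + |t| := by
  unfold n; split_ifs with h
  · have h1 := q_le (arg_nonneg t h)
    rw [abs_of_nonneg (q_pos (arg_nonneg t h)).le]
    have h2 : |t| / (1 + s) ≤ |t| := div_le_self (abs_nonneg _) (by linarith)
    linarith
  · simp; positivity
theorem k_bd (t s : ℝ) : |k t s| ≤ 1 := by
  unfold k; split_ifs with h
  · have h1 := one_le_q (arg_nonneg t h)
    rw [abs_of_nonneg (inv_nonneg.2 (q_pos (arg_nonneg t h)).le)]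
    exact inv_le_one_of_one_le₀ h1
  · simp

theorem n_lip (t t' s : ℝ) : |n t s - n t' s| ≤ |t - t'| := by
  unfold n; split_ifs with h
  · refine (q_lip (arg_nonneg t h) (arg_nonneg t' h)).trans ?_
    rw [← sub_div, abs_div]
    refine (div_le_self (abs_nonneg _) ?_).trans (abs_abs_sub_abs_le_abs_sub _ _)
    rw [abs_of_nonneg (by linarith)]; linarith
  · simp
theorem k_lip (t t' s : ℝ) : |k t s - k t' s| ≤ |t - t'| := by
  unfold k; split_ifs with h
  · refine (q_inv_lip (arg_nonneg t h) (arg_nonneg t' h)).trans ?_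
    rw [← sub_div, abs_div]
    refine (div_le_self (abs_nonneg _) ?_).trans (abs_abs_sub_abs_le_abs_sub _ _)
    rw [abs_of_nonneg (by linarith)]; linarith
  · simp

/-! ### multiplication operators -/

theorem mul_memLp (m : ℝ → ℝ) (C : ℝ) (hm : Measurable m) (hC : ∀ s, |m s| ≤ C) (f : H) :
    MemLp (fun s => (m s : ℂ) * f s) 2 volume := by
  refine MemLp.of_le_mul (c := C) (Lp.memLp f) ?_ ?_
  · exact (Complex.measurable_ofReal.comp hm).aestronglyMeasurable.mul (Lp.aestronglyMeasurable f)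
  · refine Eventually.of_forall fun s => ?_
    rw [norm_mul, Complex.norm_real, Real.norm_eq_abs]
    exact mul_le_mul_of_nonneg_right (hC s) (norm_nonneg _)

/-- multiplication by a bounded measurable function -/
noncomputable def mulOp (m : ℝ → ℝ) (C : ℝ) (hm : Measurable m) (hC : ∀ s, |m s| ≤ C) : H →L[ℂ] H :=
  LinearMap.mkContinuous
    { toFun := fun f => (mul_memLp m C hm hC f).toLp _
      map_add' := by
        intro f g
        rw [← MemLp.toLp_add]
        apply MemLp.toLp_congr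
        filter_upwards [Lp.coeFn_add f g] with s hs
        rw [hs, Pi.add_apply, Pi.add_apply, mul_add]
      map_smul' := by
        intro c f
        rw [RingHom.id_apply, ← MemLp.toLp_const_smul]
        apply MemLp.toLp_congr
        filter_upwards [Lp.coeFn_smul c f] with s hs
        rw [hs, Pi.smul_apply, Pi.smul_apply, smul_eq_mul, smul_eq_mul]
        ring } C (by
      intro f
      apply Lp.norm_le_mul_norm_of_ae_le_mul
      filter_upwards [(mul_memLp m C hm hC f).coeFn_toLp] with s hs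
      change ‖((mul_memLp m C hm hC f).toLp _ : H) s‖ ≤ _
      rw [hs, norm_mul, Complex.norm_real, Real.norm_eq_abs]
      exact mul_le_mul_of_nonneg_right (hC s) (norm_nonneg _))

theorem mulOp_coe (m : ℝ → ℝ) (C : ℝ) (hm : Measurable m) (hC : ∀ s, |m s| ≤ C) (f : H) :
    mulOp m C hm hC f =ᵐ[volume] fun s => (m s : ℂ) * f s :=
  (mul_memLp m C hm hC f).coeFn_toLp

theorem mulOp_sub_le (m m' : ℝ → ℝ) (C C' : ℝ) (hm : Measurable m) (hC : ∀ s, |m s| ≤ C)
    (hm' : Measurable m') (hC' : ∀ s, |m' s| ≤ C') (D : ℝ) (hD : 0 ≤ D) (h : ∀ s, |m s - m' s| ≤ D) :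
    ‖mulOp m C hm hC - mulOp m' C' hm' hC'‖ ≤ D := by
  apply ContinuousLinearMap.opNorm_le_bound _ hD
  intro f
  apply Lp.norm_le_mul_norm_of_ae_le_mul
  rw [ContinuousLinearMap.sub_apply]
  filter_upwards [mulOp_coe m C hm hC f, mulOp_coe m' C' hm' hC' f, 
    Lp.coeFn_sub (mulOp m C hm hC f) (mulOp m' C' hm' hC' f)] with s h1 h2 h3
  rw [h3, Pi.sub_apply, h1, h2, ← sub_mul, norm_mul, ← Complex.ofReal_sub, Complex.norm_real, Real.norm_eq_abs]
  exact mul_le_mul_of_nonneg_right (h s) (norm_nonneg _)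

/-- translation -/
noncomputable def τ (t : ℝ) : H →L[ℂ] H :=
  (Lp.compMeasurePreservingₗᵢ ℂ (fun s : ℝ => s - t) (measurePreserving_sub_right volume t)).toContinuousLinearMap

theorem τ_coe (t : ℝ) (f : H) : τ t f =ᵐ[volume] fun s => f (s - t) :=
  Lp.coeFn_compMeasurePreserving f (measurePreserving_sub_right volume t)

theorem τ_norm (t : ℝ) (f : H) : ‖τ t f‖ = ‖f‖ := 
  (Lp.compMeasurePreservingₗᵢ ℂ (fun s : ℝ => s - t) (measurePreserving_sub_right volume t)).norm_map f

/-- transport of almost everywhere statements -/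
theorem ae_shift {P : ℝ → Prop} (t : ℝ) (h : ∀ᵐ s, P s) : ∀ᵐ s, P (s - t) :=
  (measurePreserving_sub_right volume t).quasiMeasurePreserving.ae h

/-- the semigroup `T` -/
noncomputable def T (t : ℝ) : H →L[ℂ] H :=
  mulOp χ 1 χ_meas χ_bd + (τ t).comp (mulOp (k t) 1 (k_meas t) (k_bd t))

/-- the left inverse semigroup -/
noncomputable def S (t : ℝ) : H →L[ℂ] H :=
  mulOp χ 1 χ_meas χ_bd + (mulOp (n t) (1 + |t|) (n_meas t) (n_bd t)).comp (τ (-t))

theorem T_coe (t : ℝ) (f : H) : T t f =ᵐ[volume] fun s => (χ s : ℂ) * f s + (k t (s - t) : ℂ) * f (s - t) := by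
  change (mulOp χ 1 χ_meas χ_bd f + τ t (mulOp (k t) 1 (k_meas t) (k_bd t) f) : H) =ᵐ[volume] _
  filter_upwards [Lp.coeFn_add (mulOp χ 1 χ_meas χ_bd f) (τ t (mulOp (k t) 1 (k_meas t) (k_bd t) f)),
    mulOp_coe χ 1 χ_meas χ_bd f, τ_coe t (mulOp (k t) 1 (k_meas t) (k_bd t) f), 
    ae_shift t (mulOp_coe (k t) 1 (k_meas t) (k_bd t) f)] with s h1 h2 h3 h4
  rw [h1, Pi.add_apply, h2, h3, h4]

theorem S_coe (t : ℝ) (f : H) : S t f =ᵐ[volume] fun s => (χ s : ℂ) * f s + (n t s : ℂ) * f (s + t) := by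
  change (mulOp χ 1 χ_meas χ_bd f + mulOp (n t) (1 + |t|) (n_meas t) (n_bd t) (τ (-t) f) : H) =ᵐ[volume] _
  filter_upwards [Lp.coeFn_add (mulOp χ 1 χ_meas χ_bd f) (mulOp (n t) (1 + |t|) (n_meas t) (n_bd t) (τ (-t) f)),
    mulOp_coe χ 1 χ_meas χ_bd f, mulOp_coe (n t) (1 + |t|) (n_meas t) (n_bd t) (τ (-t) f), 
    τ_coe (-t) f] with s h1 h2 h3 h4
  rw [h1, Pi.add_apply, h2, h3, h4, sub_neg_eq_add]

theorem T_zero : T 0 = ContinuousLinearMap.id ℂ H := by
  ext1 f
  apply Lp.ext
  filter_upwards [T_coe 0 f] with s hs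
  rw [hs, sub_zero]
  change _ = f s
  unfold χ k
  split_ifs with h
  · simp [q_zero]
  · simp

theorem mult_add (a b : ℝ) (ha : 0 ≤ a) (hb : 0 ≤ b) (u : ℝ) (hu : 0 < u) :
    q (a / (1 + (u + b))) * q (b / (1 + u)) = q ((a + b) / (1 + u)) := by
  unfold q
  have h1 : (0 : ℝ) < 1 + (u + b) := by linarith
  have h2 : (0 : ℝ) < 1 + u := by linarith
  rw [← Real.sqrt_mul (Real.sqrt_nonneg _), ← Real.sqrt_mul (by positivity)]
  congr 2
  field_simp
  ring

theorem T_add (a b : ℝ) (ha : 0 ≤ a) (hb : 0 ≤ b) : T (a + b) = (T a).comp (T b) := by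
  ext1 f
  apply Lp.ext
  rw [ContinuousLinearMap.comp_apply]
  filter_upwards [T_coe (a + b) f, T_coe a (T b f), T_coe b f, ae_shift a (T_coe b f)] with s h1 h2 h3 h4
  rw [h1, h2, h3, h4]
  have e : s - a - b = s - (a + b) := by ring
  rw [e]
  unfold χ k
  rw [abs_of_nonneg ha, abs_of_nonneg hb, abs_of_nonneg (add_nonneg ha hb)]
  by_cases h0 : 0 < s
  · by_cases h5 : 0 < s - a
    · by_cases h6 : 0 < s - (a + b)
      · simp only [h0, h5, h6, if_true]
        have h7 := mult_add a b ha hb (s - (a + b)) h6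
        have e2 : 1 + (s - (a + b) + b) = 1 + (s - a) := by ring
        rw [e2] at h7
        rw [← h7, mul_inv]
        push_cast
        ring
      · simp only [h0, h5, h6, if_true, if_false]
        simp
    · have h6 : ¬ 0 < s - (a + b) := by linarith
      simp only [h0, h5, h6, if_true, if_false]
      simp
  · have h5 : ¬ 0 < s - a := by linarith
    have h6 : ¬ 0 < s - (a + b) := by linarith
    have h7 : ¬ 0 < s - b := by linarith
    simp only [h0, h5, h6, h7, if_false]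
    simp

theorem S_add (a b : ℝ) (ha : 0 ≤ a) (hb : 0 ≤ b) : S (a + b) = (S a).comp (S b) := by
  ext1 f
  apply Lp.ext
  rw [ContinuousLinearMap.comp_apply]
  have h4' := ae_shift (-a) (S_coe b f)
  filter_upwards [S_coe (a + b) f, S_coe a (S b f), S_coe b f, h4'] with s h1 h2 h3 h4
  rw [sub_neg_eq_add] at h4
  rw [h1, h2, h3, h4]
  have e : s + a + b = s + (a + b) := by ring
  rw [e]
  unfold χ n
  rw [abs_of_nonneg ha, abs_of_nonneg hb, abs_of_nonneg (add_nonneg ha hb)]
  by_cases h0 : 0 < s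
  · have h5 : 0 < s + a := by linarith
    simp only [h0, h5, if_true]
    have h7 := mult_add b a hb ha s h0
    have e2 : b + a = a + b := by ring
    rw [e2] at h7
    rw [← h7]
    push_cast
    ring
  · simp only [h0, if_false]
    simp

theorem S_T (t : ℝ) (ht : 0 ≤ t) (f : H) : S t (T t f) = f := by
  apply Lp.ext
  have h4' := ae_shift (-t) (T_coe t f)
  filter_upwards [S_coe t (T t f), T_coe t f, h4'] with s h1 h2 h3
  rw [sub_neg_eq_add] at h3
  rw [h1, h2, h3]
  have e : s + t - t = s := by ring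
  rw [e]
  unfold χ n k
  by_cases h0 : 0 < s
  · have h5 : 0 < s + t := by linarith
    simp only [h0, h5, if_true]
    have h6 := (q_pos (arg_nonneg t h0)).ne'
    have h7 : (q (|t| / (1 + s)) : ℂ) ≠ 0 := by exact_mod_cast h6
    push_cast
    field_simp
    simp
  · have h5 : ¬ 0 < s - t := by linarith
    simp only [h0, h5, if_false]
    simp

theorem S_zero : S 0 = ContinuousLinearMap.id ℂ H := by
  ext1 f
  have h := S_T 0 le_rfl f
  rw [T_zero] at h
  exact h

end Pool.Agent.H27.WT
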