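import Mathlib
import Pool.Agent.H27.WT

set_option autoImplicit false

open MeasureTheory Filter Topology Set
open scoped ENNReal NNReal

namespace Pool.Agent.H27.WT

/-! ### continuity -/

/-- translations as a continuous family of continuous maps -/
noncomputable def trC : C(ℝ, C(ℝ, ℝ)) := 
  (ContinuousMap.mk (fun p : ℝ × ℝ => p.2 - p.1) (by fun_prop)).curry

theorem τ_cont {g : ℝ → H} (hg : Continuous g) : Continuous fun t => τ t (g t) := by
  have h := Continuous.compMeasurePreservingLp (μ := (volume : Measure ℝ)) (ν := (volume : Measure ℝ)) 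
    (f := g) (g := fun t => trC t) (p := 2) hg trC.continuous 
    (fun t => measurePreserving_sub_right volume t) (by norm_num)
  exact h

theorem k_op_cont : Continuous fun t => mulOp (k t) 1 (k_meas t) (k_bd t) := by
  rw [Metric.continuous_iff]
  intro t ε hε
  refine ⟨ε / 2, by positivity, fun t' ht' => ?_⟩
  rw [dist_eq_norm]
  refine lt_of_le_of_lt (mulOp_sub_le _ _ _ _ _ _ _ _ |t' - t| (abs_nonneg _) (fun s => k_lip t' t s)) ?_
  rw [Real.dist_eq] at ht'
  linarith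

theorem n_op_cont : Continuous fun t => mulOp (n t) (1 + |t|) (n_meas t) (n_bd t) := by
  rw [Metric.continuous_iff]
  intro t ε hε
  refine ⟨ε / 2, by positivity, fun t' ht' => ?_⟩
  rw [dist_eq_norm]
  refine lt_of_le_of_lt (mulOp_sub_le _ _ _ _ _ _ _ _ |t' - t| (abs_nonneg _) (fun s => n_lip t' t s)) ?_
  rw [Real.dist_eq] at ht'
  linarith

theorem T_cont (x : H) : Continuous fun t => T t x := by
  have h1 : Continuous fun t => mulOp (k t) 1 (k_meas t) (k_bd t) x := k_op_cont.clm_apply continuous_const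
  exact continuous_const.add (τ_cont h1)

theorem S_cont {x : ℝ → H} (hx : Continuous x) : Continuous fun t => S t (x t) := by
  have h1 : Continuous fun t => τ (-t) (x t) := by
    have h2 : Continuous fun t => τ t (x (-t)) := τ_cont (hx.comp continuous_neg)
    have h3 := h2.comp continuous_neg
    simpa [Function.comp_def] using h3
  exact ((mulOp χ 1 χ_meas χ_bd).continuous.comp hx).add (n_op_cont.clm_apply h1)

/-! ### norms -/

theorem enorm_sq (f : H) : ‖f‖ₑ ^ 2 = ∫⁻ s, ‖f s‖ₑ ^ 2 := by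
  rw [Lp.enorm_def]
  have h := eLpNorm_nnreal_pow_eq_lintegral (f := f) (μ := (volume : Measure ℝ)) (p := 2) (by norm_num)
  simpa using h

theorem en (x : ℝ) : ‖(x : ℂ)‖ₑ = ‖x‖ₑ := by
  rw [enorm_eq_nnnorm, enorm_eq_nnnorm, Complex.nnnorm_real]

theorem meas_sq (f : H) : Measurable fun s => ‖f s‖ₑ ^ 2 := 
  (Lp.stronglyMeasurable f).measurable.enorm.pow_const 2

theorem enorm_sq_T (t : ℝ) (ht : 0 ≤ t) (f : H) : 
    ‖T t f‖ₑ ^ 2 = ∫⁻ s, (‖χ s‖ₑ ^ 2 + ‖k t s‖ₑ ^ 2) * ‖f s‖ₑ ^ 2 := by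
  rw [enorm_sq]
  have h1 : ∀ᵐ s, ‖T t f s‖ₑ ^ 2 = ‖χ s‖ₑ ^ 2 * ‖f s‖ₑ ^ 2 + ‖k t (s - t)‖ₑ ^ 2 * ‖f (s - t)‖ₑ ^ 2 := by
    filter_upwards [T_coe t f] with s hs
    rw [hs]
    by_cases h0 : 0 < s
    · have e : χ s = 0 := if_pos h0
      rw [e]
      simp [enorm_mul, mul_pow, en]
    · have e : k t (s - t) = 0 := if_neg (by linarith)
      rw [e]
      simp [enorm_mul, mul_pow, en]
  rw [lintegral_congr_ae h1]
  rw [lintegral_add_left]
  · have h2 : ∫⁻ s, ‖k t (s - t)‖ₑ ^ 2 * ‖f (s - t)‖ₑ ^ 2 = ∫⁻ u, ‖k t u‖ₑ ^ 2 * ‖f u‖ₑ ^ 2 := 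
      lintegral_sub_right_eq_self (μ := (volume : Measure ℝ)) (fun u => ‖k t u‖ₑ ^ 2 * ‖f u‖ₑ ^ 2) t
    rw [h2, ← lintegral_add_left]
    · simp only [add_mul]
    · exact (χ_meas.enorm.pow_const 2).mul (meas_sq f)
  · exact (χ_meas.enorm.pow_const 2).mul (meas_sq f)

theorem T_norm (t : ℝ) (ht : 0 ≤ t) : ‖T t‖ ≤ 1 := by
  apply ContinuousLinearMap.opNorm_le_bound _ zero_le_one
  intro f
  rw [one_mul]
  have h : ‖T t f‖ₑ ^ 2 ≤ ‖f‖ₑ ^ 2 := by
    rw [enorm_sq_T t ht, enorm_sq]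
    apply lintegral_mono
    intro s
    have h1 : ‖χ s‖ₑ ^ 2 + ‖k t s‖ₑ ^ 2 ≤ 1 := by
      by_cases h0 : 0 < s
      · have e : χ s = 0 := if_pos h0
        rw [e]
        have := k_bd t s
        have h2 : ‖k t s‖ₑ ≤ 1 := by
          rw [Real.enorm_eq_ofReal_abs]
          exact ENNReal.ofReal_le_one.2 this
        simpa using pow_le_one₀ (by positivity) h2
      · have e : k t s = 0 := if_neg h0
        have e' : χ s = 1 := if_neg h0
        rw [e, e']
        simp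
    calc (‖χ s‖ₑ ^ 2 + ‖k t s‖ₑ ^ 2) * ‖f s‖ₑ ^ 2 ≤ 1 * ‖f s‖ₑ ^ 2 := by gcongr
      _ = _ := one_mul _
  have h2 := (ENNReal.pow_le_pow_left_iff two_ne_zero).1 h
  exact enorm_le_iff_norm_le.1 h2

/-- key formula -/
theorem enorm_sq_S (t : ℝ) (f : H) : 
    ‖S t f‖ₑ ^ 2 = ∫⁻ u, (‖χ u‖ₑ ^ 2 + ‖n t (u - t)‖ₑ ^ 2) * ‖f u‖ₑ ^ 2 := by
  rw [enorm_sq]
  have h1 : ∀ᵐ s, ‖S t f s‖ₑ ^ 2 = ‖χ s‖ₑ ^ 2 * ‖f s‖ₑ ^ 2 + ‖n t s‖ₑ ^ 2 * ‖f (s + t)‖ₑ ^ 2 := by
    filter_upwards [S_coe t f] with s hs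
    rw [hs]
    by_cases h0 : 0 < s
    · have e : χ s = 0 := if_pos h0
      rw [e]
      simp [enorm_mul, mul_pow, en]
    · have e : n t s = 0 := if_neg h0
      rw [e]
      simp [enorm_mul, mul_pow, en]
  rw [lintegral_congr_ae h1]
  have hf : Measurable fun s => ‖f s‖ₑ ^ 2 := (Lp.stronglyMeasurable f).measurable.enorm.pow_const 2
  rw [lintegral_add_left]
  · have h2 : ∫⁻ s, ‖n t s‖ₑ ^ 2 * ‖f (s + t)‖ₑ ^ 2 = ∫⁻ u, ‖n t (u - t)‖ₑ ^ 2 * ‖f u‖ₑ ^ 2 := by
      have h3 := lintegral_add_right_eq_self (μ := (volume : Measure ℝ)) 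
        (fun u => ‖n t (u - t)‖ₑ ^ 2 * ‖f u‖ₑ ^ 2) t
      simp only [add_sub_cancel_right] at h3
      exact h3
    rw [h2, ← lintegral_add_left]
    · simp only [add_mul]
    · exact (χ_meas.enorm.pow_const 2).mul hf
  · exact (χ_meas.enorm.pow_const 2).mul hf

theorem int_le (a u : ℝ) (ha : 0 < a) (hu : 0 ≤ u) : 
    ∫ r in (0 : ℝ)..u, Real.exp (-a * r) * (√(1 + u) / √(1 + u - r)) ≤ 2 / a := by
  set A := √(1 + u) with hA
  have hApos : 0 < A := Real.sqrt_pos.2 (by linarith)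
  let G : ℝ → ℝ := fun r => 2 * A * (A - √(1 + u - r))
  have hG : ∀ r ∈ Icc 0 u, G r ≤ 2 * r := by
    intro r hr
    have h1 : A ^ 2 = 1 + u := Real.sq_sqrt (by linarith)
    have h2 : √(1 + u - r) ^ 2 = 1 + u - r := Real.sq_sqrt (by linarith [hr.2])
    have h3 : 0 ≤ √(1 + u - r) := Real.sqrt_nonneg _
    have h4 : √(1 + u - r) ≤ A := Real.sqrt_le_sqrt (by linarith [hr.1])
    change 2 * A * (A - √(1 + u - r)) ≤ 2 * r
    nlinarith
  let Θ : ℝ → ℝ := fun r => -(2 / a) * Real.exp (-a * r) - Real.exp (-a * r) * (2 * r - G r)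
  let Θ' : ℝ → ℝ := fun r => a * Real.exp (-a * r) * (2 * r - G r) + Real.exp (-a * r) * (A / √(1 + u - r))
  have hd : ∀ r ∈ uIcc 0 u, HasDerivAt Θ (Θ' r) r := by
    intro r hr
    rw [uIcc_of_le hu] at hr
    have hpos : 0 < 1 + u - r := by linarith [hr.2]
    have h1 : HasDerivAt (fun r : ℝ => Real.exp (-a * r)) (Real.exp (-a * r) * (-a)) r := by
      have := ((hasDerivAt_id r).const_mul (-a)).exp
      simpa using this
    have h2 : HasDerivAt (fun r : ℝ => √(1 + u - r)) (-1 / (2 * √(1 + u - r))) r := by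
      have := ((hasDerivAt_id r).const_sub (1 + u)).sqrt hpos.ne'
      simpa using this
    have h3 : HasDerivAt G (2 * A * (-(-1 / (2 * √(1 + u - r))))) r := by
      exact (h2.const_sub A).const_mul (2 * A)
    have h4 : HasDerivAt (fun r : ℝ => 2 * r - G r) (2 * 1 - (2 * A * (-(-1 / (2 * √(1 + u - r)))))) r :=
      ((hasDerivAt_id r).const_mul 2).sub h3
    have h5 := (h1.const_mul (-(2 / a))).sub (h1.mul h4)
    refine h5.congr_deriv ?_
    change _ = a * Real.exp (-a * r) * (2 * r - G r) + Real.exp (-a * r) * (A / √(1 + u - r))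
    have h6 : √(1 + u - r) ≠ 0 := (Real.sqrt_pos.2 hpos).ne'
    field_simp
    ring
  have hcA : ContinuousOn (fun r : ℝ => A / √(1 + u - r)) (uIcc 0 u) := by
    apply ContinuousOn.div continuousOn_const (by fun_prop)
    intro r hr
    rw [uIcc_of_le hu] at hr
    exact (Real.sqrt_pos.2 (by linarith [hr.2])).ne'
  have hcG : Continuous G := by
    change Continuous fun r => 2 * A * (A - √(1 + u - r))
    fun_prop
  have hi1 : IntervalIntegrable (fun r => Real.exp (-a * r) * (A / √(1 + u - r))) volume 0 u := by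
    apply ContinuousOn.intervalIntegrable
    exact ContinuousOn.mul (by fun_prop) hcA
  have hi2 : IntervalIntegrable Θ' volume 0 u := by
    apply ContinuousOn.intervalIntegrable
    apply ContinuousOn.add _ (ContinuousOn.mul (by fun_prop) hcA)
    apply Continuous.continuousOn
    fun_prop
  have h1 : ∫ r in (0 : ℝ)..u, Real.exp (-a * r) * (A / √(1 + u - r)) ≤ ∫ r in (0 : ℝ)..u, Θ' r := by
    apply intervalIntegral.integral_mono_on hu hi1 hi2
    intro r hr
    have := hG r hr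
    change _ ≤ a * Real.exp (-a * r) * (2 * r - G r) + Real.exp (-a * r) * (A / √(1 + u - r))
    have h2 : 0 ≤ a * Real.exp (-a * r) * (2 * r - G r) := by
      apply mul_nonneg (by positivity)
      linarith
    linarith
  rw [intervalIntegral.integral_eq_sub_of_hasDerivAt hd hi2] at h1
  refine h1.trans ?_
  have h2 : Θ 0 = -(2 / a) := by
    change -(2 / a) * Real.exp (-a * 0) - Real.exp (-a * 0) * (2 * 0 - 2 * A * (A - √(1 + u - 0))) = _
    rw [sub_zero, ← hA]
    simp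
  have h3 : Θ u ≤ 0 := by
    change -(2 / a) * Real.exp (-a * u) - Real.exp (-a * u) * (2 * u - G u) ≤ 0
    have := hG u ⟨hu, le_rfl⟩
    have h4 : 0 ≤ Real.exp (-a * u) * (2 * u - G u) := mul_nonneg (Real.exp_pos _).le (by linarith)
    have h5 : 0 ≤ (2 / a) * Real.exp (-a * u) := by positivity
    linarith
  rw [h2]
  linarith

theorem inner_le (a u : ℝ) (ha : 0 < a) : 
    ∫⁻ r in Ioi (0 : ℝ), ENNReal.ofReal (Real.exp (-a * r)) * (‖χ u‖ₑ ^ 2 + ‖n r (u - r)‖ₑ ^ 2) 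
      ≤ ENNReal.ofReal (2 / a) := by
  by_cases hu : 0 < u
  · have e : χ u = 0 := if_pos hu
    have h1 : ∀ r ∈ Ioi (0 : ℝ), ENNReal.ofReal (Real.exp (-a * r)) * (‖χ u‖ₑ ^ 2 + ‖n r (u - r)‖ₑ ^ 2) =
        (Ioc (0 : ℝ) u).indicator (fun r => ENNReal.ofReal (Real.exp (-a * r)) * ‖n r (u - r)‖ₑ ^ 2) r := by
      intro r hr
      rw [e]
      by_cases h2 : r ≤ u
      · rw [indicator_of_mem (show r ∈ Ioc 0 u from ⟨hr, h2⟩)]
        simp
      · rw [indicator_of_notMem (fun h => h2 h.2)]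
        have h3 : n r (u - r) = 0 := if_neg (by linarith)
        rw [h3]
        simp
    rw [setLIntegral_congr_fun measurableSet_Ioi h1]
    have h4 : ∫⁻ r in Ioi (0 : ℝ), (Ioc (0 : ℝ) u).indicator (fun r => ENNReal.ofReal (Real.exp (-a * r)) * ‖n r (u - r)‖ₑ ^ 2) r
        ≤ ∫⁻ r in Ioc (0 : ℝ) u, ENNReal.ofReal (Real.exp (-a * r)) * ‖n r (u - r)‖ₑ ^ 2 := by
      refine (setLIntegral_le_lintegral _ _).trans ?_
      rw [lintegral_indicator measurableSet_Ioc]
    refine h4.trans ?_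
    have h5 : ∀ r ∈ Ioc (0 : ℝ) u, ENNReal.ofReal (Real.exp (-a * r)) * ‖n r (u - r)‖ₑ ^ 2 ≤ 
        ENNReal.ofReal (Real.exp (-a * r) * (√(1 + u) / √(1 + u - r))) := by
      intro r hr
      rw [ENNReal.ofReal_mul (Real.exp_pos _).le]
      gcongr
      unfold n
      split_ifs with h6
      · have hq := q_pos (arg_nonneg r h6)
        rw [Real.enorm_eq_ofReal_abs, abs_of_pos hq, ← ENNReal.ofReal_pow hq.le, q_sq, 
          ← Real.sqrt_div (by linarith)]
        apply ENNReal.ofReal_le_ofReal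
        apply Real.sqrt_le_sqrt
        rw [abs_of_pos hr.1]
        apply le_of_eq
        have h7 : 1 + u - r ≠ 0 := by linarith
        have h8 : 1 + (u - r) ≠ 0 := by linarith
        field_simp
        ring
      · simp
    refine (setLIntegral_mono' measurableSet_Ioc h5).trans ?_
    have hcA : ContinuousOn (fun r : ℝ => Real.exp (-a * r) * (√(1 + u) / √(1 + u - r))) (Icc 0 u) := by
      apply ContinuousOn.mul (by fun_prop)
      apply ContinuousOn.div continuousOn_const (by fun_prop)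
      intro r hr
      exact (Real.sqrt_pos.2 (by linarith [hr.2])).ne'
    have hint : IntegrableOn (fun r : ℝ => Real.exp (-a * r) * (√(1 + u) / √(1 + u - r))) (Ioc 0 u) :=
      (hcA.integrableOn_Icc).mono_set Ioc_subset_Icc_self
    rw [← ofReal_integral_eq_lintegral_ofReal hint (Eventually.of_forall fun r => by positivity)]
    apply ENNReal.ofReal_le_ofReal
    have := int_le a u ha hu.le
    rwa [intervalIntegral.integral_of_le hu.le] at this
  · have e : χ u = 1 := if_neg hu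
    have h1 : ∀ r ∈ Ioi (0 : ℝ), ENNReal.ofReal (Real.exp (-a * r)) * (‖χ u‖ₑ ^ 2 + ‖n r (u - r)‖ₑ ^ 2) =
        ENNReal.ofReal (Real.exp (-a * r)) := by
      intro r hr
      have hr' : 0 < r := hr
      have h3 : n r (u - r) = 0 := if_neg (by linarith)
      rw [h3, e]
      simp
    rw [setLIntegral_congr_fun measurableSet_Ioi h1]
    have hint := exp_neg_integrableOn_Ioi 0 ha
    rw [← ofReal_integral_eq_lintegral_ofReal hint (Eventually.of_forall fun r => by positivity)]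
    apply ENNReal.ofReal_le_ofReal
    have := integral_exp_mul_Ioi (a := -a) (by linarith) 0
    rw [this]
    simp only [mul_zero, Real.exp_zero, neg_div_neg_eq]
    gcongr
    norm_num

theorem sq_int_le (a : ℝ) (ha : 0 < a) (g : H) :
    ∫⁻ r in Ioi (0 : ℝ), ENNReal.ofReal (Real.exp (-a * r)) * ‖S r g‖ₑ ^ 2 ≤ ENNReal.ofReal (2 / a) * ‖g‖ₑ ^ 2 := by
  have hm : Measurable fun p : ℝ × ℝ => ENNReal.ofReal (Real.exp (-a * p.1)) * ((‖χ p.2‖ₑ ^ 2 + ‖n p.1 (p.2 - p.1)‖ₑ ^ 2) * ‖g p.2‖ₑ ^ 2) := by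
    have h1 : Measurable fun p : ℝ × ℝ => ENNReal.ofReal (Real.exp (-a * p.1)) := by fun_prop
    have h2 : Measurable fun p : ℝ × ℝ => ‖χ p.2‖ₑ ^ 2 := (χ_meas.comp measurable_snd).enorm.pow_const 2
    have h3 : Measurable fun p : ℝ × ℝ => ‖n p.1 (p.2 - p.1)‖ₑ ^ 2 := by
      have : Measurable fun p : ℝ × ℝ => n p.1 (p.2 - p.1) := 
        n_meas2.comp (measurable_fst.prodMk (measurable_snd.sub measurable_fst))
      exact this.enorm.pow_const 2
    have h4 : Measurable fun p : ℝ × ℝ => ‖g p.2‖ₑ ^ 2 := (meas_sq g).comp measurable_snd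
    exact h1.mul ((h2.add h3).mul h4)
  calc ∫⁻ r in Ioi (0 : ℝ), ENNReal.ofReal (Real.exp (-a * r)) * ‖S r g‖ₑ ^ 2 
      = ∫⁻ r in Ioi (0 : ℝ), ∫⁻ u, ENNReal.ofReal (Real.exp (-a * r)) * ((‖χ u‖ₑ ^ 2 + ‖n r (u - r)‖ₑ ^ 2) * ‖g u‖ₑ ^ 2) := by
        apply setLIntegral_congr_fun measurableSet_Ioi
        intro r hr
        simp only
        rw [enorm_sq_S, lintegral_const_mul]
        have h3 : Measurable fun u : ℝ => ‖n r (u - r)‖ₑ ^ 2 := 
          ((n_meas r).comp (measurable_id.sub_const r)).enorm.pow_const 2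
        exact ((χ_meas.enorm.pow_const 2).add h3).mul (meas_sq g)
    _ = ∫⁻ u, ∫⁻ r in Ioi (0 : ℝ), ENNReal.ofReal (Real.exp (-a * r)) * ((‖χ u‖ₑ ^ 2 + ‖n r (u - r)‖ₑ ^ 2) * ‖g u‖ₑ ^ 2) := 
        lintegral_lintegral_swap hm.aemeasurable
    _ = ∫⁻ u, (∫⁻ r in Ioi (0 : ℝ), ENNReal.ofReal (Real.exp (-a * r)) * (‖χ u‖ₑ ^ 2 + ‖n r (u - r)‖ₑ ^ 2)) * ‖g u‖ₑ ^ 2 := by
        apply lintegral_congr
        intro u
        rw [← lintegral_mul_const]
        · apply lintegral_congr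
          intro r
          rw [mul_assoc]
        · have h1 : Measurable fun r : ℝ => ENNReal.ofReal (Real.exp (-a * r)) := by fun_prop
          have : Measurable fun r : ℝ => n r (u - r) := 
            n_meas2.comp (measurable_id.prodMk (measurable_const.sub measurable_id))
          exact h1.mul ((this.enorm.pow_const 2).const_add _)
    _ ≤ ∫⁻ u, ENNReal.ofReal (2 / a) * ‖g u‖ₑ ^ 2 := by
        apply lintegral_mono
        intro u
        simp only
        gcongr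
        exact inner_le a u ha
    _ = _ := by
        rw [lintegral_const_mul _ (meas_sq g), enorm_sq]

end Pool.Agent.H27.WT
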